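import Mathlib
set_option autoImplicit false
open Complex Filter Topology Metric Set MeasureTheory
namespace Pool.Agent.Helper974.Star

/-- a branch of the square root of `1 - 2 a z + z ^ 2` on the closed unit disc -/
structure Br (a : ℝ) (s : ℂ → ℂ) : Prop where
  dcc : DiffContOnCl ℂ s (ball 0 1)
  sq : ∀ z, s z ^ 2 = 1 - 2 * (a : ℂ) * z + z ^ 2
  zero : s 0 = 1
  re_nonneg : ∀ z : ℂ, ‖z‖ ≤ 1 → 0 ≤ (s z).re
  near : ∀ θ ∈ Icc (0 : ℝ) Real.pi, a ≤ Real.cos θ →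
    s (Complex.exp (I * θ)) = (Real.sqrt (2 * (Real.cos θ - a)) : ℂ) * Complex.exp (I * (θ / 2 : ℝ))
  far : ∀ θ ∈ Icc (0 : ℝ) Real.pi, Real.cos θ ≤ a →
    s (Complex.exp (I * θ)) = -I * (Real.sqrt (2 * (a - Real.cos θ)) : ℂ) * Complex.exp (I * (θ / 2 : ℝ))
  symm : ∀ z : ℂ, ‖z‖ < 1 → s (starRingEnd ℂ z) = starRingEnd ℂ (s z)

/-- the function `z f' / f` of the two slit map -/
noncomputable def pc (T : ℝ) (sa sb : ℂ → ℂ) (z : ℂ) : ℂ := (1 - 2 * (T : ℂ) * z + z ^ 2) / (sa z * sb z)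

/-- `log (f z / z)` for the two slit map -/
structure GG (T : ℝ) (sa sb g : ℂ → ℂ) : Prop where
  diff : DifferentiableOn ℂ g (ball 0 1)
  zero : g 0 = 0
  der : ∀ z ∈ ball (0 : ℂ) 1, 1 + z * deriv g z = pc T sa sb z

/-- the points of the gap `[b, a]` -/
noncomputable def U (a b ψ : ℝ) : ℝ := (a + b) / 2 + (a - b) / 2 * Real.cos ψ

/-- boundary imaginary part of `pc` -/
noncomputable def KI (a b T θ : ℝ) : ℝ :=
  (Real.cos θ - T) / Real.sqrt ((a - Real.cos θ) * (Real.cos θ - b))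

/-- boundary imaginary part of the certificate -/
noncomputable def KJ (a b c θ : ℝ) : ℝ :=
  -4 * (Real.cos θ - c) * Real.sqrt ((a - Real.cos θ) * (Real.cos θ - b))

/-- boundary real part of the certificate -/
noncomputable def KR (a b c θ : ℝ) : ℝ :=
  4 * |Real.cos θ - c| * Real.sqrt ((Real.cos θ - a) * (Real.cos θ - b))

/-- the class of logarithms `log (f z / z)`, `f ∈ S*(M)` -/
structure LogClass (M : ℝ) (g : ℂ → ℂ) : Prop where
  diff : DifferentiableOn ℂ g (ball 0 1)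
  zero : g 0 = 0
  star : ∀ z ∈ ball (0 : ℂ) 1, 0 ≤ (1 + z * deriv g z).re
  bdd : ∀ z ∈ ball (0 : ℂ) 1, z ≠ 0 → (g z).re ≤ Real.log (M / ‖z‖)

/-- value of `z f'/f` on the real axis -/
noncomputable def pr (a b T t : ℝ) : ℝ :=
  (1 - 2 * T * t + t ^ 2) / (Real.sqrt (1 - 2 * a * t + t ^ 2) * Real.sqrt (1 - 2 * b * t + t ^ 2))

/-- logarithm of the maximum modulus of the two slit map -/
noncomputable def lv (a b T : ℝ) : ℝ := ∫ t in (0 : ℝ)..1, (pr a b T t - 1) / t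

/-- elliptic integrals `∫ F(u) / √(1-u²) dψ` over the gap -/
noncomputable def EI (F : ℝ → ℝ) (a b : ℝ) : ℝ :=
  ∫ ψ in (0 : ℝ)..Real.pi, F (U a b ψ) / Real.sqrt (1 - U a b ψ ^ 2)

/-- averages over the gap -/
noncomputable def mean (F : ℝ → ℝ) (a b : ℝ) : ℝ := EI F a b / EI (fun _ => 1) a b

noncomputable def TT (a b : ℝ) : ℝ := mean (fun u => u) a b

noncomputable def qq (a b : ℝ) : ℝ := mean (fun u => (a - u) * (u - b)) a b

noncomputable def cc (a b : ℝ) : ℝ := mean (fun u => u * ((a - u) * (u - b))) a b / qq a b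

noncomputable def ll (a b : ℝ) : ℝ := lv a b (TT a b)

noncomputable def xx (a b : ℝ) : ℝ := (a + b) / 2 - TT a b

noncomputable def Lc (a b : ℝ) : ℝ := -2 * (a + b) - 4 * cc a b

noncomputable def Vc (a b : ℝ) : ℝ := 3 * (a + b) ^ 2 / 4 - (a + b) * TT a b - a * b

noncomputable def hc (a b : ℝ) : ℝ := 2 - (a - b) ^ 2 / 2 + 2 * cc a b * (a + b)

end Pool.Agent.Helper974.Star
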