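import Mathlib
import Pool.Agent.Helper974.Star.Defs
set_option autoImplicit false
open Complex Filter Topology Metric Set MeasureTheory
namespace Pool.Agent.Helper974.Star
namespace A0gM

lemma quad_ne {a : ℝ} (h1 : -1 < a) (h2 : a < 1) {z : ℂ} (hz : ‖z‖ < 1) :
    (1 - 2 * (a : ℂ) * z + z ^ 2) ≠ 0 := by
  intro h
  have hre := congrArg Complex.re h
  have him := congrArg Complex.im h
  simp [pow_two] at hre him
  have hn : z.re * z.re + z.im * z.im < 1 := by
    have h3 : ‖z‖ ^ 2 < 1 := by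
      have := norm_nonneg z
      nlinarith
    rw [← Complex.normSq_eq_norm_sq, Complex.normSq_apply] at h3
    exact h3
  have h4 : z.im * (z.re - a) = 0 := by linarith
  rcases mul_eq_zero.mp h4 with h5 | h5
  · rw [h5] at hre hn
    nlinarith [sq_nonneg (z.re - a)]
  · have h6 : z.re = a := by linarith
    rw [h6] at hre hn
    nlinarith

lemma br_ne {a : ℝ} (h1 : -1 < a) (h2 : a < 1) {s : ℂ → ℂ} (hs : Br a s) {z : ℂ}
    (hz : z ∈ ball (0 : ℂ) 1) : s z ≠ 0 := by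
  intro h
  have h3 := hs.sq z
  rw [h] at h3
  have hz' : ‖z‖ < 1 := by simpa using hz
  exact quad_ne h1 h2 hz' (by rw [← h3]; ring)

lemma br_der {a : ℝ} (h1 : -1 < a) (h2 : a < 1) {s : ℂ → ℂ} (hs : Br a s) {z : ℂ}
    (hz : z ∈ ball (0 : ℂ) 1) :
    HasDerivAt (fun w => (s w)⁻¹) (((a : ℂ) - z) * ((s z)⁻¹) ^ 3) z := by
  have hne := br_ne h1 h2 hs hz
  have hd : HasDerivAt s (deriv s z) z :=
    (hs.dcc.differentiableOn.differentiableAt (isOpen_ball.mem_nhds hz)).hasDerivAt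
  have h3 : HasDerivAt (fun w => s w ^ 2) (2 * s z * deriv s z) z := by
    simpa using! hd.pow 2
  have h4 : HasDerivAt (fun w : ℂ => 1 - 2 * (a : ℂ) * w + w ^ 2) (-(2 * (a : ℂ)) + 2 * z) z := by
    have e1 := ((hasDerivAt_id z).const_mul (2 * (a : ℂ))).const_sub 1
    have e3 := e1.add (hasDerivAt_pow 2 z)
    simpa using! e3
  have h5 : (fun w => s w ^ 2) = fun w : ℂ => 1 - 2 * (a : ℂ) * w + w ^ 2 := by
    funext w; exact hs.sq w
  rw [h5] at h3
  have h6 := h3.unique h4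
  have h7 : deriv s z = (z - a) / s z := by
    rw [eq_div_iff hne]
    linear_combination h6 / 2
  have h8 := hd.inv hne
  convert! h8 using 1
  rw [h7]
  field_simp
  ring

/-- derivative of `pc` -/
noncomputable def pcd (a b T : ℝ) (sa sb : ℂ → ℂ) (z : ℂ) : ℂ :=
  (-(2 * (T : ℂ)) + 2 * z) * ((sa z)⁻¹ * (sb z)⁻¹) + (1 - 2 * (T : ℂ) * z + z ^ 2) *
    (((a : ℂ) - z) * ((sa z)⁻¹) ^ 3 * (sb z)⁻¹ + (sa z)⁻¹ * (((b : ℂ) - z) * ((sb z)⁻¹) ^ 3))

lemma quad_der (T : ℝ) (z : ℂ) : HasDerivAt (fun w : ℂ => 1 - 2 * (T : ℂ) * w + w ^ 2) (-(2 * (T : ℂ)) + 2 * z) z := by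
  have e1 := ((hasDerivAt_id z).const_mul (2 * (T : ℂ))).const_sub 1
  have e3 := e1.add (hasDerivAt_pow 2 z)
  simpa using! e3

lemma pc_der {a b T : ℝ} (hb : -1 < b) (hba : b < a) (ha : a < 1)
    {sa sb : ℂ → ℂ} (hsa : Br a sa) (hsb : Br b sb) {z : ℂ} (hz : z ∈ ball (0 : ℂ) 1) :
    HasDerivAt (pc T sa sb) (pcd a b T sa sb z) z := by
  have h1 := br_der (by linarith) ha hsa hz
  have h2 := br_der hb (by linarith) hsb hz
  have h3 := (quad_der T z).mul (h1.mul h2)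
  have h4 : pc T sa sb = fun w : ℂ => (1 - 2 * (T : ℂ) * w + w ^ 2) * ((sa w)⁻¹ * (sb w)⁻¹) := by
    funext w
    unfold pc
    rw [div_eq_mul_inv, mul_inv]
  rw [h4]
  convert! h3 using 1

lemma pcd_der0 {a b T : ℝ} (hb : -1 < b) (hba : b < a) (ha : a < 1)
    {sa sb : ℂ → ℂ} (hsa : Br a sa) (hsb : Br b sb) :
    HasDerivAt (pcd a b T sa sb) (-4 * T * (a + b) + 3 * a ^ 2 + 2 * a * b + 3 * b ^ 2 : ℂ) 0 := by
  have h0 : (0 : ℂ) ∈ ball (0 : ℂ) 1 := by simp
  have h1 := br_der (by linarith) ha hsa h0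
  have h2 := br_der hb (by linarith) hsb h0
  have e1 : HasDerivAt (fun z : ℂ => (-(2 * (T : ℂ)) + 2 * z)) 2 0 := by
    have := ((hasDerivAt_id (0 : ℂ)).const_mul (2 : ℂ)).const_add (-(2 * (T : ℂ)))
    simpa using! this
  have e2 := e1.mul (h1.mul h2)
  have ea : HasDerivAt (fun z : ℂ => (a : ℂ) - z) (-1) 0 := (hasDerivAt_id (0 : ℂ)).const_sub _
  have eb : HasDerivAt (fun z : ℂ => (b : ℂ) - z) (-1) 0 := (hasDerivAt_id (0 : ℂ)).const_sub _
  have e3 := (ea.mul (h1.pow 3)).mul h2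
  have e4 := h1.mul (eb.mul (h2.pow 3))
  have e5 := e2.add ((quad_der T 0).mul (e3.add e4))
  unfold pcd
  convert! e5 using 1
  simp [hsa.zero, hsb.zero]
  ring

lemma pc_symm {T : ℝ} {a b : ℝ} {sa sb : ℂ → ℂ} (hsa : Br a sa) (hsb : Br b sb) {z : ℂ} (hz : ‖z‖ < 1) :
    pc T sa sb (starRingEnd ℂ z) = starRingEnd ℂ (pc T sa sb z) := by
  unfold pc
  rw [hsa.symm z hz, hsb.symm z hz]
  have h2 : (starRingEnd ℂ) (2 : ℂ) = 2 := Complex.conj_ofNat 2
  simp [h2]

theorem A0_g {a b T : ℝ} (hb : -1 < b) (hba : b < a) (ha : a < 1)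
    {sa sb : ℂ → ℂ} (hsa : Br a sa) (hsb : Br b sb) :
    ∃ g : ℂ → ℂ, GG T sa sb g ∧ (∀ z ∈ ball (0 : ℂ) 1, g (starRingEnd ℂ z) = starRingEnd ℂ (g z)) ∧
      deriv g 0 = ((a + b - 2 * T : ℝ) : ℂ) ∧
      deriv (deriv g) 0 / 2 = ((3 * (a + b) ^ 2 / 4 - (a + b) * T - a * b : ℝ) : ℂ) := by
  have h00 : (0 : ℂ) ∈ ball (0 : ℂ) 1 := by simp
  have hb0 : ball (0 : ℂ) 1 ∈ 𝓝 (0 : ℂ) := isOpen_ball.mem_nhds h00
  have hopen : ∀ z ∈ ball (0 : ℂ) 1, ball (0 : ℂ) 1 ∈ 𝓝 z := fun z hz => isOpen_ball.mem_nhds hz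
  have hF : ∀ z ∈ ball (0 : ℂ) 1, HasDerivAt (pc T sa sb) (pcd a b T sa sb z) z :=
    fun z hz => pc_der hb hba ha hsa hsb hz
  have hF0 : pc T sa sb 0 = 1 := by
    unfold pc; rw [hsa.zero, hsb.zero]; simp
  have hFd : DifferentiableOn ℂ (pc T sa sb) (ball 0 1) :=
    fun z hz => (hF z hz).differentiableAt.differentiableWithinAt
  set k : ℂ → ℂ := dslope (pc T sa sb) 0 with hk
  have hkd : DifferentiableOn ℂ k (ball 0 1) := by
    rw [hk]
    exact (Complex.differentiableOn_dslope hb0).mpr hFd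
  have hFk : ∀ z : ℂ, pc T sa sb z = 1 + z * k z := by
    intro z
    have := sub_smul_dslope (pc T sa sb) 0 z
    rw [hF0, sub_zero, smul_eq_mul] at this
    rw [hk, this]
    ring
  have hd0 : pcd a b T sa sb 0 = ((a + b - 2 * T : ℝ) : ℂ) := by
    unfold pcd
    rw [hsa.zero, hsb.zero]
    push_cast
    simp
    ring
  have hk0 : k 0 = ((a + b - 2 * T : ℝ) : ℂ) := by
    rw [hk, dslope_same, (hF 0 h00).deriv, hd0]
  have hk1 : ∀ z ∈ ball (0 : ℂ) 1, HasDerivAt k (deriv k z) z := fun z hz =>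
    (hkd.differentiableAt (hopen z hz)).hasDerivAt
  have hkdd := hkd.deriv isOpen_ball
  have hk2 : HasDerivAt (deriv k) (deriv (deriv k) 0) 0 :=
    (hkdd.differentiableAt hb0).hasDerivAt
  -- first derivative of the identity
  have hid : ∀ z ∈ ball (0 : ℂ) 1, pcd a b T sa sb z = k z + z * deriv k z := by
    intro z hz
    have e1 := ((hasDerivAt_id z).mul (hk1 z hz)).const_add 1
    have e2 : pc T sa sb =ᶠ[𝓝 z] fun z => 1 + z * k z := Eventually.of_forall hFk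
    have e3 := e1.congr_of_eventuallyEq (f₁ := pc T sa sb) e2
    have e4 := (hF z hz).unique e3
    rw [e4]
    simp
  have hk1' : 2 * deriv k 0 = (-4 * T * (a + b) + 3 * a ^ 2 + 2 * a * b + 3 * b ^ 2 : ℂ) := by
    have e1 := (hk1 0 h00).add ((hasDerivAt_id (0 : ℂ)).mul hk2)
    have e2 : pcd a b T sa sb =ᶠ[𝓝 0] fun z => k z + z * deriv k z := by
      filter_upwards [hb0] with z hz using hid z hz
    have e3 := e1.congr_of_eventuallyEq (f₁ := pcd a b T sa sb) e2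
    have e4 := (pcd_der0 hb hba ha hsa hsb).unique e3
    rw [e4]
    simp
    ring
  have hksymm : ∀ z ∈ ball (0 : ℂ) 1, k (starRingEnd ℂ z) = starRingEnd ℂ (k z) := by
    intro z hz
    have hz' : ‖z‖ < 1 := by simpa using hz
    by_cases hz0 : z = 0
    · rw [hz0]; simp only [map_zero]; rw [hk0]; exact (Complex.conj_ofReal _).symm
    · have h1 := pc_symm (T := T) hsa hsb hz'
      rw [hFk, hFk z] at h1
      have h2 : starRingEnd ℂ z ≠ 0 := by simpa using hz0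
      have h3 : starRingEnd ℂ z * k (starRingEnd ℂ z) = starRingEnd ℂ z * starRingEnd ℂ (k z) := by
        have : starRingEnd ℂ (1 + z * k z) = 1 + starRingEnd ℂ z * starRingEnd ℂ (k z) := by simp
        rw [this] at h1
        linear_combination h1
      exact mul_left_cancel₀ h2 h3
  obtain ⟨g, hg0, hg⟩ := hkd.isExactOn_ball.with_val_at 0 0
  have hgd : DifferentiableOn ℂ g (ball 0 1) := fun z hz => (hg z hz).differentiableAt.differentiableWithinAt
  have hdg : ∀ z ∈ ball (0 : ℂ) 1, deriv g z = k z := fun z hz => (hg z hz).deriv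
  refine ⟨g, ⟨hgd, hg0, ?_⟩, ?_, ?_, ?_⟩
  · intro z hz
    rw [hdg z hz, hFk z]
  · have hstarball : ∀ z ∈ ball (0 : ℂ) 1, starRingEnd ℂ z ∈ ball (0 : ℂ) 1 := by
      intro z hz
      simpa using hz
    have hc : ∀ z ∈ ball (0 : ℂ) 1, HasDerivAt (fun z => g z - starRingEnd ℂ (g (starRingEnd ℂ z))) 0 z := by
      intro z hz
      have a1 := hg z hz
      have a2 := (hg _ (hstarball z hz)).conj_conj
      rw [Complex.conj_conj] at a2
      have a3 := a1.sub a2
      rw [hksymm z hz, Complex.conj_conj, sub_self] at a3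
      exact a3
    have hconst : ∀ z ∈ ball (0 : ℂ) 1, (fun z => g z - starRingEnd ℂ (g (starRingEnd ℂ z))) z
        = (fun z => g z - starRingEnd ℂ (g (starRingEnd ℂ z))) 0 := by
      intro z hz
      apply (convex_ball (0 : ℂ) 1).is_const_of_fderivWithin_eq_zero (𝕜 := ℂ)
        (f := fun z => g z - starRingEnd ℂ (g (starRingEnd ℂ z))) _ _ hz h00
      · intro w hw
        exact (hc w hw).differentiableAt.differentiableWithinAt
      · intro w hw
        rw [fderivWithin_of_isOpen isOpen_ball hw]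
        have := (hc w hw).hasFDerivAt.fderiv
        rw [this]
        ext
        simp
    intro z hz
    have h1 := hconst _ (hstarball z hz)
    simp only [map_zero, hg0, sub_zero, Complex.conj_conj] at h1
    exact sub_eq_zero.mp h1
  · rw [hdg 0 h00, hk0]
  · have h1 : deriv g =ᶠ[𝓝 0] k := by
      filter_upwards [hb0] with z hz using hdg z hz
    rw [h1.deriv_eq]
    push_cast
    linear_combination hk1' / 4

end A0gM
end Pool.Agent.Helper974.Star
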