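import Mathlib
import Pool.Agent.Helper974.Star.Defs
set_option autoImplicit false
open Complex Filter Topology Metric Set MeasureTheory
namespace Pool.Agent.Helper974.Star
namespace A10M

theorem A10_bdd {a b T l : ℝ} {sa sb g : ℂ → ℂ} (hg : GG T sa sb g)
    (hsym : ∀ z ∈ ball (0 : ℂ) 1, g (starRingEnd ℂ z) = starRingEnd ℂ (g z))
    (hcont : ∀ r : ℝ, 0 < r → r < 1 → Continuous (fun φ : ℝ => pc T sa sb (r * Complex.exp (I * φ))))
    (h8 : ∀ r : ℝ, 0 < r → r < 1 → ∀ θ : ℝ, (g (r * Complex.exp (I * θ))).re =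
      (g r).re - ∫ φ in (0 : ℝ)..θ, (pc T sa sb (r * Complex.exp (I * φ))).im)
    (h9 : Tendsto (fun r : ℝ => (g r).re) (𝓝[<] 1) (𝓝 l))
    (h7 : Tendsto (fun r : ℝ => ∫ φ in (0 : ℝ)..Real.pi, |(pc T sa sb (r * Complex.exp (I * φ))).im - KI a b T φ|)
      (𝓝[<] 1) (𝓝 0))
    (hint : IntervalIntegrable (KI a b T) volume 0 Real.pi)
    (h5 : ∀ θ ∈ Icc (0 : ℝ) Real.pi, 0 ≤ ∫ φ in (0 : ℝ)..θ, KI a b T φ) :
    (∀ z ∈ ball (0 : ℂ) 1, (g z).re ≤ l) ∧
    (∀ θ ∈ Icc (0 : ℝ) Real.pi, Tendsto (fun r : ℝ => (g (r * Complex.exp (I * θ))).re) (𝓝[<] 1)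
      (𝓝 (l - ∫ φ in (0 : ℝ)..θ, KI a b T φ))) ∧
    (∃ C δ : ℝ, δ < 1 ∧ ∀ r : ℝ, δ < r → r < 1 → ∀ θ ∈ Icc (0 : ℝ) Real.pi, |(g (r * Complex.exp (I * θ))).re| ≤ C) := by
  have key : ∀ r : ℝ, 0 < r → r < 1 → ∀ θ ∈ Icc (0 : ℝ) Real.pi,
      |(g (r * Complex.exp (I * θ))).re - (l - ∫ φ in (0 : ℝ)..θ, KI a b T φ)| ≤
      |(g r).re - l| + ∫ φ in (0 : ℝ)..Real.pi, |(pc T sa sb (r * Complex.exp (I * φ))).im - KI a b T φ| := by
    intro r hr0 hr1 θ hθ
    have hc : Continuous (fun φ : ℝ => (pc T sa sb (r * Complex.exp (I * φ))).im) :=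
      Complex.continuous_im.comp (hcont r hr0 hr1)
    have hsub : Set.uIcc (0 : ℝ) θ ⊆ Set.uIcc (0 : ℝ) Real.pi := by
      rw [Set.uIcc_of_le hθ.1, Set.uIcc_of_le Real.pi_pos.le]
      exact Set.Icc_subset_Icc le_rfl hθ.2
    have hintθ : IntervalIntegrable (KI a b T) volume 0 θ := hint.mono_set hsub
    have hd : IntervalIntegrable (fun φ : ℝ => (pc T sa sb (r * Complex.exp (I * φ))).im - KI a b T φ)
        volume 0 Real.pi := (hc.intervalIntegrable 0 Real.pi).sub hint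
    have e1 : (g (r * Complex.exp (I * θ))).re - (l - ∫ φ in (0 : ℝ)..θ, KI a b T φ) =
        ((g r).re - l) - ∫ φ in (0 : ℝ)..θ, ((pc T sa sb (r * Complex.exp (I * φ))).im - KI a b T φ) := by
      rw [h8 r hr0 hr1 θ, intervalIntegral.integral_sub (hc.intervalIntegrable 0 θ) hintθ]
      ring
    rw [e1]
    refine (abs_sub _ _).trans ?_
    have e2 : |∫ φ in (0 : ℝ)..θ, ((pc T sa sb (r * Complex.exp (I * φ))).im - KI a b T φ)| ≤
        ∫ φ in (0 : ℝ)..θ, |(pc T sa sb (r * Complex.exp (I * φ))).im - KI a b T φ| :=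
      intervalIntegral.abs_integral_le_integral_abs hθ.1
    have e3 : ∫ φ in (0 : ℝ)..θ, |(pc T sa sb (r * Complex.exp (I * φ))).im - KI a b T φ| ≤
        ∫ φ in (0 : ℝ)..Real.pi, |(pc T sa sb (r * Complex.exp (I * φ))).im - KI a b T φ| := by
      refine intervalIntegral.integral_mono_interval le_rfl hθ.1 hθ.2 ?_ hd.abs
      exact Filter.Eventually.of_forall (fun x => abs_nonneg _)
    linarith
  have heps : Tendsto (fun r : ℝ => |(g r).re - l| +
      ∫ φ in (0 : ℝ)..Real.pi, |(pc T sa sb (r * Complex.exp (I * φ))).im - KI a b T φ|)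
      (𝓝[<] 1) (𝓝 0) := by
    have h1 : Tendsto (fun r : ℝ => |(g r).re - l|) (𝓝[<] 1) (𝓝 0) := by
      have := (h9.sub_const l).abs
      simpa using this
    simpa using h1.add h7
  have hev : ∀ᶠ r : ℝ in 𝓝[<] (1 : ℝ), 0 < r ∧ r < 1 := by
    have : Set.Ioo (0 : ℝ) 1 ∈ 𝓝[<] (1 : ℝ) := Ioo_mem_nhdsLT one_pos
    exact this
  refine ⟨?_, ?_, ?_⟩
  · intro z hz
    have hz' : ‖z‖ < 1 := by simpa using hz
    have hbd : ∀ᶠ r : ℝ in 𝓝[<] (1 : ℝ), (g z).re ≤ l + (|(g r).re - l| +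
      ∫ φ in (0 : ℝ)..Real.pi, |(pc T sa sb (r * Complex.exp (I * φ))).im - KI a b T φ|) := by
      have hIoo : Set.Ioo ‖z‖ 1 ∈ 𝓝[<] (1 : ℝ) := Ioo_mem_nhdsLT hz'
      filter_upwards [hIoo] with r hr
      have hr0 : 0 < r := lt_of_le_of_lt (norm_nonneg z) hr.1
      have hr1 : r < 1 := hr.2
      set E : ℝ := |(g r).re - l| +
        ∫ φ in (0 : ℝ)..Real.pi, |(pc T sa sb (r * Complex.exp (I * φ))).im - KI a b T φ| with hE
      have hcl : closedBall (0 : ℂ) r ⊆ ball 0 1 := closedBall_subset_ball hr1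
      have hdg : DiffContOnCl ℂ (fun w => Complex.exp (g w)) (ball 0 r) :=
        (hg.diff.cexp).diffContOnCl_ball hcl
      have hup : ∀ θ ∈ Icc (0 : ℝ) Real.pi, (g (r * Complex.exp (I * θ))).re ≤ l + E := by
        intro θ hθ
        have k := key r hr0 hr1 θ hθ
        have k2 := h5 θ hθ
        have k3 := (abs_le.1 k).2
        linarith
      have hC : ∀ w ∈ frontier (ball (0 : ℂ) r), ‖Complex.exp (g w)‖ ≤ Real.exp (l + E) := by
        intro w hw
        rw [frontier_ball (0 : ℂ) hr0.ne'] at hw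
        have hwn : ‖w‖ = r := by simpa using hw
        rw [Complex.norm_exp, Real.exp_le_exp]
        have hwarg : w = (r : ℂ) * Complex.exp (I * (Complex.arg w : ℝ)) := by
          conv_lhs => rw [← Complex.norm_mul_exp_arg_mul_I w]
          rw [hwn, mul_comm (I : ℂ)]
        rcases le_or_gt 0 (Complex.arg w) with h0 | h0
        · rw [hwarg]
          exact hup _ ⟨h0, Complex.arg_le_pi w⟩
        · have hwb : w ∈ ball (0 : ℂ) 1 := by simp [hwn, hr1]
          have hs := hsym w hwb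
          have hre : (g w).re = (g (starRingEnd ℂ w)).re := by rw [hs, Complex.conj_re]
          have hcw : starRingEnd ℂ w = (r : ℂ) * Complex.exp (I * ((-Complex.arg w : ℝ) : ℂ)) := by
            conv_lhs => rw [hwarg]
            rw [map_mul, Complex.conj_ofReal, ← Complex.exp_conj, map_mul, Complex.conj_I,
              Complex.conj_ofReal]
            congr 2
            push_cast
            ring
          rw [hre, hcw]
          exact hup _ ⟨by linarith, by linarith [Complex.neg_pi_lt_arg w]⟩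
      have hzcl : z ∈ closure (ball (0 : ℂ) r) := subset_closure (by simpa using hr.1)
      have := Complex.norm_le_of_forall_mem_frontier_norm_le isBounded_ball hdg hC hzcl
      rwa [Complex.norm_exp, Real.exp_le_exp] at this
    have hl := (tendsto_const_nhds (x := l)).add heps
    rw [add_zero] at hl
    exact ge_of_tendsto hl hbd
  · intro θ hθ
    rw [tendsto_iff_norm_sub_tendsto_zero]
    refine squeeze_zero' (Filter.Eventually.of_forall (fun r => norm_nonneg _)) ?_ heps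
    filter_upwards [hev] with r hr
    exact key r hr.1 hr.2 θ hθ
  · have hlt : ∀ᶠ r : ℝ in 𝓝[<] (1 : ℝ), (|(g r).re - l| +
      ∫ φ in (0 : ℝ)..Real.pi, |(pc T sa sb (r * Complex.exp (I * φ))).im - KI a b T φ|) < 1 :=
      heps.eventually (gt_mem_nhds one_pos)
    obtain ⟨δ, hδ, hδ2⟩ := (mem_nhdsLT_iff_exists_Ioo_subset).1 (hlt.and hev)
    have hδ1 : δ < 1 := hδ
    refine ⟨|l| + (∫ φ in (0 : ℝ)..Real.pi, |KI a b T φ|) + 1, δ, hδ1, ?_⟩
    intro r hr hr1 θ hθ
    obtain ⟨hE, hr0, -⟩ := hδ2 ⟨hr, hr1⟩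
    have k := key r hr0 hr1 θ hθ
    have k1 : |∫ φ in (0 : ℝ)..θ, KI a b T φ| ≤ ∫ φ in (0 : ℝ)..Real.pi, |KI a b T φ| := by
      refine (intervalIntegral.abs_integral_le_integral_abs hθ.1).trans ?_
      refine intervalIntegral.integral_mono_interval le_rfl hθ.1 hθ.2 ?_ hint.abs
      exact Filter.Eventually.of_forall (fun x => abs_nonneg _)
    rw [abs_le] at k k1 ⊢
    have l1 := neg_abs_le l
    have l2 := le_abs_self l
    constructor <;> linarith [k.1, k.2, k1.1, k1.2]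

end A10M
end Pool.Agent.Helper974.Star
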