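import Mathlib
import Pool.Agent.Helper974.Star.Defs
set_option autoImplicit false
open Complex Filter Topology Metric Set MeasureTheory
namespace Pool.Agent.Helper974.Star
namespace A11M

section A11helpers

lemma a11_cauchy2 {F : ℂ → ℂ} (hF : DiffContOnCl ℂ F (ball 0 1)) :
    ∫ θ in (0 : ℝ)..2 * Real.pi, F (Complex.exp (I * θ)) * Complex.exp (-(2 * (I * θ))) =
      2 * Real.pi * (deriv (deriv F) 0 / 2) := by
  have h := hF.circleIntegral_one_div_sub_center_pow_smul (by norm_num : (0 : ℝ) < 1) 2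
  rw [circleIntegral] at h
  have h2 : ∀ θ : ℝ, deriv (circleMap 0 1) θ • ((1 / (circleMap 0 1 θ - 0) ^ (2 + 1)) • F (circleMap 0 1 θ)) =
      I * (F (Complex.exp (I * θ)) * Complex.exp (-(2 * (I * θ)))) := by
    intro θ
    rw [deriv_circleMap]
    simp only [circleMap, zero_add, Complex.ofReal_one, one_mul, sub_zero, smul_eq_mul]
    rw [mul_comm (θ : ℂ) I]
    have e2 : Complex.exp (I * θ) * Complex.exp (-(I * θ)) = 1 := by
      rw [← Complex.exp_add]; simp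
    have e3 : Complex.exp (-(2 * (I * θ))) = Complex.exp (-(I * θ)) ^ 2 := by
      rw [← Complex.exp_nat_mul]; congr 1; push_cast; ring
    have e4 := Complex.exp_ne_zero (I * θ)
    rw [e3]
    field_simp
    have e5 : Complex.exp (I * θ) ^ 2 * Complex.exp (-(I * θ)) ^ 2 = 1 := by
      rw [← mul_pow, e2, one_pow]
    linear_combination (-F (Complex.exp (I * θ)) * Complex.exp (I * θ)) * e5
  simp_rw [h2] at h
  rw [intervalIntegral.integral_const_mul] at h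
  have h3 : iteratedDeriv 2 F 0 = deriv (deriv F) 0 := by
    rw [iteratedDeriv_succ, iteratedDeriv_one]
  rw [h3] at h
  have hI : I ≠ 0 := Complex.I_ne_zero
  apply mul_left_cancel₀ hI
  rw [h]
  simp [Nat.factorial]
  ring

lemma a11_half {F : ℂ → ℂ} (hF : DiffContOnCl ℂ F (ball 0 1))
    (hs : ∀ z ∈ ball (0 : ℂ) 1, F (starRingEnd ℂ z) = starRingEnd ℂ (F z)) :
    ∫ θ in (0 : ℝ)..Real.pi, (F (Complex.exp (I * θ)) * Complex.exp (-(2 * (I * θ)))).re =
      Real.pi * (deriv (deriv F) 0 / 2).re := by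
  have hcont : ContinuousOn F (closedBall 0 1) := by
    have := hF.continuousOn
    rwa [closure_ball _ (by norm_num)] at this
  have hs' : EqOn (fun z => F (starRingEnd ℂ z)) (fun z => starRingEnd ℂ (F z)) (closedBall 0 1) := by
    apply Set.EqOn.of_subset_closure (s := ball (0 : ℂ) 1) (t := closedBall (0 : ℂ) 1)
    · intro z hz; exact hs z hz
    · apply hcont.comp (Complex.continuous_conj.continuousOn)
      intro z hz
      simpa using hz
    · exact Complex.continuous_conj.comp_continuousOn hcont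
    · exact ball_subset_closedBall
    · rw [closure_ball _ (by norm_num)]
  have hmem : ∀ θ : ℝ, Complex.exp (I * θ) ∈ closedBall (0 : ℂ) 1 := by
    intro θ
    rw [mem_closedBall_zero_iff, mul_comm, Complex.norm_exp_ofReal_mul_I]
  have hFc : Continuous (fun θ : ℝ => F (Complex.exp (I * θ))) :=
    hcont.comp_continuous (by fun_prop) hmem
  have hφc : Continuous (fun θ : ℝ => F (Complex.exp (I * θ)) * Complex.exp (-(2 * (I * θ)))) :=
    hFc.mul (by fun_prop)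
  have hφr : Continuous (fun θ : ℝ => (F (Complex.exp (I * θ)) * Complex.exp (-(2 * (I * θ)))).re) :=
    Complex.continuous_re.comp hφc
  have hrefl : ∀ θ : ℝ, (F (Complex.exp (I * ((2 * Real.pi - θ : ℝ) : ℂ))) *
      Complex.exp (-(2 * (I * ((2 * Real.pi - θ : ℝ) : ℂ))))).re =
      (F (Complex.exp (I * θ)) * Complex.exp (-(2 * (I * θ)))).re := by
    intro θ
    have e1 : Complex.exp (I * ((2 * Real.pi - θ : ℝ) : ℂ)) = starRingEnd ℂ (Complex.exp (I * θ)) := by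
      rw [← Complex.exp_conj]
      simp only [map_mul, Complex.conj_I, Complex.conj_ofReal]
      have : I * ((2 * Real.pi - θ : ℝ) : ℂ) = -I * θ + 2 * Real.pi * I := by push_cast; ring
      rw [this, Complex.exp_add, Complex.exp_two_pi_mul_I, mul_one]
    have e2 : Complex.exp (-(2 * (I * ((2 * Real.pi - θ : ℝ) : ℂ)))) =
        starRingEnd ℂ (Complex.exp (-(2 * (I * θ)))) := by
      have h1 : Complex.exp (-(2 * (I * ((2 * Real.pi - θ : ℝ) : ℂ)))) =
        (Complex.exp (I * ((2 * Real.pi - θ : ℝ) : ℂ)) ^ 2)⁻¹ := by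
        rw [← Complex.exp_nat_mul, ← Complex.exp_neg]; norm_num
      have h2 : Complex.exp (-(2 * (I * θ))) = (Complex.exp (I * θ) ^ 2)⁻¹ := by
        rw [← Complex.exp_nat_mul, ← Complex.exp_neg]; norm_num
      rw [h1, h2, e1]
      simp
    have e3 := hs' (hmem θ)
    simp only at e3
    rw [e1, e2, e3, ← map_mul, Complex.conj_re]
  have hC := a11_cauchy2 hF
  have e2 := Complex.reCLM.intervalIntegral_comp_comm (hφc.intervalIntegrable 0 (2 * Real.pi) (μ := volume))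
  rw [hC] at e2
  have e3 : ∫ θ in (0 : ℝ)..2 * Real.pi, (F (Complex.exp (I * θ)) * Complex.exp (-(2 * (I * θ)))).re =
      2 * Real.pi * (deriv (deriv F) 0 / 2).re := by
    have : Complex.reCLM (2 * (Real.pi : ℂ) * (deriv (deriv F) 0 / 2)) =
        2 * Real.pi * (deriv (deriv F) 0 / 2).re := by
      have h : (2 * (Real.pi : ℂ) * (deriv (deriv F) 0 / 2)) = ((2 * Real.pi : ℝ) : ℂ) * (deriv (deriv F) 0 / 2) := by
        push_cast; ring
      rw [h, Complex.reCLM_apply, Complex.re_ofReal_mul]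
    rw [← this]
    exact e2
  have e4 := intervalIntegral.integral_add_adjacent_intervals
    (hφr.intervalIntegrable 0 Real.pi (μ := volume)) (hφr.intervalIntegrable Real.pi (2 * Real.pi) (μ := volume))
  have e5 := intervalIntegral.integral_comp_sub_left (a := (0 : ℝ)) (b := Real.pi)
    (fun θ : ℝ => (F (Complex.exp (I * θ)) * Complex.exp (-(2 * (I * θ)))).re) (2 * Real.pi)
  simp only [hrefl] at e5
  rw [show 2 * Real.pi - Real.pi = Real.pi by ring, sub_zero] at e5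
  rw [← e5] at e4
  linarith

lemma a11_deriv2_mul {F G : ℂ → ℂ} (hF : ∀ᶠ z in 𝓝 (0 : ℂ), DifferentiableAt ℂ F z)
    (hG : ∀ᶠ z in 𝓝 (0 : ℂ), DifferentiableAt ℂ G z) {F1 F2 G1 G2 : ℂ}
    (hF1 : HasDerivAt F F1 0) (hF2 : HasDerivAt (deriv F) F2 0)
    (hG1 : HasDerivAt G G1 0) (hG2 : HasDerivAt (deriv G) G2 0) :
    HasDerivAt (deriv (fun z => F z * G z)) (F2 * G 0 + 2 * F1 * G1 + F 0 * G2) 0 := by
  have e : deriv (fun z => F z * G z) =ᶠ[𝓝 0] fun z => deriv F z * G z + F z * deriv G z := by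
    filter_upwards [hF, hG] with z h1 h2
    exact deriv_fun_mul h1 h2
  have h := (hF2.mul hG1).add (hF1.mul hG2)
  have h' := h.congr_of_eventuallyEq e
  convert! h' using 1
  rw [hF1.deriv, hG1.deriv]
  ring

lemma a11_circ_mem {r : ℝ} (hr0 : 0 < r) (hr1 : r < 1) (θ : ℝ) : (r : ℂ) * Complex.exp (I * θ) ∈ ball (0 : ℂ) 1 := by
  rw [mem_ball_zero_iff, norm_mul, mul_comm I, Complex.norm_exp_ofReal_mul_I, mul_one, Complex.norm_real,
    Real.norm_of_nonneg hr0.le]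
  exact hr1

lemma a11_circ_norm {r : ℝ} (hr0 : 0 < r) (θ : ℝ) : ‖(r : ℂ) * Complex.exp (I * θ)‖ = r := by
  rw [norm_mul, mul_comm I, Complex.norm_exp_ofReal_mul_I, mul_one, Complex.norm_real,
    Real.norm_of_nonneg hr0.le]

lemma a11_circ_hasDeriv (r θ : ℝ) : HasDerivAt (fun θ : ℝ => (r : ℂ) * Complex.exp (I * θ))
    (r * Complex.exp (I * θ) * I) θ := by
  have h1 : HasDerivAt (fun θ : ℝ => (I * (θ : ℂ))) I θ := by
    have := (Complex.ofRealCLM.hasDerivAt (x := θ)).const_mul I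
    simpa using this
  have h2 := (h1.cexp).const_mul (r : ℂ)
  convert! h2 using 1
  ring

lemma a11_Th_hasDeriv {g : ℂ → ℂ} (hg : DifferentiableOn ℂ g (ball 0 1)) {r : ℝ} (hr0 : 0 < r) (hr1 : r < 1)
    (θ : ℝ) : HasDerivAt (fun θ : ℝ => (g (r * Complex.exp (I * θ))).im + θ)
      ((1 + (r * Complex.exp (I * θ)) * deriv g (r * Complex.exp (I * θ))).re) θ := by
  have hz := a11_circ_mem hr0 hr1 θ
  have h1 : HasDerivAt g (deriv g (r * Complex.exp (I * θ))) (r * Complex.exp (I * θ)) :=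
    (hg.differentiableAt (isOpen_ball.mem_nhds hz)).hasDerivAt
  have h2 := h1.comp θ (a11_circ_hasDeriv r θ)
  have h3 := Complex.imCLM.hasFDerivAt.comp_hasDerivAt θ h2
  have h4 := (h3.add (hasDerivAt_id θ))
  convert! h4 using 1
  simp
  ring

lemma a11_Th'_cont {g : ℂ → ℂ} (hg : DifferentiableOn ℂ g (ball 0 1)) {r : ℝ} (hr0 : 0 < r) (hr1 : r < 1) :
    Continuous (fun θ : ℝ => (1 + (r * Complex.exp (I * θ)) * deriv g (r * Complex.exp (I * θ))).re) := by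
  have h1 : ContinuousOn (deriv g) (ball 0 1) := (hg.deriv isOpen_ball).continuousOn
  have h2 : Continuous (fun θ : ℝ => (r : ℂ) * Complex.exp (I * θ)) := by fun_prop
  have h3 : Continuous (fun θ : ℝ => deriv g ((r : ℂ) * Complex.exp (I * θ))) :=
    h1.comp_continuous h2 (fun θ => a11_circ_mem hr0 hr1 θ)
  exact Complex.continuous_re.comp (continuous_const.add (h2.mul h3))

lemma a11_dil_dcc {g : ℂ → ℂ} (hg : DifferentiableOn ℂ g (ball 0 1)) {r : ℝ} (hr0 : 0 < r) (hr1 : r < 1) :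
    DiffContOnCl ℂ (fun z => g (r * z)) (ball 0 1) := by
  apply DifferentiableOn.diffContOnCl
  rw [closure_ball _ (by norm_num)]
  apply hg.comp (by fun_prop)
  intro z hz
  rw [mem_closedBall_zero_iff] at hz
  rw [mem_ball_zero_iff, norm_mul, Complex.norm_real, Real.norm_of_nonneg hr0.le]
  nlinarith [norm_nonneg z]

lemma a11_dil_hasDeriv {g : ℂ → ℂ} (hg : DifferentiableOn ℂ g (ball 0 1)) {r : ℝ} (hr0 : 0 < r) (hr1 : r < 1)
    {z : ℂ} (hz : ‖z‖ < 1) : HasDerivAt (fun z => g (r * z)) (r * deriv g (r * z)) z := by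
  have hz' : (r : ℂ) * z ∈ ball (0 : ℂ) 1 := by
    rw [mem_ball_zero_iff, norm_mul, Complex.norm_real, Real.norm_of_nonneg hr0.le]
    nlinarith [norm_nonneg z]
  have h1 : HasDerivAt g (deriv g (r * z)) (r * z) :=
    (hg.differentiableAt (isOpen_ball.mem_nhds hz')).hasDerivAt
  have h2 : HasDerivAt (fun z : ℂ => (r : ℂ) * z) r z := by
    simpa using (hasDerivAt_id z).const_mul (r : ℂ)
  have h3 := h1.comp z h2
  convert! h3 using 1
  ring

lemma a11_dil_hasDeriv2 {g : ℂ → ℂ} (hg : DifferentiableOn ℂ g (ball 0 1)) {r : ℝ} (hr0 : 0 < r) (hr1 : r < 1) :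
    HasDerivAt (deriv (fun z => g (r * z))) (r ^ 2 * deriv (deriv g) 0) 0 := by
  have e : deriv (fun z => g (r * z)) =ᶠ[𝓝 0] fun z => r * deriv g (r * z) := by
    have := isOpen_ball.mem_nhds (show (0 : ℂ) ∈ ball (0 : ℂ) 1 by simp)
    filter_upwards [this] with z hz
    exact (a11_dil_hasDeriv hg hr0 hr1 (by simpa using hz)).deriv
  have h1 := a11_dil_hasDeriv (hg.deriv isOpen_ball) hr0 hr1 (z := 0) (by simp)
  have h2 := (h1.const_mul (r : ℂ)).congr_of_eventuallyEq e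
  convert! h2 using 1
  rw [mul_zero]
  ring

lemma a11_ball : ∀ᶠ z in 𝓝 (0 : ℂ), z ∈ ball (0 : ℂ) 1 :=
  isOpen_ball.mem_nhds (show (0 : ℂ) ∈ ball (0 : ℂ) 1 by simp)

lemma a11_s_diffAt {a : ℝ} {s : ℂ → ℂ} (h : Br a s) {z : ℂ} (hz : z ∈ ball (0 : ℂ) 1) :
    DifferentiableAt ℂ s z := h.dcc.differentiableAt isOpen_ball hz

lemma a11_s_hasDeriv {a : ℝ} {s : ℂ → ℂ} (h : Br a s) {z : ℂ} (hz : z ∈ ball (0 : ℂ) 1) (hne : s z ≠ 0) :
    HasDerivAt s ((z - a) / s z) z := by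
  have hd := (a11_s_diffAt h hz).hasDerivAt
  have h2 : HasDerivAt (fun z => s z ^ 2) (2 * s z * deriv s z) z := by
    simpa using! hd.pow 2
  have h3 : HasDerivAt (fun z : ℂ => 1 - 2 * (a : ℂ) * z + z ^ 2) (-(2 * a) + 2 * z) z := by
    have e1 := ((hasDerivAt_id z).const_mul (2 * (a : ℂ))).const_sub 1
    have e2 := (hasDerivAt_pow 2 z)
    have e3 := e1.add e2
    simpa using! e3
  have h4 : (fun z => s z ^ 2) = fun z : ℂ => 1 - 2 * (a : ℂ) * z + z ^ 2 := by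
    funext z; exact h.sq z
  rw [h4] at h2
  have h5 := h2.unique h3
  have h6 : deriv s z = (z - a) / s z := by
    rw [eq_div_iff hne]
    linear_combination h5 / 2
  rw [← h6]
  exact hd

lemma a11_s_ne {a : ℝ} {s : ℂ → ℂ} (h : Br a s) : ∀ᶠ z in 𝓝 (0 : ℂ), s z ≠ 0 := by
  have h1 : ContinuousAt s 0 := (a11_s_diffAt h (by simp)).continuousAt
  have h2 : s 0 ≠ 0 := by rw [h.zero]; norm_num
  exact h1.eventually_ne h2

lemma a11_s_hasDeriv0 {a : ℝ} {s : ℂ → ℂ} (h : Br a s) : HasDerivAt s (-(a : ℂ)) 0 := by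
  have := a11_s_hasDeriv h (z := 0) (by simp) (by rw [h.zero]; norm_num)
  rw [h.zero] at this
  simpa using this

lemma a11_s_hasDeriv2 {a : ℝ} {s : ℂ → ℂ} (h : Br a s) :
    HasDerivAt (deriv s) (1 - (a : ℂ) ^ 2) 0 := by
  have e : deriv s =ᶠ[𝓝 0] fun z => (z - a) / s z := by
    filter_upwards [a11_s_ne h, a11_ball] with z hz hz'
    exact (a11_s_hasDeriv h hz' hz).deriv
  have e1 : HasDerivAt (fun z : ℂ => z - a) 1 0 := (hasDerivAt_id 0).sub_const _
  have e2 := e1.div (a11_s_hasDeriv0 h) (by rw [h.zero]; norm_num)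
  rw [h.zero] at e2
  have e3 := e2.congr_of_eventuallyEq e
  convert! e3 using 1
  ring

lemma a11_p_hasDeriv (c : ℝ) (z : ℂ) : HasDerivAt (fun z : ℂ => 1 - 2 * (c : ℂ) * z + z ^ 2)
    (-(2 * c) + 2 * z) z := by
  have a1 := ((hasDerivAt_id z).const_mul (2 * (c : ℂ))).const_sub 1
  have a3 := a1.add (hasDerivAt_pow 2 z)
  simpa using! a3

lemma a11_p_hasDeriv2 (c : ℝ) : HasDerivAt (deriv (fun z : ℂ => 1 - 2 * (c : ℂ) * z + z ^ 2)) 2 0 := by
  have h : deriv (fun z : ℂ => 1 - 2 * (c : ℂ) * z + z ^ 2) = fun z : ℂ => (-(2 * (c : ℂ)) + 2 * z) := by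
    funext z; exact (a11_p_hasDeriv c z).deriv
  rw [h]
  have a1 := ((hasDerivAt_id (0 : ℂ)).const_mul 2).const_add (-(2 * (c : ℂ)))
  simpa using! a1

lemma a11_hh_dcc {a b : ℝ} (c : ℝ) {sa sb : ℂ → ℂ} (ha : Br a sa) (hb : Br b sb) :
    DiffContOnCl ℂ (fun z : ℂ => (1 - 2 * (c : ℂ) * z + z ^ 2) * (sa z * sb z)) (ball 0 1) := by
  have h1 : DiffContOnCl ℂ (fun z : ℂ => (1 - 2 * (c : ℂ) * z + z ^ 2)) (ball 0 1) := by
    apply Differentiable.diffContOnCl
    fun_prop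
  exact h1.smul (ha.dcc.smul hb.dcc)

lemma a11_ss0 {a b : ℝ} {sa sb : ℂ → ℂ} (ha : Br a sa) (hb : Br b sb) :
    HasDerivAt (fun z : ℂ => (sa z * sb z)) (-(a + b : ℂ)) 0 := by
  have h := (a11_s_hasDeriv0 ha).mul (a11_s_hasDeriv0 hb)
  rw [ha.zero, hb.zero] at h
  convert! h using 1
  ring

lemma a11_ss2 {a b : ℝ} {sa sb : ℂ → ℂ} (ha : Br a sa) (hb : Br b sb) :
    HasDerivAt (deriv (fun z : ℂ => (sa z * sb z))) ((1 - (a : ℂ) ^ 2) + 2 * a * b + (1 - (b : ℂ) ^ 2)) 0 := by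
  have h := a11_deriv2_mul (a11_ball.mono fun z hz => a11_s_diffAt ha hz)
    (a11_ball.mono fun z hz => a11_s_diffAt hb hz) (a11_s_hasDeriv0 ha) (a11_s_hasDeriv2 ha)
    (a11_s_hasDeriv0 hb) (a11_s_hasDeriv2 hb)
  rw [ha.zero, hb.zero] at h
  convert! h using 1
  ring

lemma a11_hh0 {a b : ℝ} (c : ℝ) {sa sb : ℂ → ℂ} (ha : Br a sa) (hb : Br b sb) :
    HasDerivAt (fun z : ℂ => (1 - 2 * (c : ℂ) * z + z ^ 2) * (sa z * sb z)) (-2 * (c : ℂ) - a - b) 0 := by
  have h := (a11_p_hasDeriv c 0).mul (a11_ss0 ha hb)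
  rw [ha.zero, hb.zero] at h
  convert! h using 1
  ring

lemma a11_hh2 {a b : ℝ} (c : ℝ) {sa sb : ℂ → ℂ} (ha : Br a sa) (hb : Br b sb) :
    HasDerivAt (deriv (fun z : ℂ => (1 - 2 * (c : ℂ) * z + z ^ 2) * (sa z * sb z)))
      (2 * (2 - ((a : ℂ) - b) ^ 2 / 2 + 2 * c * (a + b))) 0 := by
  have h := a11_deriv2_mul (F := fun z : ℂ => 1 - 2 * (c : ℂ) * z + z ^ 2) (G := fun z => sa z * sb z)
    (Eventually.of_forall fun z => (a11_p_hasDeriv c z).differentiableAt)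
    (a11_ball.mono fun z hz => (a11_s_diffAt ha hz).mul (a11_s_diffAt hb hz))
    (a11_p_hasDeriv c 0) (a11_p_hasDeriv2 c) (a11_ss0 ha hb) (a11_ss2 ha hb)
  rw [ha.zero, hb.zero] at h
  convert! h using 1
  ring

lemma a11_KR_cont (a b c : ℝ) : Continuous (KR a b c) := by unfold KR; fun_prop

lemma a11_KJ_cont (a b c : ℝ) : Continuous (KJ a b c) := by unfold KJ; fun_prop

lemma a11_KR_nonneg (a b c θ : ℝ) : 0 ≤ KR a b c θ := by unfold KR; positivity

lemma a11_hh_symm {a b : ℝ} (c : ℝ) {sa sb : ℂ → ℂ} (ha : Br a sa) (hb : Br b sb) :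
    ∀ z ∈ ball (0 : ℂ) 1, (fun z : ℂ => (1 - 2 * (c : ℂ) * z + z ^ 2) * (sa z * sb z)) (starRingEnd ℂ z) =
      starRingEnd ℂ ((fun z : ℂ => (1 - 2 * (c : ℂ) * z + z ^ 2) * (sa z * sb z)) z) := by
  intro z hz
  have hz' : ‖z‖ < 1 := by simpa using hz
  simp only [map_mul, map_add, map_sub, map_one, map_pow, map_ofNat, Complex.conj_ofReal, ha.symm z hz', hb.symm z hz']

lemma a11_intKR {a b c : ℝ} {sa sb : ℂ → ℂ} (ha : Br a sa) (hb : Br b sb)
    (hbd : ∀ {θ : ℝ}, θ ∈ Icc (0 : ℝ) Real.pi →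
      (1 - 2 * (c : ℂ) * Complex.exp (I * θ) + Complex.exp (I * θ) ^ 2) *
      (sa (Complex.exp (I * θ)) * sb (Complex.exp (I * θ))) * Complex.exp (-(2 * (I * θ))) =
      (KR a b c θ : ℂ) + (KJ a b c θ : ℂ) * I) :
    ∫ θ in (0 : ℝ)..Real.pi, KR a b c θ = Real.pi * (2 - (a - b) ^ 2 / 2 + 2 * c * (a + b)) := by
  have h := a11_half (a11_hh_dcc c ha hb) (a11_hh_symm c ha hb)
  rw [(a11_hh2 c ha hb).deriv] at h
  have e1 : (2 * (2 - ((a : ℂ) - b) ^ 2 / 2 + 2 * c * (a + b)) / 2) =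
      ((2 - (a - b) ^ 2 / 2 + 2 * c * (a + b) : ℝ) : ℂ) := by push_cast; ring
  rw [e1, Complex.ofReal_re] at h
  rw [← h]
  apply intervalIntegral.integral_congr
  intro θ hθ
  rw [Set.uIcc_of_le Real.pi_pos.le] at hθ
  simp only
  rw [hbd hθ]
  simp

lemma a11_ibp {a b c : ℝ} (hQπ : ∫ φ in (0 : ℝ)..Real.pi, KJ a b c φ = 0)
    {g : ℂ → ℂ} (hg : DifferentiableOn ℂ g (ball 0 1)) {r : ℝ} (hr0 : 0 < r) (hr1 : r < 1) :
    ∫ θ in (0 : ℝ)..Real.pi, ((g (r * Complex.exp (I * θ))).im + θ) * KJ a b c θ =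
    - ∫ θ in (0 : ℝ)..Real.pi, (1 + (r * Complex.exp (I * θ)) * deriv g (r * Complex.exp (I * θ))).re *
      ∫ φ in (0 : ℝ)..θ, KJ a b c φ := by
  have hQ : ∀ θ : ℝ, HasDerivAt (fun θ => ∫ φ in (0 : ℝ)..θ, KJ a b c φ) (KJ a b c θ) θ := fun θ =>
    intervalIntegral.integral_hasDerivAt_right ((a11_KJ_cont a b c).intervalIntegrable _ _)
      ((a11_KJ_cont a b c).stronglyMeasurableAtFilter _ _) (a11_KJ_cont a b c).continuousAt
  rw [intervalIntegral.integral_mul_deriv_eq_deriv_mul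
    (u := fun θ : ℝ => (g (r * Complex.exp (I * θ))).im + θ)
    (v := fun θ => ∫ φ in (0 : ℝ)..θ, KJ a b c φ)
    (u' := fun θ : ℝ => (1 + (r * Complex.exp (I * θ)) * deriv g (r * Complex.exp (I * θ))).re)
    (v' := KJ a b c) (fun θ _ => a11_Th_hasDeriv hg hr0 hr1 θ) (fun θ _ => hQ θ)
    ((a11_Th'_cont hg hr0 hr1).intervalIntegrable _ _) ((a11_KJ_cont a b c).intervalIntegrable _ _)]
  rw [hQπ]
  simp

lemma a11_r {a b c l M T : ℝ} (hM : 0 < M)
    {sa sb g G : ℂ → ℂ} (hsa : Br a sa) (hsb : Br b sb) (hg : GG T sa sb g)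
    (hsym : ∀ z ∈ ball (0 : ℂ) 1, g (starRingEnd ℂ z) = starRingEnd ℂ (g z))
    (hbd : ∀ {θ : ℝ}, θ ∈ Icc (0 : ℝ) Real.pi →
      (1 - 2 * (c : ℂ) * Complex.exp (I * θ) + Complex.exp (I * θ) ^ 2) *
      (sa (Complex.exp (I * θ)) * sb (Complex.exp (I * θ))) * Complex.exp (-(2 * (I * θ))) =
      (KR a b c θ : ℂ) + (KJ a b c θ : ℂ) * I)
    (hQ1 : ∀ θ ∈ Icc (0 : ℝ) Real.pi, ∫ φ in (0 : ℝ)..θ, KJ a b c φ ≤ 0)
    (hQπ : ∫ φ in (0 : ℝ)..Real.pi, KJ a b c φ = 0)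
    (hG : LogClass M G) (hGsym : ∀ z ∈ ball (0 : ℂ) 1, G (starRingEnd ℂ z) = starRingEnd ℂ (G z))
    {r : ℝ} (hr0 : 0 < r) (hr1 : r < 1) :
    Real.pi * ((-2 * c - a - b) * (r * ((deriv G 0).re - (deriv g 0).re)) +
      r ^ 2 * ((deriv (deriv G) 0 / 2).re - (deriv (deriv g) 0 / 2).re)) ≤
      Real.log (M / r) * (∫ θ in (0 : ℝ)..Real.pi, KR a b c θ) -
      (∫ θ in (0 : ℝ)..Real.pi, KR a b c θ * (g (r * Complex.exp (I * θ))).re) -
      ∫ θ in (0 : ℝ)..Real.pi, (∫ φ in (0 : ℝ)..θ, KJ a b c φ) * (pc T sa sb (r * Complex.exp (I * θ))).re := by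
  obtain ⟨D, hDdef⟩ : ∃ D : ℂ → ℂ, D = fun z => G (r * z) - g (r * z) := ⟨_, rfl⟩
  have hDdcc : DiffContOnCl ℂ D (ball 0 1) := by
    rw [hDdef]; exact (a11_dil_dcc hG.diff hr0 hr1).sub (a11_dil_dcc hg.diff hr0 hr1)
  have hD0 : D 0 = 0 := by rw [hDdef]; simp [hg.zero, hG.zero]
  have hD1 : HasDerivAt D (r * deriv G 0 - r * deriv g 0) 0 := by
    have := (a11_dil_hasDeriv hG.diff hr0 hr1 (z := 0) (by simp)).sub
      (a11_dil_hasDeriv hg.diff hr0 hr1 (z := 0) (by simp))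
    rw [mul_zero] at this
    rw [hDdef]
    exact this
  have hD2 : HasDerivAt (deriv D) (r ^ 2 * deriv (deriv G) 0 - r ^ 2 * deriv (deriv g) 0) 0 := by
    have e : deriv D =ᶠ[𝓝 0] fun z => deriv (fun z => G (r * z)) z - deriv (fun z => g (r * z)) z := by
      filter_upwards [a11_ball] with z hz
      have hz' : ‖z‖ < 1 := by simpa using hz
      rw [hDdef]
      exact deriv_fun_sub (a11_dil_hasDeriv hG.diff hr0 hr1 hz').differentiableAt
        (a11_dil_hasDeriv hg.diff hr0 hr1 hz').differentiableAt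
    exact ((a11_dil_hasDeriv2 hG.diff hr0 hr1).sub (a11_dil_hasDeriv2 hg.diff hr0 hr1)).congr_of_eventuallyEq e
  have hF : DiffContOnCl ℂ (fun z => ((1 - 2 * (c : ℂ) * z + z ^ 2) * (sa z * sb z)) * D z) (ball 0 1) :=
    (a11_hh_dcc c hsa hsb).smul hDdcc
  have hFs : ∀ z ∈ ball (0 : ℂ) 1, (fun z => ((1 - 2 * (c : ℂ) * z + z ^ 2) * (sa z * sb z)) * D z) (starRingEnd ℂ z) =
      starRingEnd ℂ ((fun z => ((1 - 2 * (c : ℂ) * z + z ^ 2) * (sa z * sb z)) * D z) z) := by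
    intro z hz
    have h1 := a11_hh_symm c hsa hsb z hz
    have h2 : D (starRingEnd ℂ z) = starRingEnd ℂ (D z) := by
      have hz' : (r : ℂ) * z ∈ ball (0 : ℂ) 1 := by
        have : ‖z‖ < 1 := by simpa using hz
        rw [mem_ball_zero_iff, norm_mul, Complex.norm_real, Real.norm_of_nonneg hr0.le]
        nlinarith [norm_nonneg z]
      have e1 := hsym _ hz'
      have e2 := hGsym _ hz'
      rw [map_mul, Complex.conj_ofReal] at e1 e2
      rw [hDdef]
      simp only [map_sub, e1, e2]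
    simp only at h1 ⊢
    rw [h1, h2, map_mul (starRingEnd ℂ) _ (D z)]
  have hC := a11_half hF hFs
  have hhd : ∀ᶠ z in 𝓝 (0 : ℂ), DifferentiableAt ℂ (fun z : ℂ => (1 - 2 * (c : ℂ) * z + z ^ 2) * (sa z * sb z)) z := by
    filter_upwards [a11_ball] with z hz
    exact (a11_hh_dcc c hsa hsb).differentiableAt isOpen_ball hz
  have hDd : ∀ᶠ z in 𝓝 (0 : ℂ), DifferentiableAt ℂ D z := by
    filter_upwards [a11_ball] with z hz
    exact hDdcc.differentiableAt isOpen_ball hz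
  have hDD := a11_deriv2_mul hhd hDd (a11_hh0 c hsa hsb) (a11_hh2 c hsa hsb) hD1 hD2
  rw [hDD.deriv, hD0, hsa.zero, hsb.zero] at hC
  have e6 : ((2 * (2 - ((a : ℂ) - b) ^ 2 / 2 + 2 * c * (a + b))) * 0 +
      2 * (-2 * c - a - b) * (r * deriv G 0 - r * deriv g 0) +
      (1 - 2 * (c : ℂ) * 0 + 0 ^ 2) * (1 * 1) * (r ^ 2 * deriv (deriv G) 0 - r ^ 2 * deriv (deriv g) 0)) / 2 =
      (((-2 * c - a - b) * r : ℝ) : ℂ) * (deriv G 0 - deriv g 0) +
      ((r ^ 2 : ℝ) : ℂ) * (deriv (deriv G) 0 / 2 - deriv (deriv g) 0 / 2) := by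
    push_cast; ring
  rw [e6, Complex.add_re, Complex.re_ofReal_mul, Complex.re_ofReal_mul, Complex.sub_re, Complex.sub_re] at hC
  have hint : ∫ θ in (0 : ℝ)..Real.pi, (((1 - 2 * (c : ℂ) * Complex.exp (I * θ) + Complex.exp (I * θ) ^ 2) *
      (sa (Complex.exp (I * θ)) * sb (Complex.exp (I * θ)))) * D (Complex.exp (I * θ)) *
        Complex.exp (-(2 * (I * θ)))).re =
      ∫ θ in (0 : ℝ)..Real.pi, (KR a b c θ * ((G (r * Complex.exp (I * θ))).re - (g (r * Complex.exp (I * θ))).re)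
        - KJ a b c θ * ((G (r * Complex.exp (I * θ))).im - (g (r * Complex.exp (I * θ))).im)) := by
    apply intervalIntegral.integral_congr
    intro θ hθ
    rw [Set.uIcc_of_le Real.pi_pos.le] at hθ
    simp only
    have h1 := hbd hθ
    have h2 : ((1 - 2 * (c : ℂ) * Complex.exp (I * θ) + Complex.exp (I * θ) ^ 2) *
      (sa (Complex.exp (I * θ)) * sb (Complex.exp (I * θ)))) * D (Complex.exp (I * θ)) *
        Complex.exp (-(2 * (I * θ))) =
        ((KR a b c θ : ℂ) + (KJ a b c θ : ℂ) * I) * D (Complex.exp (I * θ)) := by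
      rw [← h1]; ring
    rw [h2, hDdef]
    simp [Complex.mul_re]
  rw [hint] at hC
  have hgc : ∀ {g : ℂ → ℂ}, DifferentiableOn ℂ g (ball 0 1) → Continuous (fun θ : ℝ => g (r * Complex.exp (I * θ))) := by
    intro g hg
    exact hg.continuousOn.comp_continuous (by fun_prop) (fun θ => a11_circ_mem hr0 hr1 θ)
  have hgc1 := hgc hg.diff
  have hGc1 := hgc hG.diff
  have hgre := Complex.continuous_re.comp hgc1
  have hgim := Complex.continuous_im.comp hgc1
  have hGre := Complex.continuous_re.comp hGc1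
  have hGim := Complex.continuous_im.comp hGc1
  have hKR := a11_KR_cont a b c
  have hKJ := a11_KJ_cont a b c
  simp only [Function.comp_def] at hgre hgim hGre hGim
  -- split
  have hmono : ∫ θ in (0 : ℝ)..Real.pi, (KR a b c θ * ((G (r * Complex.exp (I * θ))).re - (g (r * Complex.exp (I * θ))).re)
        - KJ a b c θ * ((G (r * Complex.exp (I * θ))).im - (g (r * Complex.exp (I * θ))).im)) ≤
      ∫ θ in (0 : ℝ)..Real.pi, (((Real.log (M / r) * KR a b c θ - KR a b c θ * (g (r * Complex.exp (I * θ))).re)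
        - ((G (r * Complex.exp (I * θ))).im + θ) * KJ a b c θ) +
        ((g (r * Complex.exp (I * θ))).im + θ) * KJ a b c θ) := by
    apply intervalIntegral.integral_mono_on Real.pi_pos.le
    · apply Continuous.intervalIntegrable
      fun_prop
    · apply Continuous.intervalIntegrable
      fun_prop
    · intro θ hθ
      have h1 : (G (r * Complex.exp (I * θ))).re ≤ Real.log (M / r) := by
        have hn := a11_circ_norm hr0 θ
        have h3 := hG.bdd _ (a11_circ_mem hr0 hr1 θ) (by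
          intro h
          rw [h] at hn
          simp at hn
          linarith)
        rwa [hn] at h3
      have h2 := a11_KR_nonneg a b c θ
      nlinarith
  rw [hC] at hmono
  rw [intervalIntegral.integral_add, intervalIntegral.integral_sub, intervalIntegral.integral_sub,
    intervalIntegral.integral_const_mul, a11_ibp hQπ hG.diff hr0 hr1, a11_ibp hQπ hg.diff hr0 hr1] at hmono
  · have hneg : 0 ≤ ∫ θ in (0 : ℝ)..Real.pi, -((1 + (r * Complex.exp (I * θ)) * deriv G (r * Complex.exp (I * θ))).re *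
        ∫ φ in (0 : ℝ)..θ, KJ a b c φ) := by
      apply intervalIntegral.integral_nonneg Real.pi_pos.le
      intro θ hθ
      have h1 := hQ1 θ hθ
      have h2 := hG.star _ (a11_circ_mem hr0 hr1 θ)
      nlinarith
    rw [intervalIntegral.integral_neg] at hneg
    have hpc : ∫ θ in (0 : ℝ)..Real.pi, (1 + (r * Complex.exp (I * θ)) * deriv g (r * Complex.exp (I * θ))).re *
        ∫ φ in (0 : ℝ)..θ, KJ a b c φ = 
        ∫ θ in (0 : ℝ)..Real.pi, (∫ φ in (0 : ℝ)..θ, KJ a b c φ) * (pc T sa sb (r * Complex.exp (I * θ))).re := by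
      apply intervalIntegral.integral_congr
      intro θ _
      simp only
      rw [hg.der _ (a11_circ_mem hr0 hr1 θ), mul_comm]
    rw [hpc] at hmono
    linarith
  all_goals
    apply Continuous.intervalIntegrable
    fun_prop

end A11helpers

theorem A11_cert {a b c T l M : ℝ} (hb : -1 < b) (hba : b < a) (ha : a < 1) (hc1 : b ≤ c) (hc2 : c ≤ a) (hM : 0 < M)
    {sa sb g G : ℂ → ℂ} (hsa : Br a sa) (hsb : Br b sb) (hg : GG T sa sb g)
    (hsym : ∀ z ∈ ball (0 : ℂ) 1, g (starRingEnd ℂ z) = starRingEnd ℂ (g z))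
    (hg1 : deriv g 0 = ((a + b - 2 * T : ℝ) : ℂ))
    (hg2 : deriv (deriv g) 0 / 2 = ((3 * (a + b) ^ 2 / 4 - (a + b) * T - a * b : ℝ) : ℂ))
    (hbd : ∀ {θ : ℝ}, θ ∈ Icc (0 : ℝ) Real.pi →
      (1 - 2 * (c : ℂ) * Complex.exp (I * θ) + Complex.exp (I * θ) ^ 2) *
      (sa (Complex.exp (I * θ)) * sb (Complex.exp (I * θ))) * Complex.exp (-(2 * (I * θ))) =
      (KR a b c θ : ℂ) + (KJ a b c θ : ℂ) * I)
    (hQ1 : ∀ θ ∈ Icc (0 : ℝ) Real.pi, ∫ φ in (0 : ℝ)..θ, KJ a b c φ ≤ 0)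
    (hQ2 : ∀ θ ∈ Icc (0 : ℝ) Real.pi, (a ≤ Real.cos θ ∨ Real.cos θ ≤ b) → ∫ φ in (0 : ℝ)..θ, KJ a b c φ = 0)
    (hI2 : ∀ θ ∈ Icc (0 : ℝ) Real.pi, (a ≤ Real.cos θ ∨ Real.cos θ ≤ b) → ∫ φ in (0 : ℝ)..θ, KI a b T φ = 0)
    (h7 : ∀ Q : ℝ → ℝ, Continuous Q → (∀ φ ∈ Icc (0 : ℝ) Real.pi, (a ≤ Real.cos φ ∨ Real.cos φ ≤ b) → Q φ = 0) →
      Tendsto (fun r : ℝ => ∫ φ in (0 : ℝ)..Real.pi, Q φ * (pc T sa sb (r * Complex.exp (I * φ))).re)
        (𝓝[<] 1) (𝓝 0))
    (h10 : ∀ θ ∈ Icc (0 : ℝ) Real.pi, Tendsto (fun r : ℝ => (g (r * Complex.exp (I * θ))).re) (𝓝[<] 1)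
      (𝓝 (l - ∫ φ in (0 : ℝ)..θ, KI a b T φ)))
    (h10b : ∃ C δ : ℝ, δ < 1 ∧ ∀ r : ℝ, δ < r → r < 1 → ∀ θ ∈ Icc (0 : ℝ) Real.pi,
      |(g (r * Complex.exp (I * θ))).re| ≤ C)
    (hG : LogClass M G) (hGsym : ∀ z ∈ ball (0 : ℂ) 1, G (starRingEnd ℂ z) = starRingEnd ℂ (G z)) :
    (deriv (deriv G) 0 / 2).re ≤ (3 * (a + b) ^ 2 / 4 - (a + b) * T - a * b)
      - (-2 * (a + b) - 4 * c) * ((deriv G 0).re / 2 - ((a + b) / 2 - T))
      + (2 - (a - b) ^ 2 / 2 + 2 * c * (a + b)) * (Real.log M - l) := by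
  have hQπ : ∫ φ in (0 : ℝ)..Real.pi, KJ a b c φ = 0 := by
    apply hQ2 Real.pi ⟨Real.pi_pos.le, le_rfl⟩
    right
    rw [Real.cos_pi]; exact hb.le
  have hKR := a11_KR_cont a b c
  have hKJ := a11_KJ_cont a b c
  -- key inequality for r < 1
  have key : ∀ r ∈ Set.Ioo (0 : ℝ) 1, _ := fun r hr =>
    a11_r (l := l) hM hsa hsb hg hsym hbd hQ1 hQπ hG hGsym hr.1 hr.2
  have hQc : Continuous (fun θ => ∫ φ in (0 : ℝ)..θ, KJ a b c φ) :=
    continuous_iff_continuousAt.mpr fun θ => (intervalIntegral.integral_hasDerivAt_right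
      (hKJ.intervalIntegrable _ _) (hKJ.stronglyMeasurableAtFilter _ _) hKJ.continuousAt).continuousAt
  have hlim3 := h7 (fun θ => ∫ φ in (0 : ℝ)..θ, KJ a b c φ) hQc hQ2
  -- the dominated convergence
  have hev : ∀ᶠ r : ℝ in 𝓝[<] 1, r ∈ Set.Ioo (0 : ℝ) 1 := by
    filter_upwards [Ioo_mem_nhdsLT (show (0 : ℝ) < 1 by norm_num)] with r hr using hr
  obtain ⟨C, δ, hδ, hC⟩ := h10b
  have hev2 : ∀ᶠ r : ℝ in 𝓝[<] 1, δ < r := by
    filter_upwards [Ioo_mem_nhdsLT hδ] with r hr using hr.1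
  have hlim2 : Tendsto (fun r : ℝ => ∫ θ in (0 : ℝ)..Real.pi, KR a b c θ * (g (r * Complex.exp (I * θ))).re)
      (𝓝[<] 1) (𝓝 (∫ θ in (0 : ℝ)..Real.pi, KR a b c θ * (l - ∫ φ in (0 : ℝ)..θ, KI a b T φ))) := by
    apply intervalIntegral.tendsto_integral_filter_of_dominated_convergence (fun θ => KR a b c θ * C)
    · filter_upwards [hev] with r hr
      apply Continuous.aestronglyMeasurable
      have hgc1 : Continuous (fun θ : ℝ => g (r * Complex.exp (I * θ))) :=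
        hg.diff.continuousOn.comp_continuous (by fun_prop) (fun θ => a11_circ_mem hr.1 hr.2 θ)
      exact hKR.mul (Complex.continuous_re.comp hgc1)
    · filter_upwards [hev, hev2] with r hr hr2
      apply Eventually.of_forall
      intro θ hθ
      rw [Set.uIoc_of_le Real.pi_pos.le] at hθ
      rw [norm_mul, Real.norm_of_nonneg (a11_KR_nonneg a b c θ), Real.norm_eq_abs]
      exact mul_le_mul_of_nonneg_left (hC r hr2 hr.2 θ ⟨hθ.1.le, hθ.2⟩) (a11_KR_nonneg a b c θ)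
    · exact (hKR.mul continuous_const).intervalIntegrable _ _
    · apply Eventually.of_forall
      intro θ hθ
      rw [Set.uIoc_of_le Real.pi_pos.le] at hθ
      exact (h10 θ ⟨hθ.1.le, hθ.2⟩).const_mul _
  have hval : ∫ θ in (0 : ℝ)..Real.pi, KR a b c θ * (l - ∫ φ in (0 : ℝ)..θ, KI a b T φ) =
      l * ∫ θ in (0 : ℝ)..Real.pi, KR a b c θ := by
    rw [← intervalIntegral.integral_const_mul]
    apply intervalIntegral.integral_congr
    intro θ hθ
    rw [Set.uIcc_of_le Real.pi_pos.le] at hθ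
    simp only
    by_cases h : a ≤ Real.cos θ ∨ Real.cos θ ≤ b
    · rw [hI2 θ hθ h]; ring
    · push Not at h
      have : KR a b c θ = 0 := by
        unfold KR
        rw [Real.sqrt_eq_zero_of_nonpos (by nlinarith [h.1, h.2])]; ring
      rw [this]; ring
  rw [hval] at hlim2
  have hlim1 : Tendsto (fun r : ℝ => Real.log (M / r) * (∫ θ in (0 : ℝ)..Real.pi, KR a b c θ)) (𝓝[<] 1)
      (𝓝 (Real.log M * (∫ θ in (0 : ℝ)..Real.pi, KR a b c θ))) := by
    have : ContinuousAt (fun r : ℝ => Real.log (M / r) * (∫ θ in (0 : ℝ)..Real.pi, KR a b c θ)) 1 := by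
      apply ContinuousAt.mul _ continuousAt_const
      apply ContinuousAt.log
      · apply ContinuousAt.div continuousAt_const continuousAt_id (by norm_num)
      · simp
        exact hM.ne'
    have h2 := this.tendsto
    rw [div_one] at h2
    exact h2.mono_left nhdsWithin_le_nhds
  have hlim0 : Tendsto (fun r : ℝ => Real.pi * ((-2 * c - a - b) * (r * ((deriv G 0).re - (deriv g 0).re)) +
      r ^ 2 * ((deriv (deriv G) 0 / 2).re - (deriv (deriv g) 0 / 2).re))) (𝓝[<] 1)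
      (𝓝 (Real.pi * ((-2 * c - a - b) * (1 * ((deriv G 0).re - (deriv g 0).re)) +
      1 ^ 2 * ((deriv (deriv G) 0 / 2).re - (deriv (deriv g) 0 / 2).re)))) := by
    have : Continuous (fun r : ℝ => Real.pi * ((-2 * c - a - b) * (r * ((deriv G 0).re - (deriv g 0).re)) +
      r ^ 2 * ((deriv (deriv G) 0 / 2).re - (deriv (deriv g) 0 / 2).re))) := by fun_prop
    exact (this.tendsto 1).mono_left nhdsWithin_le_nhds
  have hfin := le_of_tendsto_of_tendsto hlim0 ((hlim1.sub hlim2).sub hlim3) (hev.mono fun r hr => key r hr)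
  rw [a11_intKR hsa hsb hbd, hg1, hg2, Complex.ofReal_re, Complex.ofReal_re] at hfin
  have hpi := Real.pi_pos
  set X := (deriv (deriv G) 0 / 2).re
  set Y := (deriv G 0).re
  have hfin2 : Real.pi * ((-2 * c - a - b) * (1 * (Y - (a + b - 2 * T))) +
      1 ^ 2 * (X - (3 * (a + b) ^ 2 / 4 - (a + b) * T - a * b))) ≤
      Real.pi * ((2 - (a - b) ^ 2 / 2 + 2 * c * (a + b)) * (Real.log M - l)) := by
    linarith
  have := le_of_mul_le_mul_left hfin2 hpi
  linarith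

end A11M
end Pool.Agent.Helper974.Star
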