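import Mathlib
import Pool.Agent.Helper974.Star.Defs
set_option autoImplicit false
open Complex Filter Topology Metric Set MeasureTheory
namespace Pool.Agent.Helper974.Star
namespace A12M

theorem starlike_aux_hasDeriv {h : ℂ → ℂ} (hh : DifferentiableOn ℂ h (ball (0:ℂ) 1)) (z : ℂ)
    (hz : z ∈ ball (0:ℂ) 1) :
    HasDerivAt (fun z => z * Complex.exp (h z)) (Complex.exp (h z) * (1 + z * deriv h z)) z := by
  have h1 : HasDerivAt h (deriv h z) z :=
    (hh.differentiableAt (isOpen_ball.mem_nhds hz)).hasDerivAt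
  have h2 : HasDerivAt (fun z => z * Complex.exp (h z))
      (1 * Complex.exp (h z) + z * (Complex.exp (h z) * deriv h z)) z :=
    (hasDerivAt_id' z).mul h1.cexp
  have h3 : Complex.exp (h z) * (1 + z * deriv h z) =
      1 * Complex.exp (h z) + z * (Complex.exp (h z) * deriv h z) := by ring
  rw [h3]
  exact h2

/-- Noshiro-Warschawski on the left half plane. -/
theorem starlike_aux_inj (F F' : ℂ → ℂ) (hF : ∀ w : ℂ, w.re < 0 → HasDerivAt F (F' w) w)
    (hpos : ∀ w : ℂ, w.re < 0 → 0 < (F' w).re) (w1 w2 : ℂ) (h1 : w1.re < 0) (h2 : w2.re < 0)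
    (he : F w1 = F w2) : w1 = w2 := by
  by_contra hne
  have hd : w2 - w1 ≠ 0 := sub_ne_zero.mpr (Ne.symm hne)
  let g : ℝ → ℝ := fun s => (F (w1 + (s:ℂ) * (w2 - w1)) * (starRingEnd ℂ) (w2 - w1)).re
  have hre : ∀ s : ℝ, s ∈ Icc (0:ℝ) 1 → (w1 + (s:ℂ) * (w2 - w1)).re < 0 := by
    intro s hs
    have : (w1 + (s:ℂ) * (w2 - w1)).re = (1 - s) * w1.re + s * w2.re := by
      simp [Complex.add_re, Complex.mul_re]; ring
    rw [this]
    rcases eq_or_lt_of_le hs.1 with h | h
    · rw [← h]; simpa using h1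
    · have := hs.2
      nlinarith
  have hg : ∀ s : ℝ, s ∈ Icc (0:ℝ) 1 → HasDerivAt g
      ((F' (w1 + (s:ℂ) * (w2 - w1)) * (w2 - w1) * (starRingEnd ℂ) (w2 - w1)).re) s := by
    intro s hs
    have e1 : HasDerivAt (fun s : ℂ => w1 + s * (w2 - w1)) (w2 - w1) (s:ℂ) := by
      have := ((hasDerivAt_id (s:ℂ)).mul_const (w2 - w1)).const_add w1
      simpa using this
    have e2 := (hF _ (hre s hs)).comp (s:ℂ) e1
    have e3 := (e2.mul_const ((starRingEnd ℂ) (w2 - w1))).real_of_complex
    exact e3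
  have hval : ∀ s : ℝ, (F' (w1 + (s:ℂ) * (w2 - w1)) * (w2 - w1) * (starRingEnd ℂ) (w2 - w1)).re
      = (F' (w1 + (s:ℂ) * (w2 - w1))).re * Complex.normSq (w2 - w1) := by
    intro s
    rw [mul_assoc, Complex.mul_conj, Complex.re_mul_ofReal]
  have hcont : ContinuousOn g (Icc (0:ℝ) 1) := fun s hs =>
    (hg s hs).continuousAt.continuousWithinAt
  have hdiff : ∀ s ∈ Ioo (0:ℝ) 1, HasDerivAt g
      ((F' (w1 + (s:ℂ) * (w2 - w1)) * (w2 - w1) * (starRingEnd ℂ) (w2 - w1)).re) s :=
    fun s hs => hg s (Ioo_subset_Icc_self hs)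
  obtain ⟨c, hc, hc2⟩ := exists_hasDerivAt_eq_slope g _ (by norm_num : (0:ℝ) < 1) hcont hdiff
  have h01 : g 1 = g 0 := by
    simp only [g]
    have e : w1 + ((1:ℝ):ℂ) * (w2 - w1) = w2 := by push_cast; ring
    have e' : w1 + ((0:ℝ):ℂ) * (w2 - w1) = w1 := by push_cast; ring
    rw [e, e', he]
  rw [h01, sub_self, zero_div, hval] at hc2
  have hp := hpos _ (hre c (Ioo_subset_Icc_self hc))
  have hn : 0 < Complex.normSq (w2 - w1) := Complex.normSq_pos.mpr hd
  have := mul_pos hp hn
  linarith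

/-- `f z = z exp (h z)` with `Re (z f'/f) > 0` is univalent with image starlike about `0`. -/
theorem starlike_of_pos {h : ℂ → ℂ} (hh : DifferentiableOn ℂ h (ball (0:ℂ) 1))
    (hpos : ∀ z ∈ ball (0:ℂ) 1, 0 < (1 + z * deriv h z).re) :
    InjOn (fun z => z * Complex.exp (h z)) (ball (0:ℂ) 1) ∧
    StarConvex ℝ (0:ℂ) ((fun z => z * Complex.exp (h z)) '' ball (0:ℂ) 1) := by
  have hexp : ∀ w : ℂ, w.re < 0 → Complex.exp w ∈ ball (0:ℂ) 1 := by
    intro w hw
    rw [mem_ball_zero_iff, Complex.norm_exp]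
    rw [← Real.exp_zero]
    exact Real.exp_lt_exp.mpr hw
  have hF : ∀ w : ℂ, w.re < 0 → HasDerivAt (fun w => w + h (Complex.exp w))
      (1 + Complex.exp w * deriv h (Complex.exp w)) w := by
    intro w hw
    have h1 : HasDerivAt h (deriv h (Complex.exp w)) (Complex.exp w) :=
      (hh.differentiableAt (isOpen_ball.mem_nhds (hexp w hw))).hasDerivAt
    have h2 : HasDerivAt (fun w => w + h (Complex.exp w))
        (1 + deriv h (Complex.exp w) * Complex.exp w) w :=
      (hasDerivAt_id' w).add (h1.comp w (Complex.hasDerivAt_exp w))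
    rwa [mul_comm (deriv h (Complex.exp w))] at h2
  constructor
  · intro z1 hz1 z2 hz2 heq
    simp only at heq
    by_cases h1 : z1 = 0
    · subst h1
      rw [zero_mul] at heq
      rcases mul_eq_zero.mp heq.symm with h | h
      · exact h.symm
      · exact absurd h (Complex.exp_ne_zero _)
    by_cases h2 : z2 = 0
    · subst h2
      rw [zero_mul] at heq
      rcases mul_eq_zero.mp heq with h | h
      · exact h
      · exact absurd h (Complex.exp_ne_zero _)
    have hlog : ∀ z : ℂ, z ∈ ball (0:ℂ) 1 → z ≠ 0 → (Complex.log z).re < 0 := by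
      intro z hz hz0
      rw [Complex.log_re]
      rw [mem_ball_zero_iff] at hz
      exact Real.log_neg (norm_pos_iff.mpr hz0) hz
    set w1 := Complex.log z1 with hw1
    set w2 := Complex.log z2 with hw2
    have e1 : Complex.exp w1 = z1 := Complex.exp_log h1
    have e2 : Complex.exp w2 = z2 := Complex.exp_log h2
    have e3 : Complex.exp (w1 + h (Complex.exp w1)) = Complex.exp (w2 + h (Complex.exp w2)) := by
      rw [Complex.exp_add, Complex.exp_add, e1, e2, heq]
    rw [Complex.exp_eq_exp_iff_exists_int] at e3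
    obtain ⟨n, hn⟩ := e3
    have e4 : Complex.exp (w2 + n * (2 * Real.pi * Complex.I)) = Complex.exp w2 := by
      rw [Complex.exp_eq_exp_iff_exists_int]
      exact ⟨n, rfl⟩
    have e5 : w1 = w2 + n * (2 * Real.pi * Complex.I) := by
      apply starlike_aux_inj (fun w => w + h (Complex.exp w))
        (fun w => 1 + Complex.exp w * deriv h (Complex.exp w)) hF
        (fun w hw => hpos _ (hexp w hw))
      · exact hlog z1 hz1 h1
      · have : (w2 + n * (2 * Real.pi * Complex.I)).re = w2.re := by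
          simp [Complex.add_re, Complex.mul_re]
        rw [this]
        exact hlog z2 hz2 h2
      · rw [e4, hn]; ring
    rw [← e1, e5, e4, e2]
  · rw [starConvex_zero_iff]
    rintro _ ⟨z0, hz0, rfl⟩ a ha0 ha1
    set f : ℂ → ℂ := fun z => z * Complex.exp (h z) with hf
    set ρ : ℝ := ‖z0‖ with hρ
    have hρ1 : ρ < 1 := mem_ball_zero_iff.mp hz0
    have hsub : closedBall (0:ℂ) ρ ⊆ ball (0:ℂ) 1 := closedBall_subset_ball hρ1
    have hfd : ∀ z ∈ ball (0:ℂ) 1, HasDerivAt f (Complex.exp (h z) * (1 + z * deriv h z)) z :=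
      fun z hz => starlike_aux_hasDeriv hh z hz
    have hfc : ContinuousOn f (closedBall (0:ℂ) ρ) := fun z hz =>
      (hfd z (hsub hz)).continuousAt.continuousWithinAt
    have hcomp : IsCompact (f '' closedBall (0:ℂ) ρ) := (isCompact_closedBall _ _).image_of_continuousOn hfc
    set w0 : ℂ := f z0 with hw0
    let A : Set ℝ := {u | ((1 - u : ℝ) : ℂ) * w0 ∈ f '' closedBall (0:ℂ) ρ}
    have hAclosed : IsClosed A := by
      apply hcomp.isClosed.preimage
      fun_prop
    have hkey : Icc (0:ℝ) 1 ⊆ A := by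
      apply IsClosed.Icc_subset_of_forall_exists_gt
      · exact hAclosed.inter isClosed_Icc
      · show ((1 - 0 : ℝ) : ℂ) * w0 ∈ f '' closedBall (0:ℂ) ρ
        refine ⟨z0, ?_, by simp [hw0]⟩
        rw [mem_closedBall_zero_iff]
      · rintro x ⟨hxA, hx0, hx1⟩ y hy
        obtain ⟨z, hz, hfz⟩ := hxA
        set t : ℝ := 1 - x with ht
        have ht0 : 0 < t := by rw [ht]; linarith
        have hzD := hsub hz
        have hd := hfd z hzD
        set p : ℂ := 1 + z * deriv h z with hp
        have hpre : 0 < p.re := hpos z hzD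
        have hp0 : p ≠ 0 := by
          intro h0; rw [h0] at hpre; simp at hpre
        have hf'0 : Complex.exp (h z) * p ≠ 0 := mul_ne_zero (Complex.exp_ne_zero _) hp0
        have hstrict : HasStrictDerivAt f (Complex.exp (h z) * p) z := by
          have han : AnalyticAt ℂ f z := by
            have hdo : DifferentiableOn ℂ f (ball (0:ℂ) 1) := fun z hz =>
              (hfd z hz).differentiableAt.differentiableWithinAt
            exact hdo.analyticAt (isOpen_ball.mem_nhds hzD)
          have := han.hasStrictDerivAt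
          rwa [hd.deriv] at this
        set G := hstrict.localInverse f _ z hf'0 with hG
        have hGd : HasStrictDerivAt G (Complex.exp (h z) * p)⁻¹ (f z) :=
          hstrict.to_localInverse hf'0
        have hGr : ∀ᶠ v in nhds (f z), f (G v) = v :=
          hstrict.eventually_right_inverse hf'0
        have hGz : G (f z) = z := by
          exact (hstrict.hasStrictFDerivAt_equiv hf'0).localInverse_apply_image
        -- the curve
        have hcurve : HasDerivAt (fun s : ℝ => G ((s:ℂ) * w0)) ((Complex.exp (h z) * p)⁻¹ * w0) t := by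
          have e1 : HasDerivAt (fun s : ℂ => s * w0) w0 (t:ℂ) := by
            simpa using (hasDerivAt_id (t:ℂ)).mul_const w0
          have e2 : HasDerivAt G (Complex.exp (h z) * p)⁻¹ ((t:ℂ) * w0) := by
            rw [← hfz]; exact hGd.hasDerivAt
          exact (e2.comp (t:ℂ) e1).comp_ofReal
        have hcont : ContinuousAt (fun s : ℝ => G ((s:ℂ) * w0)) t := hcurve.continuousAt
        have hev1 : ∀ᶠ s : ℝ in nhds t, f (G ((s:ℂ) * w0)) = (s:ℂ) * w0 := by
          have hc : ContinuousAt (fun s : ℝ => (s:ℂ) * w0) t := by fun_prop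
          have : Filter.Tendsto (fun s : ℝ => (s:ℂ) * w0) (nhds t) (nhds (f z)) := by
            rw [hfz]; exact hc
          exact this.eventually hGr
        have hval : G ((t:ℂ) * w0) = z := by rw [← hfz]; exact hGz
        have hev2 : ∀ᶠ s : ℝ in nhdsWithin t (Iio t), ‖G ((s:ℂ) * w0)‖ ≤ ρ := by
          have hzle : ‖z‖ ≤ ρ := mem_closedBall_zero_iff.mp hz
          rcases lt_or_eq_of_le hzle with hlt | heq
          · have : ∀ᶠ s : ℝ in nhds t, ‖G ((s:ℂ) * w0)‖ < ρ := by
              apply (hcont.norm).eventually_lt_const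
              show ‖G ((t:ℂ) * w0)‖ < ρ
              rw [hval]; exact hlt
            exact (this.filter_mono nhdsWithin_le_nhds).mono (fun s hs => hs.le)
          · by_cases hz00 : z = 0
            · -- then rho = 0, w0 = 0
              rw [hz00, norm_zero] at heq
              have hz0' : z0 = 0 := by rw [← norm_eq_zero, ← hρ, ← heq]
              have hw00 : w0 = 0 := by rw [hw0, hz0', hf]; simp
              refine Filter.Eventually.of_forall (fun s => ?_)
              have e1 : (s:ℂ) * w0 = (t:ℂ) * w0 := by rw [hw00, mul_zero, mul_zero]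
              rw [e1, hval]
              exact hzle
            · have hnd : HasDerivAt (fun s : ℝ => ‖G ((s:ℂ) * w0)‖ ^ 2)
                  (2 * inner ℝ (G ((t:ℂ) * w0)) ((Complex.exp (h z) * p)⁻¹ * w0)) t :=
                hcurve.norm_sq
              have hposd : 0 < 2 * inner ℝ (G ((t:ℂ) * w0)) ((Complex.exp (h z) * p)⁻¹ * w0) := by
                rw [hval]
                have hw0z : w0 = z * Complex.exp (h z) / t := by
                  have : z * Complex.exp (h z) = (t:ℂ) * w0 := hfz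
                  rw [this]
                  have : (t:ℂ) ≠ 0 := by exact_mod_cast ht0.ne'
                  field_simp
                have e1 : (Complex.exp (h z) * p)⁻¹ * w0 = ((1 / t : ℝ) : ℂ) * (z * p⁻¹) := by
                  rw [hw0z]
                  have h3 := Complex.exp_ne_zero (h z)
                  have : (t:ℂ) ≠ 0 := by exact_mod_cast ht0.ne'
                  push_cast
                  field_simp
                rw [e1, Complex.inner]
                have e2 : (((1 / t : ℝ) : ℂ) * (z * p⁻¹)) * (starRingEnd ℂ) z =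
                    (((1 / t) * Complex.normSq z : ℝ) : ℂ) * p⁻¹ := by
                  push_cast
                  rw [Complex.normSq_eq_conj_mul_self]
                  ring
                rw [e2, Complex.re_ofReal_mul, Complex.inv_re]
                have hz2 : 0 < Complex.normSq z := Complex.normSq_pos.mpr hz00
                have hp2 : 0 < Complex.normSq p := Complex.normSq_pos.mpr hp0
                positivity
              have hlt' : ∀ᶠ s : ℝ in nhdsWithin t (Iio t), ‖G ((s:ℂ) * w0)‖ ^ 2 < ‖G ((t:ℂ) * w0)‖ ^ 2 := by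
                have h1 := (hasDerivAt_iff_tendsto_slope.mp hnd).eventually_const_lt hposd
                have h2 : ∀ᶠ s : ℝ in nhdsWithin t (Iio t), 0 < slope (fun s : ℝ => ‖G ((s:ℂ) * w0)‖ ^ 2) t s :=
                  h1.filter_mono (nhdsWithin_mono _ (fun s hs => ne_of_lt hs))
                have h3 : ∀ᶠ s : ℝ in nhdsWithin t (Iio t), s ∈ Iio t := self_mem_nhdsWithin
                refine (h2.and h3).mono (fun s hs => ?_)
                have h4 := hs.1
                rw [slope_def_field] at h4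
                have h5 : s - t < 0 := sub_neg.mpr hs.2
                by_contra hcon
                push Not at hcon
                have : (‖G ((s:ℂ) * w0)‖ ^ 2 - ‖G ((t:ℂ) * w0)‖ ^ 2) / (s - t) ≤ 0 :=
                  div_nonpos_of_nonneg_of_nonpos (sub_nonneg.mpr hcon) h5.le
                exact absurd h4 (not_lt.mpr this)
              refine hlt'.mono (fun s hs => ?_)
              rw [hval, heq] at hs
              exact (lt_of_pow_lt_pow_left₀ 2 (by rw [hρ]; positivity) hs).le
        have hev3 : ∀ᶠ s : ℝ in nhdsWithin t (Iio t), s ∈ Ioo (1 - y) t := by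
          apply Ioo_mem_nhdsLT
          rw [ht]; have : x < y := hy; linarith
        have hall := ((hev1.filter_mono nhdsWithin_le_nhds).and hev2).and hev3
        obtain ⟨s, ⟨hs1, hs2⟩, hs3⟩ := hall.exists
        refine ⟨1 - s, ?_, ?_, ?_⟩
        · show ((1 - (1 - s) : ℝ) : ℂ) * w0 ∈ f '' closedBall (0:ℂ) ρ
          refine ⟨G ((s:ℂ) * w0), ?_, ?_⟩
          · rw [mem_closedBall_zero_iff]; exact hs2
          · rw [hs1]; congr 2; ring
        · have := hs3.2; rw [ht] at this; linarith
        · have := hs3.1; linarith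
    have hmem : (1 - a) ∈ A := hkey ⟨by linarith, by linarith⟩
    obtain ⟨z, hz, hfz⟩ := hmem
    refine ⟨z, hsub hz, ?_⟩
    rw [hfz, Complex.real_smul]
    congr 2
    ring

/-- third coefficient through the logarithm -/
lemma third_coeff {f g : ℂ → ℂ} (hg : DifferentiableOn ℂ g (ball 0 1)) (hg0 : g 0 = 0)
    (hfg : ∀ z ∈ ball (0 : ℂ) 1, f z = z * Complex.exp (g z)) :
    iteratedDeriv 3 f 0 / 6 = deriv (deriv g) 0 / 2 + (deriv g 0) ^ 2 / 2 := by
  have hb : ball (0 : ℂ) 1 ∈ 𝓝 (0 : ℂ) := isOpen_ball.mem_nhds (by simp)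
  have hopen : ∀ z ∈ ball (0 : ℂ) 1, ball (0 : ℂ) 1 ∈ 𝓝 z := fun z hz => isOpen_ball.mem_nhds hz
  have hg' := hg.deriv isOpen_ball
  have hg'' := hg'.deriv isOpen_ball
  have d0 : ∀ z ∈ ball (0 : ℂ) 1, HasDerivAt g (deriv g z) z := fun z hz =>
    (hg.differentiableAt (hopen z hz)).hasDerivAt
  have d1 : ∀ z ∈ ball (0 : ℂ) 1, HasDerivAt (deriv g) (deriv (deriv g) z) z := fun z hz =>
    (hg'.differentiableAt (hopen z hz)).hasDerivAt
  have d2 : ∀ z ∈ ball (0 : ℂ) 1, HasDerivAt (deriv (deriv g)) (deriv (deriv (deriv g)) z) z := fun z hz =>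
    (hg''.differentiableAt (hopen z hz)).hasDerivAt
  have e0 : ∀ z ∈ ball (0 : ℂ) 1, HasDerivAt f ((1 + z * deriv g z) * Complex.exp (g z)) z := by
    intro z hz
    have h1 := (hasDerivAt_id z).mul (d0 z hz).cexp
    have h2 : f =ᶠ[𝓝 z] fun z => z * Complex.exp (g z) := by
      filter_upwards [hopen z hz] with w hw using hfg w hw
    have h3 := h1.congr_of_eventuallyEq (f₁ := f) h2
    convert! h3 using 1
    simp
    ring
  have e1 : ∀ z ∈ ball (0 : ℂ) 1, HasDerivAt (deriv f)
      ((2 * deriv g z + z * deriv (deriv g) z + z * deriv g z ^ 2) * Complex.exp (g z)) z := by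
    intro z hz
    have h2 : deriv f =ᶠ[𝓝 z] fun z => (1 + z * deriv g z) * Complex.exp (g z) := by
      filter_upwards [hopen z hz] with w hw using (e0 w hw).deriv
    have h1 := ((((hasDerivAt_id z).mul (d1 z hz)).const_add 1).mul (d0 z hz).cexp)
    have h3 := h1.congr_of_eventuallyEq (f₁ := deriv f) h2
    convert! h3 using 1
    simp
    ring
  have e2 : HasDerivAt (deriv (deriv f)) (3 * deriv (deriv g) 0 + 3 * deriv g 0 ^ 2) 0 := by
    have h2 : deriv (deriv f) =ᶠ[𝓝 0] fun z => (2 * deriv g z + z * deriv (deriv g) z + z * deriv g z ^ 2) * Complex.exp (g z) := by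
      filter_upwards [hb] with w hw using (e1 w hw).deriv
    have h00 : (0 : ℂ) ∈ ball (0 : ℂ) 1 := by simp
    have h1 := (((((d1 0 h00).const_mul 2).add ((hasDerivAt_id (0 : ℂ)).mul (d2 0 h00))).add
      ((hasDerivAt_id (0 : ℂ)).mul ((d1 0 h00).pow 2)))).mul (d0 0 h00).cexp
    have h3 := h1.congr_of_eventuallyEq (f₁ := deriv (deriv f)) h2
    convert! h3 using 1
    simp [hg0]
    ring
  have h4 : iteratedDeriv 3 f 0 = deriv (deriv (deriv f)) 0 := by
    rw [iteratedDeriv_eq_iterate]; rfl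
  rw [h4, e2.deriv]
  ring


theorem A12_hasDeriv {G : ℂ → ℂ} (hG : DifferentiableOn ℂ G (ball 0 1)) {z : ℂ}
    (hz : z ∈ ball (0 : ℂ) 1) :
    HasDerivAt (fun z => (G z + starRingEnd ℂ (G (starRingEnd ℂ z))) / 2)
      ((deriv G z + starRingEnd ℂ (deriv G (starRingEnd ℂ z))) / 2) z := by
  have hz' : starRingEnd ℂ z ∈ ball (0 : ℂ) 1 := by
    rw [mem_ball_zero_iff] at hz ⊢
    rwa [RCLike.norm_conj]
  have h1 : HasDerivAt G (deriv G z) z :=
    (hG.differentiableAt (isOpen_ball.mem_nhds hz)).hasDerivAt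
  have h2 : HasDerivAt G (deriv G (starRingEnd ℂ z)) (starRingEnd ℂ z) :=
    (hG.differentiableAt (isOpen_ball.mem_nhds hz')).hasDerivAt
  have h3 := h2.conj_conj
  rw [Complex.conj_conj] at h3
  have h4 : HasDerivAt (fun z => starRingEnd ℂ (G (starRingEnd ℂ z)))
      (starRingEnd ℂ (deriv G (starRingEnd ℂ z))) z := h3
  exact (h1.add h4).div_const 2

theorem A12_sym {M : ℝ} {G : ℂ → ℂ} (hG : LogClass M G) :
    ∃ G' : ℂ → ℂ, LogClass M G' ∧ (∀ z ∈ ball (0 : ℂ) 1, G' (starRingEnd ℂ z) = starRingEnd ℂ (G' z)) ∧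
      (deriv G' 0).re = (deriv G 0).re ∧ (deriv (deriv G') 0 / 2).re = (deriv (deriv G) 0 / 2).re := by
  have hball : ∀ z ∈ ball (0 : ℂ) 1, starRingEnd ℂ z ∈ ball (0 : ℂ) 1 := by
    intro z hz
    rw [mem_ball_zero_iff] at hz ⊢
    rwa [RCLike.norm_conj]
  have h00 : (0 : ℂ) ∈ ball (0 : ℂ) 1 := by simp
  set G' : ℂ → ℂ := fun z => (G z + starRingEnd ℂ (G (starRingEnd ℂ z))) / 2 with hG'
  have hder : ∀ z ∈ ball (0 : ℂ) 1, HasDerivAt G'
      ((deriv G z + starRingEnd ℂ (deriv G (starRingEnd ℂ z))) / 2) z :=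
    fun z hz => A12_hasDeriv hG.diff hz
  have hder2 : HasDerivAt (deriv G') ((deriv (deriv G) 0 +
      starRingEnd ℂ (deriv (deriv G) (starRingEnd ℂ 0))) / 2) 0 := by
    have h1 := A12_hasDeriv (hG.diff.deriv isOpen_ball) h00
    refine h1.congr_of_eventuallyEq ?_
    filter_upwards [isOpen_ball.mem_nhds h00] with z hz
    exact (hder z hz).deriv
  refine ⟨G', ⟨?_, ?_, ?_, ?_⟩, ?_, ?_, ?_⟩
  · intro z hz
    exact (hder z hz).differentiableAt.differentiableWithinAt
  · simp [hG', hG.zero]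
  · intro z hz
    rw [(hder z hz).deriv]
    have h1 := hG.star z hz
    have h2 := hG.star _ (hball z hz)
    have e : (1 + z * ((deriv G z + starRingEnd ℂ (deriv G (starRingEnd ℂ z))) / 2)) =
        ((1 + z * deriv G z) + starRingEnd ℂ (1 + starRingEnd ℂ z * deriv G (starRingEnd ℂ z))) / 2 := by
      rw [map_add, map_mul, map_one, Complex.conj_conj]
      ring
    rw [e]
    have e2 : (((1 + z * deriv G z) +
        starRingEnd ℂ (1 + starRingEnd ℂ z * deriv G (starRingEnd ℂ z))) / 2).re =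
        ((1 + z * deriv G z).re + (1 + starRingEnd ℂ z * deriv G (starRingEnd ℂ z)).re) / 2 := by
      rw [show (2 : ℂ) = ((2 : ℝ) : ℂ) by norm_num, Complex.div_ofReal_re, Complex.add_re,
        Complex.conj_re]
    rw [e2]
    linarith
  · intro z hz hz0
    have h1 := hG.bdd z hz hz0
    have h2 := hG.bdd _ (hball z hz) (by simpa using hz0)
    rw [RCLike.norm_conj] at h2
    have e2 : (G' z).re = ((G z).re + (G (starRingEnd ℂ z)).re) / 2 := by
      rw [hG']
      show ((G z + starRingEnd ℂ (G (starRingEnd ℂ z))) / 2).re = _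
      rw [show (2 : ℂ) = ((2 : ℝ) : ℂ) by norm_num, Complex.div_ofReal_re, Complex.add_re,
        Complex.conj_re]
    rw [e2]
    linarith
  · intro z _
    rw [hG']
    show (G (starRingEnd ℂ z) + starRingEnd ℂ (G (starRingEnd ℂ (starRingEnd ℂ z)))) / 2 =
      starRingEnd ℂ ((G z + starRingEnd ℂ (G (starRingEnd ℂ z))) / 2)
    rw [Complex.conj_conj, map_div₀, map_add, Complex.conj_conj]
    have : starRingEnd ℂ (2 : ℂ) = 2 := by
      rw [show (2 : ℂ) = ((2 : ℝ) : ℂ) by norm_num, Complex.conj_ofReal]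
    rw [this]
    ring
  · rw [(hder 0 h00).deriv, map_zero, show (2 : ℂ) = ((2 : ℝ) : ℂ) by norm_num,
      Complex.div_ofReal_re, Complex.add_re, Complex.conj_re]
    ring
  · rw [hder2.deriv, map_zero, show (2 : ℂ) = ((2 : ℝ) : ℂ) by norm_num,
      Complex.div_ofReal_re, Complex.div_ofReal_re, Complex.div_ofReal_re, Complex.add_re,
      Complex.conj_re]
    ring

theorem A14_mem {l : ℝ} {g : ℂ → ℂ} (hd : DifferentiableOn ℂ g (ball 0 1)) (h0 : g 0 = 0)
    (hpos : ∀ z ∈ ball (0 : ℂ) 1, 0 < (1 + z * deriv g z).re) (hle : ∀ z ∈ ball (0 : ℂ) 1, (g z).re ≤ l) :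
    LogClass (Real.exp l) g ∧ ∃ f : ℂ → ℂ, (∀ z ∈ ball (0 : ℂ) 1, f z = z * Complex.exp (g z)) ∧
      DifferentiableOn ℂ f (ball 0 1) ∧ InjOn f (ball 0 1) ∧ f 0 = 0 ∧ deriv f 0 = 1 ∧
      StarConvex ℝ (0 : ℂ) (f '' ball 0 1) ∧ (∀ z ∈ ball (0 : ℂ) 1, ‖f z‖ ≤ Real.exp l) ∧
      iteratedDeriv 3 f 0 / 6 = deriv (deriv g) 0 / 2 + (deriv g 0) ^ 2 / 2 := by
  have h00 : (0 : ℂ) ∈ ball (0 : ℂ) 1 := by simp
  refine ⟨⟨hd, h0, fun z hz => (hpos z hz).le, ?_⟩, fun z => z * Complex.exp (g z),
    fun z _ => rfl, ?_, (starlike_of_pos hd hpos).1, by simp, ?_, (starlike_of_pos hd hpos).2, ?_,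
    third_coeff hd h0 (fun z _ => rfl)⟩
  · intro z hz hz0
    rw [mem_ball_zero_iff] at hz
    have hzp : 0 < ‖z‖ := norm_pos_iff.2 hz0
    rw [Real.log_div (Real.exp_pos l).ne' hzp.ne', Real.log_exp]
    have h1 := Real.log_nonpos hzp.le hz.le
    have h2 := hle z (mem_ball_zero_iff.2 hz)
    linarith
  · intro z hz
    exact (starlike_aux_hasDeriv hd z hz).differentiableAt.differentiableWithinAt
  · rw [(starlike_aux_hasDeriv hd 0 h00).deriv, h0]
    simp
  · intro z hz
    rw [norm_mul, Complex.norm_exp]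
    have h1 := Real.exp_le_exp.2 (hle z hz)
    rw [mem_ball_zero_iff] at hz
    have h2 : 0 < Real.exp (g z).re := Real.exp_pos _
    nlinarith [norm_nonneg z]

end A12M
end Pool.Agent.Helper974.Star
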