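import Mathlib
import Pool.Agent.Helper974.Star.Defs
set_option autoImplicit false
open Complex Filter Topology Metric Set MeasureTheory
namespace Pool.Agent.Helper974.Star
namespace A1M

theorem a1_R {w : ℝ} (hw1 : -2 < w) (hw2 : w < 2) {z : ℂ} (hz : ‖z‖ < 1) :
    z ^ 2 - (w : ℂ) * z + 1 ≠ 0 := by
  intro h
  have hre := congrArg Complex.re h
  have him := congrArg Complex.im h
  have hn : z.re ^ 2 + z.im ^ 2 < 1 := by
    have h1 : ‖z‖ ^ 2 < 1 ^ 2 := pow_lt_pow_left₀ hz (norm_nonneg _) two_ne_zero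
    rw [Complex.sq_norm, Complex.normSq_apply] at h1
    nlinarith
  simp only [pow_two, Complex.add_re, Complex.sub_re, Complex.mul_re, Complex.ofReal_re,
    Complex.ofReal_im, Complex.one_re, Complex.zero_re] at hre
  simp only [pow_two, Complex.add_im, Complex.sub_im, Complex.mul_im, Complex.ofReal_re,
    Complex.ofReal_im, Complex.one_im, Complex.zero_im] at him
  have h2 : z.im * (2 * z.re - w) = 0 := by linarith
  rcases mul_eq_zero.1 h2 with h3 | h3
  · rw [h3] at hre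
    nlinarith [sq_nonneg (z.re - w / 2), mul_pos (sub_pos.2 hw1) (sub_pos.2 hw2)]
  · have h4 : w = 2 * z.re := by linarith
    rw [h4] at hre
    nlinarith

theorem a1_ne {a : ℝ} (ha1 : -1 < a) (ha2 : a < 1) {z : ℂ} (hz : ‖z‖ < 1) :
    1 - 2 * (a : ℂ) * z + z ^ 2 ≠ 0 := by
  intro h
  apply a1_R (w := 2 * a) (by linarith) (by linarith) hz
  push_cast
  linear_combination h

/-- the real quadratic has only roots in the gap -/
theorem a1_quad {a b T y : ℝ} (hb : -1 < b) (hba : b < a) (ha : a < 1) (hT1 : b ≤ T) (hT2 : T ≤ a)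
    {w : ℂ} (h : (w - 2 * (T : ℂ)) ^ 2 + (y : ℂ) ^ 2 * ((w - 2 * (a : ℂ)) * (w - 2 * (b : ℂ))) = 0) :
    w.im = 0 ∧ -2 < w.re ∧ w.re < 2 := by
  have hre := congrArg Complex.re h
  have him := congrArg Complex.im h
  have e2re : ((2:ℂ)).re = 2 := rfl
  have e2im : ((2:ℂ)).im = 0 := rfl
  simp only [pow_two, Complex.add_re, Complex.sub_re, Complex.mul_re, Complex.ofReal_re,
    Complex.ofReal_im, Complex.zero_re, Complex.sub_im, Complex.mul_im, e2re, e2im] at hre
  simp only [pow_two, Complex.add_im, Complex.sub_im, Complex.mul_im, Complex.ofReal_re,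
    Complex.ofReal_im, Complex.zero_im, Complex.sub_re, Complex.mul_re, e2re, e2im] at him
  set w1 := w.re
  set w2 := w.im
  have hre' : (w1 - 2 * T) ^ 2 - w2 ^ 2 + y ^ 2 * ((w1 - 2 * a) * (w1 - 2 * b) - w2 ^ 2) = 0 := by
    linear_combination hre
  have him' : w2 * (2 * (w1 - 2 * T) + y ^ 2 * (2 * w1 - 2 * a - 2 * b)) = 0 := by
    linear_combination him
  have hy : 0 ≤ y ^ 2 := sq_nonneg y
  have hw2 : w2 = 0 := by
    by_contra hne
    have h1 : 2 * (w1 - 2 * T) + y ^ 2 * (2 * w1 - 2 * a - 2 * b) = 0 :=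
      (mul_eq_zero.1 him').resolve_left hne
    have h2 : 0 < w2 ^ 2 := by positivity
    have h3 : (1 + y ^ 2) * w2 ^ 2 + (1 + y ^ 2) * (2 * T - w1) ^ 2 =
        y ^ 2 * ((2 * T - 2 * a) * (2 * T - 2 * b)) := by
      linear_combination -hre' - (2 * T - w1) * h1
    have h4 : y ^ 2 * ((2 * T - 2 * a) * (2 * T - 2 * b)) ≤ 0 := by
      apply mul_nonpos_of_nonneg_of_nonpos hy
      nlinarith
    have h5 : 0 < (1 + y ^ 2) * w2 ^ 2 := by positivity
    have h6 : 0 ≤ (1 + y ^ 2) * (2 * T - w1) ^ 2 := by positivity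
    linarith
  refine ⟨hw2, ?_, ?_⟩
  · by_contra hcon
    push Not at hcon
    rw [hw2] at hre'
    have h1 : 0 < (w1 - 2 * T) ^ 2 := by
      have : w1 - 2 * T ≠ 0 := by
        intro h0
        linarith
      positivity
    have h2 : 0 ≤ y ^ 2 * ((w1 - 2 * a) * (w1 - 2 * b)) := by
      apply mul_nonneg hy
      nlinarith
    nlinarith
  · by_contra hcon
    push Not at hcon
    rw [hw2] at hre'
    have h1 : 0 < (w1 - 2 * T) ^ 2 := by
      have : w1 - 2 * T ≠ 0 := by
        intro h0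
        linarith
      positivity
    have h2 : 0 ≤ y ^ 2 * ((w1 - 2 * a) * (w1 - 2 * b)) := by
      apply mul_nonneg hy
      apply mul_nonneg <;> linarith
    nlinarith

theorem a1_ne_zero {a b T : ℝ} (hb : -1 < b) (hba : b < a) (ha : a < 1) (hT1 : b ≤ T) (hT2 : T ≤ a)
    {sa sb : ℂ → ℂ} (hsa : Br a sa) (hsb : Br b sb) {z : ℂ} (hz : ‖z‖ < 1) :
    (pc T sa sb z).re ≠ 0 := by
  intro h
  have hsa0 : sa z ≠ 0 := by
    intro h0
    have := hsa.sq z
    rw [h0] at this
    exact a1_ne (by linarith) ha hz (by rw [← this]; simp)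
  have hsb0 : sb z ≠ 0 := by
    intro h0
    have := hsb.sq z
    rw [h0] at this
    exact a1_ne hb (by linarith) hz (by rw [← this]; simp)
  set y := (pc T sa sb z).im with hy
  have hpc : pc T sa sb z = (y : ℂ) * I := by
    apply Complex.ext
    · rw [h]; simp
    · simp [hy]
  have hz0 : z ≠ 0 := by
    rintro rfl
    unfold pc at h
    rw [hsa.zero, hsb.zero] at h
    simp at h
  have hN : 1 - 2 * (T : ℂ) * z + z ^ 2 = (y : ℂ) * I * (sa z * sb z) := by
    rw [← hpc]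
    unfold pc
    rw [div_mul_cancel₀ _ (mul_ne_zero hsa0 hsb0)]
  have hN2 : (1 - 2 * (T : ℂ) * z + z ^ 2) ^ 2 +
      (y : ℂ) ^ 2 * ((1 - 2 * (a : ℂ) * z + z ^ 2) * (1 - 2 * (b : ℂ) * z + z ^ 2)) = 0 := by
    rw [hN, ← hsa.sq z, ← hsb.sq z]
    linear_combination ((y : ℂ) ^ 2 * (sa z * sb z) ^ 2) * Complex.I_sq
  set w : ℂ := z + z⁻¹ with hw
  have hzw : z * w = z ^ 2 + 1 := by
    rw [hw, mul_add, mul_inv_cancel₀ hz0]
    ring
  have hq : (w - 2 * (T : ℂ)) ^ 2 + (y : ℂ) ^ 2 * ((w - 2 * (a : ℂ)) * (w - 2 * (b : ℂ))) = 0 := by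
    have e1 : ∀ c : ℂ, 1 - 2 * c * z + z ^ 2 = z * (w - 2 * c) := by
      intro c
      linear_combination -hzw
    rw [e1, e1, e1] at hN2
    have h1 : z ^ 2 * ((w - 2 * (T : ℂ)) ^ 2 +
        (y : ℂ) ^ 2 * ((w - 2 * (a : ℂ)) * (w - 2 * (b : ℂ)))) = 0 := by
      linear_combination hN2
    exact (mul_eq_zero.1 h1).resolve_left (pow_ne_zero 2 hz0)
  obtain ⟨h1, h2, h3⟩ := a1_quad hb hba ha hT1 hT2 hq
  apply a1_R h2 h3 hz
  have h4 : ((w.re : ℝ) : ℂ) = w := by
    apply Complex.ext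
    · simp
    · simp [h1]
  rw [h4]
  linear_combination -hzw

theorem A1_re_pos {a b T : ℝ} (hb : -1 < b) (hba : b < a) (ha : a < 1) (hT1 : b ≤ T) (hT2 : T ≤ a)
    {sa sb : ℂ → ℂ} (hsa : Br a sa) (hsb : Br b sb) {z : ℂ} (hz : z ∈ ball (0 : ℂ) 1) :
    0 < (pc T sa sb z).re := by
  have hcont : ContinuousOn (fun z => (pc T sa sb z).re) (ball (0 : ℂ) 1) := by
    apply Complex.continuous_re.comp_continuousOn
    unfold pc
    apply ContinuousOn.div
    · fun_prop
    · exact (hsa.dcc.differentiableOn.continuousOn).mul (hsb.dcc.differentiableOn.continuousOn)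
    · intro x hx
      have hx' : ‖x‖ < 1 := mem_ball_zero_iff.1 hx
      apply mul_ne_zero
      · intro h0
        have := hsa.sq x
        rw [h0] at this
        exact a1_ne (by linarith) ha hx' (by rw [← this]; simp)
      · intro h0
        have := hsb.sq x
        rw [h0] at this
        exact a1_ne hb (by linarith) hx' (by rw [← this]; simp)
  by_contra hcon
  push Not at hcon
  have h0 : (pc T sa sb 0).re = 1 := by
    unfold pc
    rw [hsa.zero, hsb.zero]
    simp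
  have hivt := (convex_ball (0 : ℂ) 1).isPreconnected.intermediate_value hz
    (mem_ball_self one_pos) hcont
  obtain ⟨x, hx, hxr⟩ := hivt (show (0:ℝ) ∈ Icc _ _ from ⟨hcon, by rw [h0]; exact zero_le_one⟩)
  exact a1_ne_zero hb hba ha hT1 hT2 hsa hsb (mem_ball_zero_iff.1 hx) hxr

end A1M
end Pool.Agent.Helper974.Star
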