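import Mathlib
import Pool.Agent.Helper974.Star.Defs
set_option autoImplicit false
open Complex Filter Topology Metric Set MeasureTheory
namespace Pool.Agent.Helper974.Star
namespace A2M

theorem A2_lower {a : ℝ} (h1 : -1 ≤ a) (h2 : a ≤ 1) {r θ : ℝ} (h0 : 0 ≤ r) (h3 : r ≤ 1) :
    |Real.cos θ - a| / 2 ≤ ‖1 - 2 * (a : ℂ) * (r * Complex.exp (I * θ)) + (r * Complex.exp (I * θ)) ^ 2‖ := by
  set e : ℂ := Complex.exp (I * θ) with he
  set ζ : ℂ := Complex.exp (I * (Real.arccos a : ℝ)) with hζ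
  set ζ' : ℂ := Complex.exp (-(I * (Real.arccos a : ℝ))) with hζ'
  have hen : ‖e‖ = 1 := by
    rw [he, mul_comm]; exact Complex.norm_exp_ofReal_mul_I θ
  have hζn : ‖ζ‖ = 1 := by
    rw [hζ, mul_comm]; exact Complex.norm_exp_ofReal_mul_I _
  have hζn' : ‖ζ'‖ = 1 := by
    have : -(I * (Real.arccos a : ℝ)) = ((-Real.arccos a : ℝ) : ℂ) * I := by push_cast; ring
    rw [hζ', this]; exact Complex.norm_exp_ofReal_mul_I _
  have hprod : ζ * ζ' = 1 := by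
    rw [hζ, hζ', ← Complex.exp_add, add_neg_cancel, Complex.exp_zero]
  have hsum : ζ + ζ' = 2 * (a : ℂ) := by
    have h := Complex.two_cos ((Real.arccos a : ℝ) : ℂ)
    rw [← Complex.ofReal_cos, Real.cos_arccos h1 h2] at h
    rw [h, hζ, hζ']
    congr 2 <;> ring
  have hfac : ∀ z : ℂ, 1 - 2 * (a : ℂ) * z + z ^ 2 = (z - ζ) * (z - ζ') := by
    intro z
    rw [← hsum]
    linear_combination -hprod
  have hhalf : ∀ w : ℂ, ‖w‖ = 1 → ‖e - w‖ ≤ 2 * ‖(r : ℂ) * e - w‖ := by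
    intro w hw
    have hre : ‖(r : ℂ) * e‖ = r := by
      rw [norm_mul, hen, mul_one, Complex.norm_real, Real.norm_of_nonneg h0]
    have h4 : ‖e - r * e‖ = 1 - r := by
      have : e - r * e = ((1 - r : ℝ) : ℂ) * e := by push_cast; ring
      rw [this, norm_mul, hen, mul_one, Complex.norm_real, Real.norm_of_nonneg (by linarith)]
    have h5 : ‖e - w‖ ≤ ‖e - r * e‖ + ‖(r : ℂ) * e - w‖ := by
      have : e - w = (e - r * e) + (r * e - w) := by ring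
      rw [this]; exact norm_add_le _ _
    have h6 : ‖w‖ - ‖(r : ℂ) * e‖ ≤ ‖(r : ℂ) * e - w‖ := by
      rw [norm_sub_rev]; exact norm_sub_norm_le _ _
    rw [hw, hre] at h6
    rw [h4] at h5
    linarith
  have he2 : ‖(e - ζ) * (e - ζ')‖ = 2 * |Real.cos θ - a| := by
    rw [← hfac]
    have h7 : 1 - 2 * (a : ℂ) * e + e ^ 2 = e * ((2 * (Real.cos θ - a) : ℝ) : ℂ) := by
      have h := Complex.two_cos ((θ : ℝ) : ℂ)
      have h8 : Complex.exp (-(θ : ℂ) * I) * e = 1 := by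
        rw [he, ← Complex.exp_add]
        have : -(θ : ℂ) * I + I * θ = 0 := by ring
        rw [this, Complex.exp_zero]
      have h9 : Complex.exp ((θ : ℂ) * I) = e := by rw [he, mul_comm]
      rw [h9] at h
      push_cast
      have h10 : (2 : ℂ) * (Complex.cos θ - a) = (e + Complex.exp (-(θ : ℂ) * I)) - 2 * a := by
        rw [← h]; ring
      rw [h10]
      linear_combination -h8
    rw [h7, norm_mul, hen, one_mul, Complex.norm_real, Real.norm_eq_abs, abs_mul]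
    norm_num
  rw [hfac, norm_mul]
  rw [norm_mul] at he2
  have h11 := hhalf ζ hζn
  have h12 := hhalf ζ' hζn'
  have h13 : ‖e - ζ‖ * ‖e - ζ'‖ ≤ (2 * ‖(r : ℂ) * e - ζ‖) * (2 * ‖(r : ℂ) * e - ζ'‖) :=
    mul_le_mul h11 h12 (norm_nonneg _) (by positivity)
  rw [he2] at h13
  linarith

theorem A2_bound {a b T : ℝ} (hb : -1 < b) (hba : b < a) (ha : a < 1) (hT : |T| ≤ 1)
    {sa sb : ℂ → ℂ} (hsa : Br a sa) (hsb : Br b sb) {r θ : ℝ} (h0 : 0 ≤ r) (h3 : r ≤ 1)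
    (h4 : Real.cos θ ≠ a) (h5 : Real.cos θ ≠ b) :
    ‖pc T sa sb (r * Complex.exp (I * θ))‖ ≤ 8 / Real.sqrt (|Real.cos θ - a| * |Real.cos θ - b|) := by
  have la := A2_lower (a := a) (by linarith) ha.le (r := r) (θ := θ) h0 h3
  have lb := A2_lower (a := b) hb.le (by linarith) (r := r) (θ := θ) h0 h3
  rw [← hsa.sq, norm_pow] at la
  rw [← hsb.sq, norm_pow] at lb
  set z : ℂ := r * Complex.exp (I * θ) with hz
  have hzn : ‖z‖ ≤ 1 := by
    rw [hz, norm_mul, mul_comm I, Complex.norm_exp_ofReal_mul_I, mul_one, Complex.norm_real,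
      Real.norm_of_nonneg h0]
    exact h3
  have hpa : 0 < |Real.cos θ - a| := abs_pos.2 (sub_ne_zero.2 h4)
  have hpb : 0 < |Real.cos θ - b| := abs_pos.2 (sub_ne_zero.2 h5)
  set P := |Real.cos θ - a| * |Real.cos θ - b| with hP
  have hPpos : 0 < P := mul_pos hpa hpb
  have hnum : ‖1 - 2 * (T : ℂ) * z + z ^ 2‖ ≤ 4 := by
    have h6 : ‖1 - 2 * (T : ℂ) * z + z ^ 2‖ ≤ ‖(1 : ℂ) - 2 * (T : ℂ) * z‖ + ‖z ^ 2‖ := norm_add_le _ _
    have h7 : ‖(1 : ℂ) - 2 * (T : ℂ) * z‖ ≤ ‖(1 : ℂ)‖ + ‖2 * (T : ℂ) * z‖ := norm_sub_le _ _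
    have h8 : ‖2 * (T : ℂ) * z‖ ≤ 2 := by
      rw [norm_mul, norm_mul, Complex.norm_real, Real.norm_eq_abs]
      have : ‖(2 : ℂ)‖ = 2 := by norm_num
      rw [this]
      have : |T| * ‖z‖ ≤ 1 := mul_le_one₀ hT (norm_nonneg _) hzn
      linarith
    have h9 : ‖z ^ 2‖ ≤ 1 := by
      rw [norm_pow]
      exact pow_le_one₀ (norm_nonneg _) hzn
    rw [norm_one] at h7
    linarith
  have hden : Real.sqrt P / 2 ≤ ‖sa z‖ * ‖sb z‖ := by
    have h10 : (Real.sqrt P / 2) ^ 2 ≤ (‖sa z‖ * ‖sb z‖) ^ 2 := by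
      rw [div_pow, Real.sq_sqrt hPpos.le, mul_pow]
      calc P / 2 ^ 2 = (|Real.cos θ - a| / 2) * (|Real.cos θ - b| / 2) := by rw [hP]; ring
        _ ≤ ‖sa z‖ ^ 2 * ‖sb z‖ ^ 2 := mul_le_mul la lb (by positivity) (by positivity)
    exact (pow_le_pow_iff_left₀ (by positivity) (by positivity) two_ne_zero).1 h10
  have hs : 0 < Real.sqrt P := Real.sqrt_pos.2 hPpos
  unfold pc
  rw [norm_div, norm_mul]
  calc ‖1 - 2 * (T : ℂ) * z + z ^ 2‖ / (‖sa z‖ * ‖sb z‖) ≤ 4 / (Real.sqrt P / 2) :=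
        div_le_div₀ (by norm_num) hnum (by positivity) hden
    _ = 8 / Real.sqrt P := by
        field_simp
        norm_num

end A2M
end Pool.Agent.Helper974.Star
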