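import Mathlib
import Pool.Agent.Helper974.Star.Defs
set_option autoImplicit false
open Complex Filter Topology Metric Set MeasureTheory
namespace Pool.Agent.Helper974.Star
namespace A3M

namespace A3Aux

theorem lower {c : ℝ} (h1 : -1 < c) (h2 : c < 1) :
    ∃ k : ℝ, 0 < k ∧ ∀ t ∈ Icc (0 : ℝ) Real.pi, k * |t - Real.arccos c| ≤ |Real.cos t - c| := by
  set p := Real.arccos c with hp
  have hp0 : 0 < p := Real.arccos_pos.2 h2
  have hp1 : p < Real.pi := by
    refine lt_of_le_of_ne (Real.arccos_le_pi c) ?_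
    intro h
    have := Real.arccos_eq_pi.1 h
    linarith
  have hc : Real.cos p = c := Real.cos_arccos h1.le h2.le
  have hpi := Real.pi_pos
  set m : ℝ := min p (Real.pi - p) / Real.pi with hm
  have hm0 : 0 < m := div_pos (lt_min hp0 (by linarith)) hpi
  refine ⟨2 / Real.pi * m, by positivity, ?_⟩
  rintro t ⟨ht0, ht1⟩
  have e : Real.cos t - c = -2 * Real.sin ((t + p) / 2) * Real.sin ((t - p) / 2) := by
    rw [← hc, Real.cos_sub_cos]
  have s1 : |t - p| / Real.pi ≤ |Real.sin ((t - p) / 2)| := by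
    have h3 : |(t - p) / 2| ≤ Real.pi / 2 := by
      rw [abs_le]
      constructor <;> linarith
    have h4 := Real.mul_abs_le_abs_sin h3
    rw [abs_div, abs_two] at h4
    refine le_trans (le_of_eq ?_) h4
    field_simp
  have s2 : m ≤ Real.sin ((t + p) / 2) := by
    have hmle1 : m ≤ p / Real.pi := by
      rw [hm]
      gcongr
      exact min_le_left _ _
    have hmle2 : m ≤ (Real.pi - p) / Real.pi := by
      rw [hm]
      gcongr
      exact min_le_right _ _
    by_cases hle : (t + p) / 2 ≤ Real.pi / 2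
    · have h5 := Real.mul_le_sin (x := (t + p) / 2) (by linarith) hle
      refine hmle1.trans (le_trans ?_ h5)
      rw [div_le_iff₀ hpi]
      have : 2 / Real.pi * ((t + p) / 2) * Real.pi = t + p := by field_simp
      rw [this]
      linarith
    · rw [not_le] at hle
      have h5 := Real.mul_le_sin (x := Real.pi - (t + p) / 2) (by linarith) (by linarith)
      rw [Real.sin_pi_sub] at h5
      refine hmle2.trans (le_trans ?_ h5)
      rw [div_le_iff₀ hpi]
      have : 2 / Real.pi * (Real.pi - (t + p) / 2) * Real.pi = 2 * Real.pi - (t + p) := by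
        field_simp
      rw [this]
      linarith
  rw [e, abs_mul, abs_mul, abs_neg, abs_two]
  have s3 : m ≤ |Real.sin ((t + p) / 2)| := s2.trans (le_abs_self _)
  have s4 := mul_le_mul s3 s1 (by positivity) (abs_nonneg _)
  calc 2 / Real.pi * m * |t - p| = 2 * (m * (|t - p| / Real.pi)) := by ring
    _ ≤ 2 * (|Real.sin ((t + p) / 2)| * |Real.sin ((t - p) / 2)|) := by linarith
    _ = _ := by ring

/-- the dominating function -/
noncomputable def w (x : ℝ) : ℝ := |x ^ (-(1 / 2) : ℝ)| + |(-x) ^ (-(1 / 2) : ℝ)|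

theorem w_ge (x : ℝ) : (Real.sqrt |x|)⁻¹ ≤ w x := by
  have key : ∀ y : ℝ, 0 ≤ y → (Real.sqrt y)⁻¹ = y ^ (-(1 / 2) : ℝ) := by
    intro y hy
    rw [Real.rpow_neg hy, Real.sqrt_eq_rpow]
  unfold w
  rcases le_total 0 x with h | h
  · rw [abs_of_nonneg h, key x h]
    have := le_abs_self (x ^ (-(1 / 2) : ℝ))
    have := abs_nonneg ((-x) ^ (-(1 / 2) : ℝ))
    linarith
  · rw [abs_of_nonpos h, key (-x) (by linarith)]
    have := le_abs_self ((-x) ^ (-(1 / 2) : ℝ))
    have := abs_nonneg (x ^ (-(1 / 2) : ℝ))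
    linarith

theorem w_nonneg (x : ℝ) : 0 ≤ w x := by unfold w; positivity

theorem w_int (p u v : ℝ) : IntervalIntegrable (fun t => w (t - p)) volume u v := by
  have h1 : IntervalIntegrable (fun x : ℝ => x ^ (-(1 / 2) : ℝ)) volume (u - p) (v - p) :=
    intervalIntegral.intervalIntegrable_rpow' (by norm_num)
  have h2 : IntervalIntegrable (fun x : ℝ => x ^ (-(1 / 2) : ℝ)) volume (p - u) (p - v) :=
    intervalIntegral.intervalIntegrable_rpow' (by norm_num)
  have h3 := h1.comp_sub_right p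
  have h4 := h2.comp_sub_left p
  simp only [sub_add_cancel, sub_sub_cancel] at h3 h4
  have h5 := h3.abs.add h4.abs
  refine h5.congr ?_
  intro x _
  simp only [w, neg_sub]

theorem bound {k1 k2 δ x y X Y : ℝ} (hk1 : 0 < k1) (hk2 : 0 < k2) (hδ : 0 < δ)
    (hx : 0 ≤ x) (hy : 0 ≤ y) (hX : k1 * x ≤ X) (hY : k2 * y ≤ Y) (hxy : δ ≤ x + y)
    (hx0 : x = 0 → X = 0) (hy0 : y = 0 → Y = 0) :
    1 / Real.sqrt (X * Y) ≤ (Real.sqrt (k1 * k2 * (δ / 2)))⁻¹ * ((Real.sqrt x)⁻¹ + (Real.sqrt y)⁻¹) := by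
  have hX0 : 0 ≤ X := (by positivity : 0 ≤ k1 * x).trans hX
  have hY0 : 0 ≤ Y := (by positivity : 0 ≤ k2 * y).trans hY
  by_cases h0 : X * Y = 0
  · rw [h0, Real.sqrt_zero, div_zero]
    positivity
  have hx1 : 0 < x := by
    rcases hx.eq_or_lt with h | h
    · exact absurd (by rw [hx0 h.symm, zero_mul]) h0
    · exact h
  have hy1 : 0 < y := by
    rcases hy.eq_or_lt with h | h
    · exact absurd (by rw [hy0 h.symm, mul_zero]) h0
    · exact h
  have hprod : k1 * k2 * (x * y) ≤ X * Y := by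
    have := mul_le_mul hX hY (by positivity) hX0
    calc k1 * k2 * (x * y) = k1 * x * (k2 * y) := by ring
      _ ≤ X * Y := this
  have key : ∀ z : ℝ, 0 < z → (δ / 2) * z ≤ x * y →
      1 / Real.sqrt (X * Y) ≤ (Real.sqrt (k1 * k2 * (δ / 2)))⁻¹ * (Real.sqrt z)⁻¹ := by
    intro z hz h
    rw [← mul_inv, ← Real.sqrt_mul (by positivity), one_div]
    apply inv_anti₀ (Real.sqrt_pos.2 (by positivity))
    apply Real.sqrt_le_sqrt
    refine le_trans ?_ hprod
    rw [mul_assoc]
    gcongr
  have n1 : 0 ≤ (Real.sqrt (k1 * k2 * (δ / 2)))⁻¹ := by positivity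
  have n2 : 0 ≤ (Real.sqrt x)⁻¹ := by positivity
  have n3 : 0 ≤ (Real.sqrt y)⁻¹ := by positivity
  rcases le_total (δ / 2) x with h | h
  · refine (key y hy1 (by gcongr)).trans ?_
    gcongr
    linarith
  · refine (key x hx1 ?_).trans ?_
    · rw [mul_comm]
      gcongr
      linarith
    · gcongr
      linarith

end A3Aux

theorem A3_int {a b : ℝ} (hb : -1 < b) (hba : b < a) (ha : a < 1) :
    IntervalIntegrable (fun θ => 1 / Real.sqrt (|Real.cos θ - a| * |Real.cos θ - b|)) volume 0 Real.pi := by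
  obtain ⟨k1, hk1, h1⟩ := A3Aux.lower (hb.trans hba) ha
  obtain ⟨k2, hk2, h2⟩ := A3Aux.lower hb (hba.trans ha)
  set p := Real.arccos a with hp
  set q := Real.arccos b with hq
  have hpq : p < q := Real.arccos_lt_arccos hb.le hba ha.le
  have hcp : Real.cos p = a := Real.cos_arccos (hb.trans hba).le ha.le
  have hcq : Real.cos q = b := Real.cos_arccos hb.le (hba.trans ha).le
  have hG : IntervalIntegrable (fun t => (Real.sqrt (k1 * k2 * ((q - p) / 2)))⁻¹ *
      (A3Aux.w (t - p) + A3Aux.w (t - q))) volume 0 Real.pi :=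
    ((A3Aux.w_int p 0 Real.pi).add (A3Aux.w_int q 0 Real.pi)).const_mul _
  refine hG.mono_fun' ?_ ?_
  · apply Measurable.aestronglyMeasurable
    fun_prop
  · rw [Filter.EventuallyLE, ae_restrict_iff' measurableSet_uIoc]
    refine Filter.Eventually.of_forall fun t ht => ?_
    rw [uIoc_of_le Real.pi_pos.le] at ht
    have ht' : t ∈ Icc (0 : ℝ) Real.pi := ⟨ht.1.le, ht.2⟩
    have hb' := A3Aux.bound hk1 hk2 (sub_pos.2 hpq) (abs_nonneg (t - p)) (abs_nonneg (t - q))
      (h1 t ht') (h2 t ht') (by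
        have := abs_sub_abs_le_abs_sub (t - p) (t - q)
        have e : q - p = (t - p) - (t - q) := by ring
        calc q - p = (t - p) - (t - q) := e
          _ ≤ |(t - p) - (t - q)| := le_abs_self _
          _ ≤ |t - p| + |t - q| := abs_sub _ _)
      (by
        intro h
        have : t = p := by linarith [abs_eq_zero.1 h]
        rw [this, hcp, sub_self, abs_zero])
      (by
        intro h
        have : t = q := by linarith [abs_eq_zero.1 h]
        rw [this, hcq, sub_self, abs_zero])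
    have hn : 0 ≤ 1 / Real.sqrt (|Real.cos t - a| * |Real.cos t - b|) := by positivity
    rw [Real.norm_eq_abs, abs_of_nonneg hn]
    refine hb'.trans ?_
    have n1 : 0 ≤ (Real.sqrt (k1 * k2 * ((q - p) / 2)))⁻¹ := by positivity
    apply mul_le_mul_of_nonneg_left _ n1
    exact add_le_add (A3Aux.w_ge _) (A3Aux.w_ge _)

end A3M
end Pool.Agent.Helper974.Star
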