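import Mathlib
import Pool.Agent.Helper974.Star.Defs
set_option autoImplicit false
open Complex Filter Topology Metric Set MeasureTheory
namespace Pool.Agent.Helper974.Star
namespace A4M

theorem A4_U_mem {a b : ℝ} (hba : b < a) {ψ : ℝ} (hψ : ψ ∈ Ioo (0 : ℝ) Real.pi) :
    b < U a b ψ ∧ U a b ψ < a := by
  have h1 : Real.cos ψ < 1 := by
    have := Real.cos_lt_cos_of_nonneg_of_le_pi (le_refl 0) hψ.2.le hψ.1
    rwa [Real.cos_zero] at this
  have h2 : -1 < Real.cos ψ := by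
    have := Real.cos_lt_cos_of_nonneg_of_le_pi hψ.1.le (le_refl _) hψ.2
    rwa [Real.cos_pi] at this
  unfold U
  constructor <;> nlinarith

theorem A4_cov {a b : ℝ} (hb : -1 < b) (hba : b < a) (ha : a < 1) (f : ℝ → ℝ) :
    ∫ θ in (Real.arccos a)..(Real.arccos b), f (Real.cos θ) =
      ∫ ψ in (0 : ℝ)..Real.pi, f (U a b ψ) * ((a - b) / 2 * Real.sin ψ / Real.sqrt (1 - U a b ψ ^ 2)) := by
  have hab : (0 : ℝ) < (a - b) / 2 := by linarith
  have hUd : ∀ ψ : ℝ, HasDerivAt (fun ψ => U a b ψ) (-((a - b) / 2 * Real.sin ψ)) ψ := by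
    intro ψ
    have h := ((Real.hasDerivAt_cos ψ).const_mul ((a - b) / 2)).const_add ((a + b) / 2)
    have h2 : (a - b) / 2 * -Real.sin ψ = -((a - b) / 2 * Real.sin ψ) := by ring
    rw [h2] at h
    exact h
  have hder : ∀ ψ ∈ Ioo (0 : ℝ) Real.pi, HasDerivWithinAt (fun ψ => Real.arccos (U a b ψ))
      ((a - b) / 2 * Real.sin ψ / Real.sqrt (1 - U a b ψ ^ 2)) (Ioo (0 : ℝ) Real.pi) ψ := by
    intro ψ hψ
    obtain ⟨h1, h2⟩ := A4_U_mem hba hψ
    have h3 := (Real.hasDerivAt_arccos (x := U a b ψ) (by linarith) (by linarith)).comp ψ (hUd ψ)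
    have h4 : -(1 / Real.sqrt (1 - U a b ψ ^ 2)) * -((a - b) / 2 * Real.sin ψ) =
        (a - b) / 2 * Real.sin ψ / Real.sqrt (1 - U a b ψ ^ 2) := by ring
    rw [h4] at h3
    exact h3.hasDerivWithinAt
  have hUinj : ∀ x ∈ Ioo (0 : ℝ) Real.pi, ∀ y ∈ Ioo (0 : ℝ) Real.pi, U a b x = U a b y → x = y := by
    intro x hx y hy h
    apply Real.injOn_cos ⟨hx.1.le, hx.2.le⟩ ⟨hy.1.le, hy.2.le⟩
    unfold U at h
    have h5 : (a - b) / 2 * Real.cos x = (a - b) / 2 * Real.cos y := by linarith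
    exact mul_left_cancel₀ hab.ne' h5
  have hinj : InjOn (fun ψ => Real.arccos (U a b ψ)) (Ioo (0 : ℝ) Real.pi) := by
    intro x hx y hy h
    obtain ⟨h1, h2⟩ := A4_U_mem hba hx
    obtain ⟨h3, h4⟩ := A4_U_mem hba hy
    apply hUinj x hx y hy
    exact Real.arccos_injOn ⟨by linarith, by linarith⟩ ⟨by linarith, by linarith⟩ h
  have himg : (fun ψ => Real.arccos (U a b ψ)) '' (Ioo (0 : ℝ) Real.pi) =
      Ioo (Real.arccos a) (Real.arccos b) := by
    ext θ
    constructor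
    · rintro ⟨ψ, hψ, rfl⟩
      obtain ⟨h1, h2⟩ := A4_U_mem hba hψ
      exact ⟨Real.strictAntiOn_arccos ⟨by linarith, by linarith⟩ ⟨by linarith, by linarith⟩ h2,
        Real.strictAntiOn_arccos ⟨by linarith, by linarith⟩ ⟨by linarith, by linarith⟩ h1⟩
    · intro hθ
      have h0 : 0 ≤ θ := (Real.arccos_nonneg a).trans hθ.1.le
      have hpi : θ ≤ Real.pi := hθ.2.le.trans (Real.arccos_le_pi b)
      have h1 : Real.cos θ < a := by
        have := Real.strictAntiOn_cos ⟨Real.arccos_nonneg a, Real.arccos_le_pi a⟩ ⟨h0, hpi⟩ hθ.1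
        rwa [Real.cos_arccos (by linarith) (by linarith)] at this
      have h2 : b < Real.cos θ := by
        have := Real.strictAntiOn_cos ⟨h0, hpi⟩ ⟨Real.arccos_nonneg b, Real.arccos_le_pi b⟩ hθ.2
        rwa [Real.cos_arccos (by linarith) (by linarith)] at this
      have h3 : -1 < (Real.cos θ - (a + b) / 2) / ((a - b) / 2) := by
        rw [lt_div_iff₀ hab]; linarith
      have h4 : (Real.cos θ - (a + b) / 2) / ((a - b) / 2) < 1 := by
        rw [div_lt_iff₀ hab]; linarith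
      refine ⟨Real.arccos ((Real.cos θ - (a + b) / 2) / ((a - b) / 2)), ⟨?_, ?_⟩, ?_⟩
      · exact Real.arccos_pos.2 h4
      · refine lt_of_le_of_ne (Real.arccos_le_pi _) ?_
        intro h
        exact absurd (Real.arccos_eq_pi.1 h) (by linarith)
      · show Real.arccos (U a b _) = θ
        have h5 : U a b (Real.arccos ((Real.cos θ - (a + b) / 2) / ((a - b) / 2))) = Real.cos θ := by
          unfold U
          rw [Real.cos_arccos h3.le h4.le, mul_div_cancel₀ _ hab.ne']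
          ring
        rw [h5, Real.arccos_cos h0 hpi]
  have hle : Real.arccos a ≤ Real.arccos b := Real.arccos_le_arccos hba.le
  rw [intervalIntegral.integral_of_le hle, intervalIntegral.integral_of_le Real.pi_pos.le,
    integral_Ioc_eq_integral_Ioo, integral_Ioc_eq_integral_Ioo, ← himg,
    MeasureTheory.integral_image_eq_integral_abs_deriv_smul measurableSet_Ioo hder hinj]
  apply setIntegral_congr_fun measurableSet_Ioo
  intro ψ hψ
  obtain ⟨h1, h2⟩ := A4_U_mem hba hψ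
  have hs : 0 < Real.sin ψ := Real.sin_pos_of_pos_of_lt_pi hψ.1 hψ.2
  have h6 : 0 ≤ (a - b) / 2 * Real.sin ψ / Real.sqrt (1 - U a b ψ ^ 2) := by positivity
  show |(a - b) / 2 * Real.sin ψ / Real.sqrt (1 - U a b ψ ^ 2)| • f (Real.cos (Real.arccos (U a b ψ))) = _
  rw [abs_of_nonneg h6, Real.cos_arccos (by linarith) (by linarith), smul_eq_mul, mul_comm]

theorem A4_sq {a b : ℝ} (ψ : ℝ) : (a - U a b ψ) * (U a b ψ - b) = ((a - b) / 2 * Real.sin ψ) ^ 2 := by
  unfold U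
  have h := Real.sin_sq_add_cos_sq ψ
  have h2 : Real.sin ψ ^ 2 = 1 - Real.cos ψ ^ 2 := by linarith
  rw [mul_pow, h2]
  ring

theorem A4_restrict {a b : ℝ} (hb : -1 < b) (hba : b < a) (ha : a < 1) (f : ℝ → ℝ)
    (h0 : ∀ u, (a - u) * (u - b) ≤ 0 → f u = 0) :
    ∫ θ in (0 : ℝ)..Real.pi, f (Real.cos θ) = ∫ θ in (Real.arccos a)..(Real.arccos b), f (Real.cos θ) := by
  have hle : Real.arccos a ≤ Real.arccos b := Real.arccos_le_arccos hba.le
  rw [intervalIntegral.integral_of_le hle, intervalIntegral.integral_of_le Real.pi_pos.le]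
  apply MeasureTheory.setIntegral_eq_of_subset_of_forall_sdiff_eq_zero measurableSet_Ioc
  · intro θ hθ
    exact ⟨lt_of_le_of_lt (Real.arccos_nonneg a) hθ.1, hθ.2.trans (Real.arccos_le_pi b)⟩
  · rintro θ ⟨hθ, hn⟩
    apply h0
    by_cases h : θ ≤ Real.arccos a
    · have h1 : a ≤ Real.cos θ := by
        have := Real.strictAntiOn_cos.antitoneOn ⟨hθ.1.le, hθ.2⟩
          ⟨Real.arccos_nonneg a, Real.arccos_le_pi a⟩ h
        rwa [Real.cos_arccos (by linarith) (by linarith)] at this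
      nlinarith
    · have h2 : Real.arccos b ≤ θ := by
        by_contra h3
        exact hn ⟨not_le.1 h, (not_le.1 h3).le⟩
      have h1 : Real.cos θ ≤ b := by
        have := Real.strictAntiOn_cos.antitoneOn ⟨Real.arccos_nonneg b, Real.arccos_le_pi b⟩
          ⟨hθ.1.le, hθ.2⟩ h2
        rwa [Real.cos_arccos (by linarith) (by linarith)] at this
      nlinarith

theorem A4_integral_KI {a b : ℝ} (T : ℝ) (hb : -1 < b) (hba : b < a) (ha : a < 1) :
    ∫ θ in (0 : ℝ)..Real.pi, KI a b T θ = ∫ ψ in (0 : ℝ)..Real.pi, (U a b ψ - T) / Real.sqrt (1 - U a b ψ ^ 2) := by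
  have h1 := A4_restrict hb hba ha (fun u => (u - T) / Real.sqrt ((a - u) * (u - b))) (by
    intro u hu
    show (u - T) / Real.sqrt ((a - u) * (u - b)) = 0
    rw [Real.sqrt_eq_zero_of_nonpos hu, div_zero])
  have h2 := A4_cov hb hba ha (fun u => (u - T) / Real.sqrt ((a - u) * (u - b)))
  have h3 : ∫ θ in (0 : ℝ)..Real.pi, KI a b T θ = ∫ ψ in (0 : ℝ)..Real.pi,
      (U a b ψ - T) / Real.sqrt ((a - U a b ψ) * (U a b ψ - b)) *
        ((a - b) / 2 * Real.sin ψ / Real.sqrt (1 - U a b ψ ^ 2)) := h1.trans h2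
  rw [h3, intervalIntegral.integral_of_le Real.pi_pos.le, intervalIntegral.integral_of_le Real.pi_pos.le,
    integral_Ioc_eq_integral_Ioo, integral_Ioc_eq_integral_Ioo]
  apply setIntegral_congr_fun measurableSet_Ioo
  intro ψ hψ
  obtain ⟨h4, h5⟩ := A4_U_mem hba hψ
  have hs : 0 < Real.sin ψ := Real.sin_pos_of_pos_of_lt_pi hψ.1 hψ.2
  have hab : (0 : ℝ) < (a - b) / 2 := by linarith
  have h6 : 0 < (a - b) / 2 * Real.sin ψ := by positivity
  have h7 : 0 < 1 - U a b ψ ^ 2 := by nlinarith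
  have h8 : 0 < Real.sqrt (1 - U a b ψ ^ 2) := Real.sqrt_pos.2 h7
  show (U a b ψ - T) / Real.sqrt ((a - U a b ψ) * (U a b ψ - b)) *
        ((a - b) / 2 * Real.sin ψ / Real.sqrt (1 - U a b ψ ^ 2)) = (U a b ψ - T) / Real.sqrt (1 - U a b ψ ^ 2)
  rw [A4_sq, Real.sqrt_sq h6.le]
  generalize Real.sqrt (1 - U a b ψ ^ 2) = S at *
  generalize (a - b) / 2 * Real.sin ψ = R at *
  field_simp

theorem A4_integral_KJ {a b : ℝ} (c : ℝ) (hb : -1 < b) (hba : b < a) (ha : a < 1) :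
    ∫ θ in (0 : ℝ)..Real.pi, KJ a b c θ = -4 * ∫ ψ in (0 : ℝ)..Real.pi,
      (U a b ψ - c) * ((a - U a b ψ) * (U a b ψ - b)) / Real.sqrt (1 - U a b ψ ^ 2) := by
  have h1 := A4_restrict hb hba ha (fun u => -4 * (u - c) * Real.sqrt ((a - u) * (u - b))) (by
    intro u hu
    show -4 * (u - c) * Real.sqrt ((a - u) * (u - b)) = 0
    rw [Real.sqrt_eq_zero_of_nonpos hu, mul_zero])
  have h2 := A4_cov hb hba ha (fun u => -4 * (u - c) * Real.sqrt ((a - u) * (u - b)))
  have h3 : ∫ θ in (0 : ℝ)..Real.pi, KJ a b c θ = ∫ ψ in (0 : ℝ)..Real.pi,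
      -4 * (U a b ψ - c) * Real.sqrt ((a - U a b ψ) * (U a b ψ - b)) *
        ((a - b) / 2 * Real.sin ψ / Real.sqrt (1 - U a b ψ ^ 2)) := h1.trans h2
  rw [h3, ← intervalIntegral.integral_const_mul, intervalIntegral.integral_of_le Real.pi_pos.le,
    intervalIntegral.integral_of_le Real.pi_pos.le,
    integral_Ioc_eq_integral_Ioo, integral_Ioc_eq_integral_Ioo]
  apply setIntegral_congr_fun measurableSet_Ioo
  intro ψ hψ
  have hs : 0 < Real.sin ψ := Real.sin_pos_of_pos_of_lt_pi hψ.1 hψ.2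
  have hab : (0 : ℝ) < (a - b) / 2 := by linarith
  have h6 : 0 < (a - b) / 2 * Real.sin ψ := by positivity
  show -4 * (U a b ψ - c) * Real.sqrt ((a - U a b ψ) * (U a b ψ - b)) *
        ((a - b) / 2 * Real.sin ψ / Real.sqrt (1 - U a b ψ ^ 2)) =
      -4 * ((U a b ψ - c) * ((a - U a b ψ) * (U a b ψ - b)) / Real.sqrt (1 - U a b ψ ^ 2))
  rw [A4_sq, Real.sqrt_sq h6.le]
  ring

end A4M
end Pool.Agent.Helper974.Star
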