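import Mathlib
import Pool.Agent.Helper974.Star.Defs
set_option autoImplicit false
open Complex Filter Topology Metric Set MeasureTheory
namespace Pool.Agent.Helper974.Star
namespace A5M

lemma A5_KI_pos {a b T φ : ℝ} (h : T ≤ Real.cos φ) : 0 ≤ KI a b T φ := by
  unfold KI
  exact div_nonneg (by linarith) (Real.sqrt_nonneg _)

lemma A5_KI_neg {a b T φ : ℝ} (h : Real.cos φ ≤ T) : KI a b T φ ≤ 0 := by
  unfold KI
  exact div_nonpos_of_nonpos_of_nonneg (by linarith) (Real.sqrt_nonneg _)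

lemma A5_KI_zero_a {a b T φ : ℝ} (hba : b < a) (h : a ≤ Real.cos φ) : KI a b T φ = 0 := by
  unfold KI
  rw [Real.sqrt_eq_zero_of_nonpos, div_zero]
  exact mul_nonpos_of_nonpos_of_nonneg (by linarith) (by linarith)

lemma A5_KI_zero_b {a b T φ : ℝ} (hba : b < a) (h : Real.cos φ ≤ b) : KI a b T φ = 0 := by
  unfold KI
  rw [Real.sqrt_eq_zero_of_nonpos, div_zero]
  exact mul_nonpos_of_nonneg_of_nonpos (by linarith) (by linarith)

theorem A5_KI {a b T : ℝ} (hb : -1 < b) (hba : b < a) (ha : a < 1) (hT1 : b ≤ T) (hT2 : T ≤ a)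
    (hint : IntervalIntegrable (KI a b T) volume 0 Real.pi)
    (h0 : ∫ θ in (0 : ℝ)..Real.pi, KI a b T θ = 0) :
    (∀ θ ∈ Icc (0 : ℝ) Real.pi, 0 ≤ ∫ φ in (0 : ℝ)..θ, KI a b T φ) ∧
    (∀ θ ∈ Icc (0 : ℝ) Real.pi, (a ≤ Real.cos θ ∨ Real.cos θ ≤ b) → ∫ φ in (0 : ℝ)..θ, KI a b T φ = 0) := by
  have hsplit : ∀ θ ∈ Icc (0 : ℝ) Real.pi, ∫ φ in (0 : ℝ)..θ, KI a b T φ = - ∫ φ in θ..Real.pi, KI a b T φ := by
    intro θ hθ
    have h1 : IntervalIntegrable (KI a b T) volume 0 θ :=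
      hint.mono_set (by
        rw [uIcc_of_le hθ.1, uIcc_of_le Real.pi_pos.le]
        exact Icc_subset_Icc le_rfl hθ.2)
    have h2 : IntervalIntegrable (KI a b T) volume θ Real.pi :=
      hint.mono_set (by
        rw [uIcc_of_le hθ.2, uIcc_of_le Real.pi_pos.le]
        exact Icc_subset_Icc hθ.1 le_rfl)
    have h3 := intervalIntegral.integral_add_adjacent_intervals h1 h2
    rw [h0] at h3
    linarith
  have hcos1 : ∀ θ ∈ Icc (0 : ℝ) Real.pi, ∀ φ ∈ Icc (0 : ℝ) θ, Real.cos θ ≤ Real.cos φ := by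
    intro θ hθ φ hφ
    exact Real.cos_le_cos_of_nonneg_of_le_pi hφ.1 hθ.2 hφ.2
  have hcos2 : ∀ θ ∈ Icc (0 : ℝ) Real.pi, ∀ φ ∈ Icc θ Real.pi, Real.cos φ ≤ Real.cos θ := by
    intro θ hθ φ hφ
    exact Real.cos_le_cos_of_nonneg_of_le_pi hθ.1 hφ.2 hφ.1
  refine ⟨?_, ?_⟩
  · intro θ hθ
    rcases le_total T (Real.cos θ) with h | h
    · apply intervalIntegral.integral_nonneg hθ.1
      intro φ hφ
      exact A5_KI_pos (h.trans (hcos1 θ hθ φ hφ))
    · rw [hsplit θ hθ]
      have : 0 ≤ ∫ φ in θ..Real.pi, -KI a b T φ := by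
        apply intervalIntegral.integral_nonneg hθ.2
        intro φ hφ
        have := A5_KI_neg (a := a) (b := b) ((hcos2 θ hθ φ hφ).trans h)
        linarith
      rw [intervalIntegral.integral_neg] at this
      exact this
  · intro θ hθ h
    rcases h with h | h
    · have e : ∫ φ in (0 : ℝ)..θ, KI a b T φ = ∫ φ in (0 : ℝ)..θ, (0 : ℝ) := by
        apply intervalIntegral.integral_congr
        intro φ hφ
        rw [uIcc_of_le hθ.1] at hφ
        exact A5_KI_zero_a hba (h.trans (hcos1 θ hθ φ hφ))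
      rw [e]; simp
    · rw [hsplit θ hθ]
      have e : ∫ φ in θ..Real.pi, KI a b T φ = ∫ φ in θ..Real.pi, (0 : ℝ) := by
        apply intervalIntegral.integral_congr
        intro φ hφ
        rw [uIcc_of_le hθ.2] at hφ
        exact A5_KI_zero_b hba ((hcos2 θ hθ φ hφ).trans h)
      rw [e]; simp

theorem A5_KI_int {a b T : ℝ} (hb : -1 < b) (hba : b < a) (ha : a < 1) (hT : |T| ≤ 1)
    (hdom : IntervalIntegrable (fun θ => 1 / Real.sqrt (|Real.cos θ - a| * |Real.cos θ - b|)) volume 0 Real.pi) :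
    IntervalIntegrable (KI a b T) volume 0 Real.pi := by
  have h2 := hdom.const_mul 2
  refine h2.mono_fun ?_ ?_
  · apply Measurable.aestronglyMeasurable
    unfold KI
    fun_prop
  · refine Filter.Eventually.of_forall fun θ => ?_
    show ‖KI a b T θ‖ ≤ ‖2 * (1 / Real.sqrt (|Real.cos θ - a| * |Real.cos θ - b|))‖
    rcases le_or_gt a (Real.cos θ) with h | h
    · rw [A5_KI_zero_a hba h, norm_zero]; exact norm_nonneg _
    rcases le_or_gt (Real.cos θ) b with h' | h'
    · rw [A5_KI_zero_b hba h', norm_zero]; exact norm_nonneg _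
    have e1 : |Real.cos θ - a| = a - Real.cos θ := by rw [abs_of_neg (by linarith)]; ring
    have e2 : |Real.cos θ - b| = Real.cos θ - b := abs_of_pos (by linarith)
    rw [e1, e2]
    have hp : 0 < Real.sqrt ((a - Real.cos θ) * (Real.cos θ - b)) :=
      Real.sqrt_pos.mpr (mul_pos (by linarith) (by linarith))
    unfold KI
    rw [Real.norm_eq_abs, Real.norm_eq_abs, abs_div, abs_of_pos hp, abs_mul, abs_div, abs_of_pos hp, abs_one,
      abs_of_pos (by norm_num : (0:ℝ) < 2)]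
    have hc : |Real.cos θ - T| ≤ 2 := by
      have h1 := abs_sub (Real.cos θ) T
      have h3 := Real.abs_cos_le_one θ
      linarith
    rw [mul_one_div]
    exact div_le_div_of_nonneg_right hc hp.le

end A5M
end Pool.Agent.Helper974.Star
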