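import Mathlib
import Pool.Agent.Helper974.Star.Defs
set_option autoImplicit false
open Complex Filter Topology Metric Set MeasureTheory
namespace Pool.Agent.Helper974.Star
namespace A6M

theorem KJ_cont (a b c : ℝ) : Continuous (KJ a b c) := by
  unfold KJ
  fun_prop

theorem A6_KJ {a b c : ℝ} (hb : -1 < b) (hba : b < a) (ha : a < 1) (hc1 : b ≤ c) (hc2 : c ≤ a)
    (h0 : ∫ θ in (0 : ℝ)..Real.pi, KJ a b c θ = 0) :
    (∀ θ ∈ Icc (0 : ℝ) Real.pi, ∫ φ in (0 : ℝ)..θ, KJ a b c φ ≤ 0) ∧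
    (∀ θ ∈ Icc (0 : ℝ) Real.pi, (a ≤ Real.cos θ ∨ Real.cos θ ≤ b) → ∫ φ in (0 : ℝ)..θ, KJ a b c φ = 0) := by
  have hint : ∀ x y : ℝ, IntervalIntegrable (KJ a b c) volume x y := fun x y =>
    (KJ_cont a b c).intervalIntegrable x y
  have hsplit : ∀ θ : ℝ, ∫ φ in (0 : ℝ)..θ, KJ a b c φ = -∫ φ in θ..Real.pi, KJ a b c φ := by
    intro θ
    have := intervalIntegral.integral_add_adjacent_intervals (hint 0 θ) (hint θ Real.pi)
    rw [h0] at this
    linarith
  have hcos : ∀ {x y : ℝ}, 0 ≤ x → x ≤ y → y ≤ Real.pi → Real.cos y ≤ Real.cos x := by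
    intro x y hx hxy hy
    exact Real.cos_le_cos_of_nonneg_of_le_pi hx hy hxy
  have hz : ∀ φ : ℝ, (a ≤ Real.cos φ ∨ Real.cos φ ≤ b) → KJ a b c φ = 0 := by
    intro φ h
    have : (a - Real.cos φ) * (Real.cos φ - b) ≤ 0 := by
      rcases h with h | h
      · exact mul_nonpos_of_nonpos_of_nonneg (by linarith) (by linarith)
      · exact mul_nonpos_of_nonneg_of_nonpos (by linarith) (by linarith)
    rw [KJ, Real.sqrt_eq_zero_of_nonpos this, mul_zero]
  constructor
  · intro θ hθ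
    rcases le_total c (Real.cos θ) with h | h
    · have h1 : ∫ φ in (0 : ℝ)..θ, KJ a b c φ ≤ ∫ φ in (0 : ℝ)..θ, (0 : ℝ) := by
        refine intervalIntegral.integral_mono_on hθ.1 (hint _ _) (by simp) (fun φ hφ => ?_)
        have h2 := hcos hφ.1 hφ.2 hθ.2
        unfold KJ
        have h3 : 0 ≤ (Real.cos φ - c) * Real.sqrt ((a - Real.cos φ) * (Real.cos φ - b)) :=
          mul_nonneg (by linarith) (Real.sqrt_nonneg _)
        linarith
      simpa using h1
    · rw [hsplit, neg_nonpos]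
      refine intervalIntegral.integral_nonneg hθ.2 (fun φ hφ => ?_)
      have h2 := hcos hθ.1 hφ.1 hφ.2
      unfold KJ
      have h3 : 0 ≤ (c - Real.cos φ) * Real.sqrt ((a - Real.cos φ) * (Real.cos φ - b)) :=
        mul_nonneg (by linarith) (Real.sqrt_nonneg _)
      linarith
  · intro θ hθ h
    rcases h with h | h
    · rw [intervalIntegral.integral_congr (g := fun _ => (0 : ℝ))]
      · simp
      · intro φ hφ
        rw [uIcc_of_le hθ.1] at hφ
        exact hz φ (Or.inl (h.trans (hcos hφ.1 hφ.2 hθ.2)))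
    · rw [hsplit, intervalIntegral.integral_congr (g := fun _ => (0 : ℝ))]
      · simp
      · intro φ hφ
        rw [uIcc_of_le hθ.2] at hφ
        exact hz φ (Or.inr ((hcos hθ.1 hφ.1 hφ.2).trans h))

theorem sqrt_two_mul_aux {u v : ℝ} (hu : 0 ≤ u) :
    Real.sqrt (2 * u) * Real.sqrt (2 * v) = 2 * Real.sqrt (u * v) := by
  rw [← Real.sqrt_mul (by positivity), show 2 * u * (2 * v) = 2 ^ 2 * (u * v) by ring,
    Real.sqrt_mul (by positivity), Real.sqrt_sq (by norm_num)]

theorem A6_bd {a b c : ℝ} (hb : -1 < b) (hba : b < a) (ha : a < 1) (hc1 : b ≤ c) (hc2 : c ≤ a)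
    {sa sb : ℂ → ℂ} (hsa : Br a sa) (hsb : Br b sb) {θ : ℝ} (hθ : θ ∈ Icc (0 : ℝ) Real.pi) :
    (1 - 2 * (c : ℂ) * Complex.exp (I * θ) + Complex.exp (I * θ) ^ 2) *
      (sa (Complex.exp (I * θ)) * sb (Complex.exp (I * θ))) * Complex.exp (-(2 * (I * θ))) =
      (KR a b c θ : ℂ) + (KJ a b c θ : ℂ) * I := by
  have hh : Complex.exp (I * (θ / 2 : ℝ)) * Complex.exp (I * (θ / 2 : ℝ)) =
      Complex.exp (I * θ) := by
    rw [← Complex.exp_add]; congr 1; push_cast; ring
  have hE : Complex.exp (I * θ) * Complex.exp (I * θ) * Complex.exp (-(2 * (I * θ))) = 1 := by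
    rw [← Complex.exp_add, ← Complex.exp_add, ← Complex.exp_zero]; congr 1; ring
  have hcs : 2 * ((Real.cos θ : ℝ) : ℂ) * Complex.exp (I * θ) = Complex.exp (I * θ) ^ 2 + 1 := by
    rw [Complex.ofReal_cos, Complex.cos]
    have h1 : Complex.exp (-(θ : ℂ) * I) * Complex.exp (I * θ) = 1 := by
      rw [← Complex.exp_add, ← Complex.exp_zero]; congr 1; ring
    have h2 : Complex.exp ((θ : ℂ) * I) = Complex.exp (I * θ) := by rw [mul_comm]
    rw [h2]
    linear_combination h1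
  have na := hsa.near θ hθ
  have fa := hsa.far θ hθ
  have nb := hsb.near θ hθ
  have fb := hsb.far θ hθ
  generalize Complex.exp (I * (θ / 2 : ℝ)) = h at *
  generalize Complex.exp (-(2 * (I * θ))) = E at *
  generalize Complex.exp (I * θ) = e at *
  have h1 : 1 - 2 * (c : ℂ) * e + e ^ 2 = 2 * (((Real.cos θ : ℝ) : ℂ) - c) * e := by
    linear_combination -hcs
  rw [h1]
  unfold KR KJ
  rcases le_total a (Real.cos θ) with h2 | h2
  · rw [na h2, nb (by linarith)]
    have hz : (a - Real.cos θ) * (Real.cos θ - b) ≤ 0 :=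
      mul_nonpos_of_nonpos_of_nonneg (by linarith) (by linarith)
    rw [Real.sqrt_eq_zero_of_nonpos hz, abs_of_nonneg (by linarith)]
    have h3 := sqrt_two_mul_aux (u := Real.cos θ - a) (v := Real.cos θ - b) (by linarith)
    have h4 : ((Real.sqrt (2 * (Real.cos θ - a)) : ℝ) : ℂ) * ((Real.sqrt (2 * (Real.cos θ - b)) : ℝ) : ℂ) =
        2 * ((Real.sqrt ((Real.cos θ - a) * (Real.cos θ - b)) : ℝ) : ℂ) := by
      rw [← Complex.ofReal_mul, h3]; push_cast; rfl
    push_cast at h4 ⊢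
    calc _ = 2 * (Complex.cos θ - c) * (((Real.sqrt (2 * (Real.cos θ - a)) : ℝ) : ℂ) *
          ((Real.sqrt (2 * (Real.cos θ - b)) : ℝ) : ℂ)) * (e * (h * h) * E) := by ring
      _ = _ := by rw [h4, hh, hE]; push_cast; ring
  · rcases le_total b (Real.cos θ) with h5 | h5
    · rw [fa h2, nb h5]
      have hz : (Real.cos θ - a) * (Real.cos θ - b) ≤ 0 :=
        mul_nonpos_of_nonpos_of_nonneg (by linarith) (by linarith)
      rw [Real.sqrt_eq_zero_of_nonpos hz]
      have h3 := sqrt_two_mul_aux (u := a - Real.cos θ) (v := Real.cos θ - b) (by linarith)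
      have h4 : ((Real.sqrt (2 * (a - Real.cos θ)) : ℝ) : ℂ) * ((Real.sqrt (2 * (Real.cos θ - b)) : ℝ) : ℂ) =
          2 * ((Real.sqrt ((a - Real.cos θ) * (Real.cos θ - b)) : ℝ) : ℂ) := by
        rw [← Complex.ofReal_mul, h3]; push_cast; rfl
      push_cast at h4 ⊢
      calc _ = -I * (2 * (Complex.cos θ - c)) * (((Real.sqrt (2 * (a - Real.cos θ)) : ℝ) : ℂ) *
            ((Real.sqrt (2 * (Real.cos θ - b)) : ℝ) : ℂ)) * (e * (h * h) * E) := by ring
        _ = _ := by rw [h4, hh, hE]; push_cast; ring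
    · rw [fa h2, fb h5]
      have hz : (a - Real.cos θ) * (Real.cos θ - b) ≤ 0 :=
        mul_nonpos_of_nonneg_of_nonpos (by linarith) (by linarith)
      rw [Real.sqrt_eq_zero_of_nonpos hz, abs_of_nonpos (by linarith)]
      have h3 := sqrt_two_mul_aux (u := a - Real.cos θ) (v := b - Real.cos θ) (by linarith)
      have h6 : (a - Real.cos θ) * (b - Real.cos θ) = (Real.cos θ - a) * (Real.cos θ - b) := by ring
      rw [h6] at h3
      have h4 : ((Real.sqrt (2 * (a - Real.cos θ)) : ℝ) : ℂ) * ((Real.sqrt (2 * (b - Real.cos θ)) : ℝ) : ℂ) =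
          2 * ((Real.sqrt ((Real.cos θ - a) * (Real.cos θ - b)) : ℝ) : ℂ) := by
        rw [← Complex.ofReal_mul, h3]; push_cast; rfl
      push_cast at h4 ⊢
      calc _ = (I * I) * (2 * (Complex.cos θ - c)) * (((Real.sqrt (2 * (a - Real.cos θ)) : ℝ) : ℂ) *
            ((Real.sqrt (2 * (b - Real.cos θ)) : ℝ) : ℂ)) * (e * (h * h) * E) := by ring
        _ = _ := by rw [h4, hh, hE, Complex.I_mul_I]; push_cast; ring

end A6M
end Pool.Agent.Helper974.Star
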