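import Mathlib
import Pool.Agent.Helper974.Star.Defs
set_option autoImplicit false
open Complex Filter Topology Metric Set MeasureTheory
namespace Pool.Agent.Helper974.Star
namespace A7M

theorem a7_one (T θ : ℝ) : 1 - 2 * (T : ℂ) * Complex.exp (I * θ) + Complex.exp (I * θ) ^ 2
    = 2 * ((Real.cos θ - T : ℝ) : ℂ) * Complex.exp (I * θ) := by
  have h : Complex.exp (I * θ) = (Real.cos θ : ℂ) + (Real.sin θ : ℂ) * I := by
    rw [mul_comm, Complex.exp_mul_I, ofReal_cos, ofReal_sin]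
  have h2 : (Real.cos θ : ℂ) ^ 2 + (Real.sin θ : ℂ) ^ 2 = 1 := by
    exact_mod_cast Real.cos_sq_add_sin_sq θ
  rw [h, Complex.ofReal_sub]
  linear_combination (-1 : ℂ) * h2 + (Real.sin θ : ℂ) ^ 2 * I_sq

theorem a7_ne {a : ℝ} (ha1 : -1 < a) (ha2 : a < 1) {z : ℂ} (hz : ‖z‖ < 1) :
    1 - 2 * (a : ℂ) * z + z ^ 2 ≠ 0 := by
  intro h
  have hre := congrArg Complex.re h
  have him := congrArg Complex.im h
  have hn : z.re * z.re + z.im * z.im < 1 := by
    rw [← Complex.normSq_apply, ← Complex.sq_norm]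
    nlinarith [norm_nonneg z]
  rw [sq] at hre him
  simp only [Complex.add_re, Complex.sub_re, Complex.mul_re, Complex.one_re, Complex.ofReal_re,
    Complex.ofReal_im, Complex.add_im, Complex.sub_im, Complex.mul_im, Complex.one_im,
    Complex.zero_re, Complex.zero_im, Complex.re_ofNat, Complex.im_ofNat] at hre him
  have h1 : z.im * (z.re - a) = 0 := by linarith
  rcases mul_eq_zero.mp h1 with h2 | h2
  · rw [h2] at hre
    nlinarith [sq_nonneg (z.re - a)]
  · have h3 : z.re = a := by linarith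
    rw [h3] at hre hn
    nlinarith

theorem a7_sne {a : ℝ} {s : ℂ → ℂ} (hs : Br a s) (ha1 : -1 < a) (ha2 : a < 1) {z : ℂ}
    (hz : ‖z‖ < 1) : s z ≠ 0 := by
  intro h
  have h1 := hs.sq z
  rw [h] at h1
  exact a7_ne ha1 ha2 hz (by rw [← h1]; ring)

theorem a7_sne' {a : ℝ} {s : ℂ → ℂ} (hs : Br a s) {θ : ℝ} (h : Real.cos θ ≠ a) :
    s (Complex.exp (I * θ)) ≠ 0 := by
  intro h0
  have h1 := hs.sq (Complex.exp (I * θ))
  rw [h0, a7_one] at h1
  have h2 : ((Real.cos θ - a : ℝ) : ℂ) ≠ 0 := by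
    rw [Complex.ofReal_ne_zero]
    exact sub_ne_zero.mpr h
  have h3 : 2 * ((Real.cos θ - a : ℝ) : ℂ) * Complex.exp (I * θ) ≠ 0 :=
    mul_ne_zero (mul_ne_zero two_ne_zero h2) (Complex.exp_ne_zero _)
  exact h3 (by rw [← h1]; ring)

theorem a7_half (θ : ℝ) : Complex.exp (I * (θ / 2 : ℝ)) * Complex.exp (I * (θ / 2 : ℝ))
    = Complex.exp (I * θ) := by
  rw [← Complex.exp_add]
  congr 1
  push_cast
  ring

theorem a7_bd {a b T : ℝ} (hba : b < a) {sa sb : ℂ → ℂ} (hsa : Br a sa) (hsb : Br b sb) {θ : ℝ}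
    (hθ : θ ∈ Icc (0 : ℝ) Real.pi) (h1 : Real.cos θ ≠ a) (h2 : Real.cos θ ≠ b) :
    (pc T sa sb (Complex.exp (I * θ))).im = KI a b T θ ∧
      (b < Real.cos θ → Real.cos θ < a → (pc T sa sb (Complex.exp (I * θ))).re = 0) := by
  have hE : Complex.exp (I * θ) ≠ 0 := Complex.exp_ne_zero _
  rcases lt_or_gt_of_ne h1 with h3 | h3
  · rcases lt_or_gt_of_ne h2 with h4 | h4
    · -- below `b`
      have q1 : 0 < 2 * (a - Real.cos θ) := by linarith
      have q2 : 0 < 2 * (b - Real.cos θ) := by linarith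
      have r1 : ((Real.sqrt (2 * (a - Real.cos θ)) : ℝ) : ℂ) ≠ 0 := by
        rw [Complex.ofReal_ne_zero]; exact (Real.sqrt_pos.mpr q1).ne'
      have r2 : ((Real.sqrt (2 * (b - Real.cos θ)) : ℝ) : ℂ) ≠ 0 := by
        rw [Complex.ofReal_ne_zero]; exact (Real.sqrt_pos.mpr q2).ne'
      have hp : pc T sa sb (Complex.exp (I * θ)) = ((-(2 * (Real.cos θ - T)
          / (Real.sqrt (2 * (a - Real.cos θ)) * Real.sqrt (2 * (b - Real.cos θ)))) : ℝ) : ℂ) := by
        unfold pc
        rw [a7_one, hsa.far θ hθ h3.le, hsb.far θ hθ h4.le]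
        have e : -I * (Real.sqrt (2 * (a - Real.cos θ)) : ℂ) * Complex.exp (I * (θ / 2 : ℝ))
            * (-I * (Real.sqrt (2 * (b - Real.cos θ)) : ℂ) * Complex.exp (I * (θ / 2 : ℝ)))
            = -((Real.sqrt (2 * (a - Real.cos θ)) : ℂ) * (Real.sqrt (2 * (b - Real.cos θ)) : ℂ)
              * Complex.exp (I * θ)) := by
          rw [← a7_half θ]
          linear_combination (Real.sqrt (2 * (a - Real.cos θ)) : ℂ)
            * (Real.sqrt (2 * (b - Real.cos θ)) : ℂ)
            * (Complex.exp (I * (θ / 2 : ℝ)) * Complex.exp (I * (θ / 2 : ℝ))) * I_sq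
        rw [e]
        push_cast
        field_simp
      have hK : KI a b T θ = 0 := by
        unfold KI
        rw [Real.sqrt_eq_zero_of_nonpos, div_zero]
        nlinarith
      rw [hp, hK]
      refine ⟨Complex.ofReal_im _, ?_⟩
      intro h5
      exact absurd h5 (not_lt.mpr h4.le)
    · -- the gap
      have q1 : 0 < 2 * (a - Real.cos θ) := by linarith
      have q2 : 0 < 2 * (Real.cos θ - b) := by linarith
      have r1 : ((Real.sqrt (2 * (a - Real.cos θ)) : ℝ) : ℂ) ≠ 0 := by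
        rw [Complex.ofReal_ne_zero]; exact (Real.sqrt_pos.mpr q1).ne'
      have r2 : ((Real.sqrt (2 * (Real.cos θ - b)) : ℝ) : ℂ) ≠ 0 := by
        rw [Complex.ofReal_ne_zero]; exact (Real.sqrt_pos.mpr q2).ne'
      have hp : pc T sa sb (Complex.exp (I * θ)) = I * ((2 * (Real.cos θ - T)
          / (Real.sqrt (2 * (a - Real.cos θ)) * Real.sqrt (2 * (Real.cos θ - b))) : ℝ) : ℂ) := by
        unfold pc
        rw [a7_one, hsa.far θ hθ h3.le, hsb.near θ hθ h4.le]
        have e : -I * (Real.sqrt (2 * (a - Real.cos θ)) : ℂ) * Complex.exp (I * (θ / 2 : ℝ))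
            * ((Real.sqrt (2 * (Real.cos θ - b)) : ℂ) * Complex.exp (I * (θ / 2 : ℝ)))
            = -I * ((Real.sqrt (2 * (a - Real.cos θ)) : ℂ) * (Real.sqrt (2 * (Real.cos θ - b)) : ℂ)
              * Complex.exp (I * θ)) := by
          rw [← a7_half θ]
          ring
        rw [e]
        push_cast
        have hI : (-I : ℂ) ≠ 0 := neg_ne_zero.mpr I_ne_zero
        rw [div_eq_iff (mul_ne_zero hI (mul_ne_zero (mul_ne_zero r1 r2) hE))]
        field_simp
        rw [I_sq]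
        ring
      have hK : 2 * (Real.cos θ - T)
          / (Real.sqrt (2 * (a - Real.cos θ)) * Real.sqrt (2 * (Real.cos θ - b)))
          = KI a b T θ := by
        unfold KI
        rw [← Real.sqrt_mul q1.le]
        have e1 : 2 * (a - Real.cos θ) * (2 * (Real.cos θ - b))
            = 2 ^ 2 * ((a - Real.cos θ) * (Real.cos θ - b)) := by ring
        rw [e1, Real.sqrt_mul (by norm_num), Real.sqrt_sq (by norm_num)]
        rw [mul_div_mul_left _ _ (two_ne_zero)]
      rw [hp]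
      constructor
      · rw [Complex.mul_im, Complex.I_re, Complex.I_im, Complex.ofReal_re, Complex.ofReal_im, hK]
        ring
      · intro _ _
        rw [Complex.mul_re, Complex.I_re, Complex.I_im, Complex.ofReal_re, Complex.ofReal_im]
        ring
  · have h4 : b < Real.cos θ := by linarith
    have q1 : 0 < 2 * (Real.cos θ - a) := by linarith
    have q2 : 0 < 2 * (Real.cos θ - b) := by linarith
    have r1 : ((Real.sqrt (2 * (Real.cos θ - a)) : ℝ) : ℂ) ≠ 0 := by
      rw [Complex.ofReal_ne_zero]; exact (Real.sqrt_pos.mpr q1).ne'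
    have r2 : ((Real.sqrt (2 * (Real.cos θ - b)) : ℝ) : ℂ) ≠ 0 := by
      rw [Complex.ofReal_ne_zero]; exact (Real.sqrt_pos.mpr q2).ne'
    have hp : pc T sa sb (Complex.exp (I * θ)) = ((2 * (Real.cos θ - T)
        / (Real.sqrt (2 * (Real.cos θ - a)) * Real.sqrt (2 * (Real.cos θ - b))) : ℝ) : ℂ) := by
      unfold pc
      rw [a7_one, hsa.near θ hθ h3.le, hsb.near θ hθ h4.le]
      have e : (Real.sqrt (2 * (Real.cos θ - a)) : ℂ) * Complex.exp (I * (θ / 2 : ℝ))
          * ((Real.sqrt (2 * (Real.cos θ - b)) : ℂ) * Complex.exp (I * (θ / 2 : ℝ)))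
          = (Real.sqrt (2 * (Real.cos θ - a)) : ℂ) * (Real.sqrt (2 * (Real.cos θ - b)) : ℂ)
            * Complex.exp (I * θ) := by
        rw [← a7_half θ]
        ring
      rw [e]
      push_cast
      field_simp
    have hK : KI a b T θ = 0 := by
      unfold KI
      rw [Real.sqrt_eq_zero_of_nonpos, div_zero]
      nlinarith
    rw [hp, hK]
    refine ⟨Complex.ofReal_im _, ?_⟩
    intro _ h5
    exact absurd h5 (not_lt.mpr h3.le)

theorem a7_norm (r θ : ℝ) (hr : 0 ≤ r) : ‖(r : ℂ) * Complex.exp (I * θ)‖ = r := by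
  rw [norm_mul, mul_comm I, Complex.norm_exp_ofReal_mul_I, mul_one, Complex.norm_real,
    Real.norm_eq_abs, abs_of_nonneg hr]

theorem a7_cont {a b T : ℝ} (hb : -1 < b) (hba : b < a) (ha : a < 1)
    {sa sb : ℂ → ℂ} (hsa : Br a sa) (hsb : Br b sb) (r : ℝ) (hr0 : 0 < r) (hr1 : r < 1) :
    Continuous (fun φ : ℝ => pc T sa sb (r * Complex.exp (I * φ))) := by
  have hz : Continuous (fun φ : ℝ => (r : ℂ) * Complex.exp (I * φ)) := by fun_prop
  have hmem : ∀ φ : ℝ, (r : ℂ) * Complex.exp (I * φ) ∈ ball (0 : ℂ) 1 := by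
    intro φ
    rw [mem_ball_zero_iff, a7_norm r φ hr0.le]
    exact hr1
  have c1 : Continuous (fun φ : ℝ => sa ((r : ℂ) * Complex.exp (I * φ))) :=
    hsa.dcc.differentiableOn.continuousOn.comp_continuous hz hmem
  have c2 : Continuous (fun φ : ℝ => sb ((r : ℂ) * Complex.exp (I * φ))) :=
    hsb.dcc.differentiableOn.continuousOn.comp_continuous hz hmem
  unfold pc
  apply Continuous.div
  · fun_prop
  · exact c1.mul c2
  · intro φ
    have hn := mem_ball_zero_iff.mp (hmem φ)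
    exact mul_ne_zero (a7_sne hsa (by linarith) ha hn) (a7_sne hsb hb (by linarith) hn)

theorem a7_lim {a b T : ℝ} {sa sb : ℂ → ℂ} (hsa : Br a sa) (hsb : Br b sb) {θ : ℝ}
    (h1 : Real.cos θ ≠ a) (h2 : Real.cos θ ≠ b) :
    Tendsto (fun r : ℝ => pc T sa sb (r * Complex.exp (I * θ))) (𝓝[<] 1)
      (𝓝 (pc T sa sb (Complex.exp (I * θ)))) := by
  have hz : Tendsto (fun r : ℝ => (r : ℂ) * Complex.exp (I * θ)) (𝓝[<] 1)
      (𝓝 (Complex.exp (I * θ))) := by
    have c : Continuous (fun r : ℝ => (r : ℂ) * Complex.exp (I * θ)) := by fun_prop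
    have h := c.tendsto 1
    simp only [Complex.ofReal_one, one_mul] at h
    exact h.mono_left nhdsWithin_le_nhds
  have hmem : ∀ᶠ r : ℝ in 𝓝[<] 1, (r : ℂ) * Complex.exp (I * θ) ∈ closedBall (0 : ℂ) 1 := by
    have h3 : Ioo (0 : ℝ) 1 ∈ 𝓝[<] (1 : ℝ) := Ioo_mem_nhdsLT zero_lt_one
    filter_upwards [h3] with r hr
    rw [mem_closedBall_zero_iff, a7_norm r θ hr.1.le]
    exact hr.2.le
  have hz' : Tendsto (fun r : ℝ => (r : ℂ) * Complex.exp (I * θ)) (𝓝[<] 1)
      (𝓝[closedBall (0 : ℂ) 1] (Complex.exp (I * θ))) :=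
    tendsto_nhdsWithin_iff.mpr ⟨hz, hmem⟩
  have hE : Complex.exp (I * θ) ∈ closedBall (0 : ℂ) 1 := by
    rw [mem_closedBall_zero_iff]
    have := a7_norm 1 θ zero_le_one
    rw [Complex.ofReal_one, one_mul] at this
    exact this.le
  have cc : ∀ {s : ℂ → ℂ} {a : ℝ}, Br a s → Tendsto (fun r : ℝ => s ((r : ℂ) * Complex.exp (I * θ)))
      (𝓝[<] 1) (𝓝 (s (Complex.exp (I * θ)))) := by
    intro s a hs
    have h3 := hs.dcc.continuousOn
    rw [closure_ball _ one_ne_zero] at h3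
    exact (h3 _ hE).tendsto.comp hz'
  unfold pc
  apply Tendsto.div
  · have c : Continuous (fun z : ℂ => 1 - 2 * (T : ℂ) * z + z ^ 2) := by fun_prop
    exact (c.tendsto _).comp hz
  · exact (cc hsa).mul (cc hsb)
  · exact mul_ne_zero (a7_sne' hsa h1) (a7_sne' hsb h2)

theorem a7_KI {a b T : ℝ} (hba : b < a) (hT : |T| ≤ 1) {θ : ℝ} (h1 : Real.cos θ ≠ a)
    (h2 : Real.cos θ ≠ b) :
    |KI a b T θ| ≤ 2 / Real.sqrt (|Real.cos θ - a| * |Real.cos θ - b|) := by
  unfold KI
  by_cases hg : b < Real.cos θ ∧ Real.cos θ < a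
  · have e1 : |Real.cos θ - a| = a - Real.cos θ := by
      rw [abs_sub_comm, abs_of_pos (by linarith [hg.2])]
    have e2 : |Real.cos θ - b| = Real.cos θ - b := abs_of_pos (by linarith [hg.1])
    rw [e1, e2, abs_div, abs_of_nonneg (Real.sqrt_nonneg _)]
    apply div_le_div_of_nonneg_right _ (Real.sqrt_nonneg _)
    have h3 := Real.neg_one_le_cos θ
    have h4 := Real.cos_le_one θ
    rw [abs_le] at hT ⊢
    constructor <;> linarith [hT.1, hT.2]
  · have h0 : (a - Real.cos θ) * (Real.cos θ - b) ≤ 0 := by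
      by_cases h3 : b < Real.cos θ
      · have h4 : a ≤ Real.cos θ := by
          by_contra h5
          exact hg ⟨h3, not_le.mp h5⟩
        nlinarith
      · push Not at h3
        nlinarith
    rw [Real.sqrt_eq_zero_of_nonpos h0, div_zero, abs_zero]
    positivity

theorem a7_ae (a b : ℝ) :
    ∀ᵐ θ : ℝ ∂volume, θ ∈ Set.uIoc (0 : ℝ) Real.pi → θ ∈ Icc (0 : ℝ) Real.pi ∧
      Real.cos θ ≠ a ∧ Real.cos θ ≠ b := by
  have h1 : ∀ᵐ θ : ℝ ∂volume, θ ∉ ({Real.arccos a} : Set ℝ) :=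
    (Set.countable_singleton _).ae_notMem _
  have h2 : ∀ᵐ θ : ℝ ∂volume, θ ∉ ({Real.arccos b} : Set ℝ) :=
    (Set.countable_singleton _).ae_notMem _
  filter_upwards [h1, h2] with θ h1 h2 hθ
  rw [Set.uIoc_of_le Real.pi_pos.le] at hθ
  refine ⟨⟨hθ.1.le, hθ.2⟩, ?_, ?_⟩
  · intro h
    apply h1
    rw [Set.mem_singleton_iff, ← h, Real.arccos_cos hθ.1.le hθ.2]
  · intro h
    apply h2
    rw [Set.mem_singleton_iff, ← h, Real.arccos_cos hθ.1.le hθ.2]

theorem A7_lim {a b T : ℝ} (hb : -1 < b) (hba : b < a) (ha : a < 1) (hT : |T| ≤ 1)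
    {sa sb : ℂ → ℂ} (hsa : Br a sa) (hsb : Br b sb)
    (hbound : ∀ {r θ : ℝ}, 0 ≤ r → r ≤ 1 → Real.cos θ ≠ a → Real.cos θ ≠ b →
      ‖pc T sa sb (r * Complex.exp (I * θ))‖ ≤ 8 / Real.sqrt (|Real.cos θ - a| * |Real.cos θ - b|))
    (hint : IntervalIntegrable (fun θ => 1 / Real.sqrt (|Real.cos θ - a| * |Real.cos θ - b|)) volume 0 Real.pi) :
    (∀ r : ℝ, 0 < r → r < 1 → Continuous (fun φ : ℝ => pc T sa sb (r * Complex.exp (I * φ)))) ∧
    Tendsto (fun r : ℝ => ∫ φ in (0 : ℝ)..Real.pi, |(pc T sa sb (r * Complex.exp (I * φ))).im - KI a b T φ|)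
      (𝓝[<] 1) (𝓝 0) ∧
    ∀ Q : ℝ → ℝ, Continuous Q → (∀ φ ∈ Icc (0 : ℝ) Real.pi, (a ≤ Real.cos φ ∨ Real.cos φ ≤ b) → Q φ = 0) →
      Tendsto (fun r : ℝ => ∫ φ in (0 : ℝ)..Real.pi, Q φ * (pc T sa sb (r * Complex.exp (I * φ))).re)
        (𝓝[<] 1) (𝓝 0) := by
  have hae := a7_ae a b
  have hIoo : Ioo (0 : ℝ) 1 ∈ 𝓝[<] (1 : ℝ) := Ioo_mem_nhdsLT zero_lt_one
  have hcont := fun r hr0 hr1 => a7_cont (T := T) hb hba ha hsa hsb r hr0 hr1
  refine ⟨hcont, ?_, ?_⟩
  · have hKm : Measurable (fun φ : ℝ => KI a b T φ) := by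
      unfold KI
      fun_prop
    have h0 : (∫ _ in (0 : ℝ)..Real.pi, (0 : ℝ)) = 0 := by simp
    rw [show (𝓝 (0 : ℝ)) = 𝓝 (∫ _ in (0 : ℝ)..Real.pi, (0 : ℝ)) by rw [h0]]
    apply intervalIntegral.tendsto_integral_filter_of_dominated_convergence
      (fun φ => 10 * (1 / Real.sqrt (|Real.cos φ - a| * |Real.cos φ - b|)))
    · filter_upwards [hIoo] with r hr
      have c := hcont r hr.1 hr.2
      have c2 : Continuous (fun φ : ℝ => (pc T sa sb (r * Complex.exp (I * φ))).im) :=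
        Complex.continuous_im.comp c
      exact ((c2.measurable.sub hKm).abs).aestronglyMeasurable
    · filter_upwards [hIoo] with r hr
      filter_upwards [hae] with φ hφ hφ2
      obtain ⟨_, h1, h2⟩ := hφ hφ2
      rw [Real.norm_eq_abs, abs_abs]
      have b1 := hbound hr.1.le hr.2.le h1 h2
      have b2 := a7_KI hba hT h1 h2
      have b3 := (Complex.abs_im_le_norm (pc T sa sb (r * Complex.exp (I * φ)))).trans b1
      calc |(pc T sa sb (r * Complex.exp (I * φ))).im - KI a b T φ|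
          ≤ |(pc T sa sb (r * Complex.exp (I * φ))).im| + |KI a b T φ| := abs_sub _ _
        _ ≤ 8 / Real.sqrt (|Real.cos φ - a| * |Real.cos φ - b|)
            + 2 / Real.sqrt (|Real.cos φ - a| * |Real.cos φ - b|) := add_le_add b3 b2
        _ = 10 * (1 / Real.sqrt (|Real.cos φ - a| * |Real.cos φ - b|)) := by ring
    · exact hint.const_mul 10
    · filter_upwards [hae] with φ hφ hφ2
      obtain ⟨hI, h1, h2⟩ := hφ hφ2
      have hl := a7_lim (T := T) hsa hsb h1 h2
      have hl2 : Tendsto (fun r : ℝ => (pc T sa sb (r * Complex.exp (I * φ))).im) (𝓝[<] 1)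
          (𝓝 (KI a b T φ)) := by
        rw [← (a7_bd (T := T) hba hsa hsb hI h1 h2).1]
        exact (Complex.continuous_im.tendsto _).comp hl
      have hl3 := (hl2.sub (tendsto_const_nhds (x := KI a b T φ))).abs
      rw [sub_self, abs_zero] at hl3
      exact hl3
  · intro Q hQ hQ0
    obtain ⟨C, hC⟩ := isCompact_Icc.exists_bound_of_continuousOn
      (hQ.continuousOn (s := Icc (0 : ℝ) Real.pi))
    have h0 : (∫ _ in (0 : ℝ)..Real.pi, (0 : ℝ)) = 0 := by simp
    rw [show (𝓝 (0 : ℝ)) = 𝓝 (∫ _ in (0 : ℝ)..Real.pi, (0 : ℝ)) by rw [h0]]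
    apply intervalIntegral.tendsto_integral_filter_of_dominated_convergence
      (fun φ => (8 * C) * (1 / Real.sqrt (|Real.cos φ - a| * |Real.cos φ - b|)))
    · filter_upwards [hIoo] with r hr
      have c := hcont r hr.1 hr.2
      have c2 : Continuous (fun φ : ℝ => (pc T sa sb (r * Complex.exp (I * φ))).re) :=
        Complex.continuous_re.comp c
      exact (hQ.mul c2).aestronglyMeasurable
    · filter_upwards [hIoo] with r hr
      filter_upwards [hae] with φ hφ hφ2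
      obtain ⟨hI, h1, h2⟩ := hφ hφ2
      rw [norm_mul]
      have b1 := hbound hr.1.le hr.2.le h1 h2
      have b3 := (Complex.abs_re_le_norm (pc T sa sb (r * Complex.exp (I * φ)))).trans b1
      have b4 := hC φ hI
      have b5 : 0 ≤ C := (norm_nonneg _).trans b4
      calc ‖Q φ‖ * ‖(pc T sa sb (r * Complex.exp (I * φ))).re‖
          ≤ C * (8 / Real.sqrt (|Real.cos φ - a| * |Real.cos φ - b|)) := by
            apply mul_le_mul b4 b3 (abs_nonneg _) b5
        _ = (8 * C) * (1 / Real.sqrt (|Real.cos φ - a| * |Real.cos φ - b|)) := by ring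
    · exact hint.const_mul (8 * C)
    · filter_upwards [hae] with φ hφ hφ2
      obtain ⟨hI, h1, h2⟩ := hφ hφ2
      by_cases hg : b < Real.cos φ ∧ Real.cos φ < a
      · have hl := a7_lim (T := T) hsa hsb h1 h2
        have hl2 : Tendsto (fun r : ℝ => (pc T sa sb (r * Complex.exp (I * φ))).re) (𝓝[<] 1)
            (𝓝 0) := by
          rw [← (a7_bd (T := T) hba hsa hsb hI h1 h2).2 hg.1 hg.2]
          exact (Complex.continuous_re.tendsto _).comp hl
        have hl3 := (tendsto_const_nhds (x := Q φ)).mul hl2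
        rw [mul_zero] at hl3
        exact hl3
      · have hq : Q φ = 0 := by
          apply hQ0 φ hI
          by_cases h3 : b < Real.cos φ
          · left
            by_contra h5
            exact hg ⟨h3, not_le.mp h5⟩
          · right
            exact not_lt.mp h3
        simp only [hq, zero_mul]
        exact tendsto_const_nhds

end A7M
end Pool.Agent.Helper974.Star
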