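import Mathlib
import Pool.Agent.Helper974.Star.Defs
set_option autoImplicit false
open Complex Filter Topology Metric Set MeasureTheory
namespace Pool.Agent.Helper974.Star
namespace A8M

theorem A8_mem {r : ℝ} (h0 : 0 < r) (h1 : r < 1) (θ : ℝ) :
    (r * Complex.exp (I * θ) : ℂ) ∈ ball (0 : ℂ) 1 := by
  rw [mem_ball_zero_iff, norm_mul, mul_comm I, Complex.norm_exp_ofReal_mul_I, mul_one,
    Complex.norm_real, Real.norm_of_nonneg h0.le]
  exact h1

theorem A8_z {r : ℝ} (θ : ℝ) :
    HasDerivAt (fun θ : ℝ => (r * Complex.exp (I * θ) : ℂ)) (I * (r * Complex.exp (I * θ))) θ := by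
  have h1 : HasDerivAt (fun θ : ℝ => (I * (θ : ℂ))) I θ := by
    have := (Complex.ofRealCLM.hasDerivAt (x := θ)).const_mul I
    simpa using this
  have h2 := (h1.cexp).const_mul (r : ℂ)
  have e : (r:ℂ) * (Complex.exp (I * (θ:ℂ)) * I) = I * (r * Complex.exp (I * θ)) := by ring
  rw [e] at h2
  exact h2

theorem A8_g {g : ℂ → ℂ} (hg : DifferentiableOn ℂ g (ball 0 1)) {r : ℝ} (h0 : 0 < r) (h1 : r < 1) (θ : ℝ) :
    HasDerivAt (fun θ : ℝ => g (r * Complex.exp (I * θ)))
      (I * ((r * Complex.exp (I * θ)) * deriv g (r * Complex.exp (I * θ)))) θ := by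
  have hd : HasDerivAt g (deriv g (r * Complex.exp (I * θ))) (r * Complex.exp (I * θ)) :=
    (hg.differentiableAt (isOpen_ball.mem_nhds (A8_mem h0 h1 θ))).hasDerivAt
  have h2 := HasDerivAt.comp θ hd (A8_z θ)
  have e : deriv g (r * Complex.exp (I * θ)) * (I * (r * Complex.exp (I * θ))) =
    (I * ((r * Complex.exp (I * θ)) * deriv g (r * Complex.exp (I * θ)))) := by ring
  rw [e] at h2
  exact h2

theorem A8_cont {g : ℂ → ℂ} (hg : DifferentiableOn ℂ g (ball 0 1)) {r : ℝ} (h0 : 0 < r) (h1 : r < 1) :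
    Continuous (fun θ : ℝ => (1 + (r * Complex.exp (I * θ)) * deriv g (r * Complex.exp (I * θ))).re) ∧
    Continuous (fun θ : ℝ => (1 + (r * Complex.exp (I * θ)) * deriv g (r * Complex.exp (I * θ))).im) ∧
    Continuous (fun θ : ℝ => g (r * Complex.exp (I * θ))) := by
  have hz : Continuous (fun θ : ℝ => (r * Complex.exp (I * θ) : ℂ)) := by fun_prop
  have hd : ContinuousOn (deriv g) (ball 0 1) := (hg.deriv isOpen_ball).continuousOn
  have hdz : Continuous (fun θ : ℝ => deriv g (r * Complex.exp (I * θ))) :=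
    hd.comp_continuous hz (fun θ => A8_mem h0 h1 θ)
  have hgz : Continuous (fun θ : ℝ => g (r * Complex.exp (I * θ))) :=
    hg.continuousOn.comp_continuous hz (fun θ => A8_mem h0 h1 θ)
  have hw : Continuous (fun θ : ℝ => 1 + (r * Complex.exp (I * θ)) * deriv g (r * Complex.exp (I * θ))) :=
    continuous_const.add (hz.mul hdz)
  exact ⟨Complex.continuous_re.comp hw, Complex.continuous_im.comp hw, hgz⟩

theorem A8_circle {T : ℝ} {sa sb g : ℂ → ℂ} (hg : GG T sa sb g) {r : ℝ} (h0 : 0 < r) (h1 : r < 1) (θ : ℝ) :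
    (g (r * Complex.exp (I * θ))).re = (g r).re - ∫ φ in (0 : ℝ)..θ, (pc T sa sb (r * Complex.exp (I * φ))).im := by
  have hder : ∀ φ : ℝ, HasDerivAt (fun φ : ℝ => (g (r * Complex.exp (I * φ))).re)
      (-(pc T sa sb (r * Complex.exp (I * φ))).im) φ := by
    intro φ
    have h := Complex.reCLM.hasFDerivAt.comp_hasDerivAt φ (A8_g hg.diff h0 h1 φ)
    have e := hg.der _ (A8_mem h0 h1 φ)
    rw [← e]
    have e2 : Complex.reCLM (I * ((r * Complex.exp (I * φ)) * deriv g (r * Complex.exp (I * φ)))) =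
        -(1 + (r * Complex.exp (I * φ)) * deriv g (r * Complex.exp (I * φ))).im := by
      rw [Complex.reCLM_apply, Complex.I_mul_re, Complex.add_im, Complex.one_im, zero_add]
    rw [← e2]
    exact h
  have hcont : Continuous (fun φ : ℝ => -(pc T sa sb (r * Complex.exp (I * φ))).im) := by
    have h := (A8_cont hg.diff h0 h1).2.1.neg
    refine h.congr ?_
    intro φ
    rw [Pi.neg_apply, hg.der _ (A8_mem h0 h1 φ)]
  have hFTC := intervalIntegral.integral_eq_sub_of_hasDerivAt (a := (0:ℝ)) (b := θ)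
    (fun φ _ => hder φ) (hcont.intervalIntegrable 0 θ)
  rw [intervalIntegral.integral_neg] at hFTC
  have e0 : g (r * Complex.exp (I * ((0:ℝ):ℂ))) = g r := by simp
  rw [e0] at hFTC
  linarith

theorem A8_im {g : ℂ → ℂ} (hg : DifferentiableOn ℂ g (ball 0 1)) {r : ℝ} (h0 : 0 < r) (h1 : r < 1) (θ : ℝ) :
    HasDerivAt (fun θ : ℝ => (g (r * Complex.exp (I * θ))).im + θ)
      (1 + (r * Complex.exp (I * θ)) * deriv g (r * Complex.exp (I * θ))).re θ := by
  have h := (Complex.imCLM.hasFDerivAt.comp_hasDerivAt θ (A8_g hg h0 h1 θ)).add (hasDerivAt_id θ)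
  have e2 : Complex.imCLM (I * ((r * Complex.exp (I * θ)) * deriv g (r * Complex.exp (I * θ)))) + 1 =
        (1 + (r * Complex.exp (I * θ)) * deriv g (r * Complex.exp (I * θ))).re := by
      rw [Complex.imCLM_apply, Complex.I_mul_im, Complex.add_re, Complex.one_re, add_comm]
  rw [← e2]
  exact h

end A8M
end Pool.Agent.Helper974.Star
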