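import Mathlib
import Pool.Agent.Helper974.Star.Defs
set_option autoImplicit false
open Complex Filter Topology Metric Set MeasureTheory
namespace Pool.Agent.Helper974.Star
namespace A9M

theorem A9_pos {a : ℝ} (h1 : -1 < a) (h2 : a < 1) (t : ℝ) : 0 < 1 - 2 * a * t + t ^ 2 := by
  nlinarith [sq_nonneg (t - a), mul_pos (by linarith : 0 < 1 + a) (by linarith : 0 < 1 - a)]

theorem A9_real {a : ℝ} (h1 : -1 < a) (h2 : a < 1) {s : ℂ → ℂ} (hs : Br a s) {t : ℝ} (h0 : 0 ≤ t) (h3 : t ≤ 1) :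
    s t = (Real.sqrt (1 - 2 * a * t + t ^ 2) : ℂ) := by
  have hq := A9_pos h1 h2 t
  have hsq : s t ^ 2 = ((Real.sqrt (1 - 2 * a * t + t ^ 2) : ℝ) : ℂ) ^ 2 := by
    rw [hs.sq]
    have e : ((Real.sqrt (1 - 2 * a * t + t ^ 2) : ℝ) : ℂ) ^ 2 = ((Real.sqrt (1 - 2 * a * t + t ^ 2) ^ 2 : ℝ) : ℂ) := by
      push_cast; ring
    rw [e, Real.sq_sqrt hq.le]
    push_cast; ring
  have hre : 0 ≤ (s t).re := hs.re_nonneg t (by
    rw [Complex.norm_real, Real.norm_eq_abs, abs_of_nonneg h0]; exact h3)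
  rcases sq_eq_sq_iff_eq_or_eq_neg.1 hsq with h | h
  · exact h
  · exfalso
    rw [h, Complex.neg_re, Complex.ofReal_re] at hre
    have := Real.sqrt_pos.2 hq
    linarith

theorem A9_pr_diff {a b T : ℝ} (hb : -1 < b) (hba : b < a) (ha : a < 1) : Differentiable ℝ (pr a b T) := by
  intro t
  have hqa := A9_pos (by linarith : -1 < a) ha t
  have hqb := A9_pos hb (by linarith : b < 1) t
  have d1 : DifferentiableAt ℝ (fun t : ℝ => 1 - 2 * a * t + t ^ 2) t := by fun_prop
  have d2 : DifferentiableAt ℝ (fun t : ℝ => 1 - 2 * b * t + t ^ 2) t := by fun_prop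
  have d3 : DifferentiableAt ℝ (fun t : ℝ => 1 - 2 * T * t + t ^ 2) t := by fun_prop
  exact d3.div ((d1.sqrt hqa.ne').mul (d2.sqrt hqb.ne'))
    (mul_ne_zero (Real.sqrt_pos.2 hqa).ne' (Real.sqrt_pos.2 hqb).ne')

theorem A9_dslope (a b T t : ℝ) (ht : t ≠ 0) : dslope (pr a b T) 0 t = (pr a b T t - 1) / t := by
  rw [dslope_of_ne _ ht, slope_def_field]
  have : pr a b T 0 = 1 := by unfold pr; simp
  rw [this, sub_zero]

theorem A9_lim {a b T : ℝ} (hb : -1 < b) (hba : b < a) (ha : a < 1)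
    {sa sb g : ℂ → ℂ} (hsa : Br a sa) (hsb : Br b sb) (hg : GG T sa sb g) :
    Tendsto (fun r : ℝ => (g r).re) (𝓝[<] 1) (𝓝 (lv a b T)) := by
  have hdiff := A9_pr_diff (T := T) hb hba ha
  have hcont : Continuous (dslope (pr a b T) 0) := by
    rw [← continuousOn_univ, continuousOn_dslope Filter.univ_mem]
    exact ⟨hdiff.continuous.continuousOn, hdiff 0⟩
  have hprim : Continuous (fun r : ℝ => ∫ t in (0:ℝ)..r, dslope (pr a b T) 0 t) :=
    intervalIntegral.continuous_primitive (fun _ _ => hcont.intervalIntegrable _ _) 0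
  have hlv : lv a b T = ∫ t in (0:ℝ)..1, dslope (pr a b T) 0 t := by
    unfold lv
    apply intervalIntegral.integral_congr_ae
    refine Filter.Eventually.of_forall fun t ht => ?_
    rw [Set.uIoc_of_le zero_le_one] at ht
    exact (A9_dslope a b T t ht.1.ne').symm
  have hball : ∀ t : ℝ, 0 ≤ t → t < 1 → (t : ℂ) ∈ ball (0 : ℂ) 1 := by
    intro t h0 h1
    rw [mem_ball_zero_iff, Complex.norm_real, Real.norm_eq_abs, abs_of_nonneg h0]; exact h1
  have hder : ∀ t : ℝ, 0 ≤ t → t < 1 → HasDerivAt (fun t : ℝ => (g t).re) (deriv g t).re t := by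
    intro t h0 h1
    have hd : DifferentiableAt ℂ g t := hg.diff.differentiableAt (isOpen_ball.mem_nhds (hball t h0 h1))
    exact hd.hasDerivAt.real_of_complex
  have hpc : ∀ t : ℝ, 0 ≤ t → t < 1 → pc T sa sb t = ((pr a b T t : ℝ) : ℂ) := by
    intro t h0 h1
    unfold pc pr
    rw [A9_real (by linarith) ha hsa h0 h1.le, A9_real hb (by linarith) hsb h0 h1.le]
    push_cast
    ring
  have hval : ∀ t : ℝ, 0 < t → t < 1 → (deriv g t).re = dslope (pr a b T) 0 t := by
    intro t h0 h1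
    rw [A9_dslope a b T t h0.ne', eq_div_iff h0.ne']
    have h2 := hg.der t (hball t h0.le h1)
    rw [hpc t h0.le h1] at h2
    have h3 := congrArg Complex.re h2
    rw [Complex.add_re, Complex.one_re, Complex.re_ofReal_mul, Complex.ofReal_re] at h3
    linarith
  have heq : ∀ r : ℝ, 0 < r → r < 1 → (g r).re = ∫ t in (0:ℝ)..r, dslope (pr a b T) 0 t := by
    intro r h0 h1
    have h2 := intervalIntegral.integral_eq_sub_of_hasDerivAt_of_le (a := 0) (b := r)
      (f := fun t : ℝ => (g t).re) (f' := dslope (pr a b T) 0) h0.le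
      (fun t ht => (hder t ht.1 (lt_of_le_of_lt ht.2 h1)).continuousAt.continuousWithinAt)
      (fun t ht => by
        have := hder t ht.1.le (ht.2.trans h1)
        rwa [hval t ht.1 (ht.2.trans h1)] at this)
      (hcont.intervalIntegrable _ _)
    rw [h2]
    have : g ((0 : ℝ) : ℂ) = 0 := by rw [Complex.ofReal_zero]; exact hg.zero
    simp only [this, Complex.zero_re, sub_zero]
  rw [hlv]
  have h5 : Tendsto (fun r : ℝ => ∫ t in (0:ℝ)..r, dslope (pr a b T) 0 t) (𝓝[<] 1)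
      (𝓝 (∫ t in (0:ℝ)..1, dslope (pr a b T) 0 t)) := (hprim.tendsto 1).mono_left nhdsWithin_le_nhds
  refine h5.congr' ?_
  filter_upwards [Ioo_mem_nhdsLT (zero_lt_one : (0:ℝ) < 1)] with r hr
  exact (heq r hr.1 hr.2).symm

end A9M
end Pool.Agent.Helper974.Star
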