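import Mathlib
import Pool.Agent.Helper974.Star.Defs
set_option autoImplicit false
open Filter Topology Metric Set MeasureTheory
namespace Pool.Agent.Helper974.Star
namespace B10M

theorem U_cont (a b : ℝ) : Continuous (U a b) := by
  unfold U; fun_prop

theorem U_le {a b : ℝ} (h : b ≤ a) (ψ : ℝ) : U a b ψ ≤ a := by
  unfold U
  have := Real.cos_le_one ψ
  nlinarith

theorem le_U {a b : ℝ} (h : b ≤ a) (ψ : ℝ) : b ≤ U a b ψ := by
  unfold U
  have := Real.neg_one_le_cos ψ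
  nlinarith

theorem EI_integrable {F : ℝ → ℝ} (hF : Continuous F) {a b : ℝ} (hb : -1 < b) (hab : b ≤ a)
    (ha : a < 1) :
    IntervalIntegrable (fun ψ => F (U a b ψ) / Real.sqrt (1 - U a b ψ ^ 2)) volume 0 Real.pi := by
  apply Continuous.intervalIntegrable
  have h : ∀ ψ, Real.sqrt (1 - U a b ψ ^ 2) ≠ 0 := by
    intro ψ
    have h1 := U_le hab ψ
    have h2 := le_U hab ψ
    apply ne_of_gt
    apply Real.sqrt_pos.2
    nlinarith
  have hU := U_cont a b
  exact (hF.comp hU).div (Real.continuous_sqrt.comp (by fun_prop)) h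

theorem EI_one_ge {a b : ℝ} (hb : -1 < b) (hab : b ≤ a) (ha : a < 1) :
    Real.log ((Real.sqrt (2 * (1 + b)) + Real.pi) / Real.sqrt (2 * (1 + b)))
      ≤ EI (fun _ => 1) a b := by
  set ε := Real.sqrt (2 * (1 + b)) with hε
  have hε0 : 0 < ε := Real.sqrt_pos.2 (by linarith)
  have hε2 : ε ^ 2 = 2 * (1 + b) := Real.sq_sqrt (by linarith)
  have h1 : ∫ ψ in (0 : ℝ)..Real.pi, ((ε + Real.pi) - ψ)⁻¹ = Real.log ((ε + Real.pi) / ε) := by
    have h2 := intervalIntegral.integral_comp_sub_left (a := 0) (b := Real.pi)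
      (fun x : ℝ => x⁻¹) (ε + Real.pi)
    have h3 : ε + Real.pi - Real.pi = ε := by ring
    rw [h2, sub_zero, h3, integral_inv_of_pos hε0 (by linarith [Real.pi_pos])]
  rw [← h1]
  unfold EI
  apply intervalIntegral.integral_mono_on Real.pi_pos.le
  · apply ContinuousOn.intervalIntegrable
    apply ContinuousOn.inv₀ (by fun_prop)
    intro ψ hψ
    rw [Set.uIcc_of_le Real.pi_pos.le] at hψ
    have := hψ.2
    apply ne_of_gt
    linarith
  · exact EI_integrable (F := fun _ => 1) continuous_const hb hab ha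
  · intro ψ hψ
    have h1 := U_le hab ψ
    have h2 := le_U hab ψ
    have hs : 0 < Real.sqrt (1 - U a b ψ ^ 2) := by
      apply Real.sqrt_pos.2
      nlinarith
    rw [← one_div]
    apply one_div_le_one_div_of_le hs
    have hπ := hψ.2
    apply Real.sqrt_le_iff.2
    refine ⟨by linarith, ?_⟩
    have hc : 1 + Real.cos ψ ≤ (Real.pi - ψ) ^ 2 / 2 := by
      have := Real.one_sub_sq_div_two_le_cos (x := Real.pi - ψ)
      rw [Real.cos_pi_sub] at this
      linarith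
    have hc0 := Real.neg_one_le_cos ψ
    have hU : 1 + U a b ψ = (1 + b) + (a - b) / 2 * (1 + Real.cos ψ) := by
      unfold U; ring
    have h3 : (a - b) / 2 * (1 + Real.cos ψ) ≤ 1 * ((Real.pi - ψ) ^ 2 / 2) :=
      mul_le_mul (by linarith) hc (by linarith) (by norm_num)
    have h4 : 1 - U a b ψ ^ 2 ≤ 2 * (1 + U a b ψ) := by nlinarith
    have h5 : 0 ≤ ε * (Real.pi - ψ) := mul_nonneg hε0.le (by linarith)
    nlinarith

theorem tendsto_EI_one {a : ℝ} (h0 : -1 < a) (h1 : a < 1) :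
    Tendsto (fun p : ℝ × ℝ => EI (fun _ => 1) p.1 p.2) (𝓝 a ×ˢ 𝓝[>] (-1)) atTop := by
  have hreg : ∀ᶠ p : ℝ × ℝ in 𝓝 a ×ˢ 𝓝[>] (-1), -1 < p.2 ∧ p.2 ≤ p.1 ∧ p.1 < 1 := by
    have e1 : ∀ᶠ x in 𝓝 a, (a - 1) / 2 < x ∧ x < 1 :=
      (lt_mem_nhds (by linarith)).and (gt_mem_nhds h1)
    have e2 : ∀ᶠ y in 𝓝[>] (-1 : ℝ), -1 < y ∧ y < (a - 1) / 2 :=
      (eventually_mem_nhdsWithin).and (mem_nhdsWithin_of_mem_nhds (gt_mem_nhds (by linarith)))
    filter_upwards [e1.prod_mk e2] with p hp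
    exact ⟨hp.2.1, by linarith [hp.1.1, hp.2.2], hp.1.2⟩
  have hs : Tendsto (fun b : ℝ => Real.sqrt (2 * (1 + b))) (𝓝[>] (-1)) (𝓝[>] 0) := by
    rw [tendsto_nhdsWithin_iff]
    constructor
    · have : Continuous (fun b : ℝ => Real.sqrt (2 * (1 + b))) := by fun_prop
      have h := this.tendsto (-1)
      simp only [add_neg_cancel, mul_zero, Real.sqrt_zero] at h
      exact h.mono_left nhdsWithin_le_nhds
    · filter_upwards [self_mem_nhdsWithin] with b hb
      have hb' : -1 < b := hb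
      exact Real.sqrt_pos.2 (by linarith)
  have hg : Tendsto (fun ε : ℝ => Real.log ((ε + Real.pi) / ε)) (𝓝[>] 0) atTop := by
    apply Real.tendsto_log_atTop.comp
    have hc : Tendsto (fun ε : ℝ => ε + Real.pi) (𝓝[>] 0) (𝓝 Real.pi) := by
      have : Continuous (fun ε : ℝ => ε + Real.pi) := by fun_prop
      have h := this.tendsto 0
      simp only [zero_add] at h
      exact h.mono_left nhdsWithin_le_nhds
    simp only [div_eq_mul_inv]
    exact hc.pos_mul_atTop Real.pi_pos tendsto_inv_nhdsGT_zero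
  have ht : Tendsto (fun p : ℝ × ℝ =>
      Real.log ((Real.sqrt (2 * (1 + p.2)) + Real.pi) / Real.sqrt (2 * (1 + p.2))))
      (𝓝 a ×ˢ 𝓝[>] (-1)) atTop := (hg.comp hs).comp tendsto_snd
  apply tendsto_atTop_mono' _ _ ht
  filter_upwards [hreg] with p hp
  exact EI_one_ge hp.1 hp.2.1 hp.2.2

theorem sqrt_bound {x y K : ℝ} (hK : 0 ≤ K) (h : x ^ 2 ≤ K ^ 2 * y) :
    |x / Real.sqrt y| ≤ K := by
  rcases le_or_gt y 0 with hy | hy
  · rw [Real.sqrt_eq_zero_of_nonpos hy, div_zero, abs_zero]; exact hK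
  · have hs : 0 < Real.sqrt y := Real.sqrt_pos.2 hy
    rw [abs_div, abs_of_pos hs, div_le_iff₀ hs]
    apply abs_le_of_sq_le_sq _ (by positivity)
    rw [mul_pow, Real.sq_sqrt hy.le]
    exact h

theorem B10_T {a : ℝ} (h0 : -1 < a) (h1 : a < 1) :
    Tendsto (fun p : ℝ × ℝ => TT p.1 p.2) (𝓝 a ×ˢ 𝓝[>] (-1)) (𝓝 (-1)) := by
  have hD := tendsto_EI_one h0 h1
  have hreg : ∀ᶠ p : ℝ × ℝ in 𝓝 a ×ˢ 𝓝[>] (-1),
      -1 < p.2 ∧ p.2 ≤ p.1 ∧ p.1 < (1 + a) / 2 := by
    have e1 : ∀ᶠ x in 𝓝 a, (a - 1) / 2 < x ∧ x < (1 + a) / 2 :=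
      (lt_mem_nhds (by linarith)).and (gt_mem_nhds (by linarith))
    have e2 : ∀ᶠ y in 𝓝[>] (-1 : ℝ), -1 < y ∧ y < (a - 1) / 2 :=
      (eventually_mem_nhdsWithin).and (mem_nhdsWithin_of_mem_nhds (gt_mem_nhds (by linarith)))
    filter_upwards [e1.prod_mk e2] with p hp
    exact ⟨hp.2.1, by linarith [hp.1.1, hp.2.2], hp.1.2⟩
  set K : ℝ := Real.sqrt (2 / ((1 - a) / 2)) with hK
  have hK2 : K ^ 2 = 2 / ((1 - a) / 2) := Real.sq_sqrt (by
    apply div_nonneg (by norm_num); linarith)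
  have hK0 : 0 ≤ K := Real.sqrt_nonneg _
  have hmain : ∀ᶠ p : ℝ × ℝ in 𝓝 a ×ˢ 𝓝[>] (-1),
      |TT p.1 p.2 - (-1)| ≤ (K * Real.pi) / EI (fun _ => 1) p.1 p.2 := by
    filter_upwards [hreg, hD.eventually_gt_atTop 0] with p hp hpos
    obtain ⟨hp1, hp2, hp3⟩ := hp
    have e1 : TT p.1 p.2 - (-1) = EI (fun u => u + 1) p.1 p.2 / EI (fun _ => 1) p.1 p.2 := by
      have e2 : EI (fun u => u + 1) p.1 p.2 = EI (fun u => u) p.1 p.2 + EI (fun _ => 1) p.1 p.2 := by
        unfold EI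
        rw [← intervalIntegral.integral_add
          (EI_integrable (F := fun u => u) continuous_id hp1 hp2 (by linarith))
          (EI_integrable (F := fun _ => 1) continuous_const hp1 hp2 (by linarith))]
        apply intervalIntegral.integral_congr
        intro ψ _
        simp only
        rw [add_div]
      rw [e2, add_div, div_self hpos.ne']
      unfold TT mean
      ring
    rw [e1, abs_div, abs_of_pos hpos]
    apply div_le_div_of_nonneg_right _ hpos.le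
    unfold EI
    have h3 := intervalIntegral.norm_integral_le_of_norm_le_const (a := 0) (b := Real.pi)
      (f := fun ψ => (U p.1 p.2 ψ + 1) / Real.sqrt (1 - U p.1 p.2 ψ ^ 2)) (C := K) (by
        intro ψ _
        rw [Real.norm_eq_abs]
        apply sqrt_bound hK0
        have f1 := U_le hp2 ψ
        have f2 := le_U hp2 ψ
        rw [hK2]
        have f3 : (1 - a) / 2 ≤ 1 - U p.1 p.2 ψ := by linarith
        have f4 : 0 < (1 - a) / 2 := by linarith
        rw [div_mul_eq_mul_div, le_div_iff₀ f4]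
        have f5 : 0 ≤ U p.1 p.2 ψ + 1 := by linarith
        have f6 : U p.1 p.2 ψ + 1 ≤ 2 := by linarith
        nlinarith [mul_nonneg (mul_nonneg f5 (by linarith : 0 ≤ 2 - (U p.1 p.2 ψ + 1)))
          f4.le, mul_nonneg f5 (by linarith : 0 ≤ 1 - U p.1 p.2 ψ - (1 - a) / 2)])
    rw [Real.norm_eq_abs, sub_zero, abs_of_pos Real.pi_pos] at h3
    exact h3
  have hz : Tendsto (fun p : ℝ × ℝ => (K * Real.pi) / EI (fun _ => 1) p.1 p.2)
      (𝓝 a ×ˢ 𝓝[>] (-1)) (𝓝 0) := tendsto_const_nhds.div_atTop hD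
  rw [tendsto_iff_dist_tendsto_zero]
  apply squeeze_zero' (Eventually.of_forall fun p => dist_nonneg) _ hz
  filter_upwards [hmain] with p hp
  rw [Real.dist_eq]
  exact hp

theorem pr_bound {a b T t r : ℝ} (ha : |a| ≤ r) (hr : r < 1) (hb1 : -1 ≤ b) (hb0 : b ≤ 0)
    (hT : |T| ≤ 2) (ht0 : 0 < t) (ht1 : t ≤ 1) :
    |(pr a b T t - 1) / t| ≤ 14 / Real.sqrt (1 - r ^ 2) := by
  obtain ⟨ha1, ha2⟩ := abs_le.1 ha
  obtain ⟨hT1, hT2⟩ := abs_le.1 hT
  have hr0 : 0 ≤ r := (abs_nonneg a).trans ha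
  unfold pr
  set A := 1 - 2 * a * t + t ^ 2 with hA
  set B := 1 - 2 * b * t + t ^ 2 with hB
  have hrr : 0 < 1 - r ^ 2 := by nlinarith
  have hA1 : 1 - r ^ 2 ≤ A := by
    have : a ^ 2 ≤ r ^ 2 := by
      rw [← sq_abs a]; exact pow_le_pow_left₀ (abs_nonneg a) ha 2
    rw [hA]; nlinarith [sq_nonneg (t - a)]
  have hA0 : 0 < A := hrr.trans_le hA1
  have hB1 : 1 ≤ B := by rw [hB]; nlinarith [mul_nonneg (neg_nonneg.2 hb0) ht0.le, sq_nonneg t]
  have hB3 : B - 1 ≤ 3 * t := by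
    rw [hB]; nlinarith [mul_nonneg (by linarith : 0 ≤ b + 1) ht0.le]
  have hA3 : |A - 1| ≤ 3 * t := by
    rw [hA, abs_le]
    constructor
    · nlinarith [mul_nonneg (by linarith : 0 ≤ 1 - a) ht0.le, sq_nonneg t]
    · nlinarith [mul_nonneg (by linarith : 0 ≤ a + 1) ht0.le]
  set sA := Real.sqrt A with hsA
  set sB := Real.sqrt B with hsB
  set δ := Real.sqrt (1 - r ^ 2) with hδ
  have hδ0 : 0 < δ := Real.sqrt_pos.2 hrr
  have hsA0 : δ ≤ sA := Real.sqrt_le_sqrt hA1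
  have hsA2 : sA ^ 2 = A := Real.sq_sqrt hA0.le
  have hsB2 : sB ^ 2 = B := Real.sq_sqrt (by linarith)
  have hsB1 : 1 ≤ sB := by
    rw [hsB, Real.one_le_sqrt]; exact hB1
  have hsB3 : sB ≤ 2 := by
    rw [hsB, Real.sqrt_le_iff]
    constructor
    · norm_num
    · linarith
  have h1 : |sA - 1| ≤ 3 * t := by
    have e1 : A - 1 = (sA - 1) * (sA + 1) := by rw [← hsA2]; ring
    rw [e1, abs_mul] at hA3
    have e2 : 1 ≤ |sA + 1| := by rw [abs_of_pos (by linarith)]; linarith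
    nlinarith [abs_nonneg (sA - 1)]
  have h2 : |sB - 1| ≤ 3 * t := by
    rw [abs_of_nonneg (by linarith)]
    nlinarith
  have h3 : |(1 - 2 * T * t + t ^ 2) - sA * sB| ≤ 14 * t := by
    have e1 : (1 - 2 * T * t + t ^ 2) - sA * sB = t * (t - 2 * T) + -((sA - 1) * sB) + -(sB - 1) := by
      ring
    rw [e1]
    have e2 : |t * (t - 2 * T)| ≤ 5 * t := by
      rw [abs_mul, abs_of_pos ht0]
      have : |t - 2 * T| ≤ 5 := by
        rw [abs_le]; constructor <;> linarith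
      nlinarith
    have e3 : |-((sA - 1) * sB)| ≤ 6 * t := by
      rw [abs_neg, abs_mul, abs_of_pos (by linarith : 0 < sB)]
      nlinarith [abs_nonneg (sA - 1)]
    have e4 : |-(sB - 1)| ≤ 3 * t := by rw [abs_neg]; exact h2
    calc _ ≤ |t * (t - 2 * T) + -((sA - 1) * sB)| + |-(sB - 1)| := abs_add_le _ _
      _ ≤ |t * (t - 2 * T)| + |-((sA - 1) * sB)| + |-(sB - 1)| := by
          gcongr; exact abs_add_le _ _
      _ ≤ 14 * t := by linarith
  have hsAB : 0 < sA * sB := mul_pos (by linarith) (by linarith)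
  have e5 : ((1 - 2 * T * t + t ^ 2) / (sA * sB) - 1) / t
      = ((1 - 2 * T * t + t ^ 2) - sA * sB) / (sA * sB * t) := by
    have hsA' : sA ≠ 0 := by linarith
    have hsB' : sB ≠ 0 := by linarith
    field_simp
  rw [e5, abs_div, abs_of_pos (mul_pos hsAB ht0), div_le_div_iff₀ (mul_pos hsAB ht0) hδ0]
  have e6 : δ ≤ sA * sB := by nlinarith
  calc |(1 - 2 * T * t + t ^ 2) - sA * sB| * δ ≤ (14 * t) * (sA * sB) :=
        mul_le_mul h3 e6 hδ0.le (by positivity)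
    _ = 14 * (sA * sB * t) := by ring

theorem B10_l {a : ℝ} (h0 : -1 < a) (h1 : a < 1) :
    Tendsto (fun p : ℝ × ℝ × ℝ => lv p.1 p.2.1 p.2.2) (𝓝 a ×ˢ (𝓝[>] (-1) ×ˢ 𝓝 (-1))) (𝓝 (lv a (-1) (-1))) := by
  have ha : |a| < 1 := abs_lt.2 ⟨h0, h1⟩
  set r : ℝ := (1 + |a|) / 2 with hr
  have hr1 : r < 1 := by rw [hr]; linarith
  have har : |a| < r := by rw [hr]; linarith
  have hreg : ∀ᶠ p : ℝ × ℝ × ℝ in 𝓝 a ×ˢ (𝓝[>] (-1) ×ˢ 𝓝 (-1)),
      |p.1| ≤ r ∧ (-1 ≤ p.2.1 ∧ p.2.1 ≤ 0) ∧ |p.2.2| ≤ 2 := by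
    have e1 : ∀ᶠ x : ℝ in 𝓝 a, |x| ≤ r := by
      have := (continuous_abs.tendsto a).eventually (gt_mem_nhds har)
      filter_upwards [this] with x hx
      exact hx.le
    have e2 : ∀ᶠ y : ℝ in 𝓝[>] (-1 : ℝ), -1 ≤ y ∧ y ≤ 0 := by
      have f1 : ∀ᶠ y : ℝ in 𝓝[>] (-1 : ℝ), -1 < y := eventually_mem_nhdsWithin
      have f2 : ∀ᶠ y : ℝ in 𝓝[>] (-1 : ℝ), y < 0 :=
        mem_nhdsWithin_of_mem_nhds (gt_mem_nhds (by norm_num))
      filter_upwards [f1, f2] with y hy1 hy2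
      exact ⟨hy1.le, hy2.le⟩
    have e3 : ∀ᶠ x : ℝ in 𝓝 (-1 : ℝ), |x| ≤ 2 := by
      have := (continuous_abs.tendsto (-1 : ℝ)).eventually
        (gt_mem_nhds (by norm_num : |(-1 : ℝ)| < 2))
      filter_upwards [this] with x hx
      exact hx.le
    filter_upwards [e1.prod_mk (e2.prod_mk e3)] with p hp
    exact ⟨hp.1, hp.2.1, hp.2.2⟩
  unfold lv
  apply intervalIntegral.tendsto_integral_filter_of_dominated_convergence
    (fun _ => 14 / Real.sqrt (1 - r ^ 2))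
  · apply Eventually.of_forall
    intro p
    apply Measurable.aestronglyMeasurable
    unfold pr
    fun_prop
  · filter_upwards [hreg] with p hp
    apply Eventually.of_forall
    intro t ht
    rw [Set.uIoc_of_le zero_le_one] at ht
    rw [Real.norm_eq_abs]
    exact pr_bound hp.1 hr1 hp.2.1.1 hp.2.1.2 hp.2.2 ht.1 ht.2
  · exact intervalIntegrable_const
  · apply Eventually.of_forall
    intro t ht
    rw [Set.uIoc_of_le zero_le_one] at ht
    have hc : ContinuousAt (fun p : ℝ × ℝ × ℝ => (pr p.1 p.2.1 p.2.2 t - 1) / t) (a, (-1, -1)) := by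
      unfold pr
      have hA : (0 : ℝ) < 1 - 2 * a * t + t ^ 2 := by nlinarith [sq_nonneg (t - a)]
      have hB : (0 : ℝ) < 1 - 2 * (-1) * t + t ^ 2 := by nlinarith [ht.1, sq_nonneg t]
      have hne : Real.sqrt (1 - 2 * a * t + t ^ 2) * Real.sqrt (1 - 2 * (-1) * t + t ^ 2) ≠ 0 :=
        mul_ne_zero (Real.sqrt_pos.2 hA).ne' (Real.sqrt_pos.2 hB).ne'
      apply ContinuousAt.div_const
      apply ContinuousAt.sub _ continuousAt_const
      exact ContinuousAt.div (f := fun p : ℝ × ℝ × ℝ => 1 - 2 * p.2.2 * t + t ^ 2)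
        (g := fun p : ℝ × ℝ × ℝ => Real.sqrt (1 - 2 * p.1 * t + t ^ 2) *
          Real.sqrt (1 - 2 * p.2.1 * t + t ^ 2)) (by fun_prop) (by fun_prop) hne
    have hle : (𝓝 a ×ˢ (𝓝[>] (-1 : ℝ) ×ˢ 𝓝 (-1 : ℝ))) ≤ 𝓝 (a, ((-1 : ℝ), (-1 : ℝ))) := by
      rw [nhds_prod_eq, nhds_prod_eq]
      exact Filter.prod_mono le_rfl (Filter.prod_mono nhdsWithin_le_nhds le_rfl)
    exact hc.tendsto.mono_left hle

theorem gap_bound {a b δ : ℝ} (hδ : 0 < δ) (hb : -1 ≤ b) (hab : b ≤ a) (ha : a ≤ 1 - δ) (ψ : ℝ) :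
    |((a - U a b ψ) * (U a b ψ - b)) / Real.sqrt (1 - U a b ψ ^ 2)| ≤ Real.sqrt (8 / δ) := by
  apply sqrt_bound (Real.sqrt_nonneg _)
  rw [Real.sq_sqrt (by positivity)]
  have f1 := U_le hab ψ
  have f2 := le_U hab ψ
  set V := U a b ψ with hV
  have g1 : 0 ≤ a - V := by linarith
  have g2 : 0 ≤ V - b := by linarith
  have g3 : a - V ≤ 2 := by linarith
  have g4 : V - b ≤ 2 := by linarith
  have g5 : V - b ≤ 1 + V := by linarith
  have g6 : δ ≤ 1 - V := by linarith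
  rw [div_mul_eq_mul_div, le_div_iff₀ hδ]
  have h1 : (a - V) ^ 2 ≤ 4 := by nlinarith
  have h2 : (V - b) ^ 2 ≤ 2 * (1 + V) := by nlinarith
  have h3 : ((a - V) * (V - b)) ^ 2 ≤ 8 * (1 + V) := by
    rw [mul_pow]
    calc (a - V) ^ 2 * (V - b) ^ 2 ≤ 4 * (2 * (1 + V)) :=
          mul_le_mul h1 h2 (sq_nonneg _) (by norm_num)
      _ = 8 * (1 + V) := by ring
  have h4 : (0 : ℝ) ≤ 1 + V := by linarith
  calc ((a - V) * (V - b)) ^ 2 * δ ≤ (8 * (1 + V)) * (1 - V) :=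
        mul_le_mul h3 g6 hδ.le (by linarith)
    _ = 8 * (1 - V ^ 2) := by ring

theorem gap_tendsto {a : ℝ} (h0 : -1 < a) (h1 : a < 1) {g : ℝ → ℝ} (hg : Continuous g)
    (hgb : ∀ x, |x| ≤ 1 → |g x| ≤ 1) :
    Tendsto (fun p : ℝ × ℝ => EI (fun u => g u * ((p.1 - u) * (u - p.2))) p.1 p.2)
      (𝓝 a ×ˢ 𝓝[>] (-1)) (𝓝 (EI (fun u => g u * ((a - u) * (u - (-1)))) a (-1))) := by
  have hreg : ∀ᶠ p : ℝ × ℝ in 𝓝 a ×ˢ 𝓝[>] (-1),
      -1 ≤ p.2 ∧ p.2 ≤ p.1 ∧ p.1 ≤ 1 - (1 - a) / 2 := by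
    have e1 : ∀ᶠ x in 𝓝 a, (a - 1) / 2 < x ∧ x < (1 + a) / 2 :=
      (lt_mem_nhds (by linarith)).and (gt_mem_nhds (by linarith))
    have e2 : ∀ᶠ y in 𝓝[>] (-1 : ℝ), -1 < y ∧ y < (a - 1) / 2 :=
      (eventually_mem_nhdsWithin).and (mem_nhdsWithin_of_mem_nhds (gt_mem_nhds (by linarith)))
    filter_upwards [e1.prod_mk e2] with p hp
    exact ⟨hp.2.1.le, by linarith [hp.1.1, hp.2.2], by linarith [hp.1.2]⟩
  have hδ : 0 < (1 - a) / 2 := by linarith
  unfold EI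
  apply intervalIntegral.tendsto_integral_filter_of_dominated_convergence
    (fun _ => Real.sqrt (8 / ((1 - a) / 2)))
  · apply Eventually.of_forall
    intro p
    apply Measurable.aestronglyMeasurable
    have hU : Measurable (U p.1 p.2) := (U_cont _ _).measurable
    have hgU : Measurable (fun ψ => g (U p.1 p.2 ψ)) := hg.measurable.comp hU
    fun_prop
  · filter_upwards [hreg] with p hp
    apply Eventually.of_forall
    intro ψ _
    rw [Real.norm_eq_abs, mul_div_assoc, abs_mul]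
    have f1 := U_le hp.2.1 ψ
    have f2 := le_U hp.2.1 ψ
    have h2 : |g (U p.1 p.2 ψ)| ≤ 1 := hgb _ (abs_le.2 ⟨by linarith [hp.1], by linarith [hp.2.2]⟩)
    have h3 := gap_bound hδ hp.1 hp.2.1 hp.2.2 ψ
    calc _ ≤ 1 * Real.sqrt (8 / ((1 - a) / 2)) := mul_le_mul h2 h3 (abs_nonneg _) zero_le_one
      _ = _ := one_mul _
  · exact intervalIntegrable_const
  · apply Eventually.of_forall
    intro ψ hψ
    rw [Set.uIoc_of_le Real.pi_pos.le] at hψ
    rcases eq_or_lt_of_le hψ.2 with hπ | hπ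
    · subst hπ
      have hU : ∀ x y : ℝ, U x y Real.pi = y := by
        intro x y; unfold U; rw [Real.cos_pi]; ring
      simp only [hU, sub_self, mul_zero, zero_div]
      exact tendsto_const_nhds
    · have hc : ContinuousAt (fun p : ℝ × ℝ =>
          g (U p.1 p.2 ψ) * ((p.1 - U p.1 p.2 ψ) * (U p.1 p.2 ψ - p.2)) /
            Real.sqrt (1 - U p.1 p.2 ψ ^ 2)) (a, -1) := by
        have hUc : Continuous (fun p : ℝ × ℝ => U p.1 p.2 ψ) := by
          unfold U; fun_prop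
        have hgU : Continuous (fun p : ℝ × ℝ => g (U p.1 p.2 ψ)) := hg.comp hUc
        have hcos : -1 < Real.cos ψ := by
          have := Real.cos_lt_cos_of_nonneg_of_le_pi hψ.1.le le_rfl hπ
          rwa [Real.cos_pi] at this
        have hU1 : -1 < U a (-1) ψ := by
          unfold U
          nlinarith
        have hU2 := U_le (by linarith : (-1 : ℝ) ≤ a) ψ
        have hne : Real.sqrt (1 - U a (-1) ψ ^ 2) ≠ 0 := by
          apply (Real.sqrt_pos.2 _).ne'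
          nlinarith
        exact ContinuousAt.div (f := fun p : ℝ × ℝ =>
            g (U p.1 p.2 ψ) * ((p.1 - U p.1 p.2 ψ) * (U p.1 p.2 ψ - p.2)))
          (g := fun p : ℝ × ℝ => Real.sqrt (1 - U p.1 p.2 ψ ^ 2))
          (Continuous.continuousAt (by fun_prop)) (Continuous.continuousAt (by fun_prop)) hne
      have hle : (𝓝 a ×ˢ (𝓝[>] (-1 : ℝ))) ≤ 𝓝 (a, (-1 : ℝ)) := by
        rw [nhds_prod_eq]
        exact Filter.prod_mono le_rfl nhdsWithin_le_nhds
      exact hc.tendsto.mono_left hle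

theorem gap_pos {a : ℝ} (h0 : -1 < a) (h1 : a < 1) :
    0 < EI (fun u => (a - u) * (u + 1)) a (-1) := by
  have hδ : 0 < (1 - a) / 2 := by linarith
  unfold EI
  apply intervalIntegral.intervalIntegral_pos_of_pos_on _ _ Real.pi_pos
  · have hU : Measurable (U a (-1)) := (U_cont _ _).measurable
    have hm : Measurable (fun ψ => (a - U a (-1) ψ) * (U a (-1) ψ + 1) /
        Real.sqrt (1 - U a (-1) ψ ^ 2)) := by fun_prop
    refine (intervalIntegrable_const (c := Real.sqrt (8 / ((1 - a) / 2)))).mono_fun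
      hm.aestronglyMeasurable ?_
    apply Eventually.of_forall
    intro ψ
    simp only [Real.norm_eq_abs]
    rw [abs_of_nonneg (Real.sqrt_nonneg (8 / ((1 - a) / 2)))]
    have h3 := gap_bound (a := a) (b := -1) hδ le_rfl h0.le (by linarith) ψ
    rw [sub_neg_eq_add] at h3
    exact h3
  · intro ψ hψ
    have hcos : -1 < Real.cos ψ := by
      have := Real.cos_lt_cos_of_nonneg_of_le_pi hψ.1.le le_rfl hψ.2
      rwa [Real.cos_pi] at this
    have hcos1 : Real.cos ψ < 1 := by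
      have := Real.cos_lt_cos_of_nonneg_of_le_pi le_rfl hψ.2.le hψ.1
      rwa [Real.cos_zero] at this
    have hU1 : -1 < U a (-1) ψ := by
      unfold U
      nlinarith
    have hU2 : U a (-1) ψ < a := by
      unfold U
      nlinarith
    apply div_pos (mul_pos (by linarith) (by linarith))
    apply Real.sqrt_pos.2
    nlinarith

theorem B10_c {a : ℝ} (h0 : -1 < a) (h1 : a < 1) :
    Tendsto (fun p : ℝ × ℝ => cc p.1 p.2) (𝓝 a ×ˢ 𝓝[>] (-1))
      (𝓝 (EI (fun u => u * ((a - u) * (u + 1))) a (-1) / EI (fun u => (a - u) * (u + 1)) a (-1))) := by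
  have hN := gap_tendsto h0 h1 (g := fun u => u) continuous_id (fun x hx => hx)
  have hD := gap_tendsto h0 h1 (g := fun _ => 1) continuous_const (fun x _ => by norm_num)
  simp only [one_mul, sub_neg_eq_add] at hN hD
  have h2 := hN.div hD (gap_pos h0 h1).ne'
  refine h2.congr' ?_
  filter_upwards [(tendsto_EI_one h0 h1).eventually_gt_atTop 0] with p hpos
  simp only [Pi.div_apply]
  unfold cc qq mean
  rw [div_div_div_cancel_right₀ hpos.ne']

end B10M
end Pool.Agent.Helper974.Star
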