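import Mathlib
import Pool.Agent.Helper974.Star.Defs
set_option autoImplicit false
open Filter Topology Metric Set MeasureTheory
namespace Pool.Agent.Helper974.Star
namespace B10pM

/-- integrand -/
noncomputable def gi (t c v : ℝ) : ℝ := (1 - c - 2 * v ^ 2) * Real.sqrt (v ^ 2 - t)

/-- primitive -/
noncomputable def PP (t c v : ℝ) : ℝ :=
  (1 - c) * (v * Real.sqrt (v ^ 2 - t) - t * Real.log (v + Real.sqrt (v ^ 2 - t))) / 2 -
    (v * (2 * v ^ 2 - t) * Real.sqrt (v ^ 2 - t) - t ^ 2 * Real.log (v + Real.sqrt (v ^ 2 - t))) / 4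

lemma PP_hasDeriv {t : ℝ} (c : ℝ) {v : ℝ} (hv0 : 0 < v) (hv : t < v ^ 2) :
    HasDerivAt (PP t c) (gi t c v) v := by
  have hr0 : 0 < v ^ 2 - t := by linarith
  set r := Real.sqrt (v ^ 2 - t) with hr
  have hrp : 0 < r := Real.sqrt_pos.mpr hr0
  have hr2 : r ^ 2 = v ^ 2 - t := Real.sq_sqrt hr0.le
  have a1 : HasDerivAt (fun v : ℝ => v ^ 2 - t) (2 * v) v := by
    simpa using (hasDerivAt_pow 2 v).sub_const t
  have a2 : HasDerivAt (fun v : ℝ => Real.sqrt (v ^ 2 - t)) (v / r) v := by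
    have := a1.sqrt hr0.ne'
    convert! this using 1
    rw [← hr]
    field_simp
  have a3 : HasDerivAt (fun v : ℝ => Real.log (v + Real.sqrt (v ^ 2 - t))) (1 / r) v := by
    have hne : v + Real.sqrt (v ^ 2 - t) ≠ 0 := by rw [← hr]; positivity
    have h0 : HasDerivAt (fun v : ℝ => v + Real.sqrt (v ^ 2 - t)) (1 + v / r) v := (hasDerivAt_id v).add a2
    have h := h0.log hne
    convert! h using 1
    rw [← hr]
    field_simp
    try ring
  have a4 : HasDerivAt (fun v : ℝ => v * Real.sqrt (v ^ 2 - t)) (1 * r + v * (v / r)) v :=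
    (hasDerivAt_id v).mul a2
  have a5 : HasDerivAt (fun v : ℝ => v * (2 * v ^ 2 - t)) (6 * v ^ 2 - t) v := by
    have h := (hasDerivAt_id v).mul (((hasDerivAt_pow 2 v).const_mul 2).sub_const t)
    convert! h using 1
    simp
    ring
  have a6 : HasDerivAt (fun v : ℝ => v * (2 * v ^ 2 - t) * Real.sqrt (v ^ 2 - t))
      ((6 * v ^ 2 - t) * r + v * (2 * v ^ 2 - t) * (v / r)) v := a5.mul a2
  have a7 := (((a4.sub (a3.const_mul t)).const_mul (1 - c)).div_const 2).sub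
    ((a6.sub (a3.const_mul (t ^ 2))).div_const 4)
  unfold PP
  convert! a7 using 1
  unfold gi
  rw [← hr]
  have hrne := hrp.ne'
  field_simp
  have ht : t = v ^ 2 - r ^ 2 := by linarith
  rw [ht]
  ring

lemma PP_contOn {t : ℝ} (c : ℝ) (h0 : 0 < t) : ContinuousOn (PP t c) (Set.Icc (Real.sqrt t) 1) := by
  have hs : 0 < Real.sqrt t := Real.sqrt_pos.mpr h0
  have hlog : ContinuousOn (fun v : ℝ => Real.log (v + Real.sqrt (v ^ 2 - t))) (Set.Icc (Real.sqrt t) 1) := by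
    apply ContinuousOn.log
    · fun_prop
    · intro v hv
      have h1 : 0 < v := lt_of_lt_of_le hs hv.1
      have := Real.sqrt_nonneg (v ^ 2 - t)
      linarith
  unfold PP
  fun_prop


/-- the substitution -/
noncomputable def vv (t ψ : ℝ) : ℝ := Real.sqrt ((1 + t - (1 - t) * Real.cos ψ) / 2)

lemma vv_arg {t : ℝ} (h0 : 0 < t) (h1 : t < 1) (ψ : ℝ) : t ≤ (1 + t - (1 - t) * Real.cos ψ) / 2 ∧
    (1 + t - (1 - t) * Real.cos ψ) / 2 ≤ 1 := by
  have e1 := Real.cos_le_one ψ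
  have e2 := Real.neg_one_le_cos ψ
  constructor <;> nlinarith

lemma vv_sq {t : ℝ} (h0 : 0 < t) (h1 : t < 1) (ψ : ℝ) : vv t ψ ^ 2 = (1 + t - (1 - t) * Real.cos ψ) / 2 :=
  Real.sq_sqrt (by linarith [(vv_arg h0 h1 ψ).1])

lemma vv_pos {t : ℝ} (h0 : 0 < t) (h1 : t < 1) (ψ : ℝ) : 0 < vv t ψ :=
  Real.sqrt_pos.2 (by linarith [(vv_arg h0 h1 ψ).1])

lemma vv_mem {t : ℝ} (h0 : 0 < t) (h1 : t < 1) (ψ : ℝ) : vv t ψ ∈ Set.Icc (Real.sqrt t) 1 := by
  constructor
  · exact Real.sqrt_le_sqrt (vv_arg h0 h1 ψ).1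
  · unfold vv
    exact Real.sqrt_le_iff.2 ⟨zero_le_one, by rw [one_pow]; exact (vv_arg h0 h1 ψ).2⟩

lemma vv_cont (t : ℝ) : Continuous (vv t) := by
  unfold vv
  fun_prop

lemma vv_hasDeriv {t : ℝ} (h0 : 0 < t) (h1 : t < 1) (ψ : ℝ) :
    HasDerivAt (vv t) ((1 - t) * Real.sin ψ / (4 * vv t ψ)) ψ := by
  have a1 : HasDerivAt (fun ψ : ℝ => (1 + t - (1 - t) * Real.cos ψ) / 2) ((1 - t) * Real.sin ψ / 2) ψ := by
    have h := (((Real.hasDerivAt_cos ψ).const_mul (1 - t)).const_sub (1 + t)).div_const 2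
    convert! h using 1
    ring
  have hne : (1 + t - (1 - t) * Real.cos ψ) / 2 ≠ 0 := by linarith [(vv_arg h0 h1 ψ).1]
  have h := a1.sqrt hne
  convert! h using 1
  unfold vv
  have : 0 < Real.sqrt ((1 + t - (1 - t) * Real.cos ψ) / 2) := vv_pos h0 h1 ψ
  field_simp
  ring

lemma U_eq {a t : ℝ} (ht : t = (1 - a) / 2) (ψ : ℝ) : U a (-1) ψ = -t + (1 - t) * Real.cos ψ := by
  unfold U
  rw [ht]; ring

/-- the integrand -/
noncomputable def Fi (a c ψ : ℝ) : ℝ :=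
  (U a (-1) ψ - c) * ((a - U a (-1) ψ) * (U a (-1) ψ + 1)) / Real.sqrt (1 - U a (-1) ψ ^ 2)

lemma Fi_eq {a t : ℝ} (h0 : 0 < t) (h1 : t < 1) (ht : t = (1 - a) / 2) (c ψ : ℝ) (hψ : ψ ∈ Set.Icc 0 Real.pi) :
    Fi a c ψ = 4 * (gi t c (vv t ψ) * ((1 - t) * Real.sin ψ / (4 * vv t ψ))) := by
  have hv := vv_pos h0 h1 ψ
  have hv2 := vv_sq h0 h1 ψ
  set v := vv t ψ with hvdef
  have hsin : 0 ≤ Real.sin ψ := Real.sin_nonneg_of_mem_Icc hψ
  have hsc := Real.sin_sq_add_cos_sq ψ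
  have hc1 := Real.cos_le_one ψ
  have hc2 := Real.neg_one_le_cos ψ
  have hA : 0 < 1 - t := by linarith
  have hU := U_eq ht ψ
  have ha : a = 1 - 2 * t := by linarith
  set r := Real.sqrt ((1 - t) * (1 + Real.cos ψ) / 2) with hr
  set p := Real.sqrt ((1 - t) * (1 - Real.cos ψ) / 2) with hp
  have hr0 : 0 ≤ r := Real.sqrt_nonneg _
  have hp0 : 0 ≤ p := Real.sqrt_nonneg _
  have hr2 : r ^ 2 = (1 - t) * (1 + Real.cos ψ) / 2 :=
    Real.sq_sqrt (div_nonneg (mul_nonneg hA.le (by linarith)) (by norm_num))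
  have hp2 : p ^ 2 = (1 - t) * (1 - Real.cos ψ) / 2 :=
    Real.sq_sqrt (div_nonneg (mul_nonneg hA.le (by linarith)) (by norm_num))
  have hpr : p * r = (1 - t) * Real.sin ψ / 2 := by
    have e1 : (p * r) ^ 2 = ((1 - t) * Real.sin ψ / 2) ^ 2 := by
      rw [mul_pow, hp2, hr2]
      have : Real.sin ψ ^ 2 = 1 - Real.cos ψ ^ 2 := by linarith
      rw [div_pow, mul_pow, this]
      ring
    exact (pow_left_inj₀ (mul_nonneg hp0 hr0) (by positivity) (by norm_num)).1 e1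
  have hsq1 : Real.sqrt (v ^ 2 - t) = p := by
    rw [hp, hv2]; congr 1; ring
  have hsq2 : Real.sqrt (1 - U a (-1) ψ ^ 2) = 2 * v * r := by
    have : 1 - U a (-1) ψ ^ 2 = (2 * v * r) ^ 2 := by
      rw [mul_pow, mul_pow, hr2, hv2, hU]
      ring
    rw [this, Real.sqrt_sq (by positivity)]
  have h1U : 1 - c - 2 * v ^ 2 = U a (-1) ψ - c := by rw [hv2, hU]; ring
  have haU : a - U a (-1) ψ = 2 * p ^ 2 := by rw [hp2, hU, ha]; ring
  have hU1 : U a (-1) ψ + 1 = 2 * r ^ 2 := by rw [hr2, hU]; ring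
  unfold Fi gi
  rw [hsq1, hsq2, h1U, haU, hU1]
  have hs : (1 - t) * Real.sin ψ = 2 * (p * r) := by rw [hpr]; ring
  rw [hs]
  rcases eq_or_lt_of_le hr0 with h | h
  · rw [← h]; simp
  · field_simp

lemma Fi_int {a t : ℝ} (h0 : 0 < t) (h1 : t < 1) (ht : t = (1 - a) / 2) (c : ℝ) :
    IntervalIntegrable (Fi a c) volume 0 Real.pi := by
  have hcont : Continuous (fun ψ => 4 * (gi t c (vv t ψ) * ((1 - t) * Real.sin ψ / (4 * vv t ψ)))) := by
    have hv := vv_cont t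
    unfold gi
    have hne : ∀ ψ, 4 * vv t ψ ≠ 0 := fun ψ => by have := vv_pos h0 h1 ψ; positivity
    refine continuous_const.mul (Continuous.mul ?_ (Continuous.div (by fun_prop) (by fun_prop) hne))
    fun_prop
  refine (hcont.intervalIntegrable 0 Real.pi).congr ?_
  intro ψ hψ
  rw [Set.uIoc_of_le Real.pi_pos.le] at hψ
  exact (Fi_eq h0 h1 ht c ψ ⟨hψ.1.le, hψ.2⟩).symm

lemma Fi_val {a t : ℝ} (h0 : 0 < t) (h1 : t < 1) (ht : t = (1 - a) / 2) (c : ℝ) :
    ∫ ψ in (0 : ℝ)..Real.pi, Fi a c ψ = Real.sqrt (1 - t) * (t - 2 * c) -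
      t * (2 - 2 * c - t) * Real.log ((1 + Real.sqrt (1 - t)) / Real.sqrt t) := by
  have hs : 0 < Real.sqrt t := Real.sqrt_pos.mpr h0
  have hs2 : Real.sqrt t ^ 2 = t := Real.sq_sqrt h0.le
  have hv0 : vv t 0 = Real.sqrt t := by
    unfold vv; congr 1; rw [Real.cos_zero]; ring
  have hvpi : vv t Real.pi = 1 := by
    unfold vv; rw [Real.cos_pi]
    rw [show (1 + t - (1 - t) * -1) / 2 = 1 by ring, Real.sqrt_one]
  have e3 : ∫ ψ in (0 : ℝ)..Real.pi, Fi a c ψ = 4 * PP t c (vv t Real.pi) - 4 * PP t c (vv t 0) := by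
    apply intervalIntegral.integral_eq_sub_of_hasDerivAt_of_le Real.pi_pos.le
      (f := fun ψ => 4 * PP t c (vv t ψ))
    · refine ContinuousOn.mul continuousOn_const ?_
      exact (PP_contOn c h0).comp (vv_cont t).continuousOn (fun ψ _ => vv_mem h0 h1 ψ)
    · intro ψ hψ
      have hlt : t < vv t ψ ^ 2 := by
        rw [vv_sq h0 h1]
        have : Real.cos ψ < 1 := by
          have := Real.cos_lt_cos_of_nonneg_of_le_pi le_rfl hψ.2.le hψ.1
          rwa [Real.cos_zero] at this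
        nlinarith
      have hd := (PP_hasDeriv c (vv_pos h0 h1 ψ) hlt).comp ψ (vv_hasDeriv h0 h1 ψ)
      have := hd.const_mul 4
      rw [Fi_eq h0 h1 ht c ψ ⟨hψ.1.le, hψ.2.le⟩]
      exact this
    · exact Fi_int h0 h1 ht c
  have e4 : Real.log ((1 + Real.sqrt (1 - t)) / Real.sqrt t) =
      Real.log (1 + Real.sqrt (1 - t)) - Real.log (Real.sqrt t) := by
    rw [Real.log_div (by have := Real.sqrt_nonneg (1 - t); positivity) hs.ne']
  rw [e3, hv0, hvpi, e4]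
  unfold PP
  rw [hs2, sub_self, Real.sqrt_zero]
  norm_num
  ring

theorem B10_ccP {a t : ℝ} (h0 : -1 < a) (h1 : a < 1) (ht : t = (1 - a) / 2) :
    0 < EI (fun u => (a - u) * (u + 1)) a (-1) ∧
    0 < 2 * Real.sqrt (1 - t) - 2 * t * Real.log ((1 + Real.sqrt (1 - t)) / Real.sqrt t) ∧
    EI (fun u => u * ((a - u) * (u + 1))) a (-1) / EI (fun u => (a - u) * (u + 1)) a (-1) =
      (t * Real.sqrt (1 - t) - t * (2 - t) * Real.log ((1 + Real.sqrt (1 - t)) / Real.sqrt t)) /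
       (2 * Real.sqrt (1 - t) - 2 * t * Real.log ((1 + Real.sqrt (1 - t)) / Real.sqrt t)) := by
  have h0' : 0 < t := by rw [ht]; linarith
  have h1' : t < 1 := by rw [ht]; linarith
  have E1 : EI (fun u => u * ((a - u) * (u + 1))) a (-1) =
      t * Real.sqrt (1 - t) - t * (2 - t) * Real.log ((1 + Real.sqrt (1 - t)) / Real.sqrt t) := by
    have h := Fi_val h0' h1' ht 0
    have e : EI (fun u => u * ((a - u) * (u + 1))) a (-1) = ∫ ψ in (0 : ℝ)..Real.pi, Fi a 0 ψ := by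
      unfold EI Fi
      simp only [sub_zero]
    rw [e, h]; ring
  have hint : IntervalIntegrable (fun ψ => (a - U a (-1) ψ) * (U a (-1) ψ + 1) / Real.sqrt (1 - U a (-1) ψ ^ 2))
      volume 0 Real.pi := by
    have h := (Fi_int h0' h1' ht 0).sub (Fi_int h0' h1' ht 1)
    convert! h using 1
    funext ψ
    unfold Fi
    ring
  have E0 : EI (fun u => (a - u) * (u + 1)) a (-1) =
      2 * Real.sqrt (1 - t) - 2 * t * Real.log ((1 + Real.sqrt (1 - t)) / Real.sqrt t) := by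
    have e : EI (fun u => (a - u) * (u + 1)) a (-1) = ∫ ψ in (0 : ℝ)..Real.pi, (Fi a 0 ψ - Fi a 1 ψ) := by
      unfold EI Fi
      congr 1
      funext ψ
      ring
    rw [e, intervalIntegral.integral_sub (Fi_int h0' h1' ht 0) (Fi_int h0' h1' ht 1), Fi_val h0' h1' ht 0,
      Fi_val h0' h1' ht 1]
    ring
  have hpos : 0 < EI (fun u => (a - u) * (u + 1)) a (-1) := by
    unfold EI
    refine intervalIntegral.intervalIntegral_pos_of_pos_on hint ?_ Real.pi_pos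
    intro ψ hψ
    have c1 : Real.cos ψ < 1 := by
      have := Real.cos_lt_cos_of_nonneg_of_le_pi le_rfl hψ.2.le hψ.1
      rwa [Real.cos_zero] at this
    have c2 : -1 < Real.cos ψ := by
      have := Real.cos_lt_cos_of_nonneg_of_le_pi hψ.1.le le_rfl hψ.2
      rwa [Real.cos_pi] at this
    have hU := U_eq ht ψ
    have ha : a = 1 - 2 * t := by linarith
    have hA : 0 < 1 - t := by linarith
    have p1 : 0 < a - U a (-1) ψ := by rw [hU, ha]; nlinarith
    have p2 : 0 < U a (-1) ψ + 1 := by rw [hU]; nlinarith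
    have p3 : 0 < 1 - U a (-1) ψ := by linarith
    have p4 : 0 < 1 - U a (-1) ψ ^ 2 := by nlinarith
    exact div_pos (mul_pos p1 p2) (Real.sqrt_pos.2 p4)
  refine ⟨hpos, ?_, ?_⟩
  · rw [← E0]; exact hpos
  · rw [E1, E0]

end B10pM
end Pool.Agent.Helper974.Star
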