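import Mathlib
import Pool.Agent.Helper974.Star.Defs
set_option autoImplicit false
open Filter Topology Metric Set MeasureTheory
namespace Pool.Agent.Helper974.Star
namespace B12M

/-- the comparison function -/
noncomputable def Qh (a : ℝ) : ℝ := (1 - Real.sqrt (1 - a ^ 2)) * (1 + 3 * Real.sqrt (1 - a ^ 2)) / 4

lemma Qh_eq {a : ℝ} (ha : a ∈ Ioo (0 : ℝ) 1) :
    a ^ 2 * (1 + 3 * Real.sqrt (1 - a ^ 2)) / (4 * (1 + Real.sqrt (1 - a ^ 2))) = Qh a := by
  have h1 : 0 ≤ 1 - a ^ 2 := by nlinarith [ha.1, ha.2]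
  have hk := Real.sqrt_nonneg (1 - a ^ 2)
  have hk2 := Real.sq_sqrt h1
  unfold Qh
  set k := Real.sqrt (1 - a ^ 2) with hkd
  have h2 : a ^ 2 = (1 - k) * (1 + k) := by nlinarith
  rw [h2, div_eq_div_iff (by positivity) (by norm_num)]
  ring

lemma Qh_pos {a : ℝ} (ha : a ∈ Ioo (0 : ℝ) 1) : 0 < Qh a := by
  rw [← Qh_eq ha]
  have := ha.1
  have := Real.sqrt_nonneg (1 - a ^ 2)
  positivity

lemma Qh_deriv {a : ℝ} (ha : a ∈ Ioo (0 : ℝ) 1) :
    HasDerivAt Qh (a * (3 * Real.sqrt (1 - a ^ 2) - 1) / (2 * Real.sqrt (1 - a ^ 2))) a := by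
  have h1 : 0 < 1 - a ^ 2 := by nlinarith [ha.1, ha.2]
  have hk : 0 < Real.sqrt (1 - a ^ 2) := Real.sqrt_pos.2 h1
  have hd1 : HasDerivAt (fun x : ℝ => 1 - x ^ 2) (-(2 * a)) a := by
    have := ((hasDerivAt_id a).pow 2).const_sub 1
    simpa using this
  have hd2 : HasDerivAt (fun x : ℝ => Real.sqrt (1 - x ^ 2)) (-(2 * a) / (2 * Real.sqrt (1 - a ^ 2))) a :=
    hd1.sqrt h1.ne'
  have hd3 := ((hd2.const_sub 1).mul ((hd2.const_mul 3).const_add 1)).div_const 4
  unfold Qh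
  refine hd3.congr_deriv ?_
  field_simp
  ring

lemma Qh_ineq {a : ℝ} (ha : a ∈ Ioo (0 : ℝ) 1) :
    a - Qh a ^ 2 / (a * (1 - a ^ 2)) ≤
      a * (3 * Real.sqrt (1 - a ^ 2) - 1) / (2 * Real.sqrt (1 - a ^ 2)) := by
  have h1 : 0 < 1 - a ^ 2 := by nlinarith [ha.1, ha.2]
  have hk : 0 < Real.sqrt (1 - a ^ 2) := Real.sqrt_pos.2 h1
  have hk2 := Real.sq_sqrt h1.le
  unfold Qh
  set k := Real.sqrt (1 - a ^ 2) with hkd
  have ha0 := ha.1
  rw [← hk2]
  have h2 : a * (3 * k - 1) / (2 * k) - (a - ((1 - k) * (1 + 3 * k) / 4) ^ 2 / (a * k ^ 2)) =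
      (1 - k) ^ 4 / (16 * a * k ^ 2) := by
    have h3 : a ^ 2 = (1 - k) * (1 + k) := by nlinarith
    field_simp
    ring_nf
    rw [h3]
    ring
  have h4 : 0 ≤ (1 - k) ^ 4 / (16 * a * k ^ 2) := by positivity
  linarith

theorem B12_le {Q : ℝ → ℝ} (hQ : ∀ a ∈ Ioo (0 : ℝ) 1, HasDerivAt Q (a - Q a ^ 2 / (a * (1 - a ^ 2))) a)
    (h0 : ∀ a ∈ Ioo (0 : ℝ) 1, 0 < Q a ∧ Q a < a ^ 2) :
    (∀ a ∈ Ioo (0 : ℝ) 1, Q a ≤ a ^ 2 * (1 + 3 * Real.sqrt (1 - a ^ 2)) / (4 * (1 + Real.sqrt (1 - a ^ 2)))) ∧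
    StrictMonoOn (fun a => Q a ^ 2 / (a ^ 2 * (1 - a ^ 2))) (Ioo (0 : ℝ) 1) := by
  constructor
  · intro a1 ha1
    rw [Qh_eq ha1]
    by_contra hcon
    push Not at hcon
    set D := Q a1 - Qh a1 with hD
    have hD0 : 0 < D := by rw [hD]; linarith
    -- d(a) ≤ -D/2 for all a < a1
    have key : ∀ a0 ∈ Ioo (0:ℝ) a1, Qh a0 - Q a0 ≤ -(D/2) := by
      intro a0 ha0
      have hd : ∀ x ∈ Ioo (0:ℝ) 1, HasDerivAt (fun x => Qh x - Q x)
          (x * (3 * Real.sqrt (1 - x ^ 2) - 1) / (2 * Real.sqrt (1 - x ^ 2)) -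
            (x - Q x ^ 2 / (x * (1 - x ^ 2)))) x := fun x hx => (Qh_deriv hx).sub (hQ x hx)
      have hmem : ∀ t ∈ Icc (0:ℝ) (a1 - a0), a1 - t ∈ Ioo (0:ℝ) 1 := by
        intro t ht
        constructor
        · linarith [ht.2, ha0.1]
        · linarith [ht.1, ha1.2]
      have hf : ∀ t ∈ Icc (0:ℝ) (a1 - a0), HasDerivAt (fun t => Qh (a1 - t) - Q (a1 - t))
          (-((a1 - t) * (3 * Real.sqrt (1 - (a1 - t) ^ 2) - 1) / (2 * Real.sqrt (1 - (a1 - t) ^ 2)) -
            ((a1 - t) - Q (a1 - t) ^ 2 / ((a1 - t) * (1 - (a1 - t) ^ 2))))) t := fun t ht =>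
        (hd (a1 - t) (hmem t ht)).comp_const_sub a1 t
      have hle := image_le_of_deriv_right_lt_deriv_boundary (a := 0) (b := a1 - a0)
        (f := fun t => Qh (a1 - t) - Q (a1 - t))
        (B := fun t => -D + D/2 * t) (B' := fun _ => D/2)
        (fun t ht => (hf t ht).continuousAt.continuousWithinAt)
        (fun t ht => (hf t ⟨ht.1, ht.2.le⟩).hasDerivWithinAt)
        (by simp only [sub_zero, mul_zero, add_zero]; rw [hD]; linarith)
        (fun t => by simpa using ((hasDerivAt_id t).const_mul (D/2)).const_add (-D))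
        (fun t ht hft => by
          have hm := hmem t ⟨ht.1, ht.2.le⟩
          have h1 := Qh_ineq hm
          have h2 := Qh_pos hm
          have hden : 0 < (a1 - t) * (1 - (a1 - t) ^ 2) := by
            have := hm.1
            have h3 : 0 < 1 - (a1 - t) ^ 2 := by nlinarith [hm.1, hm.2]
            positivity
          have ht1 : t < 1 := by linarith [ht.2, ha0.1, ha1.2]
          have h3 : Qh (a1 - t) < Q (a1 - t) := by
            have hft' : Qh (a1 - t) - Q (a1 - t) = -D + D/2 * t := hft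
            nlinarith
          have h4 : Qh (a1 - t) ^ 2 / ((a1 - t) * (1 - (a1 - t) ^ 2)) ≤
              Q (a1 - t) ^ 2 / ((a1 - t) * (1 - (a1 - t) ^ 2)) := by
            apply div_le_div_of_nonneg_right _ hden.le
            nlinarith
          linarith)
      have h1 := hle (x := a1 - a0) ⟨by linarith [ha0.2], le_rfl⟩
      simp only [sub_sub_cancel] at h1
      have h2 : a1 - a0 ≤ 1 := by linarith [ha0.1, ha1.2]
      nlinarith
    obtain ⟨a0, ha0, ha0', h3⟩ : ∃ a0 : ℝ, 0 < a0 ∧ a0 < a1 ∧ a0 ^ 2 < D / 2 := by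
      refine ⟨min (a1 / 2) (min 1 (D / 4)), ?_, ?_, ?_⟩
      · have := ha1.1; positivity
      · have := ha1.1
        exact (min_le_left _ _).trans_lt (by linarith)
      · have h4 : min (a1 / 2) (min 1 (D / 4)) ≤ 1 := (min_le_right _ _).trans (min_le_left _ _)
        have h5 : min (a1 / 2) (min 1 (D / 4)) ≤ D / 4 := (min_le_right _ _).trans (min_le_right _ _)
        have h6 : 0 < min (a1 / 2) (min 1 (D / 4)) := by have := ha1.1; positivity
        nlinarith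
    have h4 := key a0 ⟨ha0, ha0'⟩
    have h5 : a0 ∈ Ioo (0:ℝ) 1 := ⟨ha0, ha0'.trans ha1.2⟩
    have h6 := Qh_pos h5
    have h7 := (h0 a0 h5).2
    linarith
  · have hder : ∀ a ∈ Ioo (0:ℝ) 1, HasDerivAt (fun a => Q a ^ 2 / (a ^ 2 * (1 - a ^ 2)))
        (2 * Q a * a * (a ^ 2 - Q a) * (1 - a ^ 2 + Q a) / (a ^ 2 * (1 - a ^ 2)) ^ 2) a := by
      intro a ha
      have h1 : 0 < 1 - a ^ 2 := by nlinarith [ha.1, ha.2]
      have ha0 := ha.1
      have hd1 : HasDerivAt (fun x : ℝ => 1 - x ^ 2) (-(2 * a)) a := by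
        have := (hasDerivAt_pow 2 a).const_sub 1
        simpa using this
      have hd2 : HasDerivAt (fun x : ℝ => x ^ 2) (2 * a) a := by
        have := hasDerivAt_pow 2 a
        simpa using this
      have hd3 := hd2.mul hd1
      have hd4 := (hQ a ha).pow 2
      have hne : a ^ 2 * (1 - a ^ 2) ≠ 0 := by positivity
      have hd5 := hd4.div hd3 hne
      refine hd5.congr_deriv ?_
      simp only [Pi.mul_apply, Pi.pow_apply, Pi.div_apply]
      congr 1
      field_simp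
      ring
    refine strictMonoOn_of_deriv_pos (convex_Ioo 0 1) ?_ ?_
    · intro a ha
      exact (hder a ha).continuousAt.continuousWithinAt
    · intro a ha
      rw [interior_Ioo] at ha
      rw [(hder a ha).deriv]
      have h1 : 0 < 1 - a ^ 2 := by nlinarith [ha.1, ha.2]
      obtain ⟨h2, h3⟩ := h0 a ha
      have ha0 := ha.1
      have h4 : 0 < a ^ 2 - Q a := by linarith
      positivity

end B12M
end Pool.Agent.Helper974.Star
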