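import Mathlib
import Pool.Agent.Helper974.Star.Defs
set_option autoImplicit false
open Filter Topology Metric Set MeasureTheory
namespace Pool.Agent.Helper974.Star
namespace B2M

theorem B2_U_mem {a b : ℝ} (hba : b < a) (ψ : ℝ) : b ≤ U a b ψ ∧ U a b ψ ≤ a := by
  unfold U
  have h1 := Real.neg_one_le_cos ψ
  have h2 := Real.cos_le_one ψ
  constructor <;> nlinarith

theorem B2_pos {a b : ℝ} (hb : -1 < b) (hba : b < a) (ha : a < 1) (ψ : ℝ) :
    0 < 1 - U a b ψ ^ 2 := by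
  obtain ⟨h1, h2⟩ := B2_U_mem hba ψ
  nlinarith

theorem B2_S_pos {a b : ℝ} (hb : -1 < b) (hba : b < a) (ha : a < 1) (ψ : ℝ) :
    0 < Real.sqrt (1 - U a b ψ ^ 2) := Real.sqrt_pos.2 (B2_pos hb hba ha ψ)

theorem B2_S_sq {a b : ℝ} (hb : -1 < b) (hba : b < a) (ha : a < 1) (ψ : ℝ) :
    Real.sqrt (1 - U a b ψ ^ 2) ^ 2 = 1 - U a b ψ ^ 2 := Real.sq_sqrt (B2_pos hb hba ha ψ).le

theorem B2_contU (a b : ℝ) : Continuous (U a b) := by
  unfold U; fun_prop

theorem B2_contS (a b : ℝ) : Continuous (fun ψ => Real.sqrt (1 - U a b ψ ^ 2)) := by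
  have := B2_contU a b
  fun_prop

theorem B2_cont {a b : ℝ} (hb : -1 < b) (hba : b < a) (ha : a < 1) {F : ℝ → ℝ}
    (hF : Continuous F) (n : ℕ) :
    Continuous (fun ψ => F (U a b ψ) / Real.sqrt (1 - U a b ψ ^ 2) ^ n) := by
  apply Continuous.div
  · exact hF.comp (B2_contU a b)
  · exact (B2_contS a b).pow n
  · intro ψ
    exact pow_ne_zero _ (B2_S_pos hb hba ha ψ).ne'

theorem B2_cont1 {a b : ℝ} (hb : -1 < b) (hba : b < a) (ha : a < 1) {F : ℝ → ℝ}
    (hF : Continuous F) :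
    Continuous (fun ψ => F (U a b ψ) / Real.sqrt (1 - U a b ψ ^ 2)) := by
  have h := B2_cont hb hba ha hF 1
  simpa only [pow_one] using h

theorem B2_dU (a b ψ : ℝ) : HasDerivAt (U a b) (-((a - b) / 2 * Real.sin ψ)) ψ := by
  have h := ((Real.hasDerivAt_cos ψ).const_mul ((a - b) / 2)).const_add ((a + b) / 2)
  exact h.congr_deriv (by ring)

theorem B2_dS {a b : ℝ} (hb : -1 < b) (hba : b < a) (ha : a < 1) (ψ : ℝ) :
    HasDerivAt (fun ψ => Real.sqrt (1 - U a b ψ ^ 2))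
      (U a b ψ * ((a - b) / 2 * Real.sin ψ) / Real.sqrt (1 - U a b ψ ^ 2)) ψ := by
  have h := (((B2_dU a b ψ).pow 2).const_sub 1).sqrt (B2_pos hb hba ha ψ).ne'
  refine h.congr_deriv ?_
  have hS := (B2_S_pos hb hba ha ψ).ne'
  simp only [Nat.cast_ofNat, Nat.add_one_sub_one, pow_one, Pi.pow_apply]
  rw [div_eq_div_iff (by positivity) hS]
  ring

theorem B2_sin_sq (a b ψ : ℝ) :
    ((a - b) / 2 * Real.sin ψ) ^ 2 = (a - U a b ψ) * (U a b ψ - b) := by
  unfold U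
  have := Real.sin_sq_add_cos_sq ψ
  have h2 : Real.sin ψ ^ 2 = 1 - Real.cos ψ ^ 2 := by linarith
  rw [mul_pow, h2]; ring

theorem B2_d1 {a b : ℝ} (hb : -1 < b) (hba : b < a) (ha : a < 1) (ψ : ℝ) :
    HasDerivAt (fun ψ => (a - b) / 2 * Real.sin ψ / Real.sqrt (1 - U a b ψ ^ 2))
      ((1 + a * b) * (U a b ψ / Real.sqrt (1 - U a b ψ ^ 2) ^ 3) -
        (a + b) * (1 / Real.sqrt (1 - U a b ψ ^ 2) ^ 3) +
        (a + b) / 2 * (1 / Real.sqrt (1 - U a b ψ ^ 2))) ψ := by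
  have h := ((Real.hasDerivAt_sin ψ).const_mul ((a - b) / 2)).div (B2_dS hb hba ha ψ)
    (B2_S_pos hb hba ha ψ).ne'
  refine h.congr_deriv ?_
  have hS := (B2_S_pos hb hba ha ψ).ne'
  have hq := B2_S_sq hb hba ha ψ
  have hs := B2_sin_sq a b ψ
  have hc : (a - b) / 2 * Real.cos ψ = U a b ψ - (a + b) / 2 := by unfold U; ring
  rw [hc]
  generalize Real.sqrt (1 - U a b ψ ^ 2) = S at *
  generalize U a b ψ = u at *
  generalize (a - b) / 2 * Real.sin ψ = z at *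
  have e3 : ((u - (a + b) / 2) * S - z * (u * z / S)) / S ^ 2 =
      ((u - (a + b) / 2) * S ^ 2 - u * z ^ 2) / S ^ 3 := by field_simp
  have e4 : (1 + a * b) * (u / S ^ 3) - (a + b) * (1 / S ^ 3) + (a + b) / 2 * (1 / S) =
      ((1 + a * b) * u - (a + b) + (a + b) / 2 * S ^ 2) / S ^ 3 := by field_simp
  rw [e3, e4, hq, hs]
  congr 1
  ring

theorem B2_d2 {a b : ℝ} (hb : -1 < b) (hba : b < a) (ha : a < 1) (ψ : ℝ) :
    HasDerivAt (fun ψ => (a - b) / 2 * Real.sin ψ * U a b ψ / Real.sqrt (1 - U a b ψ ^ 2))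
      ((1 + a * b) * (1 / Real.sqrt (1 - U a b ψ ^ 2) ^ 3) -
        (a + b) * (U a b ψ / Real.sqrt (1 - U a b ψ ^ 2) ^ 3) -
        (1 / Real.sqrt (1 - U a b ψ ^ 2)) + U a b ψ ^ 2 / Real.sqrt (1 - U a b ψ ^ 2) -
        (a + b) / 2 * (U a b ψ / Real.sqrt (1 - U a b ψ ^ 2))) ψ := by
  have h := (((Real.hasDerivAt_sin ψ).const_mul ((a - b) / 2)).mul (B2_dU a b ψ)).div
    (B2_dS hb hba ha ψ) (B2_S_pos hb hba ha ψ).ne'
  refine h.congr_deriv ?_
  have hS := (B2_S_pos hb hba ha ψ).ne'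
  have hq := B2_S_sq hb hba ha ψ
  have hs := B2_sin_sq a b ψ
  have hc : (a - b) / 2 * Real.cos ψ = U a b ψ - (a + b) / 2 := by unfold U; ring
  simp only [Pi.mul_apply]
  rw [hc]
  generalize Real.sqrt (1 - U a b ψ ^ 2) = S at *
  generalize U a b ψ = u at *
  generalize (a - b) / 2 * Real.sin ψ = z at *
  have e3 : (((u - (a + b) / 2) * u + z * -z) * S - z * u * (u * z / S)) / S ^ 2 =
      (((u - (a + b) / 2) * u - z ^ 2) * S ^ 2 - u ^ 2 * z ^ 2) / S ^ 3 := by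
    field_simp
    ring
  have e4 : (1 + a * b) * (1 / S ^ 3) - (a + b) * (u / S ^ 3) - 1 / S + u ^ 2 / S -
      (a + b) / 2 * (u / S) =
      ((1 + a * b) - (a + b) * u + (u ^ 2 - 1 - (a + b) / 2 * u) * S ^ 2) / S ^ 3 := by
    field_simp
    ring
  rw [e3, e4, hq, hs]
  congr 1
  ring

theorem B2_d3 {a b : ℝ} (hb : -1 < b) (hba : b < a) (ha : a < 1) (ψ : ℝ) :
    HasDerivAt (fun ψ => (a - b) / 2 * Real.sin ψ * Real.sqrt (1 - U a b ψ ^ 2))
      (2 * (U a b ψ * ((a - U a b ψ) * (U a b ψ - b)) / Real.sqrt (1 - U a b ψ ^ 2)) +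
        (a + b) / 2 * ((a - U a b ψ) * (U a b ψ - b) / Real.sqrt (1 - U a b ψ ^ 2)) +
        (1 + a * b - (a + b) ^ 2 / 2) * (U a b ψ / Real.sqrt (1 - U a b ψ ^ 2)) -
        (a + b) / 2 * (1 - a * b) * (1 / Real.sqrt (1 - U a b ψ ^ 2))) ψ := by
  have h := ((Real.hasDerivAt_sin ψ).const_mul ((a - b) / 2)).mul (B2_dS hb hba ha ψ)
  refine h.congr_deriv ?_
  have hS := (B2_S_pos hb hba ha ψ).ne'
  have hq := B2_S_sq hb hba ha ψ
  have hs := B2_sin_sq a b ψ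
  have hc : (a - b) / 2 * Real.cos ψ = U a b ψ - (a + b) / 2 := by unfold U; ring
  rw [hc]
  generalize Real.sqrt (1 - U a b ψ ^ 2) = S at *
  generalize U a b ψ = u at *
  generalize (a - b) / 2 * Real.sin ψ = z at *
  have e3 : (u - (a + b) / 2) * S + z * (u * z / S) =
      ((u - (a + b) / 2) * S ^ 2 + u * z ^ 2) / S := by
    field_simp
  have e4 : 2 * (u * ((a - u) * (u - b)) / S) + (a + b) / 2 * ((a - u) * (u - b) / S) +
        (1 + a * b - (a + b) ^ 2 / 2) * (u / S) -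
        (a + b) / 2 * (1 - a * b) * (1 / S) =
      (2 * (u * ((a - u) * (u - b))) + (a + b) / 2 * ((a - u) * (u - b)) +
        (1 + a * b - (a + b) ^ 2 / 2) * u - (a + b) / 2 * (1 - a * b)) / S := by
    field_simp
  rw [e3, e4, hq, hs]
  congr 1
  ring

theorem B2_lin {f1 f2 f3 f4 f5 : ℝ → ℝ} (c1 : Continuous f1) (c2 : Continuous f2)
    (c3 : Continuous f3) (c4 : Continuous f4) (c5 : Continuous f5) (x1 x2 x3 x4 x5 : ℝ) :
    ∫ ψ in (0 : ℝ)..Real.pi, (x1 * f1 ψ + x2 * f2 ψ + x3 * f3 ψ + x4 * f4 ψ + x5 * f5 ψ) =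
      x1 * (∫ ψ in (0 : ℝ)..Real.pi, f1 ψ) + x2 * (∫ ψ in (0 : ℝ)..Real.pi, f2 ψ) +
      x3 * (∫ ψ in (0 : ℝ)..Real.pi, f3 ψ) + x4 * (∫ ψ in (0 : ℝ)..Real.pi, f4 ψ) +
      x5 * (∫ ψ in (0 : ℝ)..Real.pi, f5 ψ) := by
  rw [intervalIntegral.integral_add (Continuous.intervalIntegrable (by fun_prop) _ _)
      (Continuous.intervalIntegrable (by fun_prop) _ _),
    intervalIntegral.integral_add (Continuous.intervalIntegrable (by fun_prop) _ _)
      (Continuous.intervalIntegrable (by fun_prop) _ _),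
    intervalIntegral.integral_add (Continuous.intervalIntegrable (by fun_prop) _ _)
      (Continuous.intervalIntegrable (by fun_prop) _ _),
    intervalIntegral.integral_add (Continuous.intervalIntegrable (by fun_prop) _ _)
      (Continuous.intervalIntegrable (by fun_prop) _ _),
    intervalIntegral.integral_const_mul, intervalIntegral.integral_const_mul,
    intervalIntegral.integral_const_mul, intervalIntegral.integral_const_mul,
    intervalIntegral.integral_const_mul]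

theorem B2_zero {f g : ℝ → ℝ} (hd : ∀ ψ, HasDerivAt f (g ψ) ψ) (h0 : f 0 = 0)
    (hpi : f Real.pi = 0) (hg : Continuous g) : ∫ ψ in (0 : ℝ)..Real.pi, g ψ = 0 := by
  rw [intervalIntegral.integral_eq_sub_of_hasDerivAt (fun ψ _ => hd ψ)
    (hg.intervalIntegrable _ _), h0, hpi, sub_zero]

theorem B2_rel {a b : ℝ} (hb : -1 < b) (hba : b < a) (ha : a < 1) {I0 I1 I2 K0 K1 : ℝ}
    (hI0 : I0 = ∫ ψ in (0 : ℝ)..Real.pi, 1 / Real.sqrt (1 - U a b ψ ^ 2))
    (hI1 : I1 = ∫ ψ in (0 : ℝ)..Real.pi, U a b ψ / Real.sqrt (1 - U a b ψ ^ 2))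
    (hI2 : I2 = ∫ ψ in (0 : ℝ)..Real.pi, U a b ψ ^ 2 / Real.sqrt (1 - U a b ψ ^ 2))
    (hK0 : K0 = ∫ ψ in (0 : ℝ)..Real.pi, 1 / Real.sqrt (1 - U a b ψ ^ 2) ^ 3)
    (hK1 : K1 = ∫ ψ in (0 : ℝ)..Real.pi, U a b ψ / Real.sqrt (1 - U a b ψ ^ 2) ^ 3) :
    (1 + a * b) * K1 - (a + b) * K0 = -((a + b) / 2) * I0 ∧
    (1 + a * b) * K0 - (a + b) * K1 = I0 - I2 + ((a + b) / 2) * I1 := by
  have c0 : Continuous fun ψ => 1 / Real.sqrt (1 - U a b ψ ^ 2) :=
    B2_cont1 hb hba ha (F := fun _ => 1) continuous_const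
  have c1 : Continuous fun ψ => U a b ψ / Real.sqrt (1 - U a b ψ ^ 2) :=
    B2_cont1 hb hba ha (F := fun u => u) continuous_id
  have c2 : Continuous fun ψ => U a b ψ ^ 2 / Real.sqrt (1 - U a b ψ ^ 2) :=
    B2_cont1 hb hba ha (F := fun u => u ^ 2) (continuous_pow 2)
  have d0 : Continuous fun ψ => 1 / Real.sqrt (1 - U a b ψ ^ 2) ^ 3 :=
    B2_cont hb hba ha (F := fun _ => 1) continuous_const 3
  have d1 : Continuous fun ψ => U a b ψ / Real.sqrt (1 - U a b ψ ^ 2) ^ 3 :=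
    B2_cont hb hba ha (F := fun u => u) continuous_id 3
  have l1 := B2_lin d1 d0 c0 c0 c0 (1 + a * b) (-(a + b)) ((a + b) / 2) 0 0
  have l2 := B2_lin d0 d1 c0 c2 c1 (1 + a * b) (-(a + b)) (-1) 1 (-((a + b) / 2))
  constructor
  · have h : ∫ ψ in (0 : ℝ)..Real.pi,
        ((1 + a * b) * (U a b ψ / Real.sqrt (1 - U a b ψ ^ 2) ^ 3) +
        -(a + b) * (1 / Real.sqrt (1 - U a b ψ ^ 2) ^ 3) +
        (a + b) / 2 * (1 / Real.sqrt (1 - U a b ψ ^ 2)) +
        0 * (1 / Real.sqrt (1 - U a b ψ ^ 2)) + 0 * (1 / Real.sqrt (1 - U a b ψ ^ 2))) = 0 := by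
      refine B2_zero (fun ψ => (B2_d1 hb hba ha ψ).congr_deriv (by ring)) ?_ ?_ ?_
      · simp
      · simp
      · exact ((((d1.const_mul _).add (d0.const_mul _)).add (c0.const_mul _)).add
          (c0.const_mul _)).add (c0.const_mul _)
    rw [l1, ← hI0, ← hK0, ← hK1] at h
    linarith
  · have h : ∫ ψ in (0 : ℝ)..Real.pi,
        ((1 + a * b) * (1 / Real.sqrt (1 - U a b ψ ^ 2) ^ 3) +
        -(a + b) * (U a b ψ / Real.sqrt (1 - U a b ψ ^ 2) ^ 3) +
        -1 * (1 / Real.sqrt (1 - U a b ψ ^ 2)) +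
        1 * (U a b ψ ^ 2 / Real.sqrt (1 - U a b ψ ^ 2)) +
        -((a + b) / 2) * (U a b ψ / Real.sqrt (1 - U a b ψ ^ 2))) = 0 := by
      refine B2_zero (fun ψ => (B2_d2 hb hba ha ψ).congr_deriv (by ring)) ?_ ?_ ?_
      · simp
      · simp
      · exact ((((d0.const_mul _).add (d1.const_mul _)).add (c0.const_mul _)).add
          (c2.const_mul _)).add (c1.const_mul _)
    rw [l2, ← hI0, ← hK0, ← hK1, ← hI1, ← hI2] at h
    linarith

theorem B2_U_lt {a b : ℝ} (hba : b < a) {ψ : ℝ} (h : ψ ∈ Set.Ioo 0 Real.pi) :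
    b < U a b ψ ∧ U a b ψ < a := by
  have h1 : Real.cos ψ < 1 := by
    have := Real.cos_lt_cos_of_nonneg_of_le_pi le_rfl h.2.le h.1
    rwa [Real.cos_zero] at this
  have h2 : -1 < Real.cos ψ := by
    have := Real.cos_lt_cos_of_nonneg_of_le_pi h.1.le le_rfl h.2
    rwa [Real.cos_pi] at this
  unfold U
  constructor <;> nlinarith

theorem B2_EI_pos {a b : ℝ} (hb : -1 < b) (hba : b < a) (ha : a < 1) {F : ℝ → ℝ}
    (hF : Continuous F) (hpos : ∀ u, b < u → u < a → 0 < F u) : 0 < EI F a b := by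
  unfold EI
  apply intervalIntegral.intervalIntegral_pos_of_pos_on
  · exact (B2_cont1 hb hba ha hF).intervalIntegrable _ _
  · intro ψ hψ
    obtain ⟨h1, h2⟩ := B2_U_lt hba hψ
    exact div_pos (hpos _ h1 h2) (B2_S_pos hb hba ha ψ)
  · exact Real.pi_pos

theorem B2_EI_sub {a b : ℝ} (hb : -1 < b) (hba : b < a) (ha : a < 1) {F G : ℝ → ℝ}
    (hF : Continuous F) (hG : Continuous G) (c d : ℝ) :
    EI (fun u => c * F u - d * G u) a b = c * EI F a b - d * EI G a b := by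
  unfold EI
  rw [← intervalIntegral.integral_const_mul, ← intervalIntegral.integral_const_mul,
    ← intervalIntegral.integral_sub
      (((B2_cont1 hb hba ha hF).const_mul _).intervalIntegrable _ _)
      (((B2_cont1 hb hba ha hG).const_mul _).intervalIntegrable _ _)]
  congr 1
  ext ψ
  ring

theorem B2_c {a b : ℝ} (hb : -1 < b) (hba : b < a) (ha : a < 1) :
    0 < qq a b ∧ b < TT a b ∧ TT a b < a ∧ b < cc a b ∧ cc a b < a ∧
    qq a b * (4 * cc a b + (a + b)) = (1 - b ^ 2) * (a - TT a b) - (1 - a ^ 2) * (TT a b - b) := by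
  have hq : Continuous fun u : ℝ => (a - u) * (u - b) := by fun_prop
  have huq : Continuous fun u : ℝ => u * ((a - u) * (u - b)) := by fun_prop
  have k0 : Continuous fun _ : ℝ => (1 : ℝ) := continuous_const
  have k1 : Continuous fun u : ℝ => u := continuous_id
  have p0 : 0 < EI (fun _ => 1) a b := B2_EI_pos hb hba ha k0 fun _ _ _ => one_pos
  have pq : 0 < EI (fun u => (a - u) * (u - b)) a b := B2_EI_pos hb hba ha hq
    fun u h1 h2 => mul_pos (sub_pos.2 h2) (sub_pos.2 h1)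
  have s1 := B2_EI_sub hb hba ha k1 k0 1 b
  have s2 := B2_EI_sub hb hba ha k0 k1 a 1
  have s3 := B2_EI_sub hb hba ha huq hq 1 b
  have s4 := B2_EI_sub hb hba ha hq huq a 1
  have t1 : 0 < EI (fun u => 1 * u - b * 1) a b := B2_EI_pos hb hba ha (by fun_prop)
    fun u h1 h2 => by linarith
  have t2 : 0 < EI (fun u => a * 1 - 1 * u) a b := B2_EI_pos hb hba ha (by fun_prop)
    fun u h1 h2 => by linarith
  have t3 : 0 < EI (fun u => 1 * (u * ((a - u) * (u - b))) - b * ((a - u) * (u - b))) a b :=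
    B2_EI_pos hb hba ha (by fun_prop)
    fun u h1 h2 => by
      have := mul_pos (mul_pos (sub_pos.2 h2) (sub_pos.2 h1)) (sub_pos.2 h1)
      nlinarith
  have t4 : 0 < EI (fun u => a * ((a - u) * (u - b)) - 1 * (u * ((a - u) * (u - b)))) a b :=
    B2_EI_pos hb hba ha (by fun_prop)
    fun u h1 h2 => by
      have := mul_pos (mul_pos (sub_pos.2 h2) (sub_pos.2 h1)) (sub_pos.2 h2)
      nlinarith
  rw [s1] at t1
  rw [s2] at t2
  rw [s3] at t3
  rw [s4] at t4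
  -- the relation
  have c0 : Continuous fun ψ => 1 / Real.sqrt (1 - U a b ψ ^ 2) :=
    B2_cont1 hb hba ha (F := fun _ => 1) continuous_const
  have c1 : Continuous fun ψ => U a b ψ / Real.sqrt (1 - U a b ψ ^ 2) :=
    B2_cont1 hb hba ha (F := fun u => u) continuous_id
  have c2 : Continuous fun ψ => (a - U a b ψ) * (U a b ψ - b) / Real.sqrt (1 - U a b ψ ^ 2) :=
    B2_cont1 hb hba ha (F := fun u => (a - u) * (u - b)) hq
  have c3 : Continuous fun ψ => U a b ψ * ((a - U a b ψ) * (U a b ψ - b)) /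
      Real.sqrt (1 - U a b ψ ^ 2) :=
    B2_cont1 hb hba ha (F := fun u => u * ((a - u) * (u - b))) huq
  have l3 := B2_lin c3 c2 c1 c0 c0 2 ((a + b) / 2) (1 + a * b - (a + b) ^ 2 / 2)
    (-((a + b) / 2 * (1 - a * b))) 0
  have h : ∫ ψ in (0 : ℝ)..Real.pi,
      (2 * (U a b ψ * ((a - U a b ψ) * (U a b ψ - b)) / Real.sqrt (1 - U a b ψ ^ 2)) +
        (a + b) / 2 * ((a - U a b ψ) * (U a b ψ - b) / Real.sqrt (1 - U a b ψ ^ 2)) +
        (1 + a * b - (a + b) ^ 2 / 2) * (U a b ψ / Real.sqrt (1 - U a b ψ ^ 2)) +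
        (-((a + b) / 2 * (1 - a * b))) * (1 / Real.sqrt (1 - U a b ψ ^ 2)) +
        0 * (1 / Real.sqrt (1 - U a b ψ ^ 2))) = 0 := by
    refine B2_zero (fun ψ => (B2_d3 hb hba ha ψ).congr_deriv (by ring)) ?_ ?_ ?_
    · simp
    · simp
    · exact ((((c3.const_mul _).add (c2.const_mul _)).add (c1.const_mul _)).add
        (c0.const_mul _)).add (c0.const_mul _)
  rw [l3] at h
  have h' : 2 * EI (fun u => u * ((a - u) * (u - b))) a b +
      (a + b) / 2 * EI (fun u => (a - u) * (u - b)) a b +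
      (1 + a * b - (a + b) ^ 2 / 2) * EI (fun u => u) a b -
      (a + b) / 2 * (1 - a * b) * EI (fun _ => 1) a b = 0 := by
    unfold EI
    linarith
  unfold cc TT qq mean
  generalize EI (fun u => u * ((a - u) * (u - b))) a b = A at *
  generalize EI (fun u => (a - u) * (u - b)) a b = B at *
  generalize EI (fun u => u) a b = C at *
  generalize EI (fun _ => 1) a b = D at *
  have e1 : A / D / (B / D) = A / B := by field_simp
  rw [e1]
  refine ⟨div_pos pq p0, ?_, ?_, ?_, ?_, ?_⟩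
  · rw [lt_div_iff₀ p0]; linarith
  · rw [div_lt_iff₀ p0]; linarith
  · rw [lt_div_iff₀ pq]; linarith
  · rw [div_lt_iff₀ pq]; linarith
  · have e2 : B / D * (4 * (A / B) + (a + b)) = (4 * A + (a + b) * B) / D := by field_simp
    have e3 : (1 - b ^ 2) * (a - C / D) - (1 - a ^ 2) * (C / D - b) =
        ((1 - b ^ 2) * (a * D - C) - (1 - a ^ 2) * (C - b * D)) / D := by field_simp
    rw [e2, e3]
    congr 1
    linarith [h']

end B2M
end Pool.Agent.Helper974.Star
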