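import Mathlib
import Pool.Agent.Helper974.Star.Defs
set_option autoImplicit false
open Filter Topology Metric Set MeasureTheory
namespace Pool.Agent.Helper974.Star
namespace B3M

/-! ### auxiliary -/

theorem U_mem {a b : ℝ} (hba : b < a) (ψ : ℝ) : b ≤ U a b ψ ∧ U a b ψ ≤ a := by
  unfold U
  have h1 := Real.neg_one_le_cos ψ
  have h2 := Real.cos_le_one ψ
  constructor <;> nlinarith

theorem U_pos {a b : ℝ} (hb : -1 < b) (hba : b < a) (ha : a < 1) (ψ : ℝ) :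
    0 < 1 - U a b ψ ^ 2 := by
  obtain ⟨h1, h2⟩ := U_mem hba ψ
  nlinarith

theorem continuous_U (a b : ℝ) : Continuous fun ψ => U a b ψ := by
  unfold U
  exact continuous_const.add (continuous_const.mul Real.continuous_cos)

theorem continuous_s (a b : ℝ) : Continuous fun ψ => Real.sqrt (1 - U a b ψ ^ 2) :=
  (continuous_const.sub ((continuous_U a b).pow 2)).sqrt

theorem cos_U {a b : ℝ} (hba : b < a) (ψ : ℝ) : (1 + Real.cos ψ) / 2 = (U a b ψ - b) / (a - b) := by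
  have : a - b ≠ 0 := by linarith
  unfold U
  field_simp
  ring

theorem cos_U' {a b : ℝ} (hba : b < a) (ψ : ℝ) : (1 - Real.cos ψ) / 2 = (a - U a b ψ) / (a - b) := by
  have : a - b ≠ 0 := by linarith
  unfold U
  field_simp
  ring

/-- linearity -/
theorem lin5 {a b : ℝ} (hb : -1 < b) (hba : b < a) (ha : a < 1) (c1 c2 c3 c4 c5 : ℝ) :
    (∫ ψ in (0 : ℝ)..Real.pi, (c1 * (1 / Real.sqrt (1 - U a b ψ ^ 2) ^ 3) +
      c2 * (U a b ψ / Real.sqrt (1 - U a b ψ ^ 2) ^ 3) +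
      c3 * (1 / Real.sqrt (1 - U a b ψ ^ 2)) +
      c4 * (U a b ψ / Real.sqrt (1 - U a b ψ ^ 2)) +
      c5 * (U a b ψ ^ 2 / Real.sqrt (1 - U a b ψ ^ 2)))) =
    c1 * (∫ ψ in (0 : ℝ)..Real.pi, 1 / Real.sqrt (1 - U a b ψ ^ 2) ^ 3) +
    c2 * (∫ ψ in (0 : ℝ)..Real.pi, U a b ψ / Real.sqrt (1 - U a b ψ ^ 2) ^ 3) +
    c3 * (∫ ψ in (0 : ℝ)..Real.pi, 1 / Real.sqrt (1 - U a b ψ ^ 2)) +
    c4 * (∫ ψ in (0 : ℝ)..Real.pi, U a b ψ / Real.sqrt (1 - U a b ψ ^ 2)) +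
    c5 * (∫ ψ in (0 : ℝ)..Real.pi, U a b ψ ^ 2 / Real.sqrt (1 - U a b ψ ^ 2)) := by
  have hs : ∀ ψ, Real.sqrt (1 - U a b ψ ^ 2) ≠ 0 := fun ψ =>
    (Real.sqrt_pos.mpr (U_pos hb hba ha ψ)).ne'
  have k1 : IntervalIntegrable (fun ψ => 1 / Real.sqrt (1 - U a b ψ ^ 2) ^ 3) volume 0 Real.pi :=
    (continuous_const.div ((continuous_s a b).pow 3) fun ψ => pow_ne_zero 3 (hs ψ)).intervalIntegrable _ _
  have k2 : IntervalIntegrable (fun ψ => U a b ψ / Real.sqrt (1 - U a b ψ ^ 2) ^ 3) volume 0 Real.pi :=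
    ((continuous_U a b).div ((continuous_s a b).pow 3) fun ψ => pow_ne_zero 3 (hs ψ)).intervalIntegrable _ _
  have k3 : IntervalIntegrable (fun ψ => 1 / Real.sqrt (1 - U a b ψ ^ 2)) volume 0 Real.pi :=
    (continuous_const.div (continuous_s a b) hs).intervalIntegrable _ _
  have k4 : IntervalIntegrable (fun ψ => U a b ψ / Real.sqrt (1 - U a b ψ ^ 2)) volume 0 Real.pi :=
    ((continuous_U a b).div (continuous_s a b) hs).intervalIntegrable _ _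
  have k5 : IntervalIntegrable (fun ψ => U a b ψ ^ 2 / Real.sqrt (1 - U a b ψ ^ 2)) volume 0 Real.pi :=
    (((continuous_U a b).pow 2).div (continuous_s a b) hs).intervalIntegrable _ _
  have m1 := k1.const_mul c1
  have m2 := k2.const_mul c2
  have m3 := k3.const_mul c3
  have m4 := k4.const_mul c4
  have m5 := k5.const_mul c5
  rw [intervalIntegral.integral_add (((m1.add m2).add m3).add m4) m5,
    intervalIntegral.integral_add ((m1.add m2).add m3) m4,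
    intervalIntegral.integral_add (m1.add m2) m3,
    intervalIntegral.integral_add m1 m2]
  simp only [intervalIntegral.integral_const_mul]

theorem div2 {f g : ℝ × ℝ → ℝ} {p : ℝ × ℝ} {x y x' y' : ℝ}
    (hf : HasFDerivAt f (x • ContinuousLinearMap.fst ℝ ℝ ℝ + y • ContinuousLinearMap.snd ℝ ℝ ℝ) p)
    (hg : HasFDerivAt g (x' • ContinuousLinearMap.fst ℝ ℝ ℝ + y' • ContinuousLinearMap.snd ℝ ℝ ℝ) p)
    (h0 : g p ≠ 0) : HasFDerivAt (fun p => f p / g p)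
      (((x * g p - f p * x') / (g p) ^ 2) • ContinuousLinearMap.fst ℝ ℝ ℝ +
       ((y * g p - f p * y') / (g p) ^ 2) • ContinuousLinearMap.snd ℝ ℝ ℝ) p := by
  have h1 := (hasDerivAt_inv h0).comp_hasFDerivAt p hg
  have h2 := hf.mul h1
  have e : (fun p => f p / g p) = fun p => f p * ((fun y => y⁻¹) ∘ g) p := by
    funext q
    rw [div_eq_mul_inv]
    rfl
  rw [e]
  convert! h2 using 1
  ext v
  · simp
    field_simp
    ring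
  · simp
    field_simp
    ring

theorem mul2 {f g : ℝ × ℝ → ℝ} {p : ℝ × ℝ} {x y x' y' : ℝ}
    (hf : HasFDerivAt f (x • ContinuousLinearMap.fst ℝ ℝ ℝ + y • ContinuousLinearMap.snd ℝ ℝ ℝ) p)
    (hg : HasFDerivAt g (x' • ContinuousLinearMap.fst ℝ ℝ ℝ + y' • ContinuousLinearMap.snd ℝ ℝ ℝ) p) :
    HasFDerivAt (fun p => f p * g p)
      ((x * g p + f p * x') • ContinuousLinearMap.fst ℝ ℝ ℝ +
       (y * g p + f p * y') • ContinuousLinearMap.snd ℝ ℝ ℝ) p := by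
  have h2 := hf.mul hg
  convert! h2 using 1
  ext v
  · simp
    ring
  · simp
    ring

theorem sub2 {f g : ℝ × ℝ → ℝ} {p : ℝ × ℝ} {x y x' y' : ℝ}
    (hf : HasFDerivAt f (x • ContinuousLinearMap.fst ℝ ℝ ℝ + y • ContinuousLinearMap.snd ℝ ℝ ℝ) p)
    (hg : HasFDerivAt g (x' • ContinuousLinearMap.fst ℝ ℝ ℝ + y' • ContinuousLinearMap.snd ℝ ℝ ℝ) p) :
    HasFDerivAt (fun p => f p - g p)
      ((x - x') • ContinuousLinearMap.fst ℝ ℝ ℝ +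
       (y - y') • ContinuousLinearMap.snd ℝ ℝ ℝ) p := by
  have h2 := hf.sub hg
  convert! h2 using 1
  ext v
  · simp
  · simp

theorem fst2 (p : ℝ × ℝ) : HasFDerivAt (fun p : ℝ × ℝ => p.1)
    ((1 : ℝ) • ContinuousLinearMap.fst ℝ ℝ ℝ + (0 : ℝ) • ContinuousLinearMap.snd ℝ ℝ ℝ) p := by
  have : ((1 : ℝ) • ContinuousLinearMap.fst ℝ ℝ ℝ + (0 : ℝ) • ContinuousLinearMap.snd ℝ ℝ ℝ) =
    ContinuousLinearMap.fst ℝ ℝ ℝ := by simp
  rw [this]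
  exact hasFDerivAt_fst

theorem snd2 (p : ℝ × ℝ) : HasFDerivAt (fun p : ℝ × ℝ => p.2)
    ((0 : ℝ) • ContinuousLinearMap.fst ℝ ℝ ℝ + (1 : ℝ) • ContinuousLinearMap.snd ℝ ℝ ℝ) p := by
  have : ((0 : ℝ) • ContinuousLinearMap.fst ℝ ℝ ℝ + (1 : ℝ) • ContinuousLinearMap.snd ℝ ℝ ℝ) =
    ContinuousLinearMap.snd ℝ ℝ ℝ := by simp
  rw [this]
  exact hasFDerivAt_snd

theorem sum2 (p : ℝ × ℝ) : HasFDerivAt (fun p : ℝ × ℝ => p.1 + p.2)
    ((1 : ℝ) • ContinuousLinearMap.fst ℝ ℝ ℝ + (1 : ℝ) • ContinuousLinearMap.snd ℝ ℝ ℝ) p := by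
  have : ((1 : ℝ) • ContinuousLinearMap.fst ℝ ℝ ℝ + (1 : ℝ) • ContinuousLinearMap.snd ℝ ℝ ℝ) =
    ContinuousLinearMap.fst ℝ ℝ ℝ + ContinuousLinearMap.snd ℝ ℝ ℝ := by simp
  rw [this]
  exact hasFDerivAt_fst.add hasFDerivAt_snd

/-! ### the three functions -/

theorem sq_pos' {u : ℝ} (hu : u ∈ Ioo (-1 : ℝ) 1) : 0 < 1 - u ^ 2 := by
  nlinarith [hu.1, hu.2]

theorem sqrt_deriv {u : ℝ} (hu : u ∈ Ioo (-1 : ℝ) 1) :
    HasDerivAt (fun u : ℝ => Real.sqrt (1 - u ^ 2)) (-u / Real.sqrt (1 - u ^ 2)) u := by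
  have h1 : HasDerivAt (fun u : ℝ => 1 - u ^ 2) (-(2 * u)) u := by
    have := (hasDerivAt_pow 2 u).const_sub 1
    simpa using this
  have h2 := h1.sqrt (sq_pos' hu).ne'
  have hs := Real.sqrt_pos.mpr (sq_pos' hu)
  convert! h2 using 1
  field_simp

theorem d0 {u : ℝ} (hu : u ∈ Ioo (-1 : ℝ) 1) :
    HasDerivAt (fun u : ℝ => 1 / Real.sqrt (1 - u ^ 2)) (u / Real.sqrt (1 - u ^ 2) ^ 3) u := by
  have hs := Real.sqrt_pos.mpr (sq_pos' hu)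
  have h1 := (hasDerivAt_const u (1 : ℝ)).div (sqrt_deriv hu) hs.ne'
  convert! h1 using 1
  field_simp
  ring

theorem d1 {u : ℝ} (hu : u ∈ Ioo (-1 : ℝ) 1) :
    HasDerivAt (fun u : ℝ => u / Real.sqrt (1 - u ^ 2)) (1 / Real.sqrt (1 - u ^ 2) ^ 3) u := by
  have hs := Real.sqrt_pos.mpr (sq_pos' hu)
  have hsq := Real.sq_sqrt (sq_pos' hu).le
  have h1 := (hasDerivAt_id u).div (sqrt_deriv hu) hs.ne'
  convert! h1 using 1
  simp only [id]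
  field_simp
  linear_combination -hsq

theorem d2 {u : ℝ} (hu : u ∈ Ioo (-1 : ℝ) 1) :
    HasDerivAt (fun u : ℝ => u ^ 2 / Real.sqrt (1 - u ^ 2))
      ((2 * u - u ^ 3) / Real.sqrt (1 - u ^ 2) ^ 3) u := by
  have hs := Real.sqrt_pos.mpr (sq_pos' hu)
  have hsq := Real.sq_sqrt (sq_pos' hu).le
  have h0 : HasDerivAt (fun u : ℝ => u ^ 2) (2 * u) u := by
    simpa using hasDerivAt_pow 2 u
  have h1 := h0.div (sqrt_deriv hu) hs.ne'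
  convert! h1 using 1
  field_simp
  linear_combination -(2 * u) * hsq

theorem cont_s3 : ContinuousOn (fun u : ℝ => Real.sqrt (1 - u ^ 2) ^ 3) (Ioo (-1 : ℝ) 1) := by
  fun_prop

theorem ne_s3 {u : ℝ} (hu : u ∈ Ioo (-1 : ℝ) 1) : Real.sqrt (1 - u ^ 2) ^ 3 ≠ 0 :=
  pow_ne_zero 3 (Real.sqrt_pos.mpr (sq_pos' hu)).ne'

/-- the algebra for the pointwise identities -/
theorem pt_a0 {a b : ℝ} (hb : -1 < b) (hba : b < a) (ha : a < 1) (ψ : ℝ) :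
    U a b ψ / Real.sqrt (1 - U a b ψ ^ 2) ^ 3 * ((1 + Real.cos ψ) / 2) =
      1 / (a - b) * (1 / Real.sqrt (1 - U a b ψ ^ 2) ^ 3) +
      (-b / (a - b)) * (U a b ψ / Real.sqrt (1 - U a b ψ ^ 2) ^ 3) +
      (-1 / (a - b)) * (1 / Real.sqrt (1 - U a b ψ ^ 2)) +
      0 * (U a b ψ / Real.sqrt (1 - U a b ψ ^ 2)) +
      0 * (U a b ψ ^ 2 / Real.sqrt (1 - U a b ψ ^ 2)) := by
  have hD : a - b ≠ 0 := by linarith
  have hs := Real.sqrt_pos.mpr (U_pos hb hba ha ψ)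
  have hsq := Real.sq_sqrt (U_pos hb hba ha ψ).le
  rw [cos_U hba]
  generalize U a b ψ = u at *
  generalize Real.sqrt (1 - u ^ 2) = s at *
  field_simp
  linear_combination hsq

theorem pt_b0 {a b : ℝ} (hb : -1 < b) (hba : b < a) (ha : a < 1) (ψ : ℝ) :
    U a b ψ / Real.sqrt (1 - U a b ψ ^ 2) ^ 3 * ((1 - Real.cos ψ) / 2) =
      (-1 / (a - b)) * (1 / Real.sqrt (1 - U a b ψ ^ 2) ^ 3) +
      (a / (a - b)) * (U a b ψ / Real.sqrt (1 - U a b ψ ^ 2) ^ 3) +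
      (1 / (a - b)) * (1 / Real.sqrt (1 - U a b ψ ^ 2)) +
      0 * (U a b ψ / Real.sqrt (1 - U a b ψ ^ 2)) +
      0 * (U a b ψ ^ 2 / Real.sqrt (1 - U a b ψ ^ 2)) := by
  have hD : a - b ≠ 0 := by linarith
  have hs := Real.sqrt_pos.mpr (U_pos hb hba ha ψ)
  have hsq := Real.sq_sqrt (U_pos hb hba ha ψ).le
  rw [cos_U' hba]
  generalize U a b ψ = u at *
  generalize Real.sqrt (1 - u ^ 2) = s at *
  field_simp
  linear_combination -hsq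

theorem pt_a1 {a b : ℝ} (hb : -1 < b) (hba : b < a) (ha : a < 1) (ψ : ℝ) :
    1 / Real.sqrt (1 - U a b ψ ^ 2) ^ 3 * ((1 + Real.cos ψ) / 2) =
      (-b / (a - b)) * (1 / Real.sqrt (1 - U a b ψ ^ 2) ^ 3) +
      (1 / (a - b)) * (U a b ψ / Real.sqrt (1 - U a b ψ ^ 2) ^ 3) +
      0 * (1 / Real.sqrt (1 - U a b ψ ^ 2)) +
      0 * (U a b ψ / Real.sqrt (1 - U a b ψ ^ 2)) +
      0 * (U a b ψ ^ 2 / Real.sqrt (1 - U a b ψ ^ 2)) := by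
  have hD : a - b ≠ 0 := by linarith
  have hs := Real.sqrt_pos.mpr (U_pos hb hba ha ψ)
  rw [cos_U hba]
  generalize U a b ψ = u at *
  generalize Real.sqrt (1 - u ^ 2) = s at *
  field_simp
  ring

theorem pt_b1 {a b : ℝ} (hb : -1 < b) (hba : b < a) (ha : a < 1) (ψ : ℝ) :
    1 / Real.sqrt (1 - U a b ψ ^ 2) ^ 3 * ((1 - Real.cos ψ) / 2) =
      (a / (a - b)) * (1 / Real.sqrt (1 - U a b ψ ^ 2) ^ 3) +
      (-1 / (a - b)) * (U a b ψ / Real.sqrt (1 - U a b ψ ^ 2) ^ 3) +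
      0 * (1 / Real.sqrt (1 - U a b ψ ^ 2)) +
      0 * (U a b ψ / Real.sqrt (1 - U a b ψ ^ 2)) +
      0 * (U a b ψ ^ 2 / Real.sqrt (1 - U a b ψ ^ 2)) := by
  have hD : a - b ≠ 0 := by linarith
  have hs := Real.sqrt_pos.mpr (U_pos hb hba ha ψ)
  rw [cos_U' hba]
  generalize U a b ψ = u at *
  generalize Real.sqrt (1 - u ^ 2) = s at *
  field_simp
  ring

theorem pt_a2 {a b : ℝ} (hb : -1 < b) (hba : b < a) (ha : a < 1) (ψ : ℝ) :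
    (2 * U a b ψ - U a b ψ ^ 3) / Real.sqrt (1 - U a b ψ ^ 2) ^ 3 * ((1 + Real.cos ψ) / 2) =
      (1 / (a - b)) * (1 / Real.sqrt (1 - U a b ψ ^ 2) ^ 3) +
      (-b / (a - b)) * (U a b ψ / Real.sqrt (1 - U a b ψ ^ 2) ^ 3) +
      (-1 / (a - b)) * (1 / Real.sqrt (1 - U a b ψ ^ 2)) +
      (-b / (a - b)) * (U a b ψ / Real.sqrt (1 - U a b ψ ^ 2)) +
      (1 / (a - b)) * (U a b ψ ^ 2 / Real.sqrt (1 - U a b ψ ^ 2)) := by
  have hD : a - b ≠ 0 := by linarith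
  have hs := Real.sqrt_pos.mpr (U_pos hb hba ha ψ)
  have hsq := Real.sq_sqrt (U_pos hb hba ha ψ).le
  rw [cos_U hba]
  generalize U a b ψ = u at *
  generalize Real.sqrt (1 - u ^ 2) = s at *
  field_simp
  linear_combination (1 + b * u - u ^ 2) * hsq

theorem pt_b2 {a b : ℝ} (hb : -1 < b) (hba : b < a) (ha : a < 1) (ψ : ℝ) :
    (2 * U a b ψ - U a b ψ ^ 3) / Real.sqrt (1 - U a b ψ ^ 2) ^ 3 * ((1 - Real.cos ψ) / 2) =
      (-1 / (a - b)) * (1 / Real.sqrt (1 - U a b ψ ^ 2) ^ 3) +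
      (a / (a - b)) * (U a b ψ / Real.sqrt (1 - U a b ψ ^ 2) ^ 3) +
      (1 / (a - b)) * (1 / Real.sqrt (1 - U a b ψ ^ 2)) +
      (a / (a - b)) * (U a b ψ / Real.sqrt (1 - U a b ψ ^ 2)) +
      (-1 / (a - b)) * (U a b ψ ^ 2 / Real.sqrt (1 - U a b ψ ^ 2)) := by
  have hD : a - b ≠ 0 := by linarith
  have hs := Real.sqrt_pos.mpr (U_pos hb hba ha ψ)
  have hsq := Real.sq_sqrt (U_pos hb hba ha ψ).le
  rw [cos_U' hba]
  generalize U a b ψ = u at *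
  generalize Real.sqrt (1 - u ^ 2) = s at *
  field_simp
  linear_combination -(1 + a * u - u ^ 2) * hsq

/-- the algebra of the final formulas -/
theorem alg {a b A B D S T q al be J0 J1 J2 K0 K1 : ℝ} (hA : A = 1 - a ^ 2) (hB : B = 1 - b ^ 2)
    (hDD : D = a - b) (hS : S = a + b) (hal : al = a - T) (hbe : be = T - b)
    (hA0 : A ≠ 0) (hB0 : B ≠ 0) (hD0 : D ≠ 0) (hJ0 : J0 ≠ 0) (hJ1 : J1 = T * J0)
    (hJ2 : J2 = (S * T - a * b - q) * J0)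
    (r1 : (1 + a * b) * K1 - (a + b) * K0 = -((a + b) / 2) * J0)
    (r2 : (1 + a * b) * K0 - (a + b) * K1 = J0 - J2 + ((a + b) / 2) * J1) :
    K0 = ((1 + a * b) * (1 + a * b + q - S * T / 2) - S ^ 2 / 2) / (A * B) * J0 ∧
    K1 = (S * (1 + a * b + q - S * T / 2) - (1 + a * b) * S / 2) / (A * B) * J0 := by
  have hAB : A * B = (1 + a * b) ^ 2 - (a + b) ^ 2 := by rw [hA, hB]; ring
  rw [hJ1, hJ2] at r2
  constructor
  · rw [div_mul_eq_mul_div, eq_div_iff (mul_ne_zero hA0 hB0), hAB, hS]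
    rw [hS] at r2
    linear_combination (1 + a * b) * r2 + (a + b) * r1
  · rw [div_mul_eq_mul_div, eq_div_iff (mul_ne_zero hA0 hB0), hAB, hS]
    rw [hS] at r2
    linear_combination (a + b) * r2 + (1 + a * b) * r1

theorem ealg_T {a b T q κ0 κ1 : ℝ} (hA0 : 1 - a ^ 2 ≠ 0) (hB0 : 1 - b ^ 2 ≠ 0) (hD0 : a - b ≠ 0)
    (k0 : κ0 = ((1 + a * b) * (1 + a * b + q - (a + b) * T / 2) - (a + b) ^ 2 / 2) /
      ((1 - a ^ 2) * (1 - b ^ 2)))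
    (k1 : κ1 = ((a + b) * (1 + a * b + q - (a + b) * T / 2) - (1 + a * b) * (a + b) / 2) /
      ((1 - a ^ 2) * (1 - b ^ 2))) :
    (κ1 - b * κ0 - T * (κ0 - b * κ1 - 1)) / (a - b) =
      1 / 2 + (a - T) * ((a + b) * (a - T) + 2 * q) / (2 * (1 - a ^ 2) * (a - b)) ∧
    (a * κ0 - κ1 - T * (a * κ1 - κ0 + 1)) / (a - b) =
      1 / 2 + (T - b) * (2 * q - (a + b) * (T - b)) / (2 * (1 - b ^ 2) * (a - b)) := by
  constructor
  · rw [k0, k1]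
    field_simp
    ring
  · rw [k0, k1]
    field_simp
    ring

theorem ealg_J {a b T q κ0 κ1 : ℝ} (hA0 : 1 - a ^ 2 ≠ 0) (hB0 : 1 - b ^ 2 ≠ 0) (hD0 : a - b ≠ 0)
    (k0 : κ0 = ((1 + a * b) * (1 + a * b + q - (a + b) * T / 2) - (a + b) ^ 2 / 2) /
      ((1 - a ^ 2) * (1 - b ^ 2)))
    (k1 : κ1 = ((a + b) * (1 + a * b + q - (a + b) * T / 2) - (1 + a * b) * (a + b) / 2) /
      ((1 - a ^ 2) * (1 - b ^ 2))) {j2 : ℝ} (hj : j2 = (a + b) * T - a * b - q) :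
    T + (a + b) * (1 / 2 + (a - T) * ((a + b) * (a - T) + 2 * q) / (2 * (1 - a ^ 2) * (a - b))) - b -
      ((κ0 - b * κ1 - 1 - b * T + j2 - j2 * (κ0 - b * κ1 - 1)) / (a - b)) =
      (T - b) / 2 - q * ((a + b) * (a - T) + 2 * q) / (2 * (1 - a ^ 2) * (a - b)) ∧
    T + (a + b) * (1 / 2 + (T - b) * (2 * q - (a + b) * (T - b)) / (2 * (1 - b ^ 2) * (a - b))) - a -
      ((a * κ1 - κ0 + 1 + a * T - j2 - j2 * (a * κ1 - κ0 + 1)) / (a - b)) =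
      -(a - T) / 2 + q * (2 * q - (a + b) * (T - b)) / (2 * (1 - b ^ 2) * (a - b)) := by
  constructor
  · rw [k0, k1, hj]
    field_simp
    ring
  · rw [k0, k1, hj]
    field_simp
    ring

theorem B3_TTqq
    (hD : ∀ {Φ Φ' : ℝ → ℝ}, (∀ u ∈ Ioo (-1 : ℝ) 1, HasDerivAt Φ (Φ' u) u) →
      ContinuousOn Φ' (Ioo (-1 : ℝ) 1) → ∀ {a b : ℝ}, -1 < b → b < a → a < 1 →
      HasFDerivAt (fun p : ℝ × ℝ => ∫ ψ in (0 : ℝ)..Real.pi, Φ (U p.1 p.2 ψ))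
      ((∫ ψ in (0 : ℝ)..Real.pi, Φ' (U a b ψ) * ((1 + Real.cos ψ) / 2)) • ContinuousLinearMap.fst ℝ ℝ ℝ +
       (∫ ψ in (0 : ℝ)..Real.pi, Φ' (U a b ψ) * ((1 - Real.cos ψ) / 2)) • ContinuousLinearMap.snd ℝ ℝ ℝ) (a, b))
    (hR : ∀ {a b : ℝ}, -1 < b → b < a → a < 1 → ∀ {I0 I1 I2 K0 K1 : ℝ},
      I0 = (∫ ψ in (0 : ℝ)..Real.pi, 1 / Real.sqrt (1 - U a b ψ ^ 2)) →
      I1 = (∫ ψ in (0 : ℝ)..Real.pi, U a b ψ / Real.sqrt (1 - U a b ψ ^ 2)) →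
      I2 = (∫ ψ in (0 : ℝ)..Real.pi, U a b ψ ^ 2 / Real.sqrt (1 - U a b ψ ^ 2)) →
      K0 = (∫ ψ in (0 : ℝ)..Real.pi, 1 / Real.sqrt (1 - U a b ψ ^ 2) ^ 3) →
      K1 = (∫ ψ in (0 : ℝ)..Real.pi, U a b ψ / Real.sqrt (1 - U a b ψ ^ 2) ^ 3) →
      (1 + a * b) * K1 - (a + b) * K0 = -((a + b) / 2) * I0 ∧
      (1 + a * b) * K0 - (a + b) * K1 = I0 - I2 + ((a + b) / 2) * I1)
    {a b : ℝ} (hb : -1 < b) (hba : b < a) (ha : a < 1) {T q A B D S al be : ℝ}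
    (hT : T = TT a b) (hq : q = qq a b) (hA : A = 1 - a ^ 2) (hB : B = 1 - b ^ 2) (hDD : D = a - b)
    (hS : S = a + b) (hal : al = a - T) (hbe : be = T - b) :
    HasFDerivAt (fun p : ℝ × ℝ => TT p.1 p.2)
      ((1 / 2 + al * (S * al + 2 * q) / (2 * A * D)) • ContinuousLinearMap.fst ℝ ℝ ℝ +
       (1 / 2 + be * (2 * q - S * be) / (2 * B * D)) • ContinuousLinearMap.snd ℝ ℝ ℝ) (a, b) ∧
    HasFDerivAt (fun p : ℝ × ℝ => qq p.1 p.2)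
      ((be / 2 - q * (S * al + 2 * q) / (2 * A * D)) • ContinuousLinearMap.fst ℝ ℝ ℝ +
       (-al / 2 + q * (2 * q - S * be) / (2 * B * D)) • ContinuousLinearMap.snd ℝ ℝ ℝ) (a, b) := by
  have hD0 : a - b ≠ 0 := by linarith
  -- the integrals
  obtain ⟨J0, hJ0⟩ : ∃ J0, J0 = (∫ ψ in (0 : ℝ)..Real.pi, 1 / Real.sqrt (1 - U a b ψ ^ 2)) := ⟨_, rfl⟩
  obtain ⟨J1, hJ1⟩ : ∃ J1, J1 = (∫ ψ in (0 : ℝ)..Real.pi, U a b ψ / Real.sqrt (1 - U a b ψ ^ 2)) :=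
    ⟨_, rfl⟩
  obtain ⟨J2, hJ2⟩ : ∃ J2, J2 = (∫ ψ in (0 : ℝ)..Real.pi, U a b ψ ^ 2 / Real.sqrt (1 - U a b ψ ^ 2)) :=
    ⟨_, rfl⟩
  obtain ⟨K0, hK0⟩ : ∃ K0, K0 = (∫ ψ in (0 : ℝ)..Real.pi, 1 / Real.sqrt (1 - U a b ψ ^ 2) ^ 3) :=
    ⟨_, rfl⟩
  obtain ⟨K1, hK1⟩ : ∃ K1, K1 = (∫ ψ in (0 : ℝ)..Real.pi, U a b ψ / Real.sqrt (1 - U a b ψ ^ 2) ^ 3) :=
    ⟨_, rfl⟩
  obtain ⟨r1, r2⟩ := hR hb hba ha hJ0 hJ1 hJ2 hK0 hK1
  have hlin := lin5 hb hba ha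
  simp only [← hJ0, ← hJ1, ← hJ2, ← hK0, ← hK1] at hlin
  have hpos : 0 < J0 := by
    rw [hJ0]
    apply intervalIntegral.intervalIntegral_pos_of_pos
    · exact (continuous_const.div (continuous_s a b) fun ψ =>
        (Real.sqrt_pos.mpr (U_pos hb hba ha ψ)).ne').intervalIntegrable _ _
    · intro ψ
      have := Real.sqrt_pos.mpr (U_pos hb hba ha ψ)
      positivity
    · exact Real.pi_pos
  -- derivatives of the integrals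
  have F0 := hD (Φ := fun u => 1 / Real.sqrt (1 - u ^ 2)) (Φ' := fun u => u / Real.sqrt (1 - u ^ 2) ^ 3)
    (fun u hu => d0 hu) (continuousOn_id.div cont_s3 fun u hu => ne_s3 hu) hb hba ha
  have F1 := hD (Φ := fun u => u / Real.sqrt (1 - u ^ 2)) (Φ' := fun u => 1 / Real.sqrt (1 - u ^ 2) ^ 3)
    (fun u hu => d1 hu) (continuousOn_const.div cont_s3 fun u hu => ne_s3 hu) hb hba ha
  have F2 := hD (Φ := fun u => u ^ 2 / Real.sqrt (1 - u ^ 2))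
    (Φ' := fun u => (2 * u - u ^ 3) / Real.sqrt (1 - u ^ 2) ^ 3)
    (fun u hu => d2 hu)
    ((by fun_prop : ContinuousOn (fun u : ℝ => 2 * u - u ^ 3) (Ioo (-1 : ℝ) 1)).div cont_s3
      fun u hu => ne_s3 hu) hb hba ha
  beta_reduce at F0 F1 F2
  simp only [pt_a0 hb hba ha, pt_b0 hb hba ha, hlin] at F0
  simp only [pt_a1 hb hba ha, pt_b1 hb hba ha, hlin] at F1
  simp only [pt_a2 hb hba ha, pt_b2 hb hba ha, hlin] at F2
  have hne : (∫ ψ in (0 : ℝ)..Real.pi, 1 / Real.sqrt (1 - U (a, b).1 (a, b).2 ψ ^ 2)) ≠ 0 := by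
    show (∫ ψ in (0 : ℝ)..Real.pi, 1 / Real.sqrt (1 - U a b ψ ^ 2)) ≠ 0
    rw [← hJ0]; exact hpos.ne'
  have G1 := div2 F1 F0 hne
  have G2 := div2 F2 F0 hne
  simp only [← hJ0, ← hJ1, ← hJ2] at G1 G2
  -- values
  have hTv : T = J1 / J0 := by rw [hT, hJ0, hJ1]; rfl
  have hqform : ∀ a b : ℝ, -1 < b → b < a → a < 1 → qq a b = (a + b) *
      ((∫ ψ in (0 : ℝ)..Real.pi, U a b ψ / Real.sqrt (1 - U a b ψ ^ 2)) /
        (∫ ψ in (0 : ℝ)..Real.pi, 1 / Real.sqrt (1 - U a b ψ ^ 2))) - a * b -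
      (∫ ψ in (0 : ℝ)..Real.pi, U a b ψ ^ 2 / Real.sqrt (1 - U a b ψ ^ 2)) /
        (∫ ψ in (0 : ℝ)..Real.pi, 1 / Real.sqrt (1 - U a b ψ ^ 2)) := by
    intro a b hb hba ha
    have hlin := lin5 hb hba ha 0 0 (-(a * b)) (a + b) (-1)
    have hpos : 0 < (∫ ψ in (0 : ℝ)..Real.pi, 1 / Real.sqrt (1 - U a b ψ ^ 2)) := by
      apply intervalIntegral.intervalIntegral_pos_of_pos
      · exact (continuous_const.div (continuous_s a b) fun ψ =>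
          (Real.sqrt_pos.mpr (U_pos hb hba ha ψ)).ne').intervalIntegrable _ _
      · intro ψ
        have := Real.sqrt_pos.mpr (U_pos hb hba ha ψ)
        positivity
      · exact Real.pi_pos
    have e1 : EI (fun u => (a - u) * (u - b)) a b = ∫ ψ in (0 : ℝ)..Real.pi,
      (0 * (1 / Real.sqrt (1 - U a b ψ ^ 2) ^ 3) +
      0 * (U a b ψ / Real.sqrt (1 - U a b ψ ^ 2) ^ 3) +
      (-(a * b)) * (1 / Real.sqrt (1 - U a b ψ ^ 2)) +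
      (a + b) * (U a b ψ / Real.sqrt (1 - U a b ψ ^ 2)) +
      (-1) * (U a b ψ ^ 2 / Real.sqrt (1 - U a b ψ ^ 2))) := by
      unfold EI
      congr 1
      funext ψ
      ring
    have e2 : qq a b = EI (fun u => (a - u) * (u - b)) a b /
      (∫ ψ in (0 : ℝ)..Real.pi, 1 / Real.sqrt (1 - U a b ψ ^ 2)) := rfl
    rw [e2, e1, hlin]
    field_simp
    ring
  have hqv : q = S * T - a * b - J2 / J0 := by
    rw [hq, hqform a b hb hba ha, hTv, hS, hJ0, hJ1, hJ2]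
  have hJ1v : J1 = T * J0 := by rw [hTv]; field_simp
  have hJ2v : J2 = (S * T - a * b - q) * J0 := by rw [hqv]; field_simp; ring
  have hA0 : A ≠ 0 := by rw [hA]; nlinarith
  have hB0 : B ≠ 0 := by rw [hB]; nlinarith
  have hD0' : D ≠ 0 := by rw [hDD]; exact hD0
  obtain ⟨k0, k1⟩ := alg hA hB hDD hS hal hbe hA0 hB0 hD0' hpos.ne' hJ1v hJ2v r1 r2
  obtain ⟨κ0, hκ0⟩ : ∃ κ0, κ0 = ((1 + a * b) * (1 + a * b + q - (a + b) * T / 2) - (a + b) ^ 2 / 2) /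
      ((1 - a ^ 2) * (1 - b ^ 2)) := ⟨_, rfl⟩
  obtain ⟨κ1, hκ1⟩ : ∃ κ1, κ1 = ((a + b) * (1 + a * b + q - (a + b) * T / 2) -
      (1 + a * b) * (a + b) / 2) / ((1 - a ^ 2) * (1 - b ^ 2)) := ⟨_, rfl⟩
  subst hA hB hDD hS hal hbe
  rw [← hκ0] at k0
  rw [← hκ1] at k1
  obtain ⟨t1, t2⟩ := ealg_T (T := T) (q := q) hA0 hB0 hD0 hκ0 hκ1
  obtain ⟨u1, u2⟩ := ealg_J (T := T) (q := q) hA0 hB0 hD0 hκ0 hκ1 (j2 := (a + b) * T - a * b - q) rfl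
  have hJ0' : J0 ≠ 0 := hpos.ne'
  -- coefficients
  have c1 : ((-b / (a - b) * K0 + 1 / (a - b) * K1 + 0 * J0 + 0 * J1 + 0 * J2) * J0 -
            J1 * (1 / (a - b) * K0 + -b / (a - b) * K1 + -1 / (a - b) * J0 + 0 * J1 + 0 * J2)) /
          J0 ^ 2 = 1 / 2 + (a - T) * ((a + b) * (a - T) + 2 * q) / (2 * (1 - a ^ 2) * (a - b)) := by
    rw [← t1, k0, k1, hJ1v]
    field_simp
    ring
  have c2 : ((a / (a - b) * K0 + -1 / (a - b) * K1 + 0 * J0 + 0 * J1 + 0 * J2) * J0 -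
            J1 * (-1 / (a - b) * K0 + a / (a - b) * K1 + 1 / (a - b) * J0 + 0 * J1 + 0 * J2)) /
          J0 ^ 2 = 1 / 2 + (T - b) * (2 * q - (a + b) * (T - b)) / (2 * (1 - b ^ 2) * (a - b)) := by
    rw [← t2, k0, k1, hJ1v]
    field_simp
    ring
  have c3 : ((1 / (a - b) * K0 + -b / (a - b) * K1 + -1 / (a - b) * J0 + -b / (a - b) * J1 + 1 / (a - b) * J2) * J0 -
            J2 * (1 / (a - b) * K0 + -b / (a - b) * K1 + -1 / (a - b) * J0 + 0 * J1 + 0 * J2)) /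
          J0 ^ 2 = (κ0 - b * κ1 - 1 - b * T + ((a + b) * T - a * b - q) -
            ((a + b) * T - a * b - q) * (κ0 - b * κ1 - 1)) / (a - b) := by
    rw [k0, k1, hJ1v, hJ2v]
    field_simp
    ring
  have c4 : ((-1 / (a - b) * K0 + a / (a - b) * K1 + 1 / (a - b) * J0 + a / (a - b) * J1 + -1 / (a - b) * J2) * J0 -
            J2 * (-1 / (a - b) * K0 + a / (a - b) * K1 + 1 / (a - b) * J0 + 0 * J1 + 0 * J2)) /
          J0 ^ 2 = (a * κ1 - κ0 + 1 + a * T - ((a + b) * T - a * b - q) -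
            ((a + b) * T - a * b - q) * (a * κ1 - κ0 + 1)) / (a - b) := by
    rw [k0, k1, hJ1v, hJ2v]
    field_simp
    ring
  rw [c1, c2] at G1
  rw [c3, c4] at G2
  refine ⟨G1, ?_⟩
  have H1 := sub2 (sub2 (mul2 (sum2 (a, b)) G1) (mul2 (fst2 (a, b)) (snd2 (a, b)))) G2
  have hev : (fun p : ℝ × ℝ => qq p.1 p.2) =ᶠ[𝓝 (a, b)] (fun p : ℝ × ℝ => (p.1 + p.2) *
      ((∫ ψ in (0 : ℝ)..Real.pi, U p.1 p.2 ψ / Real.sqrt (1 - U p.1 p.2 ψ ^ 2)) /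
        (∫ ψ in (0 : ℝ)..Real.pi, 1 / Real.sqrt (1 - U p.1 p.2 ψ ^ 2))) - p.1 * p.2 -
      (∫ ψ in (0 : ℝ)..Real.pi, U p.1 p.2 ψ ^ 2 / Real.sqrt (1 - U p.1 p.2 ψ ^ 2)) /
        (∫ ψ in (0 : ℝ)..Real.pi, 1 / Real.sqrt (1 - U p.1 p.2 ψ ^ 2))) := by
    have o1 : ∀ᶠ p : ℝ × ℝ in 𝓝 (a, b), -1 < p.2 :=
      (continuous_snd.tendsto (a, b)).eventually_const_lt hb
    have o2 : ∀ᶠ p : ℝ × ℝ in 𝓝 (a, b), p.1 < 1 :=
      (continuous_fst.tendsto (a, b)).eventually_lt_const ha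
    have o3 : ∀ᶠ p : ℝ × ℝ in 𝓝 (a, b), p.2 < p.1 :=
      (continuous_snd.tendsto (a, b)).eventually_lt (continuous_fst.tendsto (a, b)) hba
    filter_upwards [o1, o2, o3] with p h1 h2 h3
    exact hqform p.1 p.2 h1 h3 h2
  refine HasFDerivAt.congr_of_eventuallyEq ?_ hev
  have hTv' : (∫ ψ in (0 : ℝ)..Real.pi, U (a, b).1 (a, b).2 ψ / Real.sqrt (1 - U (a, b).1 (a, b).2 ψ ^ 2)) /
        (∫ ψ in (0 : ℝ)..Real.pi, 1 / Real.sqrt (1 - U (a, b).1 (a, b).2 ψ ^ 2)) = T := by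
    show (∫ ψ in (0 : ℝ)..Real.pi, U a b ψ / Real.sqrt (1 - U a b ψ ^ 2)) /
        (∫ ψ in (0 : ℝ)..Real.pi, 1 / Real.sqrt (1 - U a b ψ ^ 2)) = T
    rw [← hJ0, ← hJ1, hTv]
  rw [hTv'] at H1
  convert! H1 using 1
  rw [← u1, ← u2]
  congr 1
  · congr 1
    ring
  · congr 1
    ring

end B3M
end Pool.Agent.Helper974.Star
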