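import Mathlib
import Pool.Agent.Helper974.Star.Defs
set_option autoImplicit false
open Filter Topology Metric Set MeasureTheory
namespace Pool.Agent.Helper974.Star
namespace B5M

theorem A_pos {a : ℝ} (h0 : -1 < a) (h1 : a < 1) (t : ℝ) : 0 < 1 - 2 * a * t + t ^ 2 := by
  nlinarith [sq_nonneg (t - a)]

theorem B5_ll_le {a b T : ℝ} (hb : -1 < b) (hba : b < a) (ha : a < 1) (hT1 : b ≤ T) (hT2 : T ≤ a) :
    lv a b T ≤ (a - b) / (1 - a ^ 2) := by
  have ha2 : 0 < 1 - a ^ 2 := by nlinarith
  have hbound : 0 ≤ (a - b) / (1 - a ^ 2) := div_nonneg (by linarith) ha2.le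
  have hpt : ∀ t ∈ Set.Icc (0:ℝ) 1, (pr a b T t - 1) / t ≤ (a - b) / (1 - a ^ 2) := by
    intro t ht
    rcases eq_or_lt_of_le ht.1 with h0 | h0
    · rw [← h0, div_zero]; exact hbound
    have hA := A_pos (by linarith : -1 < a) ha t
    have hB := A_pos hb (by linarith : b < 1) t
    set A := 1 - 2 * a * t + t ^ 2 with hAdef
    set B := 1 - 2 * b * t + t ^ 2 with hBdef
    have hAge : 1 - a ^ 2 ≤ A := by rw [hAdef]; nlinarith [sq_nonneg (t - a)]
    have hsA : 0 < Real.sqrt A := Real.sqrt_pos.2 hA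
    have hsB : 0 < Real.sqrt B := Real.sqrt_pos.2 hB
    have hsA2 : Real.sqrt A ^ 2 = A := Real.sq_sqrt hA.le
    have hsB2 : Real.sqrt B ^ 2 = B := Real.sq_sqrt hB.le
    have h1 : pr a b T t ≤ Real.sqrt B / Real.sqrt A := by
      unfold pr
      rw [← hAdef, ← hBdef, div_le_div_iff₀ (mul_pos hsA hsB) hsA]
      have h2 : 1 - 2 * T * t + t ^ 2 ≤ B := by rw [hBdef]; nlinarith
      calc (1 - 2 * T * t + t ^ 2) * Real.sqrt A ≤ B * Real.sqrt A :=
            mul_le_mul_of_nonneg_right h2 hsA.le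
        _ = Real.sqrt B ^ 2 * Real.sqrt A := by rw [hsB2]
        _ = Real.sqrt B * (Real.sqrt A * Real.sqrt B) := by ring
    have h2 : Real.sqrt B / Real.sqrt A ≤ 1 + (a - b) * t / A := by
      have h3 : Real.sqrt B / Real.sqrt A = Real.sqrt (B / A) := (Real.sqrt_div hB.le A).symm
      rw [h3]
      have h4 : B / A = 1 + 2 * ((a - b) * t / A) := by
        rw [eq_comm, ← sub_eq_zero]
        field_simp
        rw [hAdef, hBdef]; ring
      have h5 : 0 ≤ (a - b) * t / A := div_nonneg (mul_nonneg (by linarith) h0.le) hA.le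
      rw [h4]
      apply Real.sqrt_le_iff.2
      constructor
      · linarith
      · nlinarith
    rw [div_le_iff₀ h0]
    have h6 : (a - b) * t / A ≤ (a - b) / (1 - a ^ 2) * t := by
      rw [div_mul_eq_mul_div]
      exact div_le_div_of_nonneg_left (mul_nonneg (by linarith) h0.le) ha2 hAge
    linarith
  unfold lv
  by_cases hint : IntervalIntegrable (fun t => (pr a b T t - 1) / t) volume 0 1
  · calc ∫ t in (0 : ℝ)..1, (pr a b T t - 1) / t ≤ ∫ _t in (0 : ℝ)..1, (a - b) / (1 - a ^ 2) :=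
          intervalIntegral.integral_mono_on (by norm_num) hint intervalIntegrable_const hpt
      _ = (a - b) / (1 - a ^ 2) := by simp
  · rw [intervalIntegral.integral_undef hint]; exact hbound

theorem B11_sym {a : ℝ} (h0 : 0 < a) (h1 : a < 1) :
    TT a (-a) = 0 ∧ ll a (-a) = -(1 / 2) * Real.log (1 - a ^ 2) := by
  have hT : TT a (-a) = 0 := by
    unfold TT mean
    have h2 : EI (fun u => u) a (-a) = - EI (fun u => u) a (-a) := by
      unfold EI
      have h3 := intervalIntegral.integral_comp_sub_left (a := 0) (b := Real.pi)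
        (fun ψ => U a (-a) ψ / Real.sqrt (1 - U a (-a) ψ ^ 2)) Real.pi
      rw [sub_zero, sub_self] at h3
      conv_lhs => rw [← h3]
      rw [← intervalIntegral.integral_neg]
      congr 1
      funext ψ
      have h4 : U a (-a) (Real.pi - ψ) = - U a (-a) ψ := by
        unfold U
        rw [Real.cos_pi_sub]; ring
      rw [h4, neg_sq, neg_div]
    have h3 : EI (fun u => u) a (-a) = 0 := by linarith
    rw [h3, zero_div]
  refine ⟨hT, ?_⟩
  unfold ll
  rw [hT]
  unfold lv
  have hq : ∀ t : ℝ, 0 < (1 + t ^ 2) ^ 2 - 4 * a ^ 2 * t ^ 2 := by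
    intro t
    have e : (1 + t ^ 2) ^ 2 - 4 * a ^ 2 * t ^ 2 = (1 - 2 * a * t + t ^ 2) * (1 - 2 * (-a) * t + t ^ 2) := by
      ring
    rw [e]
    exact mul_pos (A_pos (by linarith) h1 t) (A_pos (by linarith) (by linarith) t)
  set s : ℝ → ℝ := fun t => Real.sqrt ((1 + t ^ 2) ^ 2 - 4 * a ^ 2 * t ^ 2) with hs
  have hspos : ∀ t, 0 < s t := fun t => Real.sqrt_pos.2 (hq t)
  have hs2 : ∀ t, s t ^ 2 = (1 + t ^ 2) ^ 2 - 4 * a ^ 2 * t ^ 2 := fun t => Real.sq_sqrt (hq t).le
  have hscont : Continuous s := by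
    rw [hs]; fun_prop
  have hsle : ∀ t, s t ≤ 1 + t ^ 2 := by
    intro t
    rw [hs]
    apply Real.sqrt_le_iff.2
    constructor
    · positivity
    · nlinarith [mul_nonneg (sq_nonneg a) (sq_nonneg t)]
  set g : ℝ → ℝ := fun t => 4 * a ^ 2 * t / (s t * (1 + t ^ 2 + s t)) with hg
  have hgcont : Continuous g := by
    rw [hg]
    apply Continuous.div (by fun_prop) (by fun_prop)
    intro t
    have := hspos t
    positivity
  have hfg : ∀ t : ℝ, (pr a (-a) 0 t - 1) / t = g t := by
    intro t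
    have hpr : pr a (-a) 0 t = (1 + t ^ 2) / s t := by
      unfold pr
      rw [← Real.sqrt_mul (A_pos (by linarith) h1 t).le, hs]
      simp only
      congr 1
      · ring
      · congr 1; ring
    have hst := hspos t
    have h3 : 0 < 1 + t ^ 2 + s t := by positivity
    rcases eq_or_ne t 0 with ht | ht
    · rw [ht, hg]; simp
    · rw [hpr, hg]
      simp only
      rw [div_sub_one hst.ne', div_div, div_eq_div_iff (mul_ne_zero hst.ne' ht) (mul_ne_zero hst.ne' h3.ne')]
      have := hs2 t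
      linear_combination (-(s t)) * this
  have hint : ∫ t in (0 : ℝ)..1, (pr a (-a) 0 t - 1) / t = ∫ t in (0:ℝ)..1, g t := by
    congr 1
    funext t
    exact hfg t
  rw [hint]
  set N : ℝ → ℝ := fun t => (1 - t ^ 2 + s t) / 2 with hN
  have hNpos : ∀ t ∈ Set.uIcc (0:ℝ) 1, 0 < N t := by
    intro t ht
    rw [Set.uIcc_of_le (by norm_num)] at ht
    have := hspos t
    have h2 : t ^ 2 ≤ 1 := by nlinarith [ht.1, ht.2]
    rw [hN]; simp only
    linarith
  have hder : ∀ t ∈ Set.uIcc (0:ℝ) 1, HasDerivAt (fun t => - Real.log (N t)) (g t) t := by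
    intro t ht
    have hNt := hNpos t ht
    have hst := hspos t
    have hq' : HasDerivAt (fun t : ℝ => (1 + t ^ 2) ^ 2 - 4 * a ^ 2 * t ^ 2)
        (2 * (1 + t ^ 2) * (2 * t) - 4 * a ^ 2 * (2 * t)) t := by
      have e1 : HasDerivAt (fun t : ℝ => t ^ 2) (2 * t) t := by simpa using hasDerivAt_pow 2 t
      have e2 := (e1.const_add 1).pow 2
      have e3 := e1.const_mul (4 * a ^ 2)
      refine (e2.sub e3).congr_deriv ?_
      push_cast; ring
    have hs' : HasDerivAt s ((2 * (1 + t ^ 2) * (2 * t) - 4 * a ^ 2 * (2 * t)) / (2 * s t)) t :=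
      hq'.sqrt (hq t).ne'
    have e1 : HasDerivAt (fun t : ℝ => t ^ 2) (2 * t) t := by simpa using hasDerivAt_pow 2 t
    have hN' : HasDerivAt N ((- (2 * t) + (2 * (1 + t ^ 2) * (2 * t) - 4 * a ^ 2 * (2 * t)) / (2 * s t)) / 2) t := by
      have := ((e1.const_sub 1).add hs').div_const 2
      exact this
    refine (hN'.log hNt.ne').neg.congr_deriv ?_
    rw [hg, hN]
    simp only
    have hNt' : 0 < 1 - t ^ 2 + s t := by
      rw [hN] at hNt; simp only at hNt; linarith
    have h3 : 0 < 1 + t ^ 2 + s t := by positivity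
    have key := hs2 t
    field_simp
    linear_combination (2 * t) * key
  have hftc := intervalIntegral.integral_eq_sub_of_hasDerivAt hder (hgcont.intervalIntegrable 0 1)
  rw [hftc]
  have hN1 : N 1 = Real.sqrt (1 - a ^ 2) := by
    rw [hN, hs]; simp only
    have : ((1:ℝ) + 1 ^ 2) ^ 2 - 4 * a ^ 2 * 1 ^ 2 = (2:ℝ) ^ 2 * (1 - a ^ 2) := by ring
    rw [this, Real.sqrt_mul (by norm_num), Real.sqrt_sq (by norm_num)]
    ring
  have hN0 : N 0 = 1 := by
    rw [hN, hs]; simp
  simp only [hN1, hN0, Real.log_one, neg_zero, sub_zero]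
  rw [Real.log_sqrt (by nlinarith)]
  ring

theorem B10_pick_value {a : ℝ} (h0 : -1 < a) (h1 : a < 1) :
    lv a (-1) (-1) = -Real.log ((1 - a) / 2) := by
  unfold lv
  set r : ℝ → ℝ := fun t => Real.sqrt (1 - 2 * a * t + t ^ 2) with hr
  have hrpos : ∀ t, 0 < r t := fun t => Real.sqrt_pos.2 (A_pos h0 h1 t)
  have hr2 : ∀ t, r t ^ 2 = 1 - 2 * a * t + t ^ 2 := fun t => Real.sq_sqrt (A_pos h0 h1 t).le
  have hrcont : Continuous r := by rw [hr]; fun_prop
  set g : ℝ → ℝ := fun t => 2 * (1 + a) / (r t * (1 + |t| + r t)) with hg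
  have hgcont : Continuous g := by
    rw [hg]
    apply Continuous.div (by fun_prop) (by fun_prop)
    intro t
    have := hrpos t
    positivity
  have hint : ∫ t in (0 : ℝ)..1, (pr a (-1) (-1) t - 1) / t = ∫ t in (0:ℝ)..1, g t := by
    apply intervalIntegral.integral_congr_ae
    refine Filter.Eventually.of_forall ?_
    intro t ht
    rw [Set.uIoc_of_le (by norm_num)] at ht
    have ht0 : 0 < t := ht.1
    have hrt := hrpos t
    have hpr : pr a (-1) (-1) t = (1 + t) / r t := by
      unfold pr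
      have e1 : 1 - 2 * (-1) * t + t ^ 2 = (1 + t) ^ 2 := by ring
      rw [e1, Real.sqrt_sq (by linarith)]
      show (1 + t) ^ 2 / (r t * (1 + t)) = _
      field_simp
    rw [hpr, hg]
    simp only
    rw [abs_of_pos ht0]
    have h3 : 0 < 1 + t + r t := by linarith
    rw [div_sub_one hrt.ne', div_div, div_eq_div_iff (mul_ne_zero hrt.ne' ht0.ne') (mul_ne_zero hrt.ne' h3.ne')]
    have := hr2 t
    linear_combination (-(r t)) * this
  rw [hint]
  set N : ℝ → ℝ := fun t => (1 - t + r t) / 2 with hN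
  have hNpos : ∀ t ∈ Set.uIcc (0:ℝ) 1, 0 < N t := by
    intro t ht
    rw [Set.uIcc_of_le (by norm_num)] at ht
    have := hrpos t
    rw [hN]; simp only
    linarith [ht.2]
  have hder : ∀ t ∈ Set.uIcc (0:ℝ) 1, HasDerivAt (fun t => - (2 * Real.log (N t))) (g t) t := by
    intro t ht
    have hNt := hNpos t ht
    have hrt := hrpos t
    rw [Set.uIcc_of_le (by norm_num)] at ht
    have hq' : HasDerivAt (fun t : ℝ => 1 - 2 * a * t + t ^ 2) (- (2 * a * 1) + 2 * t) t := by
      have e1 : HasDerivAt (fun t : ℝ => t ^ 2) (2 * t) t := by simpa using hasDerivAt_pow 2 t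
      exact (((hasDerivAt_id t).const_mul (2 * a)).const_sub 1).add e1
    have hr' : HasDerivAt r ((- (2 * a * 1) + 2 * t) / (2 * r t)) t := hq'.sqrt (A_pos h0 h1 t).ne'
    have hN' : HasDerivAt N ((-1 + (- (2 * a * 1) + 2 * t) / (2 * r t)) / 2) t :=
      ((((hasDerivAt_id t).const_sub 1).add hr').div_const 2)
    refine ((hN'.log hNt.ne').const_mul 2).neg.congr_deriv ?_
    rw [hg, hN]
    simp only
    rw [abs_of_nonneg ht.1]
    have hNt' : 0 < 1 - t + r t := by
      rw [hN] at hNt; simp only at hNt; linarith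
    have h3 : 0 < 1 + t + r t := by linarith [ht.1]
    have key := hr2 t
    field_simp
    linear_combination key
  have hftc := intervalIntegral.integral_eq_sub_of_hasDerivAt hder (hgcont.intervalIntegrable 0 1)
  rw [hftc]
  have hN1 : N 1 = Real.sqrt ((1 - a) / 2) := by
    rw [hN, hr]; simp only
    have : 1 - 2 * a * 1 + 1 ^ 2 = (2:ℝ) ^ 2 * ((1 - a) / 2) := by ring
    rw [this, Real.sqrt_mul (by norm_num), Real.sqrt_sq (by norm_num)]
    ring
  have hN0 : N 0 = 1 := by
    rw [hN, hr]; simp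
  simp only [hN1, hN0, Real.log_one, mul_zero, neg_zero, sub_zero]
  rw [Real.log_sqrt (by linarith)]
  ring

end B5M
end Pool.Agent.Helper974.Star
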