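import Mathlib
import Pool.Agent.Helper974.Star.Defs
set_option autoImplicit false
open Filter Topology Metric Set MeasureTheory
namespace Pool.Agent.Helper974.Star
namespace B6M

theorem B6_pair {V x L h l : ℝ × ℝ → ℝ} {Ω : Set (ℝ × ℝ)} {p : ℝ × ℝ} (hΩ : Ω ∈ 𝓝 p)
    {V' x' : ℝ × ℝ →L[ℝ] ℝ} (hV : HasFDerivAt V V' p) (hx : HasFDerivAt x x' p)
    (hL : ContinuousAt L p) (hh : ContinuousAt h p) (hpos : 0 < h p)
    (hpair : ∀ p₁ ∈ Ω, ∀ p₂ ∈ Ω, V p₂ ≤ V p₁ - L p₁ * (x p₂ - x p₁) + h p₁ * (l p₂ - l p₁)) :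
    HasFDerivAt l ((1 / h p) • (V' + L p • x')) p := by
  have hpΩ : p ∈ Ω := mem_of_mem_nhds hΩ
  -- basic little-o facts
  have hVo := hasFDerivAt_iff_isLittleO.mp hV
  have hxo := hasFDerivAt_iff_isLittleO.mp hx
  have hVO : (fun y => V y - V p) =O[𝓝 p] (fun y => y - p) := hV.isBigO_sub
  have hxO : (fun y => x y - x p) =O[𝓝 p] (fun y => y - p) := hx.isBigO_sub
  have hLo : (fun y => L y - L p) =o[𝓝 p] (fun _ => (1 : ℝ)) := by
    rw [Asymptotics.isLittleO_one_iff]
    have := hL.sub_const (L p)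
    simpa [ContinuousAt] using this
  have hho : (fun y => 1 / h y - 1 / h p) =o[𝓝 p] (fun _ => (1 : ℝ)) := by
    rw [Asymptotics.isLittleO_one_iff]
    have h1 : ContinuousAt (fun y => 1 / h y) p := by
      simp only [one_div]
      exact hh.inv₀ hpos.ne'
    have := h1.sub_const (1 / h p)
    simpa [ContinuousAt] using this
  have hhO : (fun y => 1 / h y) =O[𝓝 p] (fun _ => (1 : ℝ)) := by
    have h1 : ContinuousAt (fun y => 1 / h y) p := by
      simp only [one_div]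
      exact hh.inv₀ hpos.ne'
    exact h1.tendsto.isBigO_one ℝ
  -- the two errors
  have ha : (fun y => (V y - V p + L p * (x y - x p)) - (V' + L p • x') (y - p)) =o[𝓝 p]
      (fun y => y - p) := by
    have h1 := hVo.add (hxo.const_mul_left (L p))
    refine h1.congr_left fun y => ?_
    simp only [ContinuousLinearMap.add_apply, ContinuousLinearMap.smul_apply, smul_eq_mul]
    ring
  have haO : (fun y => V y - V p + L p * (x y - x p)) =O[𝓝 p] (fun y => y - p) :=
    hVO.add (hxO.const_mul_left (L p))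
  have he1 : (fun y => (1 / h p) * (V y - V p + L p * (x y - x p)) -
      ((1 / h p) • (V' + L p • x')) (y - p)) =o[𝓝 p] (fun y => y - p) := by
    refine (ha.const_mul_left (1 / h p)).congr_left fun y => ?_
    simp only [ContinuousLinearMap.smul_apply, smul_eq_mul]
    ring
  have hca : (fun y => (1 / h y) * ((L y - L p) * (x y - x p))) =o[𝓝 p] (fun y => y - p) := by
    have h1 : (fun y => (L y - L p) * (x y - x p)) =o[𝓝 p] (fun y => (1 : ℝ) * ‖y - p‖) :=
      hLo.mul_isBigO hxO.norm_right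
    have h2 := hhO.mul_isLittleO h1
    have h3 : (fun y => (1 / h y) * ((L y - L p) * (x y - x p))) =o[𝓝 p] (fun y => ‖y - p‖) := by
      refine h2.congr_right fun y => ?_
      ring
    exact h3.of_norm_right
  have hda : (fun y => (1 / h y - 1 / h p) * (V y - V p + L p * (x y - x p))) =o[𝓝 p]
      (fun y => y - p) := by
    have h1 : (fun y => (1 / h y - 1 / h p) * (V y - V p + L p * (x y - x p))) =o[𝓝 p]
        (fun y => (1 : ℝ) * ‖y - p‖) := hho.mul_isBigO haO.norm_right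
    have h3 : (fun y => (1 / h y - 1 / h p) * (V y - V p + L p * (x y - x p))) =o[𝓝 p]
        (fun y => ‖y - p‖) := by
      refine h1.congr_right fun y => ?_
      ring
    exact h3.of_norm_right
  have he2 : (fun y => (1 / h y) * (V y - V p + L y * (x y - x p)) -
      ((1 / h p) • (V' + L p • x')) (y - p)) =o[𝓝 p] (fun y => y - p) := by
    refine ((hca.add hda).add he1).congr_left fun y => ?_
    ring
  rw [hasFDerivAt_iff_isLittleO]
  have hO : (fun y => l y - l p - ((1 / h p) • (V' + L p • x')) (y - p)) =O[𝓝 p]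
      (fun y => ‖(1 / h p) * (V y - V p + L p * (x y - x p)) -
        ((1 / h p) • (V' + L p • x')) (y - p)‖ + ‖(1 / h y) * (V y - V p + L y * (x y - x p)) -
        ((1 / h p) • (V' + L p • x')) (y - p)‖) := by
    apply Asymptotics.IsBigO.of_bound 1
    have hhpos : ∀ᶠ y in 𝓝 p, 0 < h y := hh.eventually (lt_mem_nhds hpos)
    filter_upwards [hΩ, hhpos] with y hy hhy
    have h1 := hpair p hpΩ y hy
    have h2 := hpair y hy p hpΩ
    have h3 : (1 / h p) * (V y - V p + L p * (x y - x p)) ≤ l y - l p := by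
      rw [one_div, inv_mul_le_iff₀ hpos]; linarith
    have h4 : l y - l p ≤ (1 / h y) * (V y - V p + L y * (x y - x p)) := by
      rw [one_div, le_inv_mul_iff₀ hhy]; linarith
    generalize (1 / h p) * (V y - V p + L p * (x y - x p)) = e₁ at h3 ⊢
    generalize (1 / h y) * (V y - V p + L y * (x y - x p)) = e₂ at h4 ⊢
    generalize ((1 / h p) • (V' + L p • x')) (y - p) = m
    rw [one_mul, Real.norm_eq_abs, Real.norm_eq_abs, Real.norm_eq_abs, Real.norm_eq_abs,
      abs_of_nonneg (by positivity : 0 ≤ |e₁ - m| + |e₂ - m|), abs_le]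
    constructor
    · have := neg_abs_le (e₁ - m)
      have := abs_nonneg (e₂ - m)
      linarith
    · have := le_abs_self (e₂ - m)
      have := abs_nonneg (e₁ - m)
      linarith
  exact hO.trans_isLittleO (he1.norm_left.add he2.norm_left)

theorem B8_level {l : ℝ × ℝ → ℝ} {la lb : ℝ → ℝ → ℝ}
    (hl : ∀ a b : ℝ, -1 < b → b < a → a < 1 → HasFDerivAt l
      (la a b • ContinuousLinearMap.fst ℝ ℝ ℝ + lb a b • ContinuousLinearMap.snd ℝ ℝ ℝ) (a, b))
    (hla : ∀ a b : ℝ, -1 < b → b < a → a < 1 → 0 < la a b) (lam : ℝ) :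
    ∃ A : ℝ → ℝ, IsOpen {b : ℝ | -1 < b ∧ ∃ a : ℝ, b < a ∧ a < 1 ∧ l (a, b) = lam} ∧
      ∀ b : ℝ, -1 < b → (∃ a : ℝ, b < a ∧ a < 1 ∧ l (a, b) = lam) →
        (b < A b ∧ A b < 1 ∧ l (A b, b) = lam ∧ HasDerivAt A (-(lb (A b) b / la (A b) b)) b ∧
          ∀ a : ℝ, b < a → a < 1 → l (a, b) = lam → a = A b) := by
  classical
  have hderiv : ∀ a b : ℝ, -1 < b → b < a → a < 1 → HasDerivAt (fun a => l (a, b)) (la a b) a := by
    intro a b h1 h2 h3
    have h4 := (hl a b h1 h2 h3).comp_hasDerivAt a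
      ((hasDerivAt_id a).prodMk (hasDerivAt_const a b))
    have h5 : (la a b • ContinuousLinearMap.fst ℝ ℝ ℝ + lb a b • ContinuousLinearMap.snd ℝ ℝ ℝ)
        ((1, 0) : ℝ × ℝ) = la a b := by simp
    rw [h5] at h4
    exact h4
  have hmono : ∀ b : ℝ, -1 < b → StrictMonoOn (fun a => l (a, b)) (Set.Ioo b 1) := by
    intro b hb
    apply strictMonoOn_of_deriv_pos (convex_Ioo b 1)
    · intro a ha
      exact (hderiv a b hb ha.1 ha.2).continuousAt.continuousWithinAt
    · intro a ha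
      rw [interior_Ioo] at ha
      rw [(hderiv a b hb ha.1 ha.2).deriv]
      exact hla a b hb ha.1 ha.2
  have huniq : ∀ b : ℝ, -1 < b → ∀ a a' : ℝ, b < a → a < 1 → l (a, b) = lam →
      b < a' → a' < 1 → l (a', b) = lam → a = a' := by
    intro b hb a a' h1 h2 h3 h4 h5 h6
    exact (hmono b hb).injOn ⟨h1, h2⟩ ⟨h4, h5⟩ (h3.trans h6.symm)
  -- local existence
  have hloc : ∀ b₀ a₀ : ℝ, -1 < b₀ → b₀ < a₀ → a₀ < 1 → l (a₀, b₀) = lam → ∀ ε : ℝ, 0 < ε →
      ∀ᶠ b in 𝓝 b₀, -1 < b ∧ ∃ a, b < a ∧ a < 1 ∧ l (a, b) = lam ∧ |a - a₀| < ε := by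
    intro b₀ a₀ hb0 hba ha1 hlam ε hε
    obtain ⟨δ, hδ, hδε, hδb, hδ1⟩ : ∃ δ : ℝ, 0 < δ ∧ δ < ε ∧ b₀ < a₀ - δ ∧ a₀ + δ < 1 := by
      refine ⟨min (ε / 2) (min ((a₀ - b₀) / 2) ((1 - a₀) / 2)), ?_, ?_, ?_, ?_⟩
      · apply lt_min (by linarith)
        apply lt_min <;> linarith
      · exact lt_of_le_of_lt (min_le_left _ _) (by linarith)
      · have := (min_le_right (ε / 2) (min ((a₀ - b₀) / 2) ((1 - a₀) / 2))).trans (min_le_left _ _)
        linarith
      · have := (min_le_right (ε / 2) (min ((a₀ - b₀) / 2) ((1 - a₀) / 2))).trans (min_le_right _ _)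
        linarith
    have h1 : l (a₀ - δ, b₀) < lam := by
      rw [← hlam]
      exact hmono b₀ hb0 ⟨hδb, by linarith⟩ ⟨hba, ha1⟩ (by linarith)
    have h2 : lam < l (a₀ + δ, b₀) := by
      rw [← hlam]
      exact hmono b₀ hb0 ⟨hba, ha1⟩ ⟨by linarith, hδ1⟩ (by linarith)
    have c1 : ContinuousAt (fun b => l (a₀ - δ, b)) b₀ := by
      have h3 := (hl (a₀ - δ) b₀ hb0 hδb (by linarith)).continuousAt
      exact ContinuousAt.comp' (f := fun b : ℝ => ((a₀ - δ, b) : ℝ × ℝ)) (g := l) h3 (by fun_prop)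
    have c2 : ContinuousAt (fun b => l (a₀ + δ, b)) b₀ := by
      have h3 := (hl (a₀ + δ) b₀ hb0 (by linarith) hδ1).continuousAt
      exact ContinuousAt.comp' (f := fun b : ℝ => ((a₀ + δ, b) : ℝ × ℝ)) (g := l) h3 (by fun_prop)
    filter_upwards [c1.eventually (gt_mem_nhds h1), c2.eventually (lt_mem_nhds h2),
      lt_mem_nhds hb0, gt_mem_nhds hδb] with b e1 e2 e3 e4
    refine ⟨e3, ?_⟩
    have hcont : ContinuousOn (fun a => l (a, b)) (Set.Icc (a₀ - δ) (a₀ + δ)) := by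
      intro a ha
      exact (hderiv a b e3 (by linarith [ha.1]) (by linarith [ha.2])).continuousAt.continuousWithinAt
    obtain ⟨a, ha, ha'⟩ := intermediate_value_Ioo (by linarith) hcont ⟨e1, e2⟩
    refine ⟨a, by linarith [ha.1], by linarith [ha.2], ha', ?_⟩
    rw [abs_lt]
    constructor <;> linarith [ha.1, ha.2]
  let A : ℝ → ℝ := fun b => if h : ∃ a : ℝ, b < a ∧ a < 1 ∧ l (a, b) = lam then Classical.choose h else 0
  have hA : ∀ b, (∃ a : ℝ, b < a ∧ a < 1 ∧ l (a, b) = lam) →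
      b < A b ∧ A b < 1 ∧ l (A b, b) = lam := by
    intro b h
    simp only [A, dif_pos h]
    exact Classical.choose_spec h
  refine ⟨A, ?_, ?_⟩
  · rw [isOpen_iff_mem_nhds]
    rintro b₀ ⟨hb0, a₀, h1, h2, h3⟩
    filter_upwards [hloc b₀ a₀ hb0 h1 h2 h3 1 one_pos] with b hb
    obtain ⟨e1, a, e2, e3, e4, _⟩ := hb
    exact ⟨e1, a, e2, e3, e4⟩
  · intro b₀ hb0 hex
    obtain ⟨h1, h2, h3⟩ := hA b₀ hex
    refine ⟨h1, h2, h3, ?_, ?_⟩
    swap
    · intro a ha1 ha2 ha3
      exact huniq b₀ hb0 a (A b₀) ha1 ha2 ha3 h1 h2 h3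
    -- continuity
    have hcontA : Tendsto A (𝓝 b₀) (𝓝 (A b₀)) := by
      rw [Metric.tendsto_nhds]
      intro ε hε
      filter_upwards [hloc b₀ (A b₀) hb0 h1 h2 h3 ε hε] with b hb
      obtain ⟨e1, a, e2, e3, e4, e5⟩ := hb
      obtain ⟨f1, f2, f3⟩ := hA b ⟨a, e2, e3, e4⟩
      have : A b = a := huniq b e1 (A b) a f1 f2 f3 e2 e3 e4
      rw [this, Real.dist_eq]; exact e5
    have hmem : ∀ᶠ b in 𝓝 b₀, l (A b, b) = lam := by
      filter_upwards [hloc b₀ (A b₀) hb0 h1 h2 h3 1 one_pos] with b hb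
      obtain ⟨e1, a, e2, e3, e4, e5⟩ := hb
      exact (hA b ⟨a, e2, e3, e4⟩).2.2
    have hlo := hasFDerivAt_iff_isLittleO.mp (hl (A b₀) b₀ hb0 h1 h2)
    have htend : Tendsto (fun b => ((A b, b) : ℝ × ℝ)) (𝓝 b₀) (𝓝 (A b₀, b₀)) :=
      hcontA.prodMk_nhds tendsto_id
    have hlo2 := hlo.comp_tendsto htend
    have hap := hla (A b₀) b₀ hb0 h1 h2
    set α := la (A b₀) b₀ with hα
    set β := lb (A b₀) b₀ with hβ
    rw [hasDerivAt_iff_isLittleO, Asymptotics.isLittleO_iff]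
    intro c hc
    rw [Asymptotics.isLittleO_iff] at hlo2
    set κ := |β| / α with hκ
    have hκ0 : 0 ≤ κ := by positivity
    obtain ⟨ε, hε, hε1, hε2⟩ : ∃ ε : ℝ, 0 < ε ∧ ε ≤ α / 2 ∧ ε * (κ + 1) ≤ c * (α / 2) := by
      refine ⟨min (α / 2) (c * (α / 2) / (κ + 1)), ?_, min_le_left _ _, ?_⟩
      · apply lt_min (by linarith)
        positivity
      · have h5 : (0 : ℝ) < κ + 1 := by linarith
        have := mul_le_mul_of_nonneg_right (min_le_right (α / 2) (c * (α / 2) / (κ + 1))) h5.le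
        rwa [div_mul_cancel₀ _ h5.ne'] at this
    filter_upwards [hlo2 hε, hmem] with b hb hmb
    simp only [Function.comp, ContinuousLinearMap.add_apply, ContinuousLinearMap.smul_apply,
      ContinuousLinearMap.coe_fst', ContinuousLinearMap.coe_snd', smul_eq_mul, Prod.mk_sub_mk,
      hmb, h3, sub_self, zero_sub, norm_neg] at hb
    rw [Prod.norm_mk, Real.norm_eq_abs, Real.norm_eq_abs, Real.norm_eq_abs] at hb
    rw [Real.norm_eq_abs, Real.norm_eq_abs, smul_eq_mul]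
    have hβα : β = (β / α) * α := by field_simp
    have e1 : α * (A b - A b₀) + β * (b - b₀) = α * (A b - A b₀ - (b - b₀) * (-(β / α))) := by
      field_simp
      ring
    rw [e1, abs_mul, abs_of_pos hap] at hb
    set r := A b - A b₀ - (b - b₀) * (-(β / α)) with hr
    have e2 : |A b - A b₀| ≤ |r| + κ * |b - b₀| := by
      have : A b - A b₀ = r + (b - b₀) * (-(β / α)) := by rw [hr]; ring
      rw [this]
      refine (abs_add_le _ _).trans ?_
      rw [abs_mul, abs_neg, abs_div, abs_of_pos hap, hκ]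
      linarith
    have e3 : max |A b - A b₀| |b - b₀| ≤ |r| + (κ + 1) * |b - b₀| := by
      apply max_le
      · have := abs_nonneg (b - b₀); linarith
      · have := abs_nonneg (b - b₀); have := abs_nonneg r
        nlinarith
    have e4 : α * |r| ≤ ε * (|r| + (κ + 1) * |b - b₀|) :=
      hb.trans (mul_le_mul_of_nonneg_left e3 hε.le)
    have e5 : ε * |r| ≤ α / 2 * |r| := mul_le_mul_of_nonneg_right hε1 (abs_nonneg r)
    have e6 : ε * (κ + 1) * |b - b₀| ≤ c * (α / 2) * |b - b₀| :=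
      mul_le_mul_of_nonneg_right hε2 (abs_nonneg _)
    have e7 : α / 2 * |r| ≤ α / 2 * (c * |b - b₀|) := by nlinarith
    exact le_of_mul_le_mul_left e7 (by linarith)

end B6M
end Pool.Agent.Helper974.Star
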