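import Pool.Agent.Helper974.Star.A0M
import Pool.Agent.Helper974.Star.A0gM
import Pool.Agent.Helper974.Star.A1M
import Pool.Agent.Helper974.Star.A2M
import Pool.Agent.Helper974.Star.A3M
import Pool.Agent.Helper974.Star.A4M
import Pool.Agent.Helper974.Star.A5M
import Pool.Agent.Helper974.Star.A6M
import Pool.Agent.Helper974.Star.A7M
import Pool.Agent.Helper974.Star.A8M
import Pool.Agent.Helper974.Star.A9M
import Pool.Agent.Helper974.Star.A10M
import Pool.Agent.Helper974.Star.A11M
import Pool.Agent.Helper974.Star.A12M
import Pool.Agent.Helper974.Star.B1M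
import Pool.Agent.Helper974.Star.B2M
import Pool.Agent.Helper974.Star.B3M
import Pool.Agent.Helper974.Star.B5M
import Pool.Agent.Helper974.Star.B6M
import Pool.Agent.Helper974.Star.B10M
import Pool.Agent.Helper974.Star.B10pM
import Pool.Agent.Helper974.Star.B12M
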