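import Mathlib
import Pool.Agent.Helper974.Star.All
set_option autoImplicit false
open Complex Filter Topology Metric Set MeasureTheory
namespace Pool.Agent.Helper974.Star

lemma facts {a b : ℝ} (hb : -1 < b) (hba : b < a) (ha : a < 1) :
    0 < qq a b ∧ b < TT a b ∧ TT a b < a ∧ b < cc a b ∧ cc a b < a ∧
    qq a b * (4 * cc a b + (a + b)) = (1 - b ^ 2) * (a - TT a b) - (1 - a ^ 2) * (TT a b - b) :=
  B2M.B2_c hb hba ha

lemma EI_one_pos {a b : ℝ} (hb : -1 < b) (hba : b < a) (ha : a < 1) : 0 < EI (fun _ => 1) a b := by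
  unfold EI
  apply intervalIntegral.intervalIntegral_pos_of_pos_on
  · apply Continuous.intervalIntegrable
    have h1 : Continuous fun ψ => Real.sqrt (1 - U a b ψ ^ 2) := B2M.B2_contS a b
    exact continuous_const.div h1 (fun ψ => (B2M.B2_S_pos hb hba ha ψ).ne')
  · intro ψ _
    exact div_pos one_pos (B2M.B2_S_pos hb hba ha ψ)
  · exact Real.pi_pos

lemma int_U_TT {a b : ℝ} (hb : -1 < b) (hba : b < a) (ha : a < 1) :
    ∫ ψ in (0 : ℝ)..Real.pi, (U a b ψ - TT a b) / Real.sqrt (1 - U a b ψ ^ 2) = 0 := by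
  have h0 := EI_one_pos hb hba ha
  have e : TT a b * EI (fun _ => 1) a b = EI (fun u => u) a b := by
    unfold TT mean; field_simp
  have hS : Continuous fun ψ => Real.sqrt (1 - U a b ψ ^ 2) := B2M.B2_contS a b
  have hU : Continuous (U a b) := B2M.B2_contU a b
  have i1 : IntervalIntegrable (fun ψ => U a b ψ / Real.sqrt (1 - U a b ψ ^ 2)) volume 0 Real.pi :=
    (hU.div hS (fun ψ => (B2M.B2_S_pos hb hba ha ψ).ne')).intervalIntegrable _ _
  have i2 : IntervalIntegrable (fun ψ => TT a b * (1 / Real.sqrt (1 - U a b ψ ^ 2))) volume 0 Real.pi :=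
    (continuous_const.mul (continuous_const.div hS (fun ψ => (B2M.B2_S_pos hb hba ha ψ).ne'))).intervalIntegrable _ _
  have e2 : (fun ψ => (U a b ψ - TT a b) / Real.sqrt (1 - U a b ψ ^ 2)) =
      fun ψ => U a b ψ / Real.sqrt (1 - U a b ψ ^ 2) - TT a b * (1 / Real.sqrt (1 - U a b ψ ^ 2)) := by
    ext ψ; ring
  rw [e2, intervalIntegral.integral_sub i1 i2, intervalIntegral.integral_const_mul]
  unfold EI at e
  linarith

lemma int_U_cc {a b : ℝ} (hb : -1 < b) (hba : b < a) (ha : a < 1) :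
    ∫ ψ in (0 : ℝ)..Real.pi, (U a b ψ - cc a b) * ((a - U a b ψ) * (U a b ψ - b)) /
      Real.sqrt (1 - U a b ψ ^ 2) = 0 := by
  have h0 := EI_one_pos hb hba ha
  have hq := (facts hb hba ha).1
  have e : cc a b * EI (fun u => (a - u) * (u - b)) a b = EI (fun u => u * ((a - u) * (u - b))) a b := by
    have h1 : qq a b ≠ 0 := hq.ne'
    have h2 : EI (fun u => (a - u) * (u - b)) a b = qq a b * EI (fun _ => 1) a b := by
      unfold qq mean; field_simp
    rw [h2]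
    unfold cc mean; field_simp
  have hS : Continuous fun ψ => Real.sqrt (1 - U a b ψ ^ 2) := B2M.B2_contS a b
  have hU : Continuous (U a b) := B2M.B2_contU a b
  have i1 : IntervalIntegrable (fun ψ => U a b ψ * ((a - U a b ψ) * (U a b ψ - b)) /
      Real.sqrt (1 - U a b ψ ^ 2)) volume 0 Real.pi :=
    ((hU.mul ((continuous_const.sub hU).mul (hU.sub continuous_const))).div hS
      (fun ψ => (B2M.B2_S_pos hb hba ha ψ).ne')).intervalIntegrable _ _
  have i2 : IntervalIntegrable (fun ψ => cc a b * ((a - U a b ψ) * (U a b ψ - b) /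
      Real.sqrt (1 - U a b ψ ^ 2))) volume 0 Real.pi :=
    (continuous_const.mul (((continuous_const.sub hU).mul (hU.sub continuous_const)).div hS
      (fun ψ => (B2M.B2_S_pos hb hba ha ψ).ne'))).intervalIntegrable _ _
  have e2 : (fun ψ => (U a b ψ - cc a b) * ((a - U a b ψ) * (U a b ψ - b)) / Real.sqrt (1 - U a b ψ ^ 2)) =
      fun ψ => U a b ψ * ((a - U a b ψ) * (U a b ψ - b)) / Real.sqrt (1 - U a b ψ ^ 2) -
        cc a b * ((a - U a b ψ) * (U a b ψ - b) / Real.sqrt (1 - U a b ψ ^ 2)) := by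
    ext ψ; ring
  rw [e2, intervalIntegral.integral_sub i1 i2, intervalIntegral.integral_const_mul]
  unfold EI at e
  linarith

lemma hc_pos {a b : ℝ} (hb : -1 < b) (hba : b < a) (ha : a < 1) : 0 < hc a b := by
  obtain ⟨-, -, -, h1, h2, -⟩ := facts hb hba ha
  unfold hc
  rcases le_or_gt 0 (a + b) with h | h
  · nlinarith [mul_nonneg h (sub_nonneg.mpr h1.le), sq_nonneg (a + b)]
  · nlinarith [mul_nonneg (neg_nonneg.mpr h.le) (sub_nonneg.mpr h2.le), sq_nonneg (a + b)]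

/-- everything about the two slit map and the certificate -/
lemma slit_all {a b : ℝ} (hb : -1 < b) (hba : b < a) (ha : a < 1) :
    ∃ g : ℂ → ℂ, DifferentiableOn ℂ g (ball 0 1) ∧ g 0 = 0 ∧
      (∀ z ∈ ball (0 : ℂ) 1, 0 < (1 + z * deriv g z).re) ∧ (∀ z ∈ ball (0 : ℂ) 1, (g z).re ≤ ll a b) ∧
      deriv g 0 = ((2 * xx a b : ℝ) : ℂ) ∧ deriv (deriv g) 0 / 2 = ((Vc a b : ℝ) : ℂ) ∧
      ∀ (M : ℝ) (G : ℂ → ℂ), 0 < M → LogClass M G →
        (deriv (deriv G) 0 / 2).re ≤ Vc a b - Lc a b * ((deriv G 0).re / 2 - xx a b) +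
          hc a b * (Real.log M - ll a b) := by
  obtain ⟨hq, hT1, hT2, hc1, hc2, -⟩ := facts hb hba ha
  obtain ⟨sa, hsa⟩ := A0M.A0_branch (a := a) (by linarith) ha
  obtain ⟨sb, hsb⟩ := A0M.A0_branch (a := b) hb (by linarith)
  obtain ⟨g, hg, hsym, hg1, hg2⟩ := A0gM.A0_g (T := TT a b) hb hba ha hsa hsb
  have hT : |TT a b| ≤ 1 := by rw [abs_le]; constructor <;> linarith
  have hint := A3M.A3_int hb hba ha
  have hbound : ∀ {r θ : ℝ}, 0 ≤ r → r ≤ 1 → Real.cos θ ≠ a → Real.cos θ ≠ b →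
      ‖pc (TT a b) sa sb (r * Complex.exp (I * θ))‖ ≤ 8 / Real.sqrt (|Real.cos θ - a| * |Real.cos θ - b|) :=
    fun h0 h3 h4 h5 => A2M.A2_bound hb hba ha hT hsa hsb h0 h3 h4 h5
  have hKI := A5M.A5_KI_int hb hba ha hT hint
  have hKI0 : ∫ θ in (0 : ℝ)..Real.pi, KI a b (TT a b) θ = 0 := by
    rw [A4M.A4_integral_KI (TT a b) hb hba ha]; exact int_U_TT hb hba ha
  have hKJ0 : ∫ θ in (0 : ℝ)..Real.pi, KJ a b (cc a b) θ = 0 := by
    rw [A4M.A4_integral_KJ (cc a b) hb hba ha, int_U_cc hb hba ha, mul_zero]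
  obtain ⟨h51, h52⟩ := A5M.A5_KI hb hba ha hT1.le hT2.le hKI hKI0
  obtain ⟨h61, h62⟩ := A6M.A6_KJ hb hba ha hc1.le hc2.le hKJ0
  obtain ⟨h71, h72, h73⟩ := A7M.A7_lim hb hba ha hT hsa hsb hbound hint
  obtain ⟨h10, h10a, h10b⟩ := A10M.A10_bdd hg hsym h71 (fun r h0 h1 θ => A8M.A8_circle hg h0 h1 θ)
    (A9M.A9_lim hb hba ha hsa hsb hg) h72 hKI h51
  refine ⟨g, hg.diff, hg.zero, ?_, h10, ?_, ?_, ?_⟩
  · intro z hz
    rw [hg.der z hz]
    exact A1M.A1_re_pos hb hba ha hT1.le hT2.le hsa hsb hz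
  · rw [hg1]; unfold xx; congr 1; ring
  · rw [hg2]; rfl
  · intro M G hM hG
    obtain ⟨G', hG', hs', e1, e2⟩ := A12M.A12_sym hG
    have := A11M.A11_cert (l := lv a b (TT a b)) hb hba ha hc1.le hc2.le hM hsa hsb hg hsym hg1 hg2
      (fun hθ => A6M.A6_bd hb hba ha hc1.le hc2.le hsa hsb hθ) h61 h62 h52 h73 h10a h10b hG' hs'
    rw [e1, e2] at this
    unfold Vc Lc xx hc ll
    exact this

theorem cert_all {a b : ℝ} (hb : -1 < b) (hba : b < a) (ha : a < 1) {M : ℝ} {G : ℂ → ℂ} (hM : 0 < M)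
    (hG : LogClass M G) :
    (deriv (deriv G) 0 / 2).re ≤ Vc a b - Lc a b * ((deriv G 0).re / 2 - xx a b) +
          hc a b * (Real.log M - ll a b) := by
  obtain ⟨g, -, -, -, -, -, -, h⟩ := slit_all hb hba ha
  exact h M G hM hG

theorem pair_ineq {a b a' b' : ℝ} (hb : -1 < b) (hba : b < a) (ha : a < 1)
    (hb' : -1 < b') (hba' : b' < a') (ha' : a' < 1) :
    Vc a' b' ≤ Vc a b - Lc a b * (xx a' b' - xx a b) + hc a b * (ll a' b' - ll a b) := by
  obtain ⟨g, hd, h0, hpos, hle, h1, h2, -⟩ := slit_all hb' hba' ha'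
  have hL := (A12M.A14_mem hd h0 hpos hle).1
  have := cert_all hb hba ha (Real.exp_pos _) hL
  rw [h1, h2, Real.log_exp, Complex.ofReal_re, Complex.ofReal_re] at this
  convert this using 3
  ring

/-- The class `S*(M)`: holomorphic injective functions `f` on the open unit disc with `f 0 = 0`,
`f' 0 = 1`, whose image is star-shaped with respect to `0`, and with `|f z| ≤ M` on the disc. -/
def StarClass (M : ℝ) : Set (ℂ → ℂ) :=
  {f | DifferentiableOn ℂ f (ball 0 1) ∧ InjOn f (ball 0 1) ∧ f 0 = 0 ∧ deriv f 0 = 1 ∧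
    StarConvex ℝ (0 : ℂ) (f '' ball 0 1) ∧ ∀ z ∈ ball (0 : ℂ) 1, ‖f z‖ ≤ M}

/-- The third Taylor coefficient at the origin. -/
noncomputable def coeff3 (f : ℂ → ℂ) : ℂ := iteratedDeriv 3 f 0 / 6

theorem slit_mem {a b : ℝ} (hb : -1 < b) (hba : b < a) (ha : a < 1) :
    ∃ f ∈ StarClass (Real.exp (ll a b)), coeff3 f = ((Vc a b + 2 * xx a b ^ 2 : ℝ) : ℂ) := by
  obtain ⟨g, hd, h0, hpos, hle, h1, h2, -⟩ := slit_all hb hba ha
  obtain ⟨-, f, -, hf1, hf2, hf3, hf4, hf5, hf6, hf7⟩ := A12M.A14_mem hd h0 hpos hle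
  refine ⟨f, ⟨hf1, hf2, hf3, hf4, hf5, hf6⟩, ?_⟩
  unfold coeff3
  rw [hf7, h1, h2]
  push_cast
  ring

end Pool.Agent.Helper974.Star
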