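import Mathlib
import Pool.Agent.Helper974.Star.S1
set_option autoImplicit false
open Filter Topology Metric Set MeasureTheory
namespace Pool.Agent.Helper974.Star

/-- inverse hyperbolic tangent -/
noncomputable def AT (u : ℝ) : ℝ := (Real.log (1 + u) - Real.log (1 - u)) / 2

/-- the transition function for the one slit map -/
noncomputable def phi (t : ℝ) : ℝ :=
  (2 - 3 * t) * Real.sqrt (1 - t) - t * (4 - 5 * t) * Real.log ((1 + Real.sqrt (1 - t)) / Real.sqrt t)

noncomputable def psi (u : ℝ) : ℝ := u * (3 * u ^ 2 - 1) - (1 - u ^ 2) * (5 * u ^ 2 - 1) * AT u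

lemma AT_deriv {u : ℝ} (h0 : -1 < u) (h1 : u < 1) : HasDerivAt AT (1 / (1 - u ^ 2)) u := by
  have a1 : HasDerivAt (fun u : ℝ => Real.log (1 + u)) (1 / (1 + u)) u := by
    have := ((hasDerivAt_id u).const_add 1).log (by simp only [id]; linarith)
    simpa using this
  have a2 : HasDerivAt (fun u : ℝ => Real.log (1 - u)) (-1 / (1 - u)) u := by
    have := ((hasDerivAt_id u).const_sub 1).log (by simp only [id]; linarith)
    simpa using this
  refine ((a1.sub a2).div_const 2).congr_deriv ?_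
  have e1 : 1 + u ≠ 0 := by linarith
  have e2 : 1 - u ≠ 0 := by linarith
  have e3 : 1 - u ^ 2 ≠ 0 := by nlinarith
  field_simp
  ring

lemma phi_psi {t : ℝ} (h0 : 0 < t) (h1 : t < 1) : phi t = psi (Real.sqrt (1 - t)) := by
  unfold phi psi AT
  have hu0 : 0 < Real.sqrt (1 - t) := Real.sqrt_pos.mpr (by linarith)
  have hu2 : Real.sqrt (1 - t) ^ 2 = 1 - t := Real.sq_sqrt (by linarith)
  set u := Real.sqrt (1 - t) with hu
  have hu1 : u < 1 := by nlinarith
  have ht : t = (1 - u) * (1 + u) := by nlinarith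
  have hs : 0 < Real.sqrt t := Real.sqrt_pos.mpr h0
  have e : Real.log (Real.sqrt t) = (Real.log (1 - u) + Real.log (1 + u)) / 2 := by
    rw [Real.log_sqrt h0.le, ht, Real.log_mul (by linarith) (by linarith)]
  rw [Real.log_div (by linarith) hs.ne', e, hu2]
  ring

noncomputable def GG2 (u : ℝ) : ℝ := u * (3 * u ^ 2 - 1) / ((1 - u ^ 2) * (5 * u ^ 2 - 1)) - AT u

lemma GG2_deriv {u : ℝ} (h0 : -1 < u) (h1 : u < 1) (h2 : 5 * u ^ 2 - 1 ≠ 0) :
    HasDerivAt GG2 (8 * u ^ 2 * (5 * u ^ 4 - 4 * u ^ 2 + 1) / ((1 - u ^ 2) ^ 2 * (5 * u ^ 2 - 1) ^ 2)) u := by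
  have e3 : 1 - u ^ 2 ≠ 0 := by nlinarith
  have n1 : HasDerivAt (fun u : ℝ => u * (3 * u ^ 2 - 1)) (9 * u ^ 2 - 1) u := by
    have := (hasDerivAt_id u).mul ((((hasDerivAt_pow 2 u)).const_mul 3).sub_const 1)
    refine this.congr_deriv ?_
    simp; ring
  have n2 : HasDerivAt (fun u : ℝ => (1 - u ^ 2) * (5 * u ^ 2 - 1)) (12 * u - 20 * u ^ 3) u := by
    have := ((hasDerivAt_pow 2 u).const_sub 1).mul ((((hasDerivAt_pow 2 u)).const_mul 5).sub_const 1)
    refine this.congr_deriv ?_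
    simp; ring
  have := (n1.div n2 (mul_ne_zero e3 h2)).sub (AT_deriv h0 h1)
  refine this.congr_deriv ?_
  have e4 : ((1 - u ^ 2) * (5 * u ^ 2 - 1)) ^ 2 ≠ 0 := pow_ne_zero 2 (mul_ne_zero e3 h2)
  have e5 : (1 - u ^ 2) ^ 2 * (5 * u ^ 2 - 1) ^ 2 ≠ 0 := mul_ne_zero (pow_ne_zero 2 e3) (pow_ne_zero 2 h2)
  rw [div_sub_div _ _ e4 e3, div_eq_div_iff (mul_ne_zero e4 e3) e5]
  ring

lemma psi_GG2 {u : ℝ} (h0 : -1 < u) (h1 : u < 1) (h2 : 5 * u ^ 2 - 1 ≠ 0) :
    psi u = (1 - u ^ 2) * (5 * u ^ 2 - 1) * GG2 u := by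
  have e3 : 1 - u ^ 2 ≠ 0 := by nlinarith
  have e4 : (1 - u ^ 2) * (5 * u ^ 2 - 1) ≠ 0 := mul_ne_zero e3 h2
  unfold psi GG2
  rw [mul_sub ((1 - u ^ 2) * (5 * u ^ 2 - 1)), mul_div_cancel₀ _ e4]

lemma psi_pos_num : 0 < psi (Real.sqrt (23 / 33)) := by
  set u := Real.sqrt (23 / 33) with hu
  have hu2 : u ^ 2 = 23 / 33 := Real.sq_sqrt (by norm_num)
  have hu0 : 0 < u := Real.sqrt_pos.mpr (by norm_num)
  have hu1 : u < 83486 / 100000 := by nlinarith
  have hu3 : 83484 / 100000 < u := by nlinarith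
  have hA : AT u < 24086 / 20000 := by
    have e1 : AT u = (2 * Real.log (1 + u) - Real.log (10 / 33)) / 2 := by
      unfold AT
      have : Real.log (1 - u) = Real.log (10 / 33) - Real.log (1 + u) := by
        rw [← Real.log_div (by norm_num) (by linarith)]
        congr 1
        rw [eq_div_iff (by linarith)]
        nlinarith
      rw [this]; ring
    have e2 : 2 * (2 * Real.log (1 + u) - Real.log (10 / 33)) =
        7 * Real.log 2 + Real.log (((1 + u) ^ 2 * (33 / 10)) ^ 2 / 128) := by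
      have h128 : Real.log 128 = 7 * Real.log 2 := by
        rw [show (128 : ℝ) = 2 ^ 7 by norm_num, Real.log_pow]; norm_num
      have h33 : Real.log (33 / 10) = -Real.log (10 / 33) := by
        rw [← Real.log_inv]; norm_num
      have h34 : Real.log (((1 + u) ^ 2 * (33 / 10)) ^ 2 / 128) =
          2 * (2 * Real.log (1 + u) + Real.log (33 / 10)) - Real.log 128 := by
        rw [Real.log_div (by positivity) (by norm_num), Real.log_pow, Real.log_mul (by positivity) (by norm_num),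
          Real.log_pow]
        push_cast
        ring
      rw [h34, h128, h33]
      ring
    have e3 : Real.log (((1 + u) ^ 2 * (33 / 10)) ^ 2 / 128) ≤ ((1 + u) ^ 2 * (33 / 10)) ^ 2 / 128 - 1 :=
      Real.log_le_sub_one_of_pos (by positivity)
    have e4 : ((1 + u) ^ 2 * (33 / 10)) ^ 2 ≤ (1111066 / 100000) ^ 2 := by
      apply pow_le_pow_left₀ (by positivity)
      nlinarith
    have e5 := Real.log_two_lt_d9
    rw [e1]
    norm_num at e4 e5 ⊢
    linarith
  unfold psi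
  rw [hu2]
  norm_num
  nlinarith

theorem phi_root : ∃ t1 : ℝ, 10 / 33 < t1 ∧ t1 < 1 ∧ phi t1 = 0 ∧ (∀ t ∈ Ioo (0 : ℝ) t1, 0 < phi t) ∧
    (∀ t ∈ Ioo t1 1, phi t < 0) := by
  set v := Real.sqrt (1 / 5) with hv
  have hv2 : v ^ 2 = 1 / 5 := Real.sq_sqrt (by norm_num)
  have hv0 : 0 < v := Real.sqrt_pos.mpr (by norm_num)
  have hv1 : v < 1 := by nlinarith
  have hcont : ContinuousOn psi (Ioo (-1 : ℝ) 1) := by
    intro u hu
    apply ContinuousAt.continuousWithinAt
    unfold psi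
    have := (AT_deriv hu.1 hu.2).continuousAt
    fun_prop
  have hpos : ∀ u : ℝ, 0 < 5 * u ^ 4 - 4 * u ^ 2 + 1 := by
    intro u; nlinarith [sq_nonneg (u ^ 2 - 2 / 5), sq_nonneg (u ^ 2)]
  -- first interval
  have m1 : StrictMonoOn GG2 (Ico 0 v) := by
    apply strictMonoOn_of_deriv_pos (convex_Ico _ _)
    · intro u hu
      have : 5 * u ^ 2 - 1 ≠ 0 := by nlinarith [hu.1, hu.2]
      exact (GG2_deriv (by linarith [hu.1]) (by linarith [hu.2]) this).continuousAt.continuousWithinAt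
    · intro u hu
      rw [interior_Ico] at hu
      have h5 : 5 * u ^ 2 - 1 ≠ 0 := by nlinarith [hu.1, hu.2]
      rw [(GG2_deriv (by linarith [hu.1]) (by linarith [hu.2]) h5).deriv]
      have h6 : 1 - u ^ 2 ≠ 0 := by nlinarith [hu.1, hu.2]
      have := hpos u
      have := hu.1
      positivity
  have m2 : StrictMonoOn GG2 (Ioo v 1) := by
    apply strictMonoOn_of_deriv_pos (convex_Ioo _ _)
    · intro u hu
      have : 5 * u ^ 2 - 1 ≠ 0 := by nlinarith [hu.1, hu.2]
      exact (GG2_deriv (by linarith [hu.1]) (by linarith [hu.2]) this).continuousAt.continuousWithinAt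
    · intro u hu
      rw [interior_Ioo] at hu
      have h5 : 5 * u ^ 2 - 1 ≠ 0 := by nlinarith [hu.1, hu.2]
      rw [(GG2_deriv (by linarith [hu.1]) (by linarith [hu.2]) h5).deriv]
      have h6 : 1 - u ^ 2 ≠ 0 := by nlinarith [hu.1, hu.2]
      have := hpos u
      have : 0 < u := by linarith [hu.1]
      positivity
  have hneg1 : ∀ u, 0 < u → u < v → psi u < 0 := by
    intro u h0 h1
    have h5 : 5 * u ^ 2 - 1 < 0 := by nlinarith
    have hg : 0 < GG2 u := by
      have := m1 (a := 0) (b := u) ⟨le_rfl, hv0⟩ ⟨h0.le, h1⟩ h0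
      have h00 : GG2 0 = 0 := by unfold GG2 AT; simp
      rwa [h00] at this
    rw [psi_GG2 (by linarith) (by linarith) h5.ne]
    have h6 : 0 < 1 - u ^ 2 := by nlinarith
    have := mul_pos h6 hg
    nlinarith
  have hnegv : psi v < 0 := by
    unfold psi; rw [hv2]; norm_num; nlinarith
  set w := Real.sqrt (23 / 33) with hw
  have hw2 : w ^ 2 = 23 / 33 := Real.sq_sqrt (by norm_num)
  have hw0 : 0 < w := Real.sqrt_pos.mpr (by norm_num)
  have hvw : v < w := by nlinarith
  have hw1 : w < 1 := by nlinarith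
  have hIVT : (0 : ℝ) ∈ psi '' (Icc v w) := by
    apply intermediate_value_Icc hvw.le (hcont.mono _) ⟨hnegv.le, psi_pos_num.le⟩
    intro x hx
    exact ⟨by linarith [hx.1], by linarith [hx.2]⟩
  obtain ⟨u1, hu1, hu10⟩ := hIVT
  have hu1v : v < u1 := by
    rcases hu1.1.lt_or_eq with h | h
    · exact h
    · rw [← h] at hu10; linarith
  have hu1w : u1 < w := by
    rcases hu1.2.lt_or_eq with h | h
    · exact h
    · have := psi_pos_num; rw [← hw, ← h] at this; linarith
  have hz : GG2 u1 = 0 := by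
    have h5 : 0 < 5 * u1 ^ 2 - 1 := by nlinarith
    have := psi_GG2 (u := u1) (by linarith) (by linarith) h5.ne'
    rw [hu10] at this
    have h6 : 0 < 1 - u1 ^ 2 := by nlinarith
    have h7 : (1 - u1 ^ 2) * (5 * u1 ^ 2 - 1) ≠ 0 := by positivity
    rcases mul_eq_zero.mp this.symm with h | h
    · exact absurd h h7
    · exact h
  have hneg : ∀ u, 0 < u → u < u1 → psi u < 0 := by
    intro u h0 h1
    rcases lt_trichotomy u v with h | h | h
    · exact hneg1 u h0 h
    · rw [h]; exact hnegv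
    · have h5 : 0 < 5 * u ^ 2 - 1 := by nlinarith
      have hg := m2 (a := u) (b := u1) ⟨h, by linarith⟩ ⟨hu1v, by linarith⟩ h1
      rw [hz] at hg
      rw [psi_GG2 (by linarith) (by linarith) h5.ne']
      have h6 : 0 < 1 - u ^ 2 := by nlinarith
      have := mul_pos h6 h5
      nlinarith
  have hposs : ∀ u, u1 < u → u < 1 → 0 < psi u := by
    intro u h0 h1
    have h5 : 0 < 5 * u ^ 2 - 1 := by nlinarith
    have hg := m2 (a := u1) (b := u) ⟨hu1v, by linarith⟩ ⟨by linarith, h1⟩ h0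
    rw [hz] at hg
    rw [psi_GG2 (by linarith) h1 h5.ne']
    have h6 : 0 < 1 - u ^ 2 := by nlinarith
    positivity
  have hsq : ∀ t : ℝ, t < 1 → Real.sqrt (1 - t) ^ 2 = 1 - t := fun t ht => Real.sq_sqrt (by linarith)
  have hu1p : 0 < u1 := by linarith
  refine ⟨1 - u1 ^ 2, by nlinarith, by nlinarith, ?_, ?_, ?_⟩
  · rw [phi_psi (by nlinarith) (by nlinarith)]
    have : Real.sqrt (1 - (1 - u1 ^ 2)) = u1 := by
      rw [sub_sub_cancel]; exact Real.sqrt_sq hu1p.le
    rw [this]; exact hu10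
  · intro t ht
    have h1 : t < 1 := by nlinarith [ht.2]
    rw [phi_psi ht.1 h1]
    have h2 := hsq t h1
    have h3 := Real.sqrt_nonneg (1 - t)
    apply hposs
    · nlinarith [ht.2]
    · nlinarith [ht.1]
  · intro t ht
    have h0 : 0 < t := by nlinarith [ht.1]
    rw [phi_psi h0 ht.2]
    have h2 := hsq t ht.2
    have h3 : 0 < Real.sqrt (1 - t) := Real.sqrt_pos.mpr (by linarith [ht.2])
    apply hneg _ h3
    nlinarith [ht.1]

/-- the limit of `cc` at the Pick end -/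
noncomputable def cP (a : ℝ) : ℝ := EI (fun u => u * ((a - u) * (u + 1))) a (-1) / EI (fun u => (a - u) * (u + 1)) a (-1)

theorem pick_sign {a t : ℝ} (h0 : -1 < a) (h1 : a < 1) (ht : t = (1 - a) / 2) :
    0 < Real.sqrt (1 - t) - t * Real.log ((1 + Real.sqrt (1 - t)) / Real.sqrt t) ∧
    (1 - t) - (t - cP a) = phi t / (2 * (Real.sqrt (1 - t) - t * Real.log ((1 + Real.sqrt (1 - t)) / Real.sqrt t))) := by
  obtain ⟨-, hK, he⟩ := B10pM.B10_ccP h0 h1 ht
  have ht1 : 0 < 1 - t := by rw [ht]; linarith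
  have hu2 : Real.sqrt (1 - t) ^ 2 = 1 - t := Real.sq_sqrt ht1.le
  unfold cP phi
  rw [he]
  set u := Real.sqrt (1 - t)
  set L := Real.log ((1 + u) / Real.sqrt t)
  have hK' : 0 < u - t * L := by linarith
  refine ⟨hK', ?_⟩
  have hK0 : u - t * L ≠ 0 := hK'.ne'
  have e : 2 * u - 2 * t * L = 2 * (u - t * L) := by ring
  rw [e]
  field_simp
  ring

end Pool.Agent.Helper974.Star
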