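import Mathlib
import Pool.Agent.Helper974.Star.S1
set_option autoImplicit false
open Filter Topology Metric Set MeasureTheory
namespace Pool.Agent.Helper974.Star

/-- derivatives of `TT` and `qq` -/
theorem TTqq_deriv {a b : ℝ} (hb : -1 < b) (hba : b < a) (ha : a < 1) {T q A B D S al be : ℝ}
    (hT : T = TT a b) (hq : q = qq a b) (hA : A = 1 - a ^ 2) (hB : B = 1 - b ^ 2) (hDD : D = a - b)
    (hS : S = a + b) (hal : al = a - T) (hbe : be = T - b) :
    HasFDerivAt (fun p : ℝ × ℝ => TT p.1 p.2)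
      ((1 / 2 + al * (S * al + 2 * q) / (2 * A * D)) • ContinuousLinearMap.fst ℝ ℝ ℝ +
       (1 / 2 + be * (2 * q - S * be) / (2 * B * D)) • ContinuousLinearMap.snd ℝ ℝ ℝ) (a, b) ∧
    HasFDerivAt (fun p : ℝ × ℝ => qq p.1 p.2)
      ((be / 2 - q * (S * al + 2 * q) / (2 * A * D)) • ContinuousLinearMap.fst ℝ ℝ ℝ +
       (-al / 2 + q * (2 * q - S * be) / (2 * B * D)) • ContinuousLinearMap.snd ℝ ℝ ℝ) (a, b) :=
  B3M.B3_TTqq (fun hΦ hc _ _ h1 h2 h3 => B1M.B1_deriv hΦ hc h1 h2 h3)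
    (fun h1 h2 h3 _ _ _ _ _ e1 e2 e3 e4 e5 => B2M.B2_rel h1 h2 h3 e1 e2 e3 e4 e5)
    hb hba ha hT hq hA hB hDD hS hal hbe

theorem symQ_deriv {a : ℝ} (h0 : 0 < a) (h1 : a < 1) :
    HasDerivAt (fun a => qq a (-a)) (a - (qq a (-a)) ^ 2 / (a * (1 - a ^ 2))) a := by
  have hT := (B5M.B11_sym h0 h1).1
  have h := (TTqq_deriv (a := a) (b := -a) (by linarith) (by linarith) h1 rfl rfl rfl rfl rfl rfl rfl rfl).2
  have hγ : HasDerivAt (fun t : ℝ => ((t, -t) : ℝ × ℝ)) (1, -1) a :=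
    (hasDerivAt_id a).prodMk (hasDerivAt_id a).neg
  have hc := h.comp_hasDerivAt a hγ
  refine hc.congr_deriv ?_
  have hA : 1 - a ^ 2 ≠ 0 := by nlinarith
  simp only [ContinuousLinearMap.add_apply, ContinuousLinearMap.smul_apply, ContinuousLinearMap.coe_fst',
    ContinuousLinearMap.coe_snd', smul_eq_mul, hT]
  field_simp
  ring

theorem symQ_bd {a : ℝ} (h0 : 0 < a) (h1 : a < 1) : 0 < qq a (-a) ∧ qq a (-a) < a ^ 2 := by
  have hb : -1 < -a := by linarith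
  have hba : -a < a := by linarith
  refine ⟨(facts hb hba h1).1, ?_⟩
  have p0 := EI_one_pos hb hba h1
  have hsub := B2M.B2_EI_sub hb hba h1 (F := fun _ => (1 : ℝ)) (G := fun u => (a - u) * (u - -a))
    continuous_const (by fun_prop) (a ^ 2) 1
  have hpos : 0 < EI (fun u => u ^ 2) a (-a) := by
    unfold EI
    apply intervalIntegral.integral_pos Real.pi_pos
    · exact (B2M.B2_cont1 hb hba h1 (F := fun u => u ^ 2) (by fun_prop)).continuousOn
    · intro x _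
      exact div_nonneg (sq_nonneg _) (Real.sqrt_nonneg _)
    · refine ⟨0, ⟨le_rfl, Real.pi_pos.le⟩, ?_⟩
      apply div_pos _ (B2M.B2_S_pos hb hba h1 0)
      unfold U
      rw [Real.cos_zero]
      have : (a + -a) / 2 + (a - -a) / 2 * 1 = a := by ring
      rw [this]; positivity
  have e : (fun u : ℝ => a ^ 2 * (1 : ℝ) - 1 * ((a - u) * (u - -a))) = fun u => u ^ 2 := by
    ext u; ring
  rw [e] at hsub
  unfold qq mean
  rw [div_lt_iff₀ p0]
  linarith

theorem symR {a : ℝ} (h0 : 0 < a) (h1 : a < 1) :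
    qq a (-a) ≤ a ^ 2 * (1 + 3 * Real.sqrt (1 - a ^ 2)) / (4 * (1 + Real.sqrt (1 - a ^ 2))) :=
  (B12M.B12_le (Q := fun a => qq a (-a)) (fun a ha => symQ_deriv ha.1 ha.2)
    (fun a ha => symQ_bd ha.1 ha.2)).1 a ⟨h0, h1⟩

theorem symMono : StrictMonoOn (fun a => qq a (-a) ^ 2 / (a ^ 2 * (1 - a ^ 2))) (Ioo (0 : ℝ) 1) :=
  (B12M.B12_le (Q := fun a => qq a (-a)) (fun a ha => symQ_deriv ha.1 ha.2)
    (fun a ha => symQ_bd ha.1 ha.2)).2

lemma symR_lt {a : ℝ} (h0 : 0 < a) (h1 : a < 1) :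
    qq a (-a) ^ 2 / (a ^ 2 * (1 - a ^ 2)) < 1 ↔ qq a (-a) < a * Real.sqrt (1 - a ^ 2) := by
  have hA : 0 < 1 - a ^ 2 := by nlinarith
  have hq := (symQ_bd h0 h1).1
  rw [div_lt_one (by positivity)]
  have e : a ^ 2 * (1 - a ^ 2) = (a * Real.sqrt (1 - a ^ 2)) ^ 2 := by
    rw [mul_pow, Real.sq_sqrt hA.le]
  rw [e]
  constructor
  · intro h
    exact lt_of_pow_lt_pow_left₀ 2 (by positivity) h
  · intro h
    exact pow_lt_pow_left₀ h hq.le two_ne_zero

lemma symR_gt {a : ℝ} (h0 : 0 < a) (h1 : a < 1) :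
    1 < qq a (-a) ^ 2 / (a ^ 2 * (1 - a ^ 2)) ↔ a * Real.sqrt (1 - a ^ 2) < qq a (-a) := by
  have hA : 0 < 1 - a ^ 2 := by nlinarith
  have hq := (symQ_bd h0 h1).1
  rw [one_lt_div (by positivity)]
  have e : a ^ 2 * (1 - a ^ 2) = (a * Real.sqrt (1 - a ^ 2)) ^ 2 := by
    rw [mul_pow, Real.sq_sqrt hA.le]
  rw [e]
  constructor
  · intro h
    exact lt_of_pow_lt_pow_left₀ 2 hq.le h
  · intro h
    exact pow_lt_pow_left₀ h (by positivity) two_ne_zero

/-- the symmetric root -/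
theorem sym_root : ∃ kb : ℝ, 0 < kb ∧ kb < 1 ∧
    (∀ k ∈ Ioo (0 : ℝ) kb, qq k (-k) < k * Real.sqrt (1 - k ^ 2)) ∧
    (∀ k ∈ Ioo kb 1, k * Real.sqrt (1 - k ^ 2) < qq k (-k)) ∧
    qq kb (-kb) = kb * Real.sqrt (1 - kb ^ 2) ∧
    Real.sqrt (1 - kb ^ 2) / kb < 383 / 1000 := by
  set R : ℝ → ℝ := fun a => qq a (-a) ^ 2 / (a ^ 2 * (1 - a ^ 2)) with hR
  have hmono : StrictMonoOn R (Ioo (0 : ℝ) 1) := symMono
  have hQc : ContinuousOn (fun a => qq a (-a)) (Ioo (0 : ℝ) 1) := fun a ha =>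
    (symQ_deriv ha.1 ha.2).continuousAt.continuousWithinAt
  have hRc : ContinuousOn R (Ioo (0 : ℝ) 1) := by
    apply ContinuousOn.div (hQc.pow 2) (by fun_prop)
    intro a ha
    have hA : 0 < 1 - a ^ 2 := by nlinarith [ha.1, ha.2]
    have := ha.1
    positivity
  have hhalf : R (1 / 2) < 1 := by
    have h1 := symR (a := 1 / 2) (by norm_num) (by norm_num)
    have h2 := (symQ_bd (a := 1 / 2) (by norm_num) (by norm_num)).1
    have hs : 0 ≤ Real.sqrt (1 - (1 / 2 : ℝ) ^ 2) := Real.sqrt_nonneg _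
    have hs1 : Real.sqrt (1 - (1 / 2 : ℝ) ^ 2) ≤ 1 :=
      Real.sqrt_le_iff.mpr ⟨by norm_num, by norm_num⟩
    have h3 : qq (1 / 2) (-(1 / 2)) ≤ 1 / 8 := by
      refine h1.trans ?_
      rw [div_le_iff₀ (by positivity)]
      nlinarith
    have h4 : qq (1 / 2) (-(1 / 2)) ^ 2 ≤ (1 / 8) ^ 2 := pow_le_pow_left₀ h2.le h3 2
    simp only [hR]
    rw [div_lt_one (by norm_num)]
    refine lt_of_le_of_lt h4 ?_
    norm_num
  obtain ⟨a1, ha10, ha11, ha12⟩ : ∃ a1, 1 / 2 < a1 ∧ a1 < 1 ∧ 1 < R a1 := by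
    by_contra hcon
    push Not at hcon
    have hq0 := (symQ_bd (a := 1 / 2) (by norm_num) (by norm_num)).1
    have hmonoQ : MonotoneOn (fun a => qq a (-a)) (Ico (1 / 2 : ℝ) 1) := by
      apply monotoneOn_of_deriv_nonneg (convex_Ico _ _)
      · intro a ha
        exact (symQ_deriv (by linarith [ha.1]) ha.2).continuousAt.continuousWithinAt
      · intro a ha
        rw [interior_Ico] at ha
        exact (symQ_deriv (by linarith [ha.1]) ha.2).differentiableAt.differentiableWithinAt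
      · intro a ha
        rw [interior_Ico] at ha
        have h0 : 0 < a := by linarith [ha.1]
        rw [(symQ_deriv h0 ha.2).deriv]
        have h1 := hcon a ha.1 ha.2
        have hA : 0 < 1 - a ^ 2 := by nlinarith [ha.2]
        simp only [hR] at h1
        rw [div_le_one (by positivity)] at h1
        rw [sub_nonneg, div_le_iff₀ (by positivity)]
        nlinarith
    set q0 := qq (1 / 2) (-(1 / 2)) with hq0d
    have hq01 : q0 < 1 / 4 := by
      have := (symQ_bd (a := 1 / 2) (by norm_num) (by norm_num)).2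
      rw [← hq0d] at this; linarith
    set a := Real.sqrt (1 - q0 ^ 2 / 4) with ha
    have ha2 : a ^ 2 = 1 - q0 ^ 2 / 4 := by
      rw [ha]; exact Real.sq_sqrt (by nlinarith)
    have ha0 : 0 ≤ a := Real.sqrt_nonneg _
    have hah : 1 / 2 < a := by nlinarith
    have ha1 : a < 1 := by nlinarith
    have h1 := hmonoQ (a := 1 / 2) (b := a) ⟨le_rfl, by norm_num⟩ ⟨hah.le, ha1⟩ hah.le
    have h2 := hcon a hah ha1
    simp only [hR] at h2 h1
    have hq2 : 0 < q0 ^ 2 := by positivity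
    have hpos : 0 < a ^ 2 * (1 - a ^ 2) := by
      rw [ha2]
      apply mul_pos <;> nlinarith
    rw [div_le_one hpos, ha2] at h2
    have h3 : q0 ^ 2 ≤ qq a (-a) ^ 2 := pow_le_pow_left₀ hq0.le h1 2
    nlinarith
  have hIVT : (1 : ℝ) ∈ R '' (Icc (1 / 2) a1) := by
    apply intermediate_value_Icc ha10.le (hRc.mono _) ⟨hhalf.le, ha12.le⟩
    intro x hx
    exact ⟨by linarith [hx.1], by linarith [hx.2]⟩
  obtain ⟨kb, hkb, hkb1⟩ := hIVT
  have hk0 : 0 < kb := by linarith [hkb.1]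
  have hk1 : kb < 1 := by linarith [hkb.2]
  have hA : 0 < 1 - kb ^ 2 := by nlinarith
  have hq := (symQ_bd hk0 hk1).1
  have hroot : qq kb (-kb) = kb * Real.sqrt (1 - kb ^ 2) := by
    have h1 : ¬ qq kb (-kb) < kb * Real.sqrt (1 - kb ^ 2) := by
      rw [← symR_lt hk0 hk1]; exact not_lt.mpr hkb1.ge
    have h2 : ¬ kb * Real.sqrt (1 - kb ^ 2) < qq kb (-kb) := by
      rw [← symR_gt hk0 hk1]; exact not_lt.mpr hkb1.le
    exact le_antisymm (not_lt.mp h2) (not_lt.mp h1)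
  refine ⟨kb, hk0, hk1, ?_, ?_, hroot, ?_⟩
  · intro k hk
    rw [← symR_lt hk.1 (by linarith [hk.2])]
    have := hmono ⟨hk.1, by linarith [hk.2]⟩ ⟨hk0, hk1⟩ hk.2
    rw [hkb1] at this
    exact this
  · intro k hk
    rw [← symR_gt (by linarith [hk.1]) hk.2]
    have := hmono ⟨hk0, hk1⟩ ⟨by linarith [hk.1], hk.2⟩ hk.1
    rw [hkb1] at this
    exact this
  · have h1 := symR hk0 hk1
    rw [hroot] at h1
    set s := Real.sqrt (1 - kb ^ 2) with hs
    have hs0 : 0 < s := Real.sqrt_pos.mpr hA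
    have hs2 : s ^ 2 = 1 - kb ^ 2 := Real.sq_sqrt hA.le
    rw [le_div_iff₀ (by positivity)] at h1
    have h2 : s * (4 * (1 + s)) ≤ kb * (1 + 3 * s) := by
      have : kb * (s * (4 * (1 + s))) ≤ kb * (kb * (1 + 3 * s)) := by nlinarith
      exact le_of_mul_le_mul_left this hk0
    have h3 : (s * (4 * (1 + s))) ^ 2 ≤ (kb * (1 + 3 * s)) ^ 2 := pow_le_pow_left₀ (by positivity) h2 2
    have h4 : (1 + s) * (25 * s ^ 3 + 13 * s ^ 2 - 5 * s - 1) ≤ 0 := by
      have e : (1 + s) * (25 * s ^ 3 + 13 * s ^ 2 - 5 * s - 1) =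
          (s * (4 * (1 + s))) ^ 2 - (1 - s ^ 2) * (1 + 3 * s) ^ 2 := by ring
      have e2 : (kb * (1 + 3 * s)) ^ 2 = (1 - s ^ 2) * (1 + 3 * s) ^ 2 := by
        rw [mul_pow, hs2]; ring
      rw [e, ← e2]; linarith
    have h5 : 25 * s ^ 3 + 13 * s ^ 2 - 5 * s - 1 ≤ 0 := by
      by_contra hcon
      push Not at hcon
      nlinarith
    rw [div_lt_iff₀ hk0]
    by_contra hcon
    push Not at hcon
    have h6 : (383 / 1000 * kb) ^ 2 ≤ s ^ 2 := pow_le_pow_left₀ (by positivity) hcon 2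
    have h7 : 3575 / 10000 < s := by
      by_contra h8
      push Not at h8
      nlinarith
    nlinarith [mul_pos hs0 hs0, mul_pos (mul_pos hs0 hs0) hs0, mul_pos hs0 (sub_pos.mpr h7), mul_pos (mul_pos hs0 hs0) (sub_pos.mpr h7)]

end Pool.Agent.Helper974.Star
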