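import Mathlib
import Pool.Agent.Helper974.Star.S1
import Pool.Agent.Helper974.StarP.Pick
set_option autoImplicit false
open Complex Filter Topology Metric Set MeasureTheory
namespace Pool.Agent.Helper974.Star

/-- `A₃(M) = sup {|a₃| : f ∈ S*(M)}`. -/
noncomputable def A3 (M : ℝ) : ℝ := sSup ((fun f => ‖coeff3 f‖) '' StarClass M)

lemma star_smul {f : ℂ → ℂ} (h : StarConvex ℝ (0 : ℂ) (f '' ball 0 1)) :
    ∀ w ∈ f '' ball 0 1, ∀ s : ℝ, 0 ≤ s → s ≤ 1 → (s : ℂ) * w ∈ f '' ball 0 1 := by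
  intro w hw s hs0 hs1
  have h1 := h hw (show (0 : ℝ) ≤ 1 - s by linarith) hs0 (by ring)
  rw [smul_zero, zero_add, Complex.real_smul] at h1
  exact h1

/-- reduction of the bound for the third coefficient to the class of logarithms -/
theorem upper_of {M P : ℝ} (H : ∀ g : ℂ → ℂ, LogClass M g → 0 ≤ (deriv g 0).re →
      2 * ((deriv g 0).re / 2) ^ 2 + (deriv (deriv g) 0 / 2).re ≤ P) {f : ℂ → ℂ} (hf : f ∈ StarClass M) :
    ‖coeff3 f‖ ≤ P := by
  obtain ⟨hd, hinj, h0, hd1, hstar, hM⟩ := hf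
  obtain ⟨g, hg, hfg⟩ := StarP.Red.exists_log hd hinj h0 hd1 (star_smul hstar) hM
  unfold coeff3
  rw [StarP.Red.third_coeff hg.diff hg.zero hfg]
  apply StarP.Red.norm_le_of_re _ hg
  intro g hg hx
  exact H g ⟨hg.diff, hg.zero, hg.star, hg.bdd⟩ hx

/-- the one slit certificate -/
theorem one_slit {M : ℝ} (hM : 1 < M) {g : ℂ → ℂ} (hg : LogClass M g) :
    (deriv g 0).re / 2 ≤ 1 - 1 / M ∧
      ((deriv g 0).re / 2 = 1 - 1 / M → (deriv (deriv g) 0 / 2).re ≤ 1 - 4 / M + 3 / M ^ 2) := by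
  have hMp : 0 < M := by linarith
  set t : ℝ := 1 / M with ht
  have ht0 : 0 < t := by positivity
  have ht1 : t < 1 := by rw [ht, div_lt_one hMp]; exact hM
  have hMt : M * t = 1 := by rw [ht]; field_simp
  obtain ⟨-, hK, -⟩ := B10pM.B10_ccP (a := 1 - 2 * t) (t := t) (by linarith) (by linarith) (by ring)
  have hLL : StarP.Cert.LL t = Real.log ((1 + Real.sqrt (1 - t)) / Real.sqrt t) := rfl
  set K : ℝ := 2 * Real.sqrt (1 - t) - 2 * t * Real.log ((1 + Real.sqrt (1 - t)) / Real.sqrt t) with hKdef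
  set A0 : ℝ := Real.sqrt (1 - t) * t - t * (2 - t) * StarP.Cert.LL t with hA0
  have hG : ∀ c : ℝ, 4 * StarP.Cert.Gam t c 1 = A0 - c * K := by
    intro c
    rw [StarP.Cert.Gam_one c ht0 ht1, hKdef, hA0, hLL]; ring
  have key : ∀ c : ℝ, c ≤ 1 - 2 * t → c ≤ A0 / K →
      2 * (t - c) * ((deriv g 0).re - 2 * (1 - t)) + ((deriv (deriv g) 0 / 2).re - (1 - t) * (1 - 3 * t)) ≤ 0 := by
    intro c h1 h2
    have h3 : 0 ≤ StarP.Cert.Gam t c 1 := by
      have := hG c
      rw [le_div_iff₀ hK] at h2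
      linarith
    have := StarP.Cert.cert ht0 ht1 h1 h3 hMp hg.diff hg.zero hg.star hg.bdd
    rw [hMt, Real.log_one, mul_zero] at this
    exact this
  constructor
  · by_contra hcon
    push Not at hcon
    set δ := (deriv g 0).re - 2 * (1 - t) with hδ
    have hδ0 : 0 < δ := by rw [hδ]; linarith
    set R := (1 - t) * (1 - 3 * t) - (deriv (deriv g) 0 / 2).re with hR
    set c := min (min (1 - 2 * t) (A0 / K)) (t - (|R| + 1) / δ) with hc
    have h1 : c ≤ 1 - 2 * t := (min_le_left _ _).trans (min_le_left _ _)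
    have h2 : c ≤ A0 / K := (min_le_left _ _).trans (min_le_right _ _)
    have h3 : c ≤ t - (|R| + 1) / δ := min_le_right _ _
    have h4 := key c h1 h2
    have h5 : (|R| + 1) / δ ≤ t - c := by linarith
    rw [div_le_iff₀ hδ0] at h5
    have h6 := le_abs_self R
    have h7 := abs_nonneg R
    nlinarith
  · intro hx
    have h1 := key (min (1 - 2 * t) (A0 / K)) (min_le_left _ _) (min_le_right _ _)
    have h2 : (deriv g 0).re - 2 * (1 - t) = 0 := by linarith
    rw [h2, mul_zero, zero_add] at h1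
    have h3 : 1 - 4 / M + 3 / M ^ 2 = (1 - t) * (1 - 3 * t) := by rw [ht]; field_simp; ring
    rw [h3]; linarith

/-- the Pick function -/
theorem pick_mem {M : ℝ} (hM : 1 < M) : ∃ f ∈ StarClass M, coeff3 f = ((3 - 8 / M + 5 / M ^ 2 : ℝ) : ℂ) := by
  have hMp : 0 < M := by linarith
  have ht : 0 < 1 / M := by positivity
  have ht1 : 1 / M < 1 := by rw [div_lt_one hMp]; exact hM
  refine ⟨StarP.Pick.fP (1 / M), ⟨StarP.Pick.fP_diff ht ht1, StarP.Pick.fP_inj ht ht1, StarP.Pick.fP_zero _,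
    StarP.Pick.fP_deriv ht ht1, ?_, ?_⟩, ?_⟩
  · intro w hw a b ha hb hab
    rw [smul_zero, zero_add, Complex.real_smul]
    exact StarP.Pick.fP_star ht ht1 hw hb (by linarith)
  · intro z hz
    have := StarP.Pick.fP_norm ht ht1 (z := z) (by simpa using hz)
    rw [one_div_one_div] at this
    exact this.le
  · unfold coeff3
    rw [StarP.Pick.fP_third ht ht1]
    congr 1
    field_simp

/-- upper bound from the level set -/
theorem upper_level {M P : ℝ} (hM : 1 < M) (hP : 3 - 8 / M + 5 / M ^ 2 ≤ P)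
    (hx : ∀ x : ℝ, 0 ≤ x → x < 1 - 1 / M → ∃ a b : ℝ, -1 < b ∧ b < a ∧ a < 1 ∧ ll a b = Real.log M ∧ xx a b = x ∧
      Vc a b + 2 * xx a b ^ 2 ≤ P) {f : ℂ → ℂ} (hf : f ∈ StarClass M) : ‖coeff3 f‖ ≤ P := by
  refine upper_of ?_ hf
  intro g hg h0
  obtain ⟨h1, h2⟩ := one_slit hM hg
  rcases h1.lt_or_eq with h | h
  · obtain ⟨a, b, hb, hba, ha, hl, hxx, hv⟩ := hx _ (by linarith) h
    have := cert_all hb hba ha (by linarith) hg
    rw [hl, sub_self, mul_zero, add_zero, ← hxx, sub_self, mul_zero, sub_zero] at this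
    rw [← hxx]
    linarith
  · have h3 := h2 h
    rw [h]
    have hMp : 0 < M := by linarith
    have e : 2 * (1 - 1 / M) ^ 2 + (1 - 4 / M + 3 / M ^ 2) = 3 - 8 / M + 5 / M ^ 2 := by
      field_simp; ring
    linarith

end Pool.Agent.Helper974.Star
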