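import Mathlib
import Pool.Agent.Helper974.Star.F1
import Pool.Agent.Helper974.Star.N1
import Pool.Agent.Helper974.Star.N2
set_option autoImplicit false
open Complex Filter Topology Metric Set MeasureTheory
namespace Pool.Agent.Helper974.Star

/-- level set condition -/
def HX (M P : ℝ) : Prop := ∀ x : ℝ, 0 ≤ x → x < 1 - 1 / M → ∃ a b : ℝ, -1 < b ∧ b < a ∧ a < 1 ∧
  ll a b = Real.log M ∧ xx a b = x ∧ Vc a b + 2 * xx a b ^ 2 ≤ P

theorem great_of {M P : ℝ} (hM : 1 < M) (hP : 3 - 8 / M + 5 / M ^ 2 ≤ P) (hx : HX M P)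
    (hm : ∃ f ∈ StarClass M, ‖coeff3 f‖ = P) :
    IsGreatest ((fun f => ‖coeff3 f‖) '' StarClass M) P := by
  obtain ⟨f, hf, hfP⟩ := hm
  refine ⟨⟨f, hf, hfP⟩, ?_⟩
  rintro x ⟨f, hf, rfl⟩
  exact upper_level hM hP hx hf

theorem sym_mem {M : ℝ} (hM : 1 < M) : ∃ f ∈ StarClass M, ‖coeff3 f‖ = 1 - 1 / M ^ 2 := by
  have hM0 : 0 < M := by linarith
  have h1 : 0 < 1 - 1 / M ^ 2 := by
    rw [sub_pos, div_lt_one (by positivity)]; nlinarith
  set a := Real.sqrt (1 - 1 / M ^ 2) with ha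
  have ha2 : a ^ 2 = 1 - 1 / M ^ 2 := Real.sq_sqrt h1.le
  have ha0 : 0 < a := Real.sqrt_pos.mpr h1
  have hM2 : 0 < 1 / M ^ 2 := by positivity
  have ha1 : a < 1 := by nlinarith
  obtain ⟨hT, hl⟩ := B5M.B11_sym ha0 ha1
  obtain ⟨f, hf, hc⟩ := slit_mem (a := a) (b := -a) (by linarith) (by linarith) ha1
  have hll : ll a (-a) = Real.log M := by
    have h5 : Real.log (1 / M ^ 2) = -(2 * Real.log M) := by
      rw [one_div, Real.log_inv, Real.log_pow]; push_cast; ring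
    rw [hl, ha2, sub_sub_cancel, h5]
    ring
  rw [hll, Real.exp_log hM0] at hf
  refine ⟨f, hf, ?_⟩
  rw [hc, Complex.norm_real, Real.norm_eq_abs]
  have e : Vc a (-a) + 2 * xx a (-a) ^ 2 = 1 - 1 / M ^ 2 := by
    unfold Vc xx; rw [hT, ← ha2]; ring
  rw [e, abs_of_pos h1]

theorem slit_mem' {M a b : ℝ} (hM : 1 < M) (hb : -1 < b) (hba : b < a) (ha : a < 1) (hl : ll a b = Real.log M)
    (hP : 0 ≤ Vc a b + 2 * xx a b ^ 2) : ∃ f ∈ StarClass M, ‖coeff3 f‖ = Vc a b + 2 * xx a b ^ 2 := by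
  obtain ⟨f, hf, hc⟩ := slit_mem hb hba ha
  rw [hl, Real.exp_log (by linarith)] at hf
  refine ⟨f, hf, ?_⟩
  rw [hc, Complex.norm_real, Real.norm_eq_abs, abs_of_nonneg hP]

theorem pick_nonneg {M : ℝ} (hM : 5 / 3 ≤ M) : 0 ≤ 3 - 8 / M + 5 / M ^ 2 := by
  have hM0 : 0 < M := by linarith
  have e : 3 - 8 / M + 5 / M ^ 2 = (M - 1) * (3 * M - 5) / M ^ 2 := by field_simp; ring
  rw [e]
  apply div_nonneg _ (by positivity)
  apply mul_nonneg <;> linarith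

/-- integral form of the equation for the first transition point -/
theorem sym_eq_iff {k : ℝ} (h0 : 0 < k) (h1 : k < 1) :
    qq k (-k) = k * Real.sqrt (1 - k ^ 2) ↔
      (∫ ψ in (0 : ℝ)..Real.pi, Real.sqrt (1 - k ^ 2 * Real.cos ψ ^ 2)) =
        Real.sqrt (1 - k ^ 2) * (k + Real.sqrt (1 - k ^ 2)) *
          ∫ ψ in (0 : ℝ)..Real.pi, 1 / Real.sqrt (1 - k ^ 2 * Real.cos ψ ^ 2) := by
  have hb : -1 < -k := by linarith
  have hba : -k < k := by linarith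
  have p0 := EI_one_pos hb hba h1
  have hA : 0 < 1 - k ^ 2 := by nlinarith
  have hs2 : Real.sqrt (1 - k ^ 2) ^ 2 = 1 - k ^ 2 := Real.sq_sqrt hA.le
  have hU : ∀ ψ, U k (-k) ψ = k * Real.cos ψ := by intro ψ; unfold U; ring
  have e1 : EI (fun _ => 1) k (-k) = ∫ ψ in (0 : ℝ)..Real.pi, 1 / Real.sqrt (1 - k ^ 2 * Real.cos ψ ^ 2) := by
    unfold EI
    congr 1; ext ψ
    rw [hU]; congr 3; ring
  have hsub := B2M.B2_EI_sub hb hba h1 (F := fun u => 1 - u ^ 2) (G := fun _ => (1 : ℝ))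
    (by fun_prop) continuous_const 1 (1 - k ^ 2)
  have e2 : EI (fun u => 1 - u ^ 2) k (-k) = ∫ ψ in (0 : ℝ)..Real.pi, Real.sqrt (1 - k ^ 2 * Real.cos ψ ^ 2) := by
    unfold EI
    congr 1; ext ψ
    rw [hU]
    have hpos : 0 < 1 - (k * Real.cos ψ) ^ 2 := by
      have h3 : Real.cos ψ ^ 2 ≤ 1 := Real.cos_sq_le_one ψ
      have h4 : k ^ 2 * Real.cos ψ ^ 2 ≤ k ^ 2 * 1 := mul_le_mul_of_nonneg_left h3 (sq_nonneg k)
      rw [mul_pow]
      linarith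
    have hs := Real.sqrt_pos.mpr hpos
    have : 1 - k ^ 2 * Real.cos ψ ^ 2 = 1 - (k * Real.cos ψ) ^ 2 := by ring
    rw [this, div_eq_iff hs.ne', ← sq, Real.sq_sqrt hpos.le]
  have e3 : (fun u : ℝ => 1 * (1 - u ^ 2) - (1 - k ^ 2) * (1 : ℝ)) = fun u => (k - u) * (u - -k) := by
    ext u; ring
  rw [e3] at hsub
  have e4 : qq k (-k) = EI (fun u => (k - u) * (u - -k)) k (-k) / EI (fun _ => 1) k (-k) := rfl
  rw [e4, hsub, div_eq_iff p0.ne', ← e1, ← e2]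
  constructor
  · intro h; linear_combination h - EI (fun _ => 1) k (-k) * hs2
  · intro h; linear_combination h + EI (fun _ => 1) k (-k) * hs2

end Pool.Agent.Helper974.Star
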