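import Mathlib
import Pool.Agent.Helper974.Star.F2

set_option autoImplicit false

namespace Pool.Agent.Helper974.Star3

open Metric Set

/-- The class `S*(M)`: holomorphic injective functions `f` on the open unit disc with `f 0 = 0`,
`f' 0 = 1`, whose image is star-shaped with respect to `0`, and with `|f z| ≤ M` on the disc. -/
def StarClass (M : ℝ) : Set (ℂ → ℂ) :=
  {f | DifferentiableOn ℂ f (ball 0 1) ∧ InjOn f (ball 0 1) ∧ f 0 = 0 ∧ deriv f 0 = 1 ∧
    StarConvex ℝ (0 : ℂ) (f '' ball 0 1) ∧ ∀ z ∈ ball (0 : ℂ) 1, ‖f z‖ ≤ M}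

/-- The third Taylor coefficient at the origin. -/
noncomputable def coeff3 (f : ℂ → ℂ) : ℂ := iteratedDeriv 3 f 0 / 6

/-- `A₃(M) = sup {|a₃| : f ∈ S*(M)}`. -/
noncomputable def A3 (M : ℝ) : ℝ := sSup ((fun f => ‖coeff3 f‖) '' StarClass M)

/-- The points of the interval `[b, a]`. -/
noncomputable def U (a b ψ : ℝ) : ℝ := (a + b) / 2 + (a - b) / 2 * Real.cos ψ

/-- The complete elliptic integral `∫_b^a F(u) du / √((1 - u²) (a - u) (u - b))`, written with the
substitution `u = U a b ψ`. -/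
noncomputable def ellInt (F : ℝ → ℝ) (a b : ℝ) : ℝ :=
  ∫ ψ in (0 : ℝ)..Real.pi, F (U a b ψ) / Real.sqrt (1 - U a b ψ ^ 2)

/-- The number `T(a, b)`. -/
noncomputable def T (a b : ℝ) : ℝ := ellInt (fun u => u) a b / ellInt (fun _ => 1) a b

/-- The number `c(a, b)`. -/
noncomputable def c (a b : ℝ) : ℝ :=
  ellInt (fun u => u * ((a - u) * (u - b))) a b / ellInt (fun u => (a - u) * (u - b)) a b

/-- The logarithm of the maximum modulus of the two slit map with `z f'/f =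
(1 - 2 T z + z²) / √((1 - 2 a z + z²) (1 - 2 b z + z²))`, `T = T(a, b)`. -/
noncomputable def logMax (a b : ℝ) : ℝ :=
  ∫ t in (0 : ℝ)..1, ((1 - 2 * T a b * t + t ^ 2) /
    (Real.sqrt (1 - 2 * a * t + t ^ 2) * Real.sqrt (1 - 2 * b * t + t ^ 2)) - 1) / t

/-- The two equations (and the range) for the parameters of the extremal function in the middle
regime. -/
def IsParam (M a b : ℝ) : Prop :=
  -1 < b ∧ b < a ∧ a < 1 ∧ a + b < 0 ∧ T a b = a + b + c a b ∧ logMax a b = Real.log M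

/-- The third coefficient of the two slit map. -/
noncomputable def value (a b : ℝ) : ℝ :=
  5 / 4 * (a + b) ^ 2 - 3 * (a + b) * T a b + 2 * T a b ^ 2 - a * b

open Pool.Agent.Helper974 in
lemma c_eq {a b : ℝ} (hb : -1 < b) (hba : b < a) (ha : a < 1) : Star.cc a b = c a b := by
  have h1 := Star.EI_one_pos hb hba ha
  have h2 := (Star.facts hb hba ha).1
  have e1 : Star.EI (fun u => u * ((a - u) * (u - b))) a b = ellInt (fun u => u * ((a - u) * (u - b))) a b := rfl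
  have e2 : Star.EI (fun u => (a - u) * (u - b)) a b = ellInt (fun u => (a - u) * (u - b)) a b := rfl
  have h3 : Star.EI (fun u => (a - u) * (u - b)) a b ≠ 0 := by
    intro h
    unfold Star.qq Star.mean at h2
    rw [h, zero_div] at h2
    exact lt_irrefl _ h2
  unfold Star.cc Star.qq Star.mean c
  rw [← e1, ← e2]
  field_simp

open Pool.Agent.Helper974 in
lemma param_iff {M a b : ℝ} : IsParam M a b ↔
    (-1 < b ∧ b < a ∧ a < 1 ∧ a + b < 0 ∧ Star.Lc a b = 4 * Star.xx a b ∧ Star.ll a b = Real.log M) := by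
  have hT : Star.TT a b = T a b := rfl
  have hl : Star.ll a b = logMax a b := rfl
  unfold IsParam
  constructor
  · rintro ⟨h1, h2, h3, h4, h5, h6⟩
    refine ⟨h1, h2, h3, h4, ?_, h6⟩
    unfold Star.Lc Star.xx
    rw [c_eq h1 h2 h3, hT]; linarith
  · rintro ⟨h1, h2, h3, h4, h5, h6⟩
    refine ⟨h1, h2, h3, h4, ?_, h6⟩
    unfold Star.Lc Star.xx at h5
    rw [c_eq h1 h2 h3, hT] at h5; linarith

open Pool.Agent.Helper974 in
lemma value_eq (a b : ℝ) : Star.Vc a b + 2 * Star.xx a b ^ 2 = value a b := by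
  have hT : Star.TT a b = T a b := rfl
  unfold Star.Vc Star.xx value
  rw [hT]; ring

open Pool.Agent.Helper974 in
/-- final assembly from the analysis of the level sets -/
theorem main_of {kb t1 : ℝ} (hkb0 : 0 < kb) (hkb1 : kb < 1)
    (hk1 : ∀ k ∈ Ioo (0 : ℝ) kb, Star.qq k (-k) < k * Real.sqrt (1 - k ^ 2))
    (hk2 : ∀ k ∈ Ioo kb 1, k * Real.sqrt (1 - k ^ 2) < Star.qq k (-k))
    (hk3 : Star.qq kb (-kb) = kb * Real.sqrt (1 - kb ^ 2))
    (hk4 : Real.sqrt (1 - kb ^ 2) / kb < 383 / 1000)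
    (ht0 : 10 / 33 < t1) (ht1 : t1 < 1) (ht2 : Star.phi t1 = 0)
    (ht3 : ∀ t ∈ Ioo (0 : ℝ) t1, 0 < Star.phi t) (ht4 : ∀ t ∈ Ioo t1 1, Star.phi t < 0)
    (hlt : 1 / Real.sqrt (1 - kb ^ 2) < 1 / t1)
    (s1 : ∀ M, 1 < M → M ≤ 1 / Real.sqrt (1 - kb ^ 2) →
      3 - 8 / M + 5 / M ^ 2 ≤ 1 - 1 / M ^ 2 ∧ Star.HX M (1 - 1 / M ^ 2))
    (s2 : ∀ M, 1 / Real.sqrt (1 - kb ^ 2) < M → M < 1 / t1 → ∃ a b : ℝ,
      (-1 < b ∧ b < a ∧ a < 1 ∧ a + b < 0 ∧ Star.Lc a b = 4 * Star.xx a b ∧ Star.ll a b = Real.log M) ∧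
      (∀ a' b' : ℝ, (-1 < b' ∧ b' < a' ∧ a' < 1 ∧ a' + b' < 0 ∧ Star.Lc a' b' = 4 * Star.xx a' b' ∧
        Star.ll a' b' = Real.log M) → a' = a ∧ b' = b) ∧
      3 - 8 / M + 5 / M ^ 2 ≤ Star.Vc a b + 2 * Star.xx a b ^ 2 ∧
      Star.HX M (Star.Vc a b + 2 * Star.xx a b ^ 2))
    (s3 : ∀ M, 1 / t1 ≤ M → Star.HX M (3 - 8 / M + 5 / M ^ 2)) :
    ∃ Mb M1 : ℝ, Real.exp 1 < Mb ∧ Mb < M1 ∧ M1 < 33 / 10 ∧
      (∀ M : ℝ, 1 < M → (M = Mb ↔
        (∫ ψ in (0 : ℝ)..Real.pi, Real.sqrt (1 - (1 - 1 / M ^ 2) * Real.cos ψ ^ 2)) =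
          (1 / M) * (Real.sqrt (1 - 1 / M ^ 2) + 1 / M) *
            ∫ ψ in (0 : ℝ)..Real.pi, 1 / Real.sqrt (1 - (1 - 1 / M ^ 2) * Real.cos ψ ^ 2))) ∧
      (∀ M : ℝ, 1 < M → (M = M1 ↔
        (2 * M - 3) * Real.sqrt (1 - 1 / M) = (4 - 5 / M) * Real.log (Real.sqrt M + Real.sqrt (M - 1)))) ∧
      (∀ M : ℝ, 1 < M → M ≤ Mb →
        IsGreatest ((fun f => ‖coeff3 f‖) '' StarClass M) (1 - 1 / M ^ 2) ∧ A3 M = 1 - 1 / M ^ 2) ∧
      (∀ M : ℝ, Mb < M → M < M1 → ∃ a b : ℝ, IsParam M a b ∧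
        (∀ a' b' : ℝ, IsParam M a' b' → a' = a ∧ b' = b) ∧
        IsGreatest ((fun f => ‖coeff3 f‖) '' StarClass M) (value a b) ∧ A3 M = value a b) ∧
      (∀ M : ℝ, M1 ≤ M →
        IsGreatest ((fun f => ‖coeff3 f‖) '' StarClass M) (3 - 8 / M + 5 / M ^ 2) ∧
          A3 M = 3 - 8 / M + 5 / M ^ 2) := by
  have hA : 0 < 1 - kb ^ 2 := by nlinarith
  set s := Real.sqrt (1 - kb ^ 2) with hs
  have hs0 : 0 < s := Real.sqrt_pos.mpr hA
  have hs2 : s ^ 2 = 1 - kb ^ 2 := Real.sq_sqrt hA.le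
  have ht10 : 0 < t1 := by linarith
  have hMb : Real.exp 1 < 1 / s := by
    have h1 : Real.exp 1 < 2.7182818286 := Real.exp_one_lt_d9
    have h2 : s < 3577 / 10000 := by
      rw [div_lt_iff₀ hkb0] at hk4
      by_contra hcon
      push Not at hcon
      have h3 : (s) ^ 2 < (383 / 1000 * kb) ^ 2 := pow_lt_pow_left₀ hk4 hs0.le two_ne_zero
      nlinarith
    rw [lt_div_iff₀ hs0]
    nlinarith [Real.exp_pos 1]
  have hMb1 : 1 < 1 / s := by
    have := Real.add_one_le_exp (1 : ℝ)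
    linarith
  refine ⟨1 / s, 1 / t1, hMb, hlt, ?_, ?_, ?_, ?_, ?_, ?_⟩
  · rw [div_lt_iff₀ ht10]; linarith
  · intro M hM
    have hM0 : 0 < M := by linarith
    have hM2 : 0 < 1 / M ^ 2 := by positivity
    have h1 : 0 < 1 - 1 / M ^ 2 := by
      rw [sub_pos, div_lt_one (by positivity)]; nlinarith
    set k := Real.sqrt (1 - 1 / M ^ 2) with hk
    have hk2' : k ^ 2 = 1 - 1 / M ^ 2 := Real.sq_sqrt h1.le
    have hk0 : 0 < k := Real.sqrt_pos.mpr h1
    have hk1' : k < 1 := by nlinarith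
    have hsk : Real.sqrt (1 - k ^ 2) = 1 / M := by
      rw [hk2', sub_sub_cancel]
      rw [show (1 : ℝ) / M ^ 2 = (1 / M) ^ 2 by rw [one_div_pow]]
      exact Real.sqrt_sq (by positivity)
    have key := Star.sym_eq_iff hk0 hk1'
    rw [hsk, hk2'] at key
    rw [← key]
    have hkb : M = 1 / s ↔ k = kb := by
      constructor
      · intro h
        have : 1 / M = s := by rw [h, one_div_one_div]
        have h2 : k ^ 2 = kb ^ 2 := by
          rw [hk2', show (1 : ℝ) / M ^ 2 = (1 / M) ^ 2 by rw [one_div_pow], this, hs2]; ring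
        exact (pow_left_inj₀ hk0.le hkb0.le two_ne_zero).mp h2
      · intro h
        have h3 : (1 / M) ^ 2 = s ^ 2 := by
          rw [hs2, ← h, hk2', one_div_pow]; ring
        have h4 : 1 / M = s := (pow_left_inj₀ (by positivity) hs0.le two_ne_zero).mp h3
        rw [← h4, one_div_one_div]
    rw [hkb, ← hsk]
    constructor
    · intro h; rw [h]; exact hk3
    · intro h
      rcases lt_trichotomy k kb with h5 | h5 | h5
      · have := hk1 k ⟨hk0, h5⟩; linarith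
      · exact h5
      · have := hk2 k ⟨h5, hk1'⟩; linarith
  · intro M hM
    have hM0 : 0 < M := by linarith
    have ht : 0 < 1 / M := by positivity
    have ht' : 1 / M < 1 := by rw [div_lt_one hM0]; exact hM
    have hphi : M * Star.phi (1 / M) = (2 * M - 3) * Real.sqrt (1 - 1 / M) -
        (4 - 5 / M) * Real.log (Real.sqrt M + Real.sqrt (M - 1)) := by
      unfold Star.phi
      have e1 : (1 + Real.sqrt (1 - 1 / M)) / Real.sqrt (1 / M) = Real.sqrt M + Real.sqrt (M - 1) := by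
        have e2 : Real.sqrt (M - 1) = Real.sqrt M * Real.sqrt (1 - 1 / M) := by
          rw [← Real.sqrt_mul hM0.le]; congr 1; field_simp
        have e3 : Real.sqrt (1 / M) = 1 / Real.sqrt M := by rw [Real.sqrt_div' _ hM0.le, Real.sqrt_one]
        rw [e2, e3]
        field_simp
      rw [e1]
      field_simp
    have h2 : M = 1 / t1 ↔ Star.phi (1 / M) = 0 := by
      constructor
      · intro h; rw [h, one_div_one_div]; exact ht2
      · intro h
        rcases lt_trichotomy (1 / M) t1 with h5 | h5 | h5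
        · have := ht3 _ ⟨ht, h5⟩; linarith
        · rw [← h5, one_div_one_div]
        · have := ht4 _ ⟨h5, ht'⟩; linarith
    rw [h2]
    constructor
    · intro h; rw [h, mul_zero] at hphi; linarith
    · intro h
      have : M * Star.phi (1 / M) = 0 := by rw [hphi, h]; ring
      rcases mul_eq_zero.mp this with h5 | h5
      · exact absurd h5 hM0.ne'
      · exact h5
  · intro M hM hM'
    obtain ⟨h1, h2⟩ := s1 M hM hM'
    have h3 := Star.great_of hM h1 h2 (Star.sym_mem hM)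
    exact ⟨h3, h3.csSup_eq⟩
  · intro M hM hM'
    obtain ⟨a, b, h1, h2, h3, h4⟩ := s2 M hM hM'
    have hM1 : 1 < M := by linarith
    have hM53 : 5 / 3 ≤ M := by
      have := Real.add_one_le_exp (1 : ℝ)
      linarith
    have h5 := Star.great_of hM1 h3 h4 (Star.slit_mem' hM1 h1.1 h1.2.1 h1.2.2.1 h1.2.2.2.2.2
      ((Star.pick_nonneg hM53).trans h3))
    rw [value_eq] at h5
    exact ⟨a, b, param_iff.mpr h1, fun a' b' h => h2 a' b' (param_iff.mp h), h5, h5.csSup_eq⟩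
  · intro M hM
    have hM53 : 5 / 3 ≤ M := by
      have := Real.add_one_le_exp (1 : ℝ)
      linarith
    have hM1 : 1 < M := by linarith
    have h5 := Star.great_of hM1 le_rfl (s3 M hM) (by
      obtain ⟨f, hf, hc⟩ := Star.pick_mem hM1
      refine ⟨f, hf, ?_⟩
      rw [hc, Complex.norm_real, Real.norm_eq_abs, abs_of_nonneg (Star.pick_nonneg hM53)])
    exact ⟨h5, h5.csSup_eq⟩

end Pool.Agent.Helper974.Star3
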