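import Mathlib
import Pool.Agent.Helper974.Star.Defs
set_option autoImplicit false
open Complex Filter Topology Metric Set MeasureTheory
namespace Pool.Agent.Helper974.Star
namespace A0M

/-! auxiliary lemmas, copied from Helper202/Sigma.lean -/
namespace SigAux


/-- square root with non-negative real part, on the right half plane -/
lemma sqrt_cone {w : ℂ} (hw : 0 ≤ w.re) :
    0 ≤ (w ^ (1 / 2 : ℂ)).re ∧ |(w ^ (1 / 2 : ℂ)).im| ≤ (w ^ (1 / 2 : ℂ)).re := by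
  have hsq : (w ^ (1 / 2 : ℂ)) ^ 2 = w := by
    rw [← Complex.cpow_nat_mul]; norm_num
  have h0 : 0 ≤ (w ^ (1 / 2 : ℂ)).re := by
    by_cases h : w = 0
    · subst h; rw [Complex.zero_cpow (by norm_num)]; simp
    · rw [Complex.cpow_def_of_ne_zero h, Complex.exp_re]
      have h1 : (Complex.log w * (1 / 2)).im = Complex.arg w / 2 := by
        simp [Complex.mul_im, Complex.log_im]; ring
      rw [h1]
      apply mul_nonneg (Real.exp_pos _).le
      apply Real.cos_nonneg_of_mem_Icc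
      constructor
      · linarith [Complex.neg_pi_lt_arg w]
      · linarith [Complex.arg_le_pi w]
  refine ⟨h0, ?_⟩
  have h3 : ((w ^ (1 / 2 : ℂ)) ^ 2).re = (w ^ (1 / 2 : ℂ)).re ^ 2 - (w ^ (1 / 2 : ℂ)).im ^ 2 := by
    rw [pow_two, Complex.mul_re]; ring
  rw [hsq] at h3
  have h4 : (w ^ (1 / 2 : ℂ)).im ^ 2 ≤ (w ^ (1 / 2 : ℂ)).re ^ 2 := by linarith
  have h5 := sq_le_sq.mp h4
  rwa [abs_of_nonneg h0] at h5

/-- the angle -/
noncomputable def al (t : ℝ) : ℝ := Real.arccos (1 - 2 * t)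

noncomputable def ee (t : ℝ) : ℂ := Complex.exp (I * al t)

noncomputable def ee' (t : ℝ) : ℂ := Complex.exp (-(I * al t))

lemma ee_norm (t : ℝ) : ‖ee t‖ = 1 := by
  unfold ee; rw [mul_comm, Complex.norm_exp_ofReal_mul_I]

lemma ee'_norm (t : ℝ) : ‖ee' t‖ = 1 := by
  unfold ee'
  have : -(I * (al t : ℂ)) = ((-al t : ℝ) : ℂ) * I := by push_cast; ring
  rw [this, Complex.norm_exp_ofReal_mul_I]

lemma ee_mul (t : ℝ) : ee t * ee' t = 1 := by
  unfold ee ee'; rw [← Complex.exp_add]; simp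

lemma ee_add {t : ℝ} (h0 : 0 ≤ t) (h1 : t ≤ 1) : ee t + ee' t = 2 * (1 - 2 * t) := by
  have h : Real.cos (al t) = 1 - 2 * t := Real.cos_arccos (by linarith) (by linarith)
  have h2 : ((Real.cos (al t) : ℝ) : ℂ) = 1 - 2 * t := by rw [h]; push_cast; ring
  rw [Complex.ofReal_cos, Complex.cos] at h2
  unfold ee ee'
  rw [← h2, mul_comm I (al t : ℂ), neg_mul]
  ring

/-- the square root of `1 - 2 (1-2t) z + z^2`. -/
noncomputable def sg (t : ℝ) (z : ℂ) : ℂ :=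
  (1 - ee t * z) ^ (1 / 2 : ℂ) * (1 - ee' t * z) ^ (1 / 2 : ℂ)

lemma sg_sq {t : ℝ} (h0 : 0 ≤ t) (h1 : t ≤ 1) (z : ℂ) :
    sg t z ^ 2 = 1 - 2 * (1 - 2 * t) * z + z ^ 2 := by
  unfold sg
  rw [mul_pow, ← Complex.cpow_nat_mul, ← Complex.cpow_nat_mul]
  have e1 : ((2 : ℕ) : ℂ) * (1 / 2) = 1 := by norm_num
  rw [e1, Complex.cpow_one, Complex.cpow_one]
  linear_combination (-z) * ee_add h0 h1 + z ^ 2 * ee_mul t

lemma re_one_sub {e z : ℂ} (he : ‖e‖ = 1) (hz : ‖z‖ ≤ 1) : 0 ≤ (1 - e * z).re := by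
  have h1 := Complex.abs_re_le_norm (e * z)
  rw [norm_mul, he, one_mul] at h1
  have h2 := le_abs_self (e * z).re
  simp only [Complex.sub_re, Complex.one_re]
  linarith

lemma re_one_sub_pos {e z : ℂ} (he : ‖e‖ = 1) (hz : ‖z‖ < 1) : 0 < (1 - e * z).re := by
  have h1 := Complex.abs_re_le_norm (e * z)
  rw [norm_mul, he, one_mul] at h1
  have h2 := le_abs_self (e * z).re
  simp only [Complex.sub_re, Complex.one_re]
  linarith

lemma sg_re (t : ℝ) {z : ℂ} (hz : ‖z‖ ≤ 1) : 0 ≤ (sg t z).re := by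
  unfold sg
  have h1 := sqrt_cone (re_one_sub (ee_norm t) hz)
  have h2 := sqrt_cone (re_one_sub (ee'_norm t) hz)
  rw [Complex.mul_re]
  have h3 : |((1 - ee t * z) ^ (1 / 2 : ℂ)).im * ((1 - ee' t * z) ^ (1 / 2 : ℂ)).im| ≤
      ((1 - ee t * z) ^ (1 / 2 : ℂ)).re * ((1 - ee' t * z) ^ (1 / 2 : ℂ)).re := by
    rw [abs_mul]; exact mul_le_mul h1.2 h2.2 (abs_nonneg _) h1.1
  have h4 := le_abs_self (((1 - ee t * z) ^ (1 / 2 : ℂ)).im * ((1 - ee' t * z) ^ (1 / 2 : ℂ)).im)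
  linarith

lemma sg_contOn (t : ℝ) : ContinuousOn (sg t) (closedBall 0 1) := by
  intro z hz
  have hz' : ‖z‖ ≤ 1 := by simpa using hz
  apply ContinuousAt.continuousWithinAt
  unfold sg
  apply ContinuousAt.mul
  · have h := Complex.continuousAt_cpow_const_of_re_pos (z := 1 - ee t * z) (w := (1 / 2 : ℂ))
      (Or.inl (re_one_sub (ee_norm t) hz')) (by norm_num)
    exact ContinuousAt.comp (f := fun z : ℂ => 1 - ee t * z) h (by fun_prop)
  · have h := Complex.continuousAt_cpow_const_of_re_pos (z := 1 - ee' t * z) (w := (1 / 2 : ℂ))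
      (Or.inl (re_one_sub (ee'_norm t) hz')) (by norm_num)
    exact ContinuousAt.comp (f := fun z : ℂ => 1 - ee' t * z) h (by fun_prop)

lemma sg_diffAt (t : ℝ) {z : ℂ} (hz : ‖z‖ < 1) : DifferentiableAt ℂ (sg t) z := by
  unfold sg
  apply DifferentiableAt.mul
  · apply DifferentiableAt.cpow (by fun_prop) (by fun_prop)
    exact Or.inl (re_one_sub_pos (ee_norm t) hz)
  · apply DifferentiableAt.cpow (by fun_prop) (by fun_prop)
    exact Or.inl (re_one_sub_pos (ee'_norm t) hz)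

lemma sg_dcc (t : ℝ) : DiffContOnCl ℂ (sg t) (ball 0 1) := by
  constructor
  · intro z hz
    exact (sg_diffAt t (by simpa using hz)).differentiableWithinAt
  · rw [closure_ball _ (by norm_num)]
    exact sg_contOn t

lemma sg_zero (t : ℝ) : sg t 0 = 1 := by unfold sg; simp

/-- values on the boundary circle -/
lemma bd_one_sub (θ : ℝ) : 1 - Complex.exp (I * θ) =
    -2 * I * (Real.sin (θ / 2) : ℂ) * Complex.exp (I * (θ / 2 : ℝ)) := by
  have e1 : Complex.exp (I * θ) = Complex.exp (I * (θ / 2 : ℝ)) * Complex.exp (I * (θ / 2 : ℝ)) := by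
    rw [← Complex.exp_add]; congr 1; push_cast; ring
  have e2 : Complex.exp (I * (θ / 2 : ℝ)) * Complex.exp (-(I * (θ / 2 : ℝ))) = 1 := by
    rw [← Complex.exp_add]; simp
  have e3 : (Real.sin (θ / 2) : ℂ) = (Complex.exp (-(I * (θ / 2 : ℝ))) - Complex.exp (I * (θ / 2 : ℝ))) * I / 2 := by
    rw [Complex.ofReal_sin, Complex.sin]
    have : -((θ / 2 : ℝ) : ℂ) * I = -(I * (θ / 2 : ℝ)) := by ring
    rw [this, mul_comm ((θ / 2 : ℝ) : ℂ) I]
  rw [e1, e3]
  have hI : I * I = -1 := Complex.I_mul_I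
  linear_combination (-1 : ℂ) * e2 + (Complex.exp (-(I * (θ / 2 : ℝ))) - Complex.exp (I * (θ / 2 : ℝ))) *
    Complex.exp (I * (θ / 2 : ℝ)) * hI

lemma bd_one_add (θ : ℝ) : 1 + Complex.exp (I * θ) =
    2 * (Real.cos (θ / 2) : ℂ) * Complex.exp (I * (θ / 2 : ℝ)) := by
  have e1 : Complex.exp (I * θ) = Complex.exp (I * (θ / 2 : ℝ)) * Complex.exp (I * (θ / 2 : ℝ)) := by
    rw [← Complex.exp_add]; congr 1; push_cast; ring
  have e2 : Complex.exp (I * (θ / 2 : ℝ)) * Complex.exp (-(I * (θ / 2 : ℝ))) = 1 := by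
    rw [← Complex.exp_add]; simp
  have e3 : (Real.cos (θ / 2) : ℂ) = (Complex.exp (I * (θ / 2 : ℝ)) + Complex.exp (-(I * (θ / 2 : ℝ)))) / 2 := by
    rw [Complex.ofReal_cos, Complex.cos]
    have : -((θ / 2 : ℝ) : ℂ) * I = -(I * (θ / 2 : ℝ)) := by ring
    rw [this, mul_comm ((θ / 2 : ℝ) : ℂ) I]
  rw [e1, e3]
  linear_combination (-1 : ℂ) * e2

lemma bd_quad (c θ : ℝ) : 1 - 2 * (c : ℂ) * Complex.exp (I * θ) + Complex.exp (I * θ) ^ 2 =
    2 * ((Real.cos θ - c : ℝ) : ℂ) * Complex.exp (I * θ) := by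
  have e2 : Complex.exp (I * θ) * Complex.exp (-(I * θ)) = 1 := by
    rw [← Complex.exp_add]; simp
  have e3 : (Real.cos θ : ℂ) = (Complex.exp (I * θ) + Complex.exp (-(I * θ))) / 2 := by
    rw [Complex.ofReal_cos, Complex.cos]
    have : -(θ : ℂ) * I = -(I * θ) := by ring
    rw [this, mul_comm (θ : ℂ) I]
  push_cast
  rw [← Complex.ofReal_cos, e3]
  linear_combination (-1 : ℂ) * e2

lemma sg_bd_sq {t : ℝ} (h0 : 0 ≤ t) (h1 : t ≤ 1) (θ : ℝ) :
    sg t (Complex.exp (I * θ)) ^ 2 =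
      4 * ((t - Real.sin (θ / 2) ^ 2 : ℝ) : ℂ) * Complex.exp (I * (θ / 2 : ℝ)) ^ 2 := by
  have h := bd_quad (1 - 2 * t) θ
  rw [sg_sq h0 h1]
  push_cast at h ⊢
  rw [h]
  have e1 : Complex.exp (I * θ) = Complex.exp (I * (θ / 2)) ^ 2 := by
    rw [← Complex.exp_nat_mul]; congr 1; push_cast; ring
  have e2 : Complex.cos θ = 1 - 2 * Complex.sin (θ / 2) ^ 2 := by
    have h3 := Complex.cos_two_mul' (θ / 2 : ℂ)
    have h4 := Complex.sin_sq_add_cos_sq (θ / 2 : ℂ)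
    rw [show (2 : ℂ) * (θ / 2) = θ by ring] at h3
    rw [h3]
    linear_combination h4
  rw [← e1, e2]
  ring

lemma sg_bd_near {t : ℝ} (h0 : 0 < t) (h1 : t < 1) {θ : ℝ} (hv : Real.sin (θ / 2) ^ 2 ≤ t)
    (hc : 0 < Real.cos (θ / 2)) :
    sg t (Complex.exp (I * θ)) = 2 * (Real.sqrt (t - Real.sin (θ / 2) ^ 2) : ℂ) *
      Complex.exp (I * (θ / 2 : ℝ)) := by
  have hsq := sg_bd_sq h0.le h1.le θ
  set s := sg t (Complex.exp (I * θ))
  set x : ℂ := 2 * (Real.sqrt (t - Real.sin (θ / 2) ^ 2) : ℂ) * Complex.exp (I * (θ / 2 : ℝ)) with hx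
  have hx2 : x ^ 2 = 4 * ((t - Real.sin (θ / 2) ^ 2 : ℝ) : ℂ) * Complex.exp (I * (θ / 2 : ℝ)) ^ 2 := by
    rw [hx, mul_pow, mul_pow, ← Complex.ofReal_pow, Real.sq_sqrt (by linarith)]
    norm_num
  have hre : 0 ≤ s.re := sg_re t (by rw [mul_comm, Complex.norm_exp_ofReal_mul_I])
  have hxre : x.re = 2 * Real.sqrt (t - Real.sin (θ / 2) ^ 2) * Real.cos (θ / 2) := by
    rw [hx]
    have : 2 * (Real.sqrt (t - Real.sin (θ / 2) ^ 2) : ℂ) =
      ((2 * Real.sqrt (t - Real.sin (θ / 2) ^ 2) : ℝ) : ℂ) := by push_cast; ring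
    rw [this, Complex.re_ofReal_mul, Complex.exp_re]
    simp
  rw [← hx2] at hsq
  rcases sq_eq_sq_iff_eq_or_eq_neg.mp hsq with h | h
  · exact h
  · rw [h] at hre
    rw [Complex.neg_re, hxre] at hre
    have hs := Real.sqrt_nonneg (t - Real.sin (θ / 2) ^ 2)
    have h5 : Real.sqrt (t - Real.sin (θ / 2) ^ 2) = 0 := by
      by_contra h6
      have : 0 < Real.sqrt (t - Real.sin (θ / 2) ^ 2) := lt_of_le_of_ne hs (Ne.symm h6)
      have : 0 < 2 * Real.sqrt (t - Real.sin (θ / 2) ^ 2) * Real.cos (θ / 2) := by positivity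
      linarith
    rw [h, hx, h5]; simp

lemma sg_bd_near' {t : ℝ} (h0 : 0 < t) (h1 : t < 1) {θ : ℝ} (hv : Real.sin (θ / 2) ^ 2 ≤ t)
    (hc : Real.cos (θ / 2) < 0) :
    sg t (Complex.exp (I * θ)) = -(2 * (Real.sqrt (t - Real.sin (θ / 2) ^ 2) : ℂ) *
      Complex.exp (I * (θ / 2 : ℝ))) := by
  have hsq := sg_bd_sq h0.le h1.le θ
  set s := sg t (Complex.exp (I * θ))
  set x : ℂ := 2 * (Real.sqrt (t - Real.sin (θ / 2) ^ 2) : ℂ) * Complex.exp (I * (θ / 2 : ℝ)) with hx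
  have hx2 : x ^ 2 = 4 * ((t - Real.sin (θ / 2) ^ 2 : ℝ) : ℂ) * Complex.exp (I * (θ / 2 : ℝ)) ^ 2 := by
    rw [hx, mul_pow, mul_pow, ← Complex.ofReal_pow, Real.sq_sqrt (by linarith)]
    norm_num
  have hre : 0 ≤ s.re := sg_re t (by rw [mul_comm, Complex.norm_exp_ofReal_mul_I])
  have hxre : x.re = 2 * Real.sqrt (t - Real.sin (θ / 2) ^ 2) * Real.cos (θ / 2) := by
    rw [hx]
    have : 2 * (Real.sqrt (t - Real.sin (θ / 2) ^ 2) : ℂ) =
      ((2 * Real.sqrt (t - Real.sin (θ / 2) ^ 2) : ℝ) : ℂ) := by push_cast; ring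
    rw [this, Complex.re_ofReal_mul, Complex.exp_re]
    simp
  rw [← hx2] at hsq
  rcases sq_eq_sq_iff_eq_or_eq_neg.mp hsq with h | h
  · rw [h] at hre
    rw [hxre] at hre
    have hs := Real.sqrt_nonneg (t - Real.sin (θ / 2) ^ 2)
    have h5 : Real.sqrt (t - Real.sin (θ / 2) ^ 2) = 0 := by
      by_contra h6
      have : 0 < Real.sqrt (t - Real.sin (θ / 2) ^ 2) := lt_of_le_of_ne hs (Ne.symm h6)
      have : 0 < 2 * Real.sqrt (t - Real.sin (θ / 2) ^ 2) * (-Real.cos (θ / 2)) := by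
        have : 0 < -Real.cos (θ / 2) := by linarith
        positivity
      linarith
    rw [h, hx, h5]; simp
  · exact h

lemma sg_bd_far {t : ℝ} (h0 : 0 < t) (h1 : t < 1) {θ : ℝ} (hv : t ≤ Real.sin (θ / 2) ^ 2)
    (hs : 0 < Real.sin (θ / 2)) :
    sg t (Complex.exp (I * θ)) = -2 * I * (Real.sqrt (Real.sin (θ / 2) ^ 2 - t) : ℂ) *
      Complex.exp (I * (θ / 2 : ℝ)) := by
  have hsq := sg_bd_sq h0.le h1.le θ
  set s := sg t (Complex.exp (I * θ))
  set x : ℂ := -2 * I * (Real.sqrt (Real.sin (θ / 2) ^ 2 - t) : ℂ) * Complex.exp (I * (θ / 2 : ℝ)) with hx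
  have hx2 : x ^ 2 = 4 * ((t - Real.sin (θ / 2) ^ 2 : ℝ) : ℂ) * Complex.exp (I * (θ / 2 : ℝ)) ^ 2 := by
    rw [hx, mul_pow, mul_pow, mul_pow, ← Complex.ofReal_pow, Real.sq_sqrt (by linarith), Complex.I_sq]
    push_cast; ring
  have hre : 0 ≤ s.re := sg_re t (by rw [mul_comm, Complex.norm_exp_ofReal_mul_I])
  have hxre : x.re = 2 * Real.sqrt (Real.sin (θ / 2) ^ 2 - t) * Real.sin (θ / 2) := by
    rw [hx]
    have : -2 * I * (Real.sqrt (Real.sin (θ / 2) ^ 2 - t) : ℂ) * Complex.exp (I * (θ / 2 : ℝ)) =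
      ((2 * Real.sqrt (Real.sin (θ / 2) ^ 2 - t) : ℝ) : ℂ) * (-I * Complex.exp (I * (θ / 2 : ℝ))) := by
      push_cast; ring
    rw [this, Complex.re_ofReal_mul]
    congr 1
    rw [Complex.mul_re, Complex.exp_im]
    simp
  rw [← hx2] at hsq
  rcases sq_eq_sq_iff_eq_or_eq_neg.mp hsq with h | h
  · exact h
  · rw [h] at hre
    rw [Complex.neg_re, hxre] at hre
    have hs' := Real.sqrt_nonneg (Real.sin (θ / 2) ^ 2 - t)
    have h5 : Real.sqrt (Real.sin (θ / 2) ^ 2 - t) = 0 := by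
      by_contra h6
      have : 0 < Real.sqrt (Real.sin (θ / 2) ^ 2 - t) := lt_of_le_of_ne hs' (Ne.symm h6)
      have : 0 < 2 * Real.sqrt (Real.sin (θ / 2) ^ 2 - t) * Real.sin (θ / 2) := by positivity
      linarith
    rw [h, hx, h5]; simp


end SigAux

theorem A0_branch {a : ℝ} (h1 : -1 < a) (h2 : a < 1) : ∃ s : ℂ → ℂ, Br a s := by
  set t : ℝ := (1 - a) / 2 with ht
  have h0t : 0 < t := by rw [ht]; linarith
  have ht1 : t < 1 := by rw [ht]; linarith
  have hta : 1 - 2 * (t : ℂ) = (a : ℂ) := by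
    rw [ht]; push_cast; ring
  have hcos : ∀ θ : ℝ, Real.cos θ = 1 - 2 * Real.sin (θ / 2) ^ 2 := by
    intro θ
    have h3 := Real.cos_two_mul (θ / 2)
    have h4 := Real.sin_sq_add_cos_sq (θ / 2)
    rw [show 2 * (θ / 2) = θ by ring] at h3
    linarith
  refine ⟨SigAux.sg t, ⟨SigAux.sg_dcc t, ?_, SigAux.sg_zero t, fun z hz => SigAux.sg_re t hz, ?_, ?_, ?_⟩⟩
  · intro z
    rw [SigAux.sg_sq h0t.le ht1.le, hta]
  · intro θ hθ hac
    have hc := hcos θ
    have hv : Real.sin (θ / 2) ^ 2 ≤ t := by rw [ht]; linarith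
    have hθπ : θ < Real.pi := by
      rcases hθ.2.eq_or_lt with h | h
      · rw [h, Real.cos_pi] at hac; linarith
      · exact h
    have hcp : 0 < Real.cos (θ / 2) := by
      apply Real.cos_pos_of_mem_Ioo
      constructor
      · linarith [hθ.1, Real.pi_pos]
      · linarith
    rw [SigAux.sg_bd_near h0t ht1 hv hcp]
    have e : Real.sqrt (2 * (Real.cos θ - a)) = 2 * Real.sqrt (t - Real.sin (θ / 2) ^ 2) := by
      have e1 : 2 * (Real.cos θ - a) = 2 ^ 2 * (t - Real.sin (θ / 2) ^ 2) := by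
        rw [ht]; linarith
      rw [e1, Real.sqrt_mul (by norm_num), Real.sqrt_sq (by norm_num)]
    rw [e]
    push_cast
    ring
  · intro θ hθ hac
    have hc := hcos θ
    have hv : t ≤ Real.sin (θ / 2) ^ 2 := by rw [ht]; linarith
    have hθ0 : 0 < θ := by
      rcases hθ.1.eq_or_lt with h | h
      · rw [← h, Real.cos_zero] at hac; linarith
      · exact h
    have hsp : 0 < Real.sin (θ / 2) := by
      apply Real.sin_pos_of_pos_of_lt_pi (by linarith)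
      linarith [hθ.2, Real.pi_pos]
    rw [SigAux.sg_bd_far h0t ht1 hv hsp]
    have e : Real.sqrt (2 * (a - Real.cos θ)) = 2 * Real.sqrt (Real.sin (θ / 2) ^ 2 - t) := by
      have e1 : 2 * (a - Real.cos θ) = 2 ^ 2 * (Real.sin (θ / 2) ^ 2 - t) := by
        rw [ht]; linarith
      rw [e1, Real.sqrt_mul (by norm_num), Real.sqrt_sq (by norm_num)]
    rw [e]
    push_cast
    ring
  · intro z hz
    have hee : starRingEnd ℂ (SigAux.ee t) = SigAux.ee' t := by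
      unfold SigAux.ee SigAux.ee'
      rw [← Complex.exp_conj]
      congr 1
      simp
    have hee' : starRingEnd ℂ (SigAux.ee' t) = SigAux.ee t := by
      rw [← hee, Complex.conj_conj]
    have harg : ∀ w : ℂ, 0 < w.re → w.arg ≠ Real.pi := by
      intro w hw h
      rw [Complex.arg_eq_pi_iff] at h
      linarith [h.1]
    have hhalf : starRingEnd ℂ (1 / 2 : ℂ) = 1 / 2 := by
      have e0 : (1 / 2 : ℂ) = ((1 / 2 : ℝ) : ℂ) := by push_cast; ring
      rw [e0, Complex.conj_ofReal]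
    unfold SigAux.sg
    rw [map_mul]
    have k1 : (1 - SigAux.ee t * (starRingEnd ℂ z)) ^ (1 / 2 : ℂ) =
        starRingEnd ℂ ((1 - SigAux.ee' t * z) ^ (1 / 2 : ℂ)) := by
      have e1 : 1 - SigAux.ee t * (starRingEnd ℂ z) = starRingEnd ℂ (1 - SigAux.ee' t * z) := by
        rw [map_sub, map_mul, hee', map_one]
      rw [e1, Complex.conj_cpow _ _ (harg _ (SigAux.re_one_sub_pos (SigAux.ee'_norm t) hz)), hhalf]
    have k2 : (1 - SigAux.ee' t * (starRingEnd ℂ z)) ^ (1 / 2 : ℂ) =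
        starRingEnd ℂ ((1 - SigAux.ee t * z) ^ (1 / 2 : ℂ)) := by
      have e1 : 1 - SigAux.ee' t * (starRingEnd ℂ z) = starRingEnd ℂ (1 - SigAux.ee t * z) := by
        rw [map_sub, map_mul, hee, map_one]
      rw [e1, Complex.conj_cpow _ _ (harg _ (SigAux.re_one_sub_pos (SigAux.ee_norm t) hz)), hhalf]
    rw [k1, k2, mul_comm]

end A0M
end Pool.Agent.Helper974.Star
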