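import Mathlib
import Pool.Agent.Helper974.Star.Defs
set_option autoImplicit false
open Filter Topology Metric Set MeasureTheory
namespace Pool.Agent.Helper974.Star
namespace B1M

namespace B1Aux

/-- the linear map -/
noncomputable def A (ψ : ℝ) : ℝ × ℝ →L[ℝ] ℝ :=
  ((1 + Real.cos ψ) / 2) • ContinuousLinearMap.fst ℝ ℝ ℝ +
    ((1 - Real.cos ψ) / 2) • ContinuousLinearMap.snd ℝ ℝ ℝ

theorem A_apply (ψ : ℝ) (p : ℝ × ℝ) : A ψ p = U p.1 p.2 ψ := by
  simp only [A, U, ContinuousLinearMap.add_apply, ContinuousLinearMap.smul_apply,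
    ContinuousLinearMap.coe_fst', ContinuousLinearMap.coe_snd', smul_eq_mul]
  ring

theorem norm_A (ψ : ℝ) : ‖A ψ‖ ≤ 2 := by
  unfold A
  have h1 := Real.neg_one_le_cos ψ
  have h2 := Real.cos_le_one ψ
  refine (norm_add_le _ _).trans ?_
  rw [norm_smul, norm_smul, Real.norm_eq_abs, Real.norm_eq_abs, abs_of_nonneg (by linarith),
    abs_of_nonneg (by linarith)]
  have e1 := ContinuousLinearMap.norm_fst_le ℝ ℝ ℝ
  have e2 := ContinuousLinearMap.norm_snd_le ℝ ℝ ℝ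
  have e3 : (1 + Real.cos ψ) / 2 * ‖ContinuousLinearMap.fst ℝ ℝ ℝ‖ ≤ 1 * 1 :=
    mul_le_mul (by linarith) e1 (norm_nonneg _) (by norm_num)
  have e4 : (1 - Real.cos ψ) / 2 * ‖ContinuousLinearMap.snd ℝ ℝ ℝ‖ ≤ 1 * 1 :=
    mul_le_mul (by linarith) e2 (norm_nonneg _) (by norm_num)
  linarith

theorem U_mem {l m x y : ℝ} (hx : x ∈ Icc l m) (hy : y ∈ Icc l m) (ψ : ℝ) :
    U x y ψ ∈ Icc l m := by
  obtain ⟨x1, x2⟩ := hx
  obtain ⟨y1, y2⟩ := hy
  have h1 := Real.neg_one_le_cos ψ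
  have h2 := Real.cos_le_one ψ
  have e : U x y ψ = x * ((1 + Real.cos ψ) / 2) + y * ((1 - Real.cos ψ) / 2) := by
    unfold U; ring
  have a1 : 0 ≤ (1 + Real.cos ψ) / 2 := by linarith
  have a2 : 0 ≤ (1 - Real.cos ψ) / 2 := by linarith
  rw [e]
  constructor
  · have b1 := mul_le_mul_of_nonneg_right x1 a1
    have b2 := mul_le_mul_of_nonneg_right y1 a2
    linarith
  · have b1 := mul_le_mul_of_nonneg_right x2 a1
    have b2 := mul_le_mul_of_nonneg_right y2 a2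
    linarith

theorem continuous_U (a b : ℝ) : Continuous (U a b) := by
  unfold U
  fun_prop

end B1Aux

theorem B1_deriv {Φ Φ' : ℝ → ℝ} (hΦ : ∀ u ∈ Ioo (-1 : ℝ) 1, HasDerivAt Φ (Φ' u) u)
    (hc : ContinuousOn Φ' (Ioo (-1 : ℝ) 1)) {a b : ℝ} (hb : -1 < b) (hba : b < a) (ha : a < 1) :
    HasFDerivAt (fun p : ℝ × ℝ => ∫ ψ in (0 : ℝ)..Real.pi, Φ (U p.1 p.2 ψ))
      ((∫ ψ in (0 : ℝ)..Real.pi, Φ' (U a b ψ) * ((1 + Real.cos ψ) / 2)) • ContinuousLinearMap.fst ℝ ℝ ℝ +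
       (∫ ψ in (0 : ℝ)..Real.pi, Φ' (U a b ψ) * ((1 - Real.cos ψ) / 2)) • ContinuousLinearMap.snd ℝ ℝ ℝ) (a, b) := by
  set l : ℝ := (b - 1) / 2 with hl
  set m : ℝ := (a + 1) / 2 with hm
  have hl1 : -1 < l := by rw [hl]; linarith
  have hm1 : m < 1 := by rw [hm]; linarith
  have hsub : Icc l m ⊆ Ioo (-1 : ℝ) 1 := fun x hx => ⟨hl1.trans_le hx.1, hx.2.trans_lt hm1⟩
  obtain ⟨C, hC⟩ := isCompact_Icc.exists_bound_of_continuousOn (hc.mono hsub)
  have hab : (a, b) ∈ Ioo l m ×ˢ Ioo l m := by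
    simp only [mem_prod, mem_Ioo]
    refine ⟨⟨?_, ?_⟩, ?_, ?_⟩ <;> linarith [hl, hm]
  have hs : Ioo l m ×ˢ Ioo l m ∈ 𝓝 ((a, b) : ℝ × ℝ) :=
    (isOpen_Ioo.prod isOpen_Ioo).mem_nhds hab
  have hmem : ∀ p ∈ Ioo l m ×ˢ Ioo l m, ∀ ψ, U p.1 p.2 ψ ∈ Icc l m := by
    intro p hp ψ
    exact B1Aux.U_mem (Ioo_subset_Icc_self hp.1) (Ioo_subset_Icc_self hp.2) ψ
  have hcontΦ : ContinuousOn Φ (Ioo (-1 : ℝ) 1) := fun u hu =>
    (hΦ u hu).continuousAt.continuousWithinAt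
  have hcF : ∀ p ∈ Ioo l m ×ˢ Ioo l m, Continuous fun ψ => Φ (U p.1 p.2 ψ) := by
    intro p hp
    exact hcontΦ.comp_continuous (B1Aux.continuous_U _ _) (fun ψ => hsub (hmem p hp ψ))
  have hcF' : Continuous fun ψ => Φ' (U a b ψ) :=
    hc.comp_continuous (B1Aux.continuous_U _ _) (fun ψ => hsub (hmem (a, b) hab ψ))
  have hA : Continuous B1Aux.A := by
    unfold B1Aux.A
    fun_prop
  have key := intervalIntegral.hasFDerivAt_integral_of_dominated_of_fderiv_le (𝕜 := ℝ)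
    (μ := volume) (a := 0) (b := Real.pi) (s := Ioo l m ×ˢ Ioo l m) (bound := fun _ => |C| * 2)
    (F := fun (p : ℝ × ℝ) ψ => Φ (U p.1 p.2 ψ))
    (F' := fun (p : ℝ × ℝ) ψ => Φ' (U p.1 p.2 ψ) • B1Aux.A ψ) (x₀ := (a, b)) hs
    (Filter.eventually_of_mem hs fun p hp => (hcF p hp).aestronglyMeasurable)
    ((hcF (a, b) hab).intervalIntegrable _ _)
    ((hcF'.smul hA).aestronglyMeasurable)
    (Filter.Eventually.of_forall fun ψ _ p hp => by
      rw [norm_smul]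
      exact mul_le_mul ((hC _ (hmem p hp ψ)).trans (le_abs_self C)) (B1Aux.norm_A ψ)
        (norm_nonneg _) (abs_nonneg _))
    intervalIntegrable_const
    (Filter.Eventually.of_forall fun ψ _ p hp => by
      have h1 : HasFDerivAt (fun q : ℝ × ℝ => U q.1 q.2 ψ) (B1Aux.A ψ) p := by
        have := (B1Aux.A ψ).hasFDerivAt (x := p)
        refine this.congr_of_eventuallyEq (Filter.Eventually.of_forall fun q => ?_)
        exact (B1Aux.A_apply ψ q).symm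
      exact (hΦ _ (hsub (hmem p hp ψ))).comp_hasFDerivAt p h1)
  have e : ∫ ψ in (0 : ℝ)..Real.pi, Φ' (U a b ψ) • B1Aux.A ψ =
      (∫ ψ in (0 : ℝ)..Real.pi, Φ' (U a b ψ) * ((1 + Real.cos ψ) / 2)) •
        ContinuousLinearMap.fst ℝ ℝ ℝ +
      (∫ ψ in (0 : ℝ)..Real.pi, Φ' (U a b ψ) * ((1 - Real.cos ψ) / 2)) •
        ContinuousLinearMap.snd ℝ ℝ ℝ := by
    have h1 : ∀ ψ, Φ' (U a b ψ) • B1Aux.A ψ =
        (Φ' (U a b ψ) * ((1 + Real.cos ψ) / 2)) • ContinuousLinearMap.fst ℝ ℝ ℝ +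
        (Φ' (U a b ψ) * ((1 - Real.cos ψ) / 2)) • ContinuousLinearMap.snd ℝ ℝ ℝ := by
      intro ψ
      unfold B1Aux.A
      rw [smul_add, smul_smul, smul_smul]
    simp_rw [h1]
    rw [intervalIntegral.integral_add, intervalIntegral.integral_smul_const,
      intervalIntegral.integral_smul_const]
    · apply Continuous.intervalIntegrable
      exact (hcF'.mul (by fun_prop)).smul continuous_const
    · apply Continuous.intervalIntegrable
      exact (hcF'.mul (by fun_prop)).smul continuous_const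
  rw [← e]
  exact key

end B1M
end Pool.Agent.Helper974.Star
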