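import Mathlib
import Pool.Agent.Helper974.Star.FinalMain
import Pool.Agent.Helper974.StarQ.StarH

set_option autoImplicit false

namespace Pool.Agent.Helper974.Star3

open Metric Set

/-- The third coefficient of bounded starlike functions: `A₃(M)` for every `M > 1`, in three regimes
separated by `Mb` and `M1`, where `e < Mb < M1 < 3.3`. -/
theorem main : ∃ Mb M1 : ℝ, Real.exp 1 < Mb ∧ Mb < M1 ∧ M1 < 33 / 10 ∧
      (∀ M : ℝ, 1 < M → (M = Mb ↔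
        (∫ ψ in (0 : ℝ)..Real.pi, Real.sqrt (1 - (1 - 1 / M ^ 2) * Real.cos ψ ^ 2)) =
          (1 / M) * (Real.sqrt (1 - 1 / M ^ 2) + 1 / M) *
            ∫ ψ in (0 : ℝ)..Real.pi, 1 / Real.sqrt (1 - (1 - 1 / M ^ 2) * Real.cos ψ ^ 2))) ∧
      (∀ M : ℝ, 1 < M → (M = M1 ↔
        (2 * M - 3) * Real.sqrt (1 - 1 / M) = (4 - 5 / M) * Real.log (Real.sqrt M + Real.sqrt (M - 1)))) ∧
      (∀ M : ℝ, 1 < M → M ≤ Mb →
        IsGreatest ((fun f => ‖coeff3 f‖) '' StarClass M) (1 - 1 / M ^ 2) ∧ A3 M = 1 - 1 / M ^ 2) ∧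
      (∀ M : ℝ, Mb < M → M < M1 → ∃ a b : ℝ, IsParam M a b ∧
        (∀ a' b' : ℝ, IsParam M a' b' → a' = a ∧ b' = b) ∧
        IsGreatest ((fun f => ‖coeff3 f‖) '' StarClass M) (value a b) ∧ A3 M = value a b) ∧
      (∀ M : ℝ, M1 ≤ M →
        IsGreatest ((fun f => ‖coeff3 f‖) '' StarClass M) (3 - 8 / M + 5 / M ^ 2) ∧
          A3 M = 3 - 8 / M + 5 / M ^ 2) := by
  obtain ⟨kb, t1, h1, h2, h3, h4, h5, h6, h7, h8, h9, h10, h11, h12, h13, h14, h15⟩ :=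
    Pool.Agent.Helper974.StarQ.Star.inputs
  exact main_of h1 h2 h3 h4 h5 h6 h7 h8 h9 h10 h11 h12 h13 h14 h15

end Pool.Agent.Helper974.Star3
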